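import Pool.Agent.H90Q.Stm

/-!
# Project H90Q, piece AVG (helper21): averaging over the classes
-/

set_option autoImplicit false

namespace Pool.Agent.H90Q

open Pool.Agent.Y716.Q

theorem avg_mem'_neg {ι : Type} (f g k : MvPolynomial ι ℤ) {S J Q : ℕ} (hQ : S * J = Q) :
    mem' (f - k) S J (-g) = (f - MvPolynomial.C (Q : ℤ) * g) - k := by
  unfold mem'
  rw [hQ]
  ring

theorem avg_shift {ι : Type} [Fintype ι] {e b w : ℕ} {γ η h Cf : ℝ} {Q N : ℕ} {c : ι → ℤ}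
    {cω : ℤ} {ζ : ι → ℝ} {s δ : ℝ}
    {f g : MvPolynomial ι ℤ} (hQ : 1 ≤ Q) (h' : GoodC b w γ h Q N c cω ζ s δ f) (hh : 0 ≤ h)
    (hη : 0 ≤ η) (hη1 : η ≤ 1)
    (hCf : ∀ (f : MvPolynomial ι ℤ) (R : ℝ), IsF (e + 1) R f →
      ∀ x : ι → ℝ, (∀ i, |x i| ≤ 1) → |MvPolynomial.aeval x f| ≤ Cf * R)
    (hηC : Cf * (e + 2) * η ≤ γ) (hf : IsF (e + 2) (h ^ b) f)
    (hg : IsF (e + 2) (η * h ^ b / Q) g) :
    ClassC e b w γ η h Q N c cω ζ s δ (f - MvPolynomial.C (Q : ℤ) * g) := by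
  have hH : 0 ≤ h ^ b := pow_nonneg hh b
  obtain ⟨S, J, xc, v, ωc, ξ, t, i₀, h1, h2, h3, h4, h4', h5, h6, h7, h7', h8, h9⟩ := h'
  obtain ⟨v', hv'⟩ := h1.shift (-g)
  rw [avg_mem'_neg f g _ h2] at hv'
  have hQr : (0:ℝ) < Q := by exact_mod_cast hQ
  have hQA : |((Q : ℤ) : ℝ)| * (η * h ^ b / Q) = η * h ^ b := by
    rw [Int.cast_natCast, abs_of_pos hQr]
    field_simp
  have hQg : IsF (e + 2) (η * h ^ b) (MvPolynomial.C (Q : ℤ) * g) := by
    have := hg.C_mul (Q : ℤ)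
    rwa [hQA] at this
  have hηH : η * h ^ b ≤ h ^ b := mul_le_of_le_one_left hH hη1
  refine ⟨S, J, xc, v', ωc, ξ, t, i₀, hv', h2, h3, h4, h4', h7, h7', ?_⟩
  refine ⟨(hf.sub hQg).mono (by linarith), h6, h5, ?_, ?_⟩
  · have e1 : MvPolynomial.aeval ξ (f - MvPolynomial.C (Q : ℤ) * g) - (h * t) ^ b =
        -MvPolynomial.aeval ξ (MvPolynomial.C (Q : ℤ) * g) := by
      rw [map_sub, h8]
      ring
    rw [e1, abs_neg]
    exact hQg.aeval_le_one h6
  · rw [map_sub, map_sub]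
    have h10 := hCf _ _ (hQg.pderiv i₀) ξ h6
    have h11 := abs_sub_abs_le_abs_sub (MvPolynomial.aeval ξ (MvPolynomial.pderiv i₀ f))
      (MvPolynomial.aeval ξ (MvPolynomial.pderiv i₀ (MvPolynomial.C (Q : ℤ) * g)))
    have h12 : Cf * (((e + 1 : ℕ) : ℝ) + 1) * (η * h ^ b) ≤ γ * h ^ b := by
      have := mul_le_mul_of_nonneg_right hηC hH
      push_cast
      linarith
    push_cast at h10 h12
    linarith

theorem t_AVG (ι : Type) [Fintype ι] : S_AVG ι := by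
  classical
  intro e b w γ η h Cf Q N c cω ζ s δ hQ hh hη hη1 hCf hηC q ε hε hcl
  have hH : 0 ≤ h ^ b := pow_nonneg hh b
  obtain ⟨G', hG'⟩ : ∃ G', G' = formsZ ι (e + 2) (η * h ^ b / Q) := ⟨_, rfl⟩
  rw [← hG'] at hcl
  have hQr : (0:ℝ) < Q := by exact_mod_cast hQ
  have hA0 : 0 ≤ η * h ^ b / Q := by positivity
  have hG0 : (0:ℝ) < G'.card := by
    rw [hG']; exact_mod_cast card_forms_pos (ι := ι) (e + 2) hA0
  have h1 : ((formsZ ι (e + 2) (h ^ b)).filter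
      (fun f => GoodC b w γ h Q N c cω ζ s δ f ∧ q f)).card * G'.card ≤
      ∑ f ∈ (formsZ ι (e + 2) (2 * h ^ b)).filter
        (fun f => ClassC e b w γ η h Q N c cω ζ s δ f),
        (G'.filter (fun g => q (f + MvPolynomial.C (Q : ℤ) * g))).card := by
    rw [← Finset.card_product, ← Finset.card_sigma]
    apply Finset.card_le_card_of_injOn
      (fun r => (⟨r.1 - MvPolynomial.C (Q : ℤ) * r.2, r.2⟩ :
        (_ : MvPolynomial ι ℤ) × MvPolynomial ι ℤ))
    · rintro ⟨f, g⟩ hr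
      simp only [Finset.coe_product, Set.mem_prod, Finset.mem_coe, Finset.mem_filter] at hr
      obtain ⟨⟨h1, h2, h3⟩, h4⟩ := hr
      simp only [Finset.mem_coe, Finset.mem_sigma, Finset.mem_filter]
      have hg : IsF (e + 2) (η * h ^ b / Q) g := by rw [hG'] at h4; exact mem_formsZ.mp h4
      have hcd := avg_shift hQ h2 hh hη hη1 hCf hηC (mem_formsZ.mp h1) hg
      refine ⟨⟨mem_formsZ.mpr ?_, hcd⟩, h4, ?_⟩
      · obtain ⟨S, J, xc, v, ωc, ξ, t, i₀, _, _, _, _, _, _, _, h⟩ := hcd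
        exact h.hform
      · have : f - MvPolynomial.C (Q : ℤ) * g + MvPolynomial.C (Q : ℤ) * g = f := by ring
        rw [this]
        exact h3
    · rintro ⟨f, g⟩ _ ⟨f', g'⟩ _ heq
      simp only [Sigma.mk.injEq] at heq
      obtain ⟨h1, h2⟩ := heq
      have h2' : g = g' := eq_of_heq h2
      subst h2'
      have : f = f' := sub_left_injective h1
      rw [this]
  have h2 : (((formsZ ι (e + 2) (h ^ b)).filter
      (fun f => GoodC b w γ h Q N c cω ζ s δ f ∧ q f)).card : ℝ) *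
      G'.card ≤ (ε * (formsZ ι (e + 2) (2 * h ^ b)).card) * G'.card := by
    have h3 := (Nat.cast_le (α := ℝ)).mpr h1
    push_cast at h3
    refine h3.trans ?_
    calc _ ≤ ((formsZ ι (e + 2) (2 * h ^ b)).filter
            (fun f => ClassC e b w γ η h Q N c cω ζ s δ f)).card • (ε * (G'.card : ℝ)) :=
          Finset.sum_le_card_nsmul _ _ _ (fun f hf => hcl f (Finset.mem_filter.mp hf).2)
      _ = (((formsZ ι (e + 2) (2 * h ^ b)).filter
            (fun f => ClassC e b w γ η h Q N c cω ζ s δ f)).card : ℝ) * (ε * (G'.card : ℝ)) := by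
          rw [nsmul_eq_mul]
      _ ≤ ((formsZ ι (e + 2) (2 * h ^ b)).card : ℝ) * (ε * (G'.card : ℝ)) := by
          apply mul_le_mul_of_nonneg_right _ (by positivity)
          exact_mod_cast Finset.card_filter_le _ _
      _ = _ := by ring
  exact le_of_mul_le_mul_right h2 hG0

end Pool.Agent.H90Q
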