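import Pool.Agent.H90Q.Stm

/-!
# Project H90Q, piece CO2: the final assembly of the class theorem for covers
-/

namespace Pool.Agent.H90Q

open Pool.Agent.Y716.Q

theorem CO2_t2 {k M : ℕ} {e l : ℕ} {Ct G G₃ P A Y ε c₀ cW E2 X Wc : ℝ} (hCt : 0 < Ct) (hG : 0 < G)
    (hG₃ : G₃ ≤ 3 ^ M * G) (hP : 1 ≤ P) (hA : 0 < A) (hε : 0 < ε)
    (hc₀ : 0 < c₀) (hcW : 0 < cW)
    (hTs : 16 * Ct * 3 ^ M * 6 ^ k / (ε * c₀ ^ 2 * cW) ≤ Y) (hX : X ≤ (6 * P) ^ k) (hX0 : 0 ≤ X)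
    (hAP : A * Y ≤ P) (hek : e + 3 ≤ k + l) (hW : cW * P ^ l ≤ Wc) (hE0 : 0 ≤ E2)
    (hE : c₀ ^ 2 / 4 * (P ^ (2 * k) / (A ^ 2 * P ^ (2 * e + 4))) ≤ E2) :
    Ct * G₃ * X / (A * (2 * P) ^ (e + 2)) ≤ ε / 4 * (Wc * E2 * G) := by
  have hP0 : 0 < P := by linarith
  have h0 : cW * P ^ l * (c₀ ^ 2 / 4 * (P ^ (2 * k) / (A ^ 2 * P ^ (2 * e + 4)))) ≤ Wc * E2 :=
    mul_le_mul hW hE (by positivity) ((by positivity : 0 ≤ cW * P ^ l).trans hW)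
  have h1 := mul_le_mul_of_nonneg_right h0 (by positivity : 0 ≤ ε / 4 * G)
  have h2 : ε / 4 * (Wc * E2 * G) = Wc * E2 * (ε / 4 * G) := by ring
  rw [h2]
  refine le_trans ?_ h1
  have h3 : Ct * G₃ * X / (A * (2 * P) ^ (e + 2)) ≤
      Ct * (3 ^ M * G) * (6 * P) ^ k / (A * P ^ (e + 2)) := by
    apply div_le_div₀ (by positivity) _ (by positivity) _
    · exact mul_le_mul (mul_le_mul_of_nonneg_left hG₃ hCt.le) hX hX0 (by positivity)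
    · apply mul_le_mul_of_nonneg_left _ hA.le
      exact pow_le_pow_left₀ hP0.le (by linarith) _
  refine h3.trans ?_
  rw [div_le_iff₀ (by positivity)] at hTs
  rw [mul_pow, div_le_iff₀ (by positivity)]
  obtain ⟨n, hn⟩ : ∃ n, k + l = n + (e + 3) := ⟨k + l - (e + 3), by omega⟩
  have h4 : cW * P ^ l * (c₀ ^ 2 / 4 * (P ^ (2 * k) / (A ^ 2 * P ^ (2 * e + 4)))) * (ε / 4 * G) *
      (A * P ^ (e + 2)) = (ε * c₀ ^ 2 * cW * G / 16) * (P ^ k * P ^ n) * (P / A) := by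
    have h5 : P ^ l * P ^ (2 * k) = P ^ k * P ^ n * P * P ^ (e + 2) := by
      calc P ^ l * P ^ (2 * k) = P ^ k * P ^ (k + l) := by
            rw [← pow_add, ← pow_add]; congr 1; ring
        _ = P ^ k * P ^ n * P * P ^ (e + 2) := by
            rw [hn, pow_add, show e + 3 = (e + 2) + 1 by ring, pow_succ P (e + 2)]; ring
    rw [show 2 * e + 4 = (e + 2) + (e + 2) by ring, pow_add P (e + 2) (e + 2)]
    calc cW * P ^ l * (c₀ ^ 2 / 4 * (P ^ (2 * k) / (A ^ 2 * (P ^ (e + 2) * P ^ (e + 2))))) *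
          (ε / 4 * G) * (A * P ^ (e + 2)) =
          (P ^ l * P ^ (2 * k)) * (cW * (c₀ ^ 2 / 4 * (1 / (A ^ 2 * (P ^ (e + 2) * P ^ (e + 2))))) *
          (ε / 4 * G) * (A * P ^ (e + 2))) := by ring
      _ = _ := by
        rw [h5]
        field_simp
        ring
  rw [h4]
  have h5 : Y ≤ P / A := by rw [le_div_iff₀ hA]; linarith
  have h6 := mul_le_mul_of_nonneg_left h5 (by positivity :
    0 ≤ (ε * c₀ ^ 2 * cW * G / 16) * (P ^ k * P ^ n))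
  refine le_trans ?_ h6
  have h7 := mul_le_mul_of_nonneg_right hTs (by positivity : 0 ≤ G * P ^ k * P ^ n / 16)
  have h8 : 1 ≤ P ^ n := one_le_pow₀ hP
  have h9 : Ct * (3 ^ M * G) * (6 ^ k * P ^ k) ≤
      Ct * (3 ^ M * G) * (6 ^ k * P ^ k) * P ^ n :=
    le_mul_of_one_le_right (by positivity) h8
  refine h9.trans (le_trans (le_of_eq ?_) (h7.trans (le_of_eq ?_)))
  · ring
  · ring

theorem CO2_split {ι : Type} [Fintype ι] (X : Finset (ι → ℤ)) (f : (ι → ℤ) × (ι → ℤ) → ℝ) :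
    ∑ p ∈ X ×ˢ X, f p = ∑ p ∈ npPairs X, f p + ∑ p ∈ prPairs X, f p := by
  classical
  have h1 : prPairs X = (X ×ˢ X).filter (fun p => ¬ ∃ i j, mn p.1 p.2 i j ≠ 0) := by
    unfold prPairs
    ext p
    simp only [Finset.mem_filter]
    push Not
    rfl
  have h2 : npPairs X = (X ×ˢ X).filter (fun p => ∃ i j, mn p.1 p.2 i j ≠ 0) := by
    unfold npPairs
    ext p
    simp only [Finset.mem_filter]
  rw [h1, h2]
  exact (Finset.sum_filter_add_sum_filter_not _ _ _).symm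

open scoped Classical in
theorem t_CO2 (ι : Type) [Fintype ι] (hDG : S_DG ι) (hCB : S_CB ι) : CoreC2 ι := by
  intro k hk hk4 e l he M hM c c' Ct Cu hc hc' hc0 hCt0 hCu0 hCt hCu ε τ τ₂ T cR c₀ cW hε hτ0 hτ1
    hb1 hb0 hτF w hw1 hwτ hT1 hc₀0 hTs N hNT K hK hK0 hcR0 hcW0 N' hN'1 hN'r Y A P y1 y2 y8 y9
    hPdef W F S J xc v ξ i₀ ρ ρ' σ D₀ Δ₀ hP hS hJ hWc hdist hρ0 hρρ' hρ'2 hξ hξr hσ hD₀0 hmemS
    Δ Δ₁ X₁ X₂ R hΔ₁ hΔ₁ρ hX₁ hX₂ hX₁K hX₂K hRdef hR0 hRlow hϱlow hA0 hP0 hP1 hAP m a hm1 hm2 hm3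
    ha ha1 haB u hu hΔ0 hΔ₁0 hKNΔτ hKNΔ h1Δτ hA₂ hA' haA haA2 hLg hτ₂0 hτ₂1 G hG hG0 hG₂ hG'
    hG3A hG2A
  have hkι : 1 ≤ Fintype.card ι := by omega
  have hKr : (1:ℝ) ≤ K := by exact_mod_cast hK0
  have hN'0 : (0:ℝ) ≤ N' := Nat.cast_nonneg _
  have hKN0 : (0:ℝ) ≤ K * N := by positivity
  have hN1 : 1 ≤ N := by
    have : (1:ℝ) ≤ N := by linarith
    exact_mod_cast this
  have hKDle : ∀ D : ℕ, D ≤ N → ((K * D : ℕ) : ℝ) ≤ K * N := by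
    intro D hD
    push_cast
    apply mul_le_mul_of_nonneg_left _ (by linarith)
    exact_mod_cast hD
  have hKD₁ : ∀ D : ℕ, D ≤ N → ((K * D : ℕ) : ℝ) ≤ τ * X₁ := by
    intro D hD
    have := hKDle D hD
    linarith
  have hKD₂ : ∀ D : ℕ, D ≤ N → ((K * D : ℕ) : ℝ) ≤ τ * X₂ := by
    intro D hD
    have := hKDle D hD
    linarith
  -- local bounds
  have hloc : ∀ ω ∈ W, ∀ D : ℕ, 0 < D → D ≤ N → (∀ q : ℕ, q.Prime → q ≤ w → ¬ q ∣ D) →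
      ∀ g ∈ formsZ ι (e + 2) ((1 + τ₂) * A), ∀ ζ,
      ((locSet P ξ i₀ ρ ρ' S J xc (mem' (F ω) S J g) K D ζ (((S * J : ℕ) : ℝ) * Δ)).card : ℝ) ≤
        (1 + τ) ^ k / (1 - τ) * R / (K * (D : ℝ) ^ k) := by
    intro ω hω D hD hDN hDw g hg ζ
    rw [hΔ₁, ← hRdef, ← hk]
    exact loc_norm_le (hP ω hω) hρ0.le (hρ0.le.trans hρρ') hP0.le hτ0 hτ1 hD₀0 hσ hΔ₁0.le hΔ₁ρ
      (hmemS ω hω _ (mul_le_mul_of_nonneg_right (by linarith) hA0.le) g hg) hX₁ hX₂ hK hD hDw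
      (hKD₁ D hDN) (hKD₂ D hDN) hkι ζ
  set X' := testSet (2 * P) a P ξ i₀ ρ ρ' S xc with hX'
  have hSM : ∀ ω ∈ W, ∀ ω' ∈ W, ∑ p ∈ npPairs X', (c2t e A p.1 p.2 (u ω p.1) (u ω' p.2) : ℝ) ≤
      G * ((1 + τ) ^ (2 * k + 1) / (1 - τ) ^ 4 * (R / (2 * Δ)) ^ 2) * (1 + 1 / w) +
      Ct * (formsZ ι (e + 2) (3 * A)).card * (2 * P) ^ (2 * k) /
        (A ^ 2 * (2 * P) ^ (2 * e + 4) * Real.sqrt T) := by
    intro ω hω ω' hω'
    have := hCt w hw1 (F ω) (F ω') S J xc P ξ i₀ ρ ρ' (2 * P) a A ((1 + τ₂) * A) Δ T ha1 haB hT1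
      (2 * Y) (by rw [hk]; exact hLg) (u ω) (u ω') (hu ω hω) (hu ω' hω') N hNT K hK hΔ0.le hKNΔ
      (by rw [hk, hM, hc, hc']; exact hA₂)
      (by rw [hk, hc]; exact haA) (by rw [hk, hc']; exact haA2)
      ((1 + τ) ^ k / (1 - τ) * R / (K * ((1 : ℕ) : ℝ) ^ k))
      ((1 + τ) ^ (2 * k + 1) / (1 - τ) ^ 4 * (R / (2 * Δ)) ^ 2)
      (fun D => (1 + τ) ^ k / (1 - τ) * R / (K * (D : ℝ) ^ k))
      (fun D => div_nonneg (mul_nonneg (div_nonneg (by positivity) (by linarith)) hR0.le)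
        (by positivity))
      (mul_nonneg (div_nonneg (by positivity) (pow_nonneg (by linarith) _)) (by positivity))
      (fun g hg => hloc ω hω 1 one_pos hN1
        (fun q hq _ hq1 => hq.one_lt.ne' (Nat.dvd_one.mp hq1)) g hg 0)
      (fun D hD hDN hDw g hg ζ => hloc ω' hω' D hD hDN hDw g hg ζ)
      (fun D hD hDN => by
        rw [hG]
        exact core_ED hk4 hK0 hD hτ0 hτ1 hR0 hΔ0 hG0 hG₂ ((hKDle D hDN).trans hKNΔτ))
    rw [hG, hk] at this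
    exact this
  -- first moment and Chebyshev
  have htest : ∀ ω ∈ W, ∀ g ∈ formsZ ι (e + 2) ((1 - τ₂) * A), bfun k τ * R ≤
      ((X'.filter (fun x =>
        |((MvPolynomial.eval x (mem' (F ω) S J g) : ℤ) : ℝ)| ≤ ((S * J : ℕ) : ℝ) * Δ)).card : ℝ) := by
    intro ω hω g hg
    rw [hΔ₁, ← hRdef, ← hk]
    refine test_lower hw1 (hP ω hω) hρ0.le hρρ' hρ'2 hP0 hτ0 hτ1 hD₀0 hwτ hξ hξr hσ hΔ₁0.le hΔ₁ρ
      (hmemS ω hω _ (mul_le_mul_of_nonneg_right (by linarith) hA0.le) g hg) hX₁ hX₂ hN'1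
      (by linarith) (by linarith) (by omega) ?_ ?_
    · rw [hk, hRdef]
      have h1 : (0:ℝ) < N' := by exact_mod_cast hN'1
      rw [div_le_iff₀ (by positivity)] at hN'r
      rw [div_le_iff₀ h1, mul_pow]
      have h2 := mul_le_mul_of_nonneg_right hN'r (by positivity : 0 ≤ P ^ k)
      have h3 := mul_le_mul_of_nonneg_left hRlow (by positivity : 0 ≤ τ * (N' : ℝ))
      linarith
    · intro U hU
      rw [hk, hRdef]
      have hPU : (1:ℝ) ≤ 2 * P := by linarith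
      have hYY : 2 ^ 14 ≤ Y ^ 14 := pow_le_pow_left₀ (by norm_num) y1 14
      have hYp : 0 < Y ^ 14 := by positivity
      have h1 := hCu (2 * P) m 32 (1 / Y ^ 14) hPU hm3 (by norm_num) (by positivity)
        (by
          rw [div_le_div_iff₀ hYp (by norm_num)]
          have : (64:ℝ) ≤ 2 ^ 14 := by norm_num
          linarith)
        (by rw [hk, hPdef]; exact small_cond y1 y2 hm1 hm2)
        (by
          rw [mul_one_div, le_div_iff₀ hYp, hPdef]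
          have : Y ^ 14 ≤ Y ^ 36 := pow_le_pow_right₀ (by linarith) (by norm_num)
          have : 0 ≤ Y ^ 36 := by positivity
          linarith)
        U (by rw [ha]; exact hU)
      rw [hk, hPdef] at h1
      refine h1.trans ((unbal_num hk4 y1 hCu0 hτ0 hcR0 y8).trans ?_)
      rw [← hPdef]
      exact mul_le_mul_of_nonneg_left hRlow hτ0.le
  have hr0 : 0 < R / (2 * Δ) := by positivity
  have hβ0 : 0 < (1 - τ) / (1 + τ) * bfun k τ := by linarith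
  have hE₁0 : 0 < (1 - τ) / (1 + τ) * bfun k τ * (R / (2 * Δ)) := mul_pos hβ0 hr0
  have hWpos : (0:ℝ) < W.card := lt_of_lt_of_le (by positivity) hWc
  have hcheb := hCB e W F S J hS hJ xc P ξ i₀ ρ ρ' (2 * P) a A ((1 - τ₂) * A) Δ ha1
    (by linarith : (1:ℝ) ≤ 2 * P) u hu hΔ0.le (by rw [hk, hc]; exact hA')
    (bfun k τ * R) ((1 - τ) / (1 + τ) * bfun k τ * (R / (2 * Δ))) hE₁0.le htest
    (by rw [hG]; exact core_cheb hτ0 hb0 hR0 hΔ0 hG0 hG' hτ1 h1Δτ)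
  rw [hG] at hcheb ⊢
  have hsub : (((formsZ ι (e + 2) A).filter (fun g =>
      ¬ PtIn W F S J (box P ξ i₀ ρ ρ' S xc) g)).card : ℝ) ≤
      (((formsZ ι (e + 2) A).filter (fun g =>
      ¬ PtIn W F S J X' g)).card : ℝ) := by
    have : ((formsZ ι (e + 2) A).filter (fun g =>
      ¬ PtIn W F S J (box P ξ i₀ ρ ρ' S xc) g)) ⊆
      ((formsZ ι (e + 2) A).filter (fun g =>
      ¬ PtIn W F S J X' g)) := by
      intro g hg
      rw [Finset.mem_filter] at hg ⊢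
      refine ⟨hg.1, ?_⟩
      rintro ⟨x, hx, hx0⟩
      exact hg.2 ⟨x, (mem_testSet.mp hx).1, hx0⟩
    exact_mod_cast Finset.card_le_card this
  refine hsub.trans ?_
  have hE2 := core_E1 (by omega : 1 ≤ k) e hb1 hc₀0 hP0 hA0 hϱlow
  -- the proportional pairs
  have hpr := hDG e W u 1 X' (2 * P) a A hkι ha1 (by linarith)
    (fun x hx => ⟨(mem_testSet.mp hx).2.1, (mem_testSet.mp hx).2.2.1, (mem_testSet.mp hx).2.2.2⟩)
    (by rw [hk, hc]; exact haA)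
    (fun x hx c => by
      rw [Finset.card_le_one]
      intro ω₁ h₁ ω₂ h₂
      rw [Finset.mem_filter] at h₁ h₂
      apply hdist x ω₁ h₁.1 ω₂ h₂.1
      rw [hu ω₁ h₁.1 x (mem_testSet.mp hx).1, hu ω₂ h₂.1 x (mem_testSet.mp hx).1, h₁.2, h₂.2])
  -- the second moment
  have hM2 : (∑ ω ∈ W, ∑ ω' ∈ W, ∑ p ∈ X' ×ˢ X', (c2t e A p.1 p.2 (u ω p.1) (u ω' p.2) : ℝ)) ≤
      G * ((W.card : ℝ) ^ 2 * ((1 + τ) ^ (2 * k + 1) / (1 - τ) ^ 4 * (R / (2 * Δ)) ^ 2)) *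
        (1 + 1 / w) +
      (W.card : ℝ) ^ 2 * (Ct * (formsZ ι (e + 2) (3 * A)).card * (2 * P) ^ (2 * k) /
        (A ^ 2 * (2 * P) ^ (2 * e + 4) * Real.sqrt T)) +
      (W.card : ℝ) * ((4 * c) * (formsZ ι (e + 2) (2 * A)).card * X'.card /
        (A * (2 * P) ^ (e + 2))) := by
    have h1 : (∑ ω ∈ W, ∑ ω' ∈ W, ∑ p ∈ X' ×ˢ X', (c2t e A p.1 p.2 (u ω p.1) (u ω' p.2) : ℝ)) =
        (∑ ω ∈ W, ∑ ω' ∈ W, ∑ p ∈ npPairs X', (c2t e A p.1 p.2 (u ω p.1) (u ω' p.2) : ℝ)) +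
        ∑ ω ∈ W, ∑ ω' ∈ W, ∑ p ∈ prPairs X', (c2t e A p.1 p.2 (u ω p.1) (u ω' p.2) : ℝ) := by
      rw [← Finset.sum_add_distrib]
      refine Finset.sum_congr rfl fun ω _ => ?_
      rw [← Finset.sum_add_distrib]
      refine Finset.sum_congr rfl fun ω' _ => ?_
      exact CO2_split X' fun p => (c2t e A p.1 p.2 (u ω p.1) (u ω' p.2) : ℝ)
    have h2 : (∑ ω ∈ W, ∑ ω' ∈ W, ∑ p ∈ npPairs X', (c2t e A p.1 p.2 (u ω p.1) (u ω' p.2) : ℝ)) ≤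
        ∑ ω ∈ W, ∑ ω' ∈ W,
          (G * ((1 + τ) ^ (2 * k + 1) / (1 - τ) ^ 4 * (R / (2 * Δ)) ^ 2) * (1 + 1 / w) +
      Ct * (formsZ ι (e + 2) (3 * A)).card * (2 * P) ^ (2 * k) /
        (A ^ 2 * (2 * P) ^ (2 * e + 4) * Real.sqrt T)) :=
      Finset.sum_le_sum fun ω hω => Finset.sum_le_sum fun ω' hω' => hSM ω hω ω' hω'
    simp only [Finset.sum_const, nsmul_eq_mul] at h2
    rw [h1]
    rw [hk, hc] at hpr
    refine (add_le_add h2 hpr).trans (le_of_eq ?_)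
    push_cast
    ring
  have hX'0 : (0:ℝ) ≤ X'.card := Nat.cast_nonneg _
  have hX'c : (X'.card : ℝ) ≤ (6 * P) ^ k := by
    rw [← hk]
    have h1 := div_count (by linarith : (0:ℝ) ≤ 2 * P) 1 one_pos (by push_cast; linarith)
      X' (fun x hx => ⟨(mem_testSet.mp hx).2.1.1, fun i => by simp⟩)
    refine h1.trans (le_of_eq ?_)
    congr 1
    push_cast; ring
  have hWE : ∀ z : ℝ, ((W.card : ℝ) * z) ^ 2 = (W.card : ℝ) ^ 2 * z ^ 2 := fun z => by ring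
  refine final_ineq (mul_pos hWpos hE₁0) hcheb hM2 ?_ ?_ ?_
  · have h1 := core_main (r := R / (2 * Δ)) (div_nonneg (by positivity) (pow_nonneg (by linarith) _) :
      0 ≤ (1 + τ) ^ (2 * k + 1) / (1 - τ) ^ 4) hG0.le (by linarith : 1 + 1 / (w : ℝ) ≤ 1 + τ) hτF
    have h2 := mul_le_mul_of_nonneg_left h1 (by positivity : 0 ≤ (W.card : ℝ) ^ 2)
    rw [hWE]
    linarith
  · have h1 := core_t1 (k := k) (M := M) hCt0 hG0 hG3A hP0 hA0 hε hc₀0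
      (Real.sqrt_pos.mpr (by linarith)) hTs hE2
    have h2 := mul_le_mul_of_nonneg_left h1 (by positivity : 0 ≤ (W.card : ℝ) ^ 2)
    rw [hWE]
    linarith
  · have h1 := CO2_t2 (Ct := 4 * c) (l := l) (by positivity) hG0 hG2A hP1 hA0 hε hc₀0 hcW0 y9
      hX'c hX'0 hAP he hWc (by positivity) hE2
    have h2 := mul_le_mul_of_nonneg_left h1 hWpos.le
    rw [hWE]
    linarith

end Pool.Agent.H90Q
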