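import Pool.Agent.H90Q.Stm

/-!
# The class theorem for cyclic covers
-/

namespace Pool.Agent.H90Q

open Filter Pool.Agent.Y716.Q

theorem ct_pdata {ι : Type} [Fintype ι] {w b : ℕ} {fc : MvPolynomial ι ℤ} {S J : ℕ}
    {xc v : ι → ℤ} {ωc ω : ℤ} (h : PData w (fc - MvPolynomial.C (ωc ^ b)) S J xc v)
    (hω : ((S * J : ℕ) : ℤ) ∣ ω - ωc) : PData w (fc - MvPolynomial.C (ω ^ b)) S J xc v := by
  have h1 : ((S * J : ℕ) : ℤ) ∣ ω ^ b - ωc ^ b := hω.trans (sub_dvd_pow_sub_pow ω ωc b)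
  refine { hS := h.hS, hJ := h.hJ, hJS := h.hJS, hval := ?_, hgrad := ?_, hPJ := h.hPJ,
           hv := h.hv, hprim := h.hprim, hSW := h.hSW }
  · have h2 := h.hval
    rw [map_sub, MvPolynomial.eval_C] at h2 ⊢
    have h3 := dvd_sub h2 h1
    have h4 : MvPolynomial.eval xc fc - ωc ^ b - (ω ^ b - ωc ^ b) =
        MvPolynomial.eval xc fc - ω ^ b := by ring
    rwa [h4] at h3
  · intro i
    have h2 := h.hgrad i
    rw [map_sub, MvPolynomial.pderiv_C, sub_zero] at h2 ⊢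
    exact h2

theorem ct_abs_le {M b : ℕ} {s h η x : ℝ} (hM : 1 ≤ M) (hb : 1 ≤ b) (hh : 0 < h)
    (hη : η ≤ 1) (hx : |x| ≤ M * (2 * h ^ b)) (hs : |x - (h * s) ^ b| ≤ M * (η * h ^ b)) :
    |s| ≤ 3 * M := by
  have hMr : (1:ℝ) ≤ M := by exact_mod_cast hM
  have hhb : 0 < h ^ b := by positivity
  have h1 : |(h * s) ^ b| ≤ 3 * M * h ^ b := by
    have h2 : (h * s) ^ b = x - (x - (h * s) ^ b) := by ring
    rw [h2]
    refine (abs_sub _ _).trans ?_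
    have h3 : (M : ℝ) * (η * h ^ b) ≤ M * (1 * h ^ b) :=
      mul_le_mul_of_nonneg_left (mul_le_mul_of_nonneg_right hη hhb.le) (by linarith)
    linarith
  rw [mul_pow, abs_mul, abs_of_pos hhb, abs_pow] at h1
  have h4 : |s| ^ b ≤ 3 * M := by
    have h5 : h ^ b * |s| ^ b ≤ h ^ b * (3 * M) := by linarith
    exact le_of_mul_le_mul_left h5 hhb
  by_contra hcon
  push Not at hcon
  have h6 : 1 ≤ |s| := by linarith
  have h7 : |s| ≤ |s| ^ b := le_self_pow₀ h6 (by omega)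
  linarith

theorem ct_inj {W : Finset ℤ} {b : ℕ} (hb : 1 ≤ b)
    (hW : (∀ ω ∈ W, 0 < ω) ∨ (∀ ω ∈ W, ω < 0)) {ω ω' : ℤ} (hω : ω ∈ W) (hω' : ω' ∈ W)
    (h : ω ^ b = ω' ^ b) : ω = ω' := by
  have hb0 : b ≠ 0 := by omega
  rcases hW with h1 | h1
  · exact (pow_left_inj₀ (h1 ω hω).le (h1 ω' hω').le hb0).mp h
  · have h2 : (-ω) ^ b = (-ω') ^ b := by rw [neg_pow ω, neg_pow ω', h]
    have h3 := (pow_left_inj₀ (by have := h1 ω hω; omega) (by have := h1 ω' hω'; omega) hb0).mp h2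
    omega

open scoped Classical in
/-- The class theorem for covers. -/
theorem t_CT (ι : Type) [Fintype ι] : S_CT ι := by
  intro hcore hSM hRC hWS hk4 e b l hb2 hl1 hebl he ε hε
  obtain ⟨Ct, hCt0, hCt⟩ := hSM hk4 e
  obtain ⟨Cu, hCu0, hCu⟩ : ∃ Cu : ℝ, 0 < Cu ∧ UB ι Cu :=
    unbal_bound ι (by omega : 2 ≤ Fintype.card ι)
  obtain ⟨Cr, hCr1, hCr⟩ := hRC e
  obtain ⟨Cf, hCf1, hCf⟩ := form_bounds (ι := ι) (e + 1)
  obtain ⟨k, hk⟩ : ∃ k, Fintype.card ι = k := ⟨_, rfl⟩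
  rw [hk] at hk4 he
  obtain ⟨M, hM⟩ : ∃ M, (mons ι (e + 2)).card = M := ⟨_, rfl⟩
  obtain ⟨c, hc⟩ : ∃ c, c1pt k (e + 1) = c := ⟨_, rfl⟩
  have hk0 : 0 < k := by omega
  have hc0 : 0 < c := by rw [← hc]; unfold c1pt; positivity
  obtain ⟨c', hc'⟩ : ∃ c', cker k e = c' := ⟨_, rfl⟩
  have hc'0 : 0 < c' := by rw [← hc']; unfold cker c1pt; positivity
  obtain ⟨τ, hτ0, hτ1, hb1, hb0, hτF⟩ := exists_tau k (ε := ε / 2) (by positivity)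
  refine ⟨⌈1 / τ⌉₊ + 1, by omega, ?_⟩
  intro w hw γ hγ hγ1 Q₀ hQ₀ η₀ hη₀
  have hw1 : 1 ≤ w := by omega
  have hwr : (1:ℝ) ≤ w := by exact_mod_cast hw1
  have hwτ : 1 / (w : ℝ) ≤ τ := by
    have h1 : 1 / τ ≤ w := by
      refine (Nat.le_ceil _).trans ?_
      have : ⌈1 / τ⌉₊ ≤ w := by omega
      exact_mod_cast this
    rw [div_le_iff₀ hτ0] at h1
    rw [div_le_iff₀ (by linarith)]
    linarith
  have hQ₀r : (1:ℝ) ≤ Q₀ := by exact_mod_cast hQ₀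
  -- constants
  have hCr0 : 0 < Cr := by linarith
  obtain ⟨ρ', hρ'⟩ : ∃ ρ' : ℝ, ρ' = min (τ * γ / (2 * Cr)) η₀ := ⟨_, rfl⟩
  have hρ'0 : 0 < ρ' := by rw [hρ']; exact lt_min (by positivity) hη₀
  have hρ'η₀ : ρ' ≤ η₀ := by rw [hρ']; exact min_le_right _ _
  have hCρ' : Cr * ρ' ≤ τ * γ / 2 := by
    have h1 : ρ' ≤ τ * γ / (2 * Cr) := by rw [hρ']; exact min_le_left _ _
    have h2 := mul_le_mul_of_nonneg_left h1 hCr0.le
    refine h2.trans (le_of_eq ?_)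
    field_simp
  have hρ'τ : ρ' ≤ τ / 2 := by
    have h1 : ρ' ≤ Cr * ρ' := le_mul_of_one_le_left hρ'0.le hCr1
    have h2 : τ * γ ≤ τ := mul_le_of_le_one_right hτ0.le hγ1
    linarith
  have hρ'2 : ρ' ≤ 1 / 2 := by linarith
  obtain ⟨ρ, hρ⟩ : ∃ ρ : ℝ, ρ = γ * ρ' / (2 * Cr) := ⟨_, rfl⟩
  have hρ0 : 0 < ρ := by rw [hρ]; positivity
  have hCρ : Cr * ρ = γ * ρ' / 2 := by rw [hρ]; field_simp
  have hρρ' : ρ ≤ ρ' := by
    have h1 : ρ ≤ Cr * ρ := le_mul_of_one_le_left hρ0.le hCr1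
    have h2 : γ * ρ' ≤ ρ' := mul_le_of_le_one_left hρ'0.le hγ1
    linarith
  obtain ⟨η, hη⟩ : ∃ η : ℝ, η = ρ / 2 := ⟨_, rfl⟩
  have hη0 : 0 < η := by rw [hη]; positivity
  have hη1 : η ≤ 1 := by linarith
  have hηη₀ : η ≤ η₀ := by linarith
  obtain ⟨cW, hW₀, hcW0, hhW0, hWdat⟩ := hWS b (by omega) Q₀ hQ₀ (min η η₀) (3 * M)
    (lt_min hη0 hη₀) (by positivity)
  obtain ⟨Cg, hCg⟩ : ∃ Cg : ℝ, Cg = Cf * ((e + 2) * 2) := ⟨_, rfl⟩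
  have hCg0 : 0 < Cg := by rw [hCg]; positivity
  obtain ⟨c₀, hc₀⟩ : ∃ c₀ : ℝ, c₀ = (2 * ρ / Q₀) ^ (k - 1) * (η / (Cg * Q₀)) := ⟨_, rfl⟩
  have hc₀0 : 0 < c₀ := by rw [hc₀]; positivity
  obtain ⟨T, hT⟩ : ∃ T : ℝ, T = (16 * Ct * 4 ^ M * 4 ^ k / (ε * c₀ ^ 2)) ^ 2 + 1 := ⟨_, rfl⟩
  have hT1 : 1 ≤ T := by
    rw [hT]
    have := sq_nonneg (16 * Ct * 4 ^ M * 4 ^ k / (ε * c₀ ^ 2))
    linarith
  have hTs : 16 * Ct * 4 ^ M * 4 ^ k / (ε * c₀ ^ 2) ≤ Real.sqrt T := by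
    apply Real.le_sqrt_of_sq_le
    rw [hT]; linarith
  obtain ⟨N, hN⟩ : ∃ N : ℕ, N = ⌈2 * T⌉₊ := ⟨_, rfl⟩
  have hNT : 2 * T ≤ N := by rw [hN]; exact Nat.le_ceil _
  obtain ⟨K, hK⟩ : ∃ K : ℕ, K = (∏ p ∈ (Finset.range (w + 1)).filter Nat.Prime, p) ^ N := ⟨_, rfl⟩
  have hK0 : 0 < K := by
    rw [hK]
    apply pow_pos
    apply Finset.prod_pos
    intro p hp
    exact (Finset.mem_filter.mp hp).2.pos
  have hKr : (1:ℝ) ≤ K := by exact_mod_cast hK0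
  obtain ⟨τ₂, hτ₂0, hτ₂1, hτ₂2, hτ₂3⟩ := exists_ratio M hτ0
  obtain ⟨c₅, hc₅⟩ : ∃ c₅ : ℝ, c₅ = c + c' * (1 + M * c) / (1 / T) := ⟨_, rfl⟩
  have hT0 : 0 < T := by linarith
  have hc₅c : c ≤ c₅ := by
    rw [hc₅]
    have : 0 ≤ c' * (1 + M * c) / (1 / T) := by positivity
    linarith
  have hc₅0 : 0 < c₅ := by linarith
  have hc6 : 6 ≤ c := by
    rw [← hc]; unfold c1pt
    have h1 : (1:ℝ) ≤ (6 * k) ^ (e + 1) := by
      apply one_le_pow₀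
      have : (1:ℝ) ≤ k := by exact_mod_cast hk0
      linarith
    linarith
  obtain ⟨δ, hδ⟩ : ∃ δ : ℝ, δ = τ₂ / (4 * c₅) := ⟨_, rfl⟩
  have hδ0 : 0 < δ := by rw [hδ]; positivity
  have hδc : c₅ * δ = τ₂ / 4 := by rw [hδ]; field_simp
  have hδ1 : δ ≤ 1 := by
    rw [hδ, div_le_one (by positivity)]; linarith
  obtain ⟨cR, hcR⟩ : ∃ cR : ℝ, cR = (2 * ρ / Q₀) ^ (k - 1) * (2 * δ * η / (Cg * Q₀)) := ⟨_, rfl⟩
  have hcR0 : 0 < cR := by rw [hcR]; positivity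
  obtain ⟨N', hN'⟩ : ∃ N' : ℕ, N' = ⌈6 ^ k / (τ * cR)⌉₊ + 1 := ⟨_, rfl⟩
  have hN'1 : 1 ≤ N' := by omega
  have hN'r : 6 ^ k / (τ * cR) ≤ N' := by
    rw [hN']
    push_cast
    have := Nat.le_ceil (6 ^ k / (τ * cR))
    linarith
  -- the threshold for Y
  have hev : ∀ᶠ Y : ℝ in atTop, 2 ≤ Y ∧ 64 * (k:ℝ) + 3 ≤ Y ∧ 960 * (k:ℝ) ^ 2 * Y ^ 51 < Real.exp Y ∧
      2 * (32 * c₅ * K + 3072 * c') / τ₂ ≤ Y ∧ (K * N : ℝ) / (τ * δ) ≤ Y ∧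
      (K * N + N' : ℝ) * Q₀ / (2 * ρ * τ) ≤ Y ∧
      2 * (K * N + N' : ℝ) * (Cg * Q₀) / (2 * δ * η * τ) ≤ Y ∧
      100 * Cu * 4 ^ (k - 1) / (τ * cR) ≤ Y ∧ 16 * (4 * c) * 3 ^ M * 6 ^ k / (ε * c₀ ^ 2 * cW) ≤ Y ∧
      1 + 1 / τ₂ ≤ Y ∧ 1 / (τ * δ) ≤ Y := by
    filter_upwards [eventually_ge_atTop (2:ℝ), eventually_ge_atTop (64 * (k:ℝ) + 3),
      eventually_exp (960 * (k:ℝ) ^ 2) 51,
      eventually_ge_atTop (2 * (32 * c₅ * K + 3072 * c') / τ₂),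
      eventually_ge_atTop ((K * N : ℝ) / (τ * δ)),
      eventually_ge_atTop ((K * N + N' : ℝ) * Q₀ / (2 * ρ * τ)),
      eventually_ge_atTop (2 * (K * N + N' : ℝ) * (Cg * Q₀) / (2 * δ * η * τ)),
      eventually_ge_atTop (100 * Cu * 4 ^ (k - 1) / (τ * cR)),
      eventually_ge_atTop (16 * (4 * c) * 3 ^ M * 6 ^ k / (ε * c₀ ^ 2 * cW)),
      eventually_ge_atTop (1 + 1 / τ₂),
      eventually_ge_atTop (1 / (τ * δ))] with Y h1 h2 h3 h4 h5 h6 h7 h8 h9 h10 h11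
    exact ⟨h1, h2, h3, h4, h5, h6, h7, h8, h9, h10, h11⟩
  obtain ⟨Y₁, hY₁⟩ := Filter.eventually_atTop.mp hev
  obtain ⟨Y₀, hY₀⟩ : ∃ Y₀ : ℝ, Y₀ = max Y₁ 1 := ⟨_, rfl⟩
  have hY₀1 : 1 ≤ Y₀ := by rw [hY₀]; exact le_max_right _ _
  have hY₀Y₁ : Y₁ ≤ Y₀ := by rw [hY₀]; exact le_max_left _ _
  refine ⟨η, hη0, hη1, hηη₀, max (max hW₀ 1) (Q₀ * Y₀ ^ 32 / η),
    (le_max_right _ _).trans (le_max_left _ _), ?_⟩
  intro h hh fc S J xc v ωc ξ s i₀ hP hR hq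
  have hhW : hW₀ ≤ h := (le_max_left _ _).trans ((le_max_left _ _).trans hh)
  have hh1 : 1 ≤ h := (le_max_right _ _).trans ((le_max_left _ _).trans hh)
  have hh0 : 0 < h := by linarith
  obtain ⟨H, hHdef⟩ : ∃ H : ℝ, h ^ b = H := ⟨_, rfl⟩
  have hhH : h ≤ H := by rw [← hHdef]; exact le_self_pow₀ hh1 (by omega)
  have hH : Q₀ * Y₀ ^ 32 / η ≤ H := ((le_max_right _ _).trans hh).trans hhH
  obtain ⟨hRform, hRξ, hRξr, hRfξ, hRgξ⟩ := hR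
  rw [hHdef] at hRform hRgξ ⊢
  obtain ⟨q, hqdef⟩ : ∃ q : ℕ, S * J = q := ⟨_, rfl⟩
  have hq1 : 1 ≤ q := by rw [← hqdef]; exact Nat.mul_pos hP.hS hP.hJ
  have hqr : (1:ℝ) ≤ q := by exact_mod_cast hq1
  have hqQ : (q:ℝ) ≤ Q₀ := by rw [← hqdef]; exact_mod_cast hq
  have hSq : (S:ℝ) ≤ Q₀ := by
    have : S ≤ S * J := Nat.le_mul_of_pos_right S hP.hJ
    exact_mod_cast this.trans hq
  have hS1 : (1:ℝ) ≤ S := by exact_mod_cast hP.hS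
  have hH0 : 0 < H := lt_of_lt_of_le (by positivity) hH
  rw [hqdef]
  obtain ⟨A, hA⟩ : ∃ A : ℝ, η * H / q = A := ⟨_, rfl⟩
  rw [hA]
  have hAq : q * A = η * H := by rw [← hA]; field_simp
  have hA₀ : Y₀ ^ 32 ≤ A := by
    rw [div_le_iff₀ hη0] at hH
    have h1 : (q:ℝ) * Y₀ ^ 32 ≤ q * A := by
      rw [hAq]
      have : (q:ℝ) * Y₀ ^ 32 ≤ Q₀ * Y₀ ^ 32 := mul_le_mul_of_nonneg_right hqQ (by positivity)
      linarith
    exact le_of_mul_le_mul_left h1 (by linarith)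
  have hA0 : 0 < A := lt_of_lt_of_le (by positivity) hA₀
  obtain ⟨Y, hY⟩ : ∃ Y : ℝ, Y = A ^ (((32 : ℕ) : ℝ)⁻¹) := ⟨_, rfl⟩
  have hYA : Y ^ 32 = A := by rw [hY]; exact Real.rpow_inv_natCast_pow hA0.le (by norm_num)
  have hYnn : 0 ≤ Y := by rw [hY]; positivity
  have hYY₀ : Y₀ ≤ Y := by
    rw [← hYA] at hA₀
    exact le_of_pow_le_pow_left₀ (by norm_num) hYnn hA₀
  obtain ⟨y1, y2, y3, y4, y5, y6, y7, y8, y9, y10, y11⟩ := hY₁ Y (hY₀Y₁.trans hYY₀)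
  clear hY₁ hev
  have hY0 : 0 < Y := by linarith
  have hY1 : 1 ≤ Y := by linarith
  obtain ⟨P, hPdef⟩ : ∃ P : ℝ, P = Y ^ 36 := ⟨_, rfl⟩
  have hPY : Y ≤ P := by
    rw [hPdef]
    calc Y = Y ^ 1 := by ring
      _ ≤ Y ^ 36 := pow_le_pow_right₀ hY1 (by norm_num)
  have hP0 : 0 < P := by linarith
  have hP1 : 1 ≤ P := by linarith
  have hAP : A * Y ≤ P := by
    rw [← hYA, hPdef]
    calc Y ^ 32 * Y = Y ^ 33 := by ring
      _ ≤ Y ^ 36 := pow_le_pow_right₀ hY1 (by norm_num)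
  have hAY : Y ≤ A := by
    rw [← hYA]
    calc Y = Y ^ 1 := by ring
      _ ≤ Y ^ 32 := pow_le_pow_right₀ hY1 (by norm_num)
  -- real data
  have hgcd : |MvPolynomial.aeval ξ (MvPolynomial.pderiv i₀ fc)| ≤ Cg * H := by
    have h1 := (hCf _ _ (hRform.pderiv i₀).1 (hRform.pderiv i₀).2 1 (by norm_num)).1 ξ hRξ
    rw [one_pow, mul_one] at h1
    refine h1.trans (le_of_eq ?_)
    rw [hCg]; push_cast; ring
  have hCrr : Cr * (ρ' + ρ) ≤ τ * γ := by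
    have h1 : γ * ρ' ≤ γ * (τ / 2) := mul_le_mul_of_nonneg_left hρ'τ hγ.le
    rw [mul_add, hCρ]
    have h2 : 0 < τ * γ := mul_pos hτ0 hγ
    linarith
  have hCrr2 : Cr * (ρ + ρ) ≤ γ * ρ' := by
    rw [mul_add, hCρ]; linarith
  obtain ⟨σ, hσ, hslope⟩ := hCr H γ ρ τ ρ ρ' P fc ξ i₀ hRform hRξ hRξr hRgξ hH0 hγ hρ0
    (by linarith) hτ0 hτ1 hρ0 hρρ' (by linarith) hP0 hCrr hCrr2
  -- the set of the integers ω
  obtain ⟨r₁, hr₁⟩ := hRξr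
  have hM1 : 1 ≤ M := by
    rw [← hM]
    apply Finset.card_pos.mpr
    refine ⟨Finsupp.single r₁ (e + 2), mem_mons.mpr ?_⟩
    rw [Finset.sum_eq_single r₁]
    · rw [Finsupp.single_eq_same]
    · intro i _ hi
      rw [Finsupp.single_eq_of_ne hi]
    · intro h1
      exact absurd (Finset.mem_univ _) h1
  have hs₀ : |s| ≤ 3 * M := by
    refine ct_abs_le (h := h) (b := b) (x := MvPolynomial.aeval ξ fc) hM1 (by omega) hh0 hη1 ?_ ?_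
    · have h1 := hRform.aeval_le_one hRξ
      rw [hM] at h1
      rw [hHdef]; exact h1
    · rw [hM] at hRfξ
      exact hRfξ
  have hP1' : 1 ≤ P := hP1
  obtain ⟨X, hXdef⟩ : ∃ X : ℝ, h * P ^ l = X := ⟨_, rfl⟩
  have hPl1 : 1 ≤ P ^ l := one_le_pow₀ hP1
  have hXh : h ≤ X := by rw [← hXdef]; exact le_mul_of_one_le_right hh0.le hPl1
  have hXP : P ^ l ≤ X := by rw [← hXdef]; exact le_mul_of_one_le_left (by positivity) hh1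
  obtain ⟨W, hW1, hW2, hW3, hW4, hW5⟩ := hWdat X s (S * J) ωc (hhW.trans hXh) hs₀
    (Nat.mul_pos hP.hS hP.hJ) hq
  have hXb : X ^ b = H * P ^ (e + 2) := by
    rw [← hXdef, mul_pow, hHdef, ← pow_mul, hebl, mul_comm l b]
  have hcWP : cW * P ^ l ≤ W.card := (mul_le_mul_of_nonneg_left hXP hcW0.le).trans hW5
  obtain ⟨F, hF⟩ : ∃ F : ℤ → MvPolynomial ι ℤ, F = fun ω => fc - MvPolynomial.C (ω ^ b) := ⟨_, rfl⟩
  have hFω : ∀ ω, F ω = fc - MvPolynomial.C (ω ^ b) := fun ω => by rw [hF]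
  have hFP : ∀ ω ∈ W, PData w (F ω) S J xc v := by
    intro ω hω
    rw [hFω]
    exact ct_pdata hP (hW1 ω hω)
  have hFinj : ∀ x : ι → ℤ, ∀ ω ∈ W, ∀ ω' ∈ W,
      MvPolynomial.eval x (F ω) = MvPolynomial.eval x (F ω') → ω = ω' := by
    intro x ω hω ω' hω' h1
    rw [hFω, hFω, map_sub, map_sub, MvPolynomial.eval_C, MvPolynomial.eval_C] at h1
    exact ct_inj (b := b) (by omega) hW2 hω hω' (sub_right_injective h1)
  have htar : ∀ ω ∈ W, |P ^ (e + 2) * MvPolynomial.aeval ξ fc - ((ω ^ b : ℤ) : ℝ)| ≤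
      ((mons ι (e + 2)).card + 1) * (ρ * H) * P ^ (e + 2) := by
    intro ω hω
    have h1 := hW4 ω hω
    have h2 : P ^ (e + 2) * MvPolynomial.aeval ξ fc - ((ω ^ b : ℤ) : ℝ) =
        P ^ (e + 2) * (MvPolynomial.aeval ξ fc - (h * s) ^ b) - ((ω : ℝ) ^ b - (X * s) ^ b) := by
      have h3 : (X * s) ^ b = P ^ (e + 2) * (h * s) ^ b := by
        rw [mul_pow, hXb, mul_pow h, hHdef]; ring
      rw [h3]; push_cast; ring
    rw [h2]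
    refine (abs_sub _ _).trans ?_
    rw [abs_mul, abs_of_pos (by positivity : 0 < P ^ (e + 2))]
    have h3 := mul_le_mul_of_nonneg_left hRfξ (by positivity : 0 ≤ P ^ (e + 2))
    rw [hHdef] at h3
    rw [hXb] at h1
    have h4 : min η η₀ * (H * P ^ (e + 2)) ≤ η * (H * P ^ (e + 2)) :=
      mul_le_mul_of_nonneg_right (min_le_left _ _) (by positivity)
    have h5 : η * (H * P ^ (e + 2)) ≤ ρ * (H * P ^ (e + 2)) :=
      mul_le_mul_of_nonneg_right (by linarith) (by positivity)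
    have h6 : (0:ℝ) ≤ (mons ι (e + 2)).card := Nat.cast_nonneg _
    have h7 := mul_le_mul_of_nonneg_left h5 h6
    have h8 : P ^ (e + 2) * (((mons ι (e + 2)).card : ℝ) * (η * H)) =
      ((mons ι (e + 2)).card : ℝ) * (η * (H * P ^ (e + 2))) := by ring
    rw [h8] at h3
    have h9 : (((mons ι (e + 2)).card : ℝ) + 1) * (ρ * H) * P ^ (e + 2) =
      ((mons ι (e + 2)).card : ℝ) * (ρ * (H * P ^ (e + 2))) + ρ * (H * P ^ (e + 2)) := by ring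
    rw [h9]
    linarith
  have hgξ := hRgξ
  obtain ⟨g₀, hg₀⟩ : ∃ g₀ : ℝ, |MvPolynomial.aeval ξ (MvPolynomial.pderiv i₀ fc)| = g₀ := ⟨_, rfl⟩
  rw [hg₀] at hgcd hgξ hslope
  have hg₀0 : 0 < g₀ := lt_of_lt_of_le (by positivity) hgξ
  obtain ⟨D₀, hD₀⟩ : ∃ D₀ : ℝ, g₀ * P ^ (e + 1) = D₀ := ⟨_, rfl⟩
  rw [hD₀] at hslope
  have hD₀0 : 0 < D₀ := by rw [← hD₀]; positivity
  obtain ⟨Δ, hΔ⟩ : ∃ Δ : ℝ, Δ = δ * A * P ^ (e + 2) := ⟨_, rfl⟩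
  have hΔ0 : 0 < Δ := by rw [hΔ]; positivity
  obtain ⟨Δ₁, hΔ₁⟩ : ∃ Δ₁ : ℝ, ((S * J : ℕ) : ℝ) * Δ = Δ₁ := ⟨_, rfl⟩
  have hΔ₁' : Δ₁ = δ * (η * H) * P ^ (e + 2) := by
    rw [← hΔ₁, hqdef, hΔ, ← hAq]; ring
  have hΔ₁0 : 0 < Δ₁ := by rw [hΔ₁']; positivity
  have hΔ₁ρ : Δ₁ ≤ ρ * H * P ^ (e + 2) := by
    rw [hΔ₁']
    apply mul_le_mul_of_nonneg_right _ (by positivity)
    have h1 : δ * (η * H) ≤ 1 * (η * H) := mul_le_mul_of_nonneg_right hδ1 (by positivity)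
    have h2 : η * H ≤ ρ * H := mul_le_mul_of_nonneg_right (by linarith) hH0.le
    linarith
  -- class members
  have hmemS : ∀ ω ∈ W, ∀ A₃ : ℝ, A₃ ≤ 2 * A → ∀ g ∈ formsZ ι (e + 2) A₃,
      SlopeCond σ ((1 - τ) * D₀) ((1 + τ) * D₀) (ρ * H * P ^ (e + 2)) P ξ i₀ ρ ρ'
        (mem' (F ω) S J g) := by
    intro ω hω A₃ hA₃ g hg
    have hre : mem' (F ω) S J g = fc + MvPolynomial.C ((S * J : ℕ) : ℤ) * g -
        MvPolynomial.C (ω ^ b) := by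
      rw [hFω]; unfold mem'; ring
    rw [hre]
    apply hslope _ (htar ω hω)
    refine ((mem_formsZ.mp hg).C_mul _).mono ?_
    rw [hqdef, Int.cast_natCast, abs_of_nonneg (by linarith : (0:ℝ) ≤ q)]
    have h1 : (q:ℝ) * A₃ ≤ q * (2 * A) := mul_le_mul_of_nonneg_left hA₃ (by linarith)
    have h2 : (q:ℝ) * (2 * A) = ρ * H := by
      have : (q:ℝ) * (2 * A) = 2 * (q * A) := by ring
      rw [this, hAq, hη]; ring
    linarith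
  obtain ⟨X₁, hX₁⟩ : ∃ X₁ : ℝ, X₁ = 2 * ρ * P / S := ⟨_, rfl⟩
  obtain ⟨X₂, hX₂⟩ : ∃ X₂ : ℝ, X₂ = 2 * Δ₁ / (D₀ * S) := ⟨_, rfl⟩
  have hX₁0 : 0 < X₁ := by rw [hX₁]; positivity
  have hX₂0 : 0 < X₂ := by rw [hX₂]; positivity
  have hX₁low : 2 * ρ / Q₀ * P ≤ X₁ := by
    rw [hX₁, div_mul_eq_mul_div]
    exact div_le_div_of_nonneg_left (by positivity) (by linarith) hSq
  have hX₂low : 2 * δ * η / (Cg * Q₀) * P ≤ X₂ := by
    have h1 : X₂ = 2 * δ * η * P * H / (g₀ * S) := by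
      rw [hX₂, hΔ₁', ← hD₀, show e + 2 = (e + 1) + 1 by ring, pow_succ]
      field_simp
    rw [h1, div_mul_eq_mul_div, div_le_div_iff₀ (by positivity) (by positivity)]
    have h2 : g₀ * S ≤ Cg * H * Q₀ := mul_le_mul hgcd hSq (by positivity) (by positivity)
    have h3 := mul_le_mul_of_nonneg_left h2 (by positivity : 0 ≤ 2 * δ * η * P)
    linarith
  have hX₁K : (K * N + N' : ℝ) ≤ τ * X₁ := by
    have h1 : (K * N + N' : ℝ) * Q₀ ≤ Y * (2 * ρ * τ) := by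
      rwa [div_le_iff₀ (by positivity)] at y6
    have h2 : (K * N + N' : ℝ) ≤ τ * (2 * ρ / Q₀ * P) := by
      have h3 : τ * (2 * ρ / Q₀ * P) = 2 * ρ * τ * P / Q₀ := by ring
      rw [h3, le_div_iff₀ (by linarith)]
      have h4 : Y * (2 * ρ * τ) ≤ P * (2 * ρ * τ) := mul_le_mul_of_nonneg_right hPY (by positivity)
      linarith
    exact h2.trans (mul_le_mul_of_nonneg_left hX₁low hτ0.le)
  have hX₂K : 2 * (K * N + N' : ℝ) ≤ τ * X₂ := by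
    have h1 : 2 * (K * N + N' : ℝ) * (Cg * Q₀) ≤ Y * (2 * δ * η * τ) := by
      rwa [div_le_iff₀ (by positivity)] at y7
    have h2 : 2 * (K * N + N' : ℝ) ≤ τ * (2 * δ * η / (Cg * Q₀) * P) := by
      have h3 : τ * (2 * δ * η / (Cg * Q₀) * P) = 2 * δ * η * τ * P / (Cg * Q₀) := by ring
      rw [h3, le_div_iff₀ (by positivity)]
      have h4 : Y * (2 * δ * η * τ) ≤ P * (2 * δ * η * τ) :=
        mul_le_mul_of_nonneg_right hPY (by positivity)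
      linarith
    exact h2.trans (mul_le_mul_of_nonneg_left hX₂low hτ0.le)
  have hKN0 : (0:ℝ) ≤ K * N := by positivity
  have hN'0 : (0:ℝ) ≤ N' := Nat.cast_nonneg _
  obtain ⟨R, hRdef⟩ : ∃ R : ℝ, X₁ ^ (k - 1) * X₂ = R := ⟨_, rfl⟩
  have hR0 : 0 < R := by rw [← hRdef]; positivity
  have hRlow : cR * P ^ k ≤ R := by
    have h1 : (2 * ρ / Q₀ * P) ^ (k - 1) ≤ X₁ ^ (k - 1) := pow_le_pow_left₀ (by positivity) hX₁low _
    have h2 := mul_le_mul h1 hX₂low (by positivity) (by positivity)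
    rw [hRdef] at h2
    refine le_trans (le_of_eq ?_) h2
    obtain ⟨n, rfl⟩ : ∃ n, k = n + 1 := ⟨k - 1, by omega⟩
    rw [hcR, Nat.add_sub_cancel, mul_pow, pow_succ P]; ring
  have hϱlow : c₀ * P ^ (k - 1) / (A * P ^ (e + 1)) ≤ R / (2 * Δ) := by
    rw [← hRdef]
    exact rho_low hc₀ hρ0 hQ₀r hP0 hX₁low hX₂ (by rw [← hΔ₁, hqdef]) hD₀ hΔ0 hS1 hSq hqr hg₀0 hgcd
      hCg0 hH0 hη0 hA0 hAq
  have hsub : (((formsZ ι (e + 2) A).filter (fun g =>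
      ¬ NearC b l η₀ h ξ s S q xc ωc (mem' fc S J g))).card : ℝ) ≤
      (((formsZ ι (e + 2) A).filter (fun g =>
      ¬ PtIn W F S J (box P ξ i₀ ρ ρ' S xc) g)).card : ℝ) := by
    refine card_filter_le' _ _ _ (fun g _ hg hpt => hg ?_)
    obtain ⟨x, hx, hx1, ω, hω, hx2⟩ := hpt
    have hx' := mem_box.mp hx
    refine ⟨x, ω, hx1, ?_, hx'.2, ?_, P, hP0, fun i => ?_, ?_⟩
    · have hre : mem' (F ω) S J g = mem' fc S J g - MvPolynomial.C (ω ^ b) := by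
        rw [hFω]; unfold mem'; ring
      rw [hre, map_sub, MvPolynomial.eval_C] at hx2
      linarith
    · rw [← hqdef]; exact hW1 ω hω
    · have h1 := hx'.1 i
      have h2 : wd i₀ ρ ρ' i ≤ η₀ := by
        unfold wd
        split_ifs
        · exact hρ'η₀
        · exact hρρ'.trans hρ'η₀
      have h3 := mul_le_mul_of_nonneg_left h2 hP0.le
      rw [abs_le]
      constructor
      · linarith [h1.1]
      · linarith [h1.2]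
    · rw [hXdef]
      refine (hW3 ω hω).trans (mul_le_mul_of_nonneg_right (min_le_right _ _) ?_)
      linarith
  refine hsub.trans ?_
  exact hcore hk hk4 he hM hc hc' hc0 hc'0 hCt0 hCu0 hCt hCu hε hτ0 hτ1 hb1 hb0 hτF hw1 hwτ
    hT1 hc₀0 hTs hNT hK hK0 hτ₂0 hτ₂1 hτ₂2 hτ₂3 hc₅ hc₅c hδ0 hδ1 hδc hcR0 hcW0 hN'1 hN'r y1 y2 y3
    y4 y5 y8 y9 y10 y11 hYA hPdef hFP hP.hS hP.hJ hcWP hFinj hρ0 hρρ' hρ'2 hRξ ⟨r₁, hr₁⟩ hσ hD₀0
    hmemS hΔ hΔ₁ hΔ₁ρ hX₁ hX₂ hX₁K hX₂K hRdef hRlow hϱlow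

end Pool.Agent.H90Q
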