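import Pool.Agent.H90Q.Stm

/-!
# Project H90Q, piece DG (helper21): the proportional pairs
-/

set_option autoImplicit false

namespace Pool.Agent.H90Q

open Pool.Agent.Y716.Q

open scoped Classical in
theorem dg_pr_card {ι : Type} [Fintype ι] {X : Finset (ι → ℤ)} {B : ℝ} (hB0 : 0 < B)
    (hX : ∀ x ∈ X, Sz B x ∧ Prim x) : (prPairs X).card ≤ 2 * X.card := by
  have hmaps : ∀ p ∈ prPairs X, p.1 ∈ X := by
    intro p hp
    rw [prPairs, Finset.mem_filter, Finset.mem_product] at hp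
    exact hp.1.1
  apply Finset.card_le_mul_card_image_of_maps_to hmaps 2
  intro x hx
  obtain ⟨hx2, hx3⟩ := hX x hx
  have := prop_card hx3 hB0 hx2 (((prPairs X).filter (fun p => p.1 = x)).image (fun p => p.2)) ?_
  · rw [Finset.card_image_of_injOn] at this
    · exact this
    · intro p hp p' hp' heq
      have e1 := (Finset.mem_filter.mp (Finset.mem_coe.mp hp)).2
      have e2 := (Finset.mem_filter.mp (Finset.mem_coe.mp hp')).2
      exact Prod.ext (e1.trans e2.symm) heq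
  · intro y hy
    rw [Finset.mem_image] at hy
    obtain ⟨p, hp, rfl⟩ := hy
    rw [Finset.mem_filter, prPairs, Finset.mem_filter, Finset.mem_product] at hp
    refine ⟨(hX _ hp.1.1.2).2, ?_⟩
    rw [← hp.2]
    exact hp.1.2

open scoped Classical in
theorem dg_inner {ι : Type} [Fintype ι] (e : ℕ) (A : ℝ) (W : Finset ℤ) (u : ℤ → (ι → ℤ) → ℤ)
    (b₀ : ℕ) (x y : ι → ℤ) (a : ℤ)
    (hW : ∀ c : ℤ, (W.filter (fun ω => u ω y = c)).card ≤ b₀) :
    ∑ ω' ∈ W, c2t e A x y a (u ω' y) ≤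
      b₀ * ((formsZ ι (e + 2) A).filter (fun g => MvPolynomial.eval x g = a)).card := by
  set G := (formsZ ι (e + 2) A).filter (fun g => MvPolynomial.eval x g = a) with hG
  have h1 : ∀ ω' ∈ W, c2t e A x y a (u ω' y) =
      ∑ g ∈ G, if u ω' y = MvPolynomial.eval y g then 1 else 0 := by
    intro ω' _
    unfold c2t
    rw [← Finset.card_filter, hG, Finset.filter_filter]
    congr 1
    ext g
    simp only [Finset.mem_filter]
    constructor
    · rintro ⟨h, h2, h3⟩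
      exact ⟨h, h2, h3.symm⟩
    · rintro ⟨h, h2, h3⟩
      exact ⟨h, h2, h3.symm⟩
  rw [Finset.sum_congr rfl h1, Finset.sum_comm]
  have h2 : ∀ g ∈ G, (∑ ω' ∈ W, if u ω' y = MvPolynomial.eval y g then 1 else 0) ≤ b₀ := by
    intro g _
    rw [← Finset.card_filter]
    exact hW _
  refine (Finset.sum_le_sum h2).trans ?_
  rw [Finset.sum_const, smul_eq_mul, Nat.mul_comm]

theorem t_DG (ι : Type) [Fintype ι] : S_DG ι := by
  classical
  intro e W u b₀ X B a A hk1 ha hB hX haA hW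
  obtain ⟨c, hc⟩ : ∃ c, c1pt (Fintype.card ι) (e + 1) = c := ⟨_, rfl⟩
  rw [hc] at haA ⊢
  have hc0 : 0 < c := by
    rw [← hc]
    unfold c1pt
    have : 0 < Fintype.card ι := hk1
    positivity
  have hB0 : 0 < B := by linarith
  have hAp : 0 < A := lt_of_lt_of_le (by positivity : 0 < 2 * c * a) haA
  have h1 : ∀ ω ∈ W, ∀ p ∈ prPairs X,
      (∑ ω' ∈ W, (c2t e A p.1 p.2 (u ω p.1) (u ω' p.2) : ℝ)) ≤
        b₀ * (2 * c * (formsZ ι (e + 2) (2 * A)).card / (A * B ^ (e + 2))) := by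
    intro ω _ p hp
    rw [prPairs, Finset.mem_filter, Finset.mem_product] at hp
    obtain ⟨hx2, hx3, hx4⟩ := hX _ hp.1.1
    have key := cnt1_le (A := A) (e + 1) hx4 hx2 hB ha (by rw [hc]; exact haA) (u ω p.1)
    rw [hc] at key
    have h2 := dg_inner e A W u b₀ p.1 p.2 (u ω p.1) (hW _ hp.1.2)
    have h3 : (∑ ω' ∈ W, (c2t e A p.1 p.2 (u ω p.1) (u ω' p.2) : ℝ)) ≤
        b₀ * (((formsZ ι (e + 2) A).filter
          (fun g => MvPolynomial.eval p.1 g = u ω p.1)).card : ℝ) := by exact_mod_cast h2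
    refine h3.trans (mul_le_mul_of_nonneg_left ?_ (Nat.cast_nonneg _))
    rw [le_div_iff₀ (by positivity)]
    exact key
  have h4 : ((prPairs X).card : ℝ) ≤ 2 * X.card := by
    exact_mod_cast dg_pr_card hB0 (fun x hx => ⟨(hX x hx).1, (hX x hx).2.1⟩)
  have h5 : ∀ ω ∈ W, (∑ ω' ∈ W, ∑ p ∈ prPairs X,
      (c2t e A p.1 p.2 (u ω p.1) (u ω' p.2) : ℝ)) ≤
        2 * X.card * (b₀ * (2 * c * (formsZ ι (e + 2) (2 * A)).card / (A * B ^ (e + 2)))) := by
    intro ω hω
    rw [Finset.sum_comm]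
    refine (Finset.sum_le_sum (h1 ω hω)).trans ?_
    rw [Finset.sum_const, nsmul_eq_mul]
    exact mul_le_mul_of_nonneg_right h4 (by positivity)
  refine (Finset.sum_le_sum h5).trans (le_of_eq ?_)
  rw [Finset.sum_const, nsmul_eq_mul]
  ring

end Pool.Agent.H90Q
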