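import Pool.Agent.H90Q.Stm

/-!
# Project H90Q: piece EX (helper24), port of `exc_count` in `Y716/Q/Exc2.lean`
-/

set_option autoImplicit false

namespace Pool.Agent.H90Q

open Pool.Agent.Y716.Q

section
variable {ι : Type} [Fintype ι]

omit [Fintype ι] in
theorem EX_solC {b l N Q : ℕ} {η₀ δ h t s : ℝ} {ξ ζ : ι → ℝ} {S : ℕ} {xc c : ι → ℤ} {ωc cω : ℤ}
    {f : MvPolynomial ι ℤ} (hn : NearC b l η₀ h ξ t S Q xc ωc f) (hη : η₀ ≤ δ) (hh : 0 ≤ h)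
    (hNS : (N : ℤ) ∣ S) (hNQ : (N : ℤ) ∣ Q) (hNx : ∀ i, (N : ℤ) ∣ xc i - c i)
    (hNω : (N : ℤ) ∣ ωc - cω) (hζ : ∀ i, |ξ i - ζ i| ≤ δ) (hts : |t - s| ≤ δ) :
    SolC b l N c cω ζ s δ h f := by
  obtain ⟨x, ω, h1, h2, h3, h3', P, hP, h4, h4'⟩ := hn
  refine ⟨x, ω, h1, h2, fun i => ?_, ?_, P, hP, fun i => ?_, ?_⟩
  · have := dvd_add (hNS.trans (h3 i)) (hNx i)
    simpa using this
  · have := dvd_add (hNQ.trans h3') hNω
    simpa using this
  · have h5 : |(x i : ℝ) - P * ζ i| ≤ |(x i : ℝ) - P * ξ i| + |P * (ξ i - ζ i)| := by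
      have : (x i : ℝ) - P * ζ i = ((x i : ℝ) - P * ξ i) + P * (ξ i - ζ i) := by ring
      rw [this]
      exact abs_add_le _ _
    rw [abs_mul, abs_of_pos hP] at h5
    have h6 := mul_le_mul_of_nonneg_left (hζ i) hP.le
    have h7 := mul_le_mul_of_nonneg_right hη hP.le
    have h8 := h4 i
    linarith
  · have hR : 0 ≤ h * P ^ l := mul_nonneg hh (pow_nonneg hP.le _)
    have h5 : |(ω : ℝ) - h * P ^ l * s| ≤ |(ω : ℝ) - h * P ^ l * t| + |h * P ^ l * (t - s)| := by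
      have : (ω : ℝ) - h * P ^ l * s = ((ω : ℝ) - h * P ^ l * t) + h * P ^ l * (t - s) := by ring
      rw [this]
      exact abs_add_le _ _
    rw [abs_mul, abs_of_nonneg hR] at h5
    have h6 := mul_le_mul_of_nonneg_left hts hR
    have h7 := mul_le_mul_of_nonneg_right hη hR
    linarith

/-- degenerate real points -/
theorem EX_euler {e : ℕ} {f : MvPolynomial ι ℤ} (hf : f.IsHomogeneous (e + 2)) {ξ : ι → ℝ}
    (hξ : ∀ i, |ξ i| ≤ 1) {R : ℝ} (hR : 0 ≤ R)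
    (h : ∀ i, |MvPolynomial.aeval ξ (MvPolynomial.pderiv i f)| ≤ R) :
    |MvPolynomial.aeval ξ f| ≤ Fintype.card ι * R := by
  have h1 := hf.sum_X_mul_pderiv
  have h2 := congrArg (MvPolynomial.aeval ξ) h1
  rw [map_sum, map_nsmul, nsmul_eq_mul] at h2
  have h3 : |∑ i, MvPolynomial.aeval ξ (MvPolynomial.X i * MvPolynomial.pderiv i f)| ≤
      Fintype.card ι * R := by
    refine (Finset.abs_sum_le_sum_abs _ _).trans ?_
    refine (Finset.sum_le_card_nsmul _ _ R fun i _ => ?_).trans ?_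
    · rw [map_mul, MvPolynomial.aeval_X, abs_mul]
      calc |ξ i| * |MvPolynomial.aeval ξ (MvPolynomial.pderiv i f)| ≤ 1 * R :=
            mul_le_mul (hξ i) (h i) (abs_nonneg _) zero_le_one
        _ = R := one_mul R
    · rw [nsmul_eq_mul, Finset.card_univ]
  rw [h2, abs_mul] at h3
  have h4 : (1 : ℝ) ≤ |((e + 2 : ℕ) : ℝ)| := by
    rw [abs_of_nonneg (Nat.cast_nonneg _)]
    push_cast
    have : (0 : ℝ) ≤ e := Nat.cast_nonneg e
    linarith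
  have h5 : |MvPolynomial.aeval ξ f| ≤ |((e + 2 : ℕ) : ℝ)| * |MvPolynomial.aeval ξ f| :=
    le_mul_of_one_le_left (abs_nonneg _) h4
  exact h5.trans h3

end

open scoped Classical in
theorem t_EX (ι : Type) [Fintype ι] : S_EX ι := by
  intro hSTAB hAVG e b l hb hl hk2 hCLASS N hN c cω ζ s δ hδ ε hε
  obtain ⟨M, hM⟩ : ∃ M, (mons ι (e + 2)).card = M := ⟨_, rfl⟩
  obtain ⟨k, hk⟩ : ∃ k, Fintype.card ι = k := ⟨_, rfl⟩
  have hk1 : (1 : ℝ) ≤ k := by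
    have : 1 ≤ k := by omega
    exact_mod_cast this
  have hk0 : (0 : ℝ) < k := by linarith
  have hM0 : (0:ℝ) < 3 ^ M := by positivity
  obtain ⟨w₀, hw₀1, hcl⟩ := hCLASS (ε / (4 * 3 ^ M)) (by positivity)
  obtain ⟨w, hw⟩ : ∃ w, w = w₀ + N := ⟨_, rfl⟩
  obtain ⟨Cb, hCb0, hCb⟩ := bad_count_real (ι := ι) e
  obtain ⟨Cf, hCf1, hCf⟩ := form_bounds (ι := ι) (e + 1)
  have hCf0 : 0 < Cf := by linarith
  have hCf' : ∀ (f : MvPolynomial ι ℤ) (R : ℝ), IsF (e + 1) R f →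
      ∀ x : ι → ℝ, (∀ i, |x i| ≤ 1) → |MvPolynomial.aeval x f| ≤ Cf * R := by
    intro f R hf x hx
    have := (hCf f R hf.1 hf.2 1 (by norm_num)).1 x hx
    rwa [one_pow, mul_one] at this
  obtain ⟨γ₂, hγ₂⟩ : ∃ γ₂ : ℝ, γ₂ = min 1 (ε / (4 * Cb * 3 ^ M)) := ⟨_, rfl⟩
  have hγ₂0 : 0 < γ₂ := by rw [hγ₂]; exact lt_min one_pos (by positivity)
  have hγ₂1 : γ₂ ≤ 1 := by rw [hγ₂]; exact min_le_left _ _
  have hγ₂2 : γ₂ ^ 2 ≤ γ₂ := by
    rw [sq]; exact mul_le_of_le_one_left hγ₂0.le hγ₂1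
  have hγ₂C : Cb * γ₂ ^ 2 * 3 ^ M ≤ ε / 4 := by
    have h1 : γ₂ ≤ ε / (4 * Cb * 3 ^ M) := by rw [hγ₂]; exact min_le_right _ _
    rw [le_div_iff₀ (by positivity)] at h1
    have h3 : Cb * 3 ^ M * γ₂ ^ 2 ≤ Cb * 3 ^ M * γ₂ :=
      mul_le_mul_of_nonneg_left hγ₂2 (by positivity)
    linarith
  obtain ⟨γ, hγ⟩ : ∃ γ : ℝ, γ = γ₂ ^ 2 / (2 * k) := ⟨_, rfl⟩
  have hγ0 : 0 < γ := by rw [hγ]; positivity
  have h2γ : k * (2 * γ) = γ₂ ^ 2 := by rw [hγ]; field_simp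
  have hγ1 : 2 * γ ≤ γ₂ ^ 2 := by
    rw [← h2γ]
    exact le_mul_of_one_le_left (by positivity) hk1
  have hγ1' : γ ≤ 1 := by linarith
  obtain ⟨ℓ₀, hℓ₀⟩ : ∃ ℓ₀ : ℕ, (1 / 2 : ℝ) ^ ℓ₀ < ε / (4 * ((w + 1) * k * 3 ^ M) + 1) :=
    exists_pow_lt_of_lt_one (by positivity) (by norm_num)
  obtain ⟨ℓ, hℓ⟩ : ∃ ℓ : ℕ, ℓ = ℓ₀ + N := ⟨_, rfl⟩
  have hℓ1 : 1 ≤ ℓ := by omega
  have hℓε : (1 / 2 : ℝ) ^ ℓ * ((w + 1) * k * 3 ^ M) ≤ ε / 4 := by
    have h1 : (1 / 2 : ℝ) ^ ℓ ≤ (1 / 2) ^ ℓ₀ :=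
      pow_le_pow_of_le_one (by norm_num) (by norm_num) (by omega)
    have h2 : (0:ℝ) ≤ (w + 1) * k * 3 ^ M := by positivity
    have h3 := h1.trans hℓ₀.le
    rw [le_div_iff₀ (by positivity)] at h3
    have h4 : (0:ℝ) ≤ (1 / 2) ^ ℓ := by positivity
    linarith
  obtain ⟨Q, hQ⟩ : ∃ Q : ℕ, Q = (∏ p ∈ primesUpTo w, p) ^ (2 * (ℓ + (e + 2))) := ⟨_, rfl⟩
  have hQ1 : 1 ≤ Q := by
    rw [hQ]
    exact pow_pos (Finset.prod_pos (fun p hp => (mem_primesUpTo.mp hp).2.pos)) _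
  obtain ⟨η₀, hη₀⟩ : ∃ η₀ : ℝ, η₀ = min δ (γ / (Cf * (e + 2))) := ⟨_, rfl⟩
  have hη₀0 : 0 < η₀ := by rw [hη₀]; exact lt_min hδ (by positivity)
  have hη₀δ : η₀ ≤ δ := by rw [hη₀]; exact min_le_left _ _
  have hη₀γ : η₀ ≤ γ / (Cf * (e + 2)) := by rw [hη₀]; exact min_le_right _ _
  obtain ⟨η, hη0, hη1, hηη₀, h₁, hh₁1, hh₁⟩ := hcl w (by omega) γ hγ0 hγ1' Q hQ1 η₀ hη₀0
  have hηC : Cf * (e + 2) * η ≤ γ := by
    have h1 := hηη₀.trans hη₀γ
    rw [le_div_iff₀ (by positivity)] at h1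
    linarith
  refine ⟨max (max h₁ 2) (max (1 / γ₂ ^ 2) ((w : ℝ) ^ ℓ)), ?_, fun h hh => ?_⟩
  · exact hh₁1.trans ((le_max_left _ _).trans (le_max_left _ _))
  have hhh1 : h₁ ≤ h := (le_max_left _ _).trans ((le_max_left _ _).trans hh)
  have hhh2 : 2 ≤ h := (le_max_right _ _).trans ((le_max_left _ _).trans hh)
  have hhh3 : 1 / γ₂ ^ 2 ≤ h := (le_max_left _ _).trans ((le_max_right _ _).trans hh)
  have hhh4 : (w : ℝ) ^ ℓ ≤ h := (le_max_right _ _).trans ((le_max_right _ _).trans hh)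
  have hhH : h ≤ h ^ b := le_self_pow₀ (by linarith) (by omega)
  obtain ⟨H, hHh⟩ : ∃ H : ℝ, H = h ^ b := ⟨_, rfl⟩
  rw [← hHh] at hhH
  have hH2 : 2 ≤ H := hhh2.trans hhH
  have hH3 : 1 / γ₂ ^ 2 ≤ H := hhh3.trans hhH
  have hH4 : (w : ℝ) ^ ℓ ≤ H := hhh4.trans hhH
  have hH0 : 0 < H := by linarith
  rw [← hHh]
  obtain ⟨G, hG⟩ : ∃ G : ℝ, ((formsZ ι (e + 2) H).card : ℝ) = G := ⟨_, rfl⟩
  have hG0 : 0 < G := by
    rw [← hG]
    exact_mod_cast card_forms_pos (ι := ι) (e + 2) hH0.le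
  have h2H : ((formsZ ι (e + 2) (2 * H)).card : ℝ) ≤ 3 ^ M * G := by
    have := card_forms_upper (ι := ι) (e + 2) (A := H) (R := 2 * H) (c := 3)
      (by linarith) (by linarith) (by norm_num) (by linarith)
    rwa [hM, hG] at this
  -- good forms
  have hgood : (((formsZ ι (e + 2) H).filter (fun f => GoodC b w γ h Q N c cω ζ s δ f ∧
      ¬ SolC b l N c cω ζ s δ h f)).card : ℝ) ≤ ε / 4 * G := by
    have h1 := hAVG e b w γ η h Cf Q N c cω ζ s δ hQ1 (by linarith) hη0.le hη1 hCf' hηC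
      (fun f => ¬ SolC b l N c cω ζ s δ h f) (ε / (4 * 3 ^ M)) (by positivity) (by
        rintro f ⟨S, J, xc, v, ωc, ξ, t, i₀, h1, h2, h3, h4, h5, h6, h6', h8⟩
        have h7 := hh₁ h hhh1 f S J xc v ωc ξ t i₀ h1 h8 h2.le
        rw [h2] at h7
        refine (card_filter_le' _ _ _ (fun g _ hg hz => hg ?_)).trans h7
        have hNQ : (N : ℤ) ∣ Q := by
          rw [← h2]
          push_cast
          exact Dvd.dvd.mul_right h3 _
        have h9 := EX_solC hz hη₀δ (by linarith) h3 hNQ h4 h5 h6 h6'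
        unfold mem' at h9
        rwa [h2] at h9)
    rw [← hHh] at h1
    refine (card_filter_le' _ _ _ (fun _ _ h => h)).trans (h1.trans ?_)
    have h2 := mul_le_mul_of_nonneg_left h2H (by positivity : 0 ≤ ε / (4 * 3 ^ M))
    refine h2.trans (le_of_eq ?_)
    field_simp
  -- degenerate real zeros
  have hbadR : (((formsZ ι (e + 2) H).filter (fun f => BadR γ₂ H f)).card : ℝ) ≤ ε / 4 * G := by
    have h1 := hCb γ₂ H hγ₂0 hγ₂1 (by
      rw [div_le_iff₀ (by positivity)] at hH3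
      linarith)
    have h2 : (((formsZ ι (e + 2) H).filter (fun f => BadR γ₂ H f)).card : ℝ) ≤
        Cb * γ₂ ^ 2 * (formsZ ι (e + 2) (2 * H)).card :=
      (card_filter_le' _ _ _ (fun _ _ h => h)).trans h1
    have h3 := mul_le_mul_of_nonneg_left h2H (by positivity : 0 ≤ Cb * γ₂ ^ 2)
    have h4 := mul_le_mul_of_nonneg_right hγ₂C hG0.le
    linarith
  -- degenerate zeros modulo prime powers
  have hbadP : ∀ p ∈ primesUpTo w, (((formsZ ι (e + 2) H).filter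
      (fun f => BadAt (p ^ ℓ) f)).card : ℝ) ≤ (1 / 2 : ℝ) ^ ℓ * (k * (3 ^ M * G)) := by
    intro p hp
    obtain ⟨hp1, hp2⟩ := mem_primesUpTo.mp hp
    have h1 := bad_count_int (ι := ι) e (p ^ ℓ) (Nat.pos_of_ne_zero (pow_ne_zero _ hp2.ne_zero)) H
      hH0.le
    have h2 : (((formsZ ι (e + 2) H).filter (fun f => BadAt (p ^ ℓ) f)).card : ℝ) *
        ((p ^ ℓ : ℕ) : ℝ) ≤ k * ((formsZ ι (e + 2) (H + (p ^ ℓ : ℕ))).card : ℝ) := by
      rw [← hk]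
      have h1' := (Nat.cast_le (α := ℝ)).mpr h1
      rw [Nat.cast_mul, Nat.cast_mul] at h1'
      exact (mul_le_mul_of_nonneg_right (card_filter_le' _ _ _ (fun _ _ h => h))
        (Nat.cast_nonneg _)).trans h1'
    have h3 : ((p ^ ℓ : ℕ) : ℝ) ≤ H := by
      refine le_trans ?_ hH4
      push_cast
      apply pow_le_pow_left₀ (Nat.cast_nonneg _)
      exact_mod_cast hp1
    have h4 : ((formsZ ι (e + 2) (H + (p ^ ℓ : ℕ))).card : ℝ) ≤ 3 ^ M * G := by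
      refine le_trans ?_ h2H
      exact_mod_cast Finset.card_le_card (formsZ_mono (by linarith))
    have h5 : (2:ℝ) ^ ℓ ≤ ((p ^ ℓ : ℕ) : ℝ) := by
      push_cast
      apply pow_le_pow_left₀ (by norm_num)
      exact_mod_cast hp2.two_le
    have h6 : (((formsZ ι (e + 2) H).filter (fun f => BadAt (p ^ ℓ) f)).card : ℝ) * 2 ^ ℓ ≤
        k * (3 ^ M * G) :=
      (mul_le_mul_of_nonneg_left h5 (Nat.cast_nonneg _)).trans
        (h2.trans (mul_le_mul_of_nonneg_left h4 (Nat.cast_nonneg _)))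
    rw [one_div, inv_pow, inv_mul_eq_div, le_div_iff₀ (by positivity)]
    exact h6
  -- covering
  have hcov : (formsZ ι (e + 2) H).filter (fun f => LocC b N c cω ζ s δ h f ∧
      ¬ SolC b l N c cω ζ s δ h f) ⊆
      ((formsZ ι (e + 2) H).filter (fun f => GoodC b w γ h Q N c cω ζ s δ f ∧
        ¬ SolC b l N c cω ζ s δ h f)) ∪
      ((primesUpTo w).biUnion (fun p => (formsZ ι (e + 2) H).filter (fun f => BadAt (p ^ ℓ) f)) ∪
      (formsZ ι (e + 2) H).filter (fun f => BadR γ₂ H f)) := by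
    intro f hf
    obtain ⟨hf1, hf2, hf3⟩ := Finset.mem_filter.mp hf
    rw [Finset.mem_union, Finset.mem_union, Finset.mem_biUnion, Finset.mem_filter,
      Finset.mem_filter]
    by_cases hbf : ∃ p ∈ primesUpTo w, BadAt (p ^ ℓ) f
    · obtain ⟨p, hp, hb⟩ := hbf
      right; left
      exact ⟨p, hp, Finset.mem_filter.mpr ⟨hf1, hb⟩⟩
    by_cases hbr : BadR γ₂ H f
    · right; right; exact ⟨hf1, hbr⟩
    left
    refine ⟨hf1, ?_, hf3⟩
    push Not at hbf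
    have hhom := (mem_formsZ.mp hf1).1
    obtain ⟨S, J, xc, v, ωc, h1, h2, h3, h4, h4'⟩ := hSTAB w ℓ b (e + 2) hℓ1 (by omega) (by omega)
      f hhom N c cω (prime_pow_cond hN (by omega) (by omega))
      (fun p hp => ⟨hf2.1 p (mem_primesUpTo.mp hp).2 _, hbf p hp⟩)
    obtain ⟨r, ξ, t, hξr, hξ1, hξζ, hts, hξ0⟩ := hf2.2
    have h5 : ∃ i₀, 2 * γ * H ≤ |MvPolynomial.aeval ξ (MvPolynomial.pderiv i₀ f)| := by
      by_contra hcon
      push Not at hcon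
      apply hbr
      have h6 := EX_euler hhom hξ1 (R := 2 * γ * H) (by positivity) fun i => (hcon i).le
      rw [hk] at h6
      have h7 : (k : ℝ) * (2 * γ * H) = γ₂ ^ 2 * H := by rw [← h2γ]; ring
      rw [h7] at h6
      refine ⟨r, ξ, hξr, hξ1, h6, fun i => (hcon i).le.trans ?_⟩
      exact mul_le_mul_of_nonneg_right (hγ1.trans hγ₂2) hH0.le
    obtain ⟨i₀, hi₀⟩ := h5
    exact ⟨S, J, xc, v, ωc, ξ, t, i₀, h1, by rw [h2, hQ], h3, h4, h4', ⟨r, hξr⟩, hξ1, hξζ, hts,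
      hξ0, by rw [← hHh]; exact hi₀⟩
  have h1 : (((formsZ ι (e + 2) H).filter
      (fun f => LocC b N c cω ζ s δ h f ∧ ¬ SolC b l N c cω ζ s δ h f)).card : ℝ) ≤
      (((formsZ ι (e + 2) H).filter (fun f => GoodC b w γ h Q N c cω ζ s δ f ∧
        ¬ SolC b l N c cω ζ s δ h f)).card : ℝ) +
      ((∑ p ∈ primesUpTo w, (((formsZ ι (e + 2) H).filter (fun f => BadAt (p ^ ℓ) f)).card : ℝ)) +
      (((formsZ ι (e + 2) H).filter (fun f => BadR γ₂ H f)).card : ℝ)) := by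
    have h2 := (Finset.card_le_card hcov).trans ((Finset.card_union_le _ _).trans
      (Nat.add_le_add_left ((Finset.card_union_le _ _).trans
        (Nat.add_le_add_right Finset.card_biUnion_le _)) _))
    exact_mod_cast h2
  have h2 : (∑ p ∈ primesUpTo w, (((formsZ ι (e + 2) H).filter
      (fun f => BadAt (p ^ ℓ) f)).card : ℝ)) ≤ ε / 4 * G := by
    calc _ ≤ (primesUpTo w).card • ((1 / 2 : ℝ) ^ ℓ * (k * (3 ^ M * G))) :=
          Finset.sum_le_card_nsmul _ _ _ hbadP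
      _ = ((primesUpTo w).card : ℝ) * ((1 / 2 : ℝ) ^ ℓ * (k * (3 ^ M * G))) := by
          rw [nsmul_eq_mul]
      _ ≤ (w + 1) * ((1 / 2 : ℝ) ^ ℓ * (k * (3 ^ M * G))) := by
          apply mul_le_mul_of_nonneg_right _ (by positivity)
          have : (primesUpTo w).card ≤ w + 1 := by
            unfold primesUpTo
            refine (Finset.card_filter_le _ _).trans ?_
            rw [Finset.card_range]
          exact_mod_cast this
      _ = ((1 / 2 : ℝ) ^ ℓ * ((w + 1) * k * 3 ^ M)) * G := by ring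
      _ ≤ ε / 4 * G := mul_le_mul_of_nonneg_right hℓε hG0.le
  rw [hG]
  have h3 : 0 < ε * G := by positivity
  linarith

end Pool.Agent.H90Q
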