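import Pool.Agent.H90Q.Stm
import Pool.Agent.Y697.C13.Main

/-!
# Smooth cyclic covers: from all covers to the smooth ones
-/

namespace Pool.Agent.H90Q

open Pool.Agent.Y716.Q Pool.Agent.Y716.C Filter Topology Pool.Agent.Y697.C13

theorem fin_ratio_aux {T a b a' b' ns : ℕ → ℝ} {c : ℝ} (hc : 0 < c) (hT : ∀ᶠ H in atTop, 0 < T H)
    (hns0 : ∀ H, 0 ≤ ns H) (hns : ∀ ε : ℝ, 0 < ε → ∀ᶠ H in atTop, ns H ≤ ε * T H)
    (hb : ∀ᶠ H in atTop, c * T H ≤ b H) (hab : ∀ H, a' H ≤ b' H) (hbb : ∀ H, b' H ≤ b H)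
    (ha : ∀ H, a H - ns H ≤ a' H) (ha0 : ∀ H, 0 ≤ a' H)
    (h : Tendsto (fun H => a H / b H) atTop (𝓝 1)) :
    Tendsto (fun H => a' H / b' H) atTop (𝓝 1) := by
  have h1 : Tendsto (fun H => ns H / b H) atTop (𝓝 0) := by
    rw [Metric.tendsto_nhds]
    intro ε hε
    filter_upwards [hT, hb, hns (ε / 2 * c) (by positivity)] with H h1 h2 h3
    have hb0 : 0 < b H := lt_of_lt_of_le (by positivity) h2
    rw [Real.dist_eq, sub_zero, abs_of_nonneg (div_nonneg (hns0 H) hb0.le), div_lt_iff₀ hb0]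
    have h4 : ε / 2 * (c * T H) ≤ ε / 2 * b H := mul_le_mul_of_nonneg_left h2 (by positivity)
    have h5 : 0 < ε / 2 * b H := by positivity
    linarith
  have h2 : Tendsto (fun H => a H / b H - ns H / b H) atTop (𝓝 1) := by
    have := h.sub h1
    rwa [sub_zero] at this
  refine tendsto_of_tendsto_of_tendsto_of_le_of_le' h2 tendsto_const_nhds ?_ ?_
  · filter_upwards [hT, hb] with H h3 h4
    have hb0 : 0 < b H := lt_of_lt_of_le (by positivity) h4
    rw [← sub_div]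
    have h5 : (a H - ns H) / b H ≤ a' H / b H := div_le_div_of_nonneg_right (ha H) hb0.le
    refine h5.trans ?_
    rcases eq_or_lt_of_le ((ha0 H).trans (hab H)) with h6 | h6
    · have h7 : a' H = 0 := le_antisymm (by rw [h6]; exact hab H) (ha0 H)
      rw [h7, zero_div, zero_div]
    · exact div_le_div_of_nonneg_left (ha0 H) h6 (hbb H)
  · filter_upwards with H
    exact div_le_one_of_le₀ (hab H) ((ha0 H).trans (hab H))

theorem fin_card_add {α : Type*} (s : Finset α) (p q r : α → Prop) {_ : DecidablePred p}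
    {_ : DecidablePred q} {_ : DecidablePred r} (h : ∀ x ∈ s, p x → q x ∨ r x) :
    ((s.filter p).card : ℝ) ≤ (s.filter q).card + (s.filter r).card := by
  classical
  have h1 : s.filter p ⊆ s.filter q ∪ s.filter r := by
    intro x hx
    rw [Finset.mem_filter] at hx
    rw [Finset.mem_union, Finset.mem_filter, Finset.mem_filter]
    rcases h x hx.1 hx.2 with h2 | h2
    · left; exact ⟨hx.1, h2⟩
    · right; exact ⟨hx.1, h2⟩
  have h2 := (Finset.card_le_card h1).trans (Finset.card_union_le _ _)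
  exact_mod_cast h2

/-- The cyclic cover `z ^ b = f(x)` is smooth (Jacobian criterion). -/
def SmoothC {ι : Type} (b : ℕ) (f : MvPolynomial ι ℤ) : Prop :=
  ∀ (K : Type) [Field K] [CharZero K] (x : ι → K) (z : K), x ≠ 0 →
    MvPolynomial.aeval x f = z ^ b →
    (∃ i, MvPolynomial.aeval x (MvPolynomial.pderiv i f) ≠ 0) ∨ (b : K) * z ^ (b - 1) ≠ 0

open scoped Classical in
theorem fin_smooth (ι : Type) [Fintype ι] (e b : ℕ) (hb : 1 ≤ b) :
    ∀ ε : ℝ, 0 < ε → ∃ H₀ : ℝ, ∀ H : ℝ, H₀ ≤ H →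
    (((formsZ ι (e + 2) H).filter (fun f => ¬ SmoothC b f)).card : ℝ) ≤
      ε * (formsZ ι (e + 2) H).card := by
  intro ε hε
  obtain ⟨H₀, hH₀⟩ := smooth_dense ι (fun _ : Fin 1 => e) ε hε
  refine ⟨H₀, fun H hH => ?_⟩
  have h1 := hH₀ H hH
  have h2 : (sysZ ι (fun _ : Fin 1 => e) H).card = (formsZ ι (e + 2) H).card := by
    rw [card_sysZ]
    simp
  rw [h2] at h1
  refine le_trans ?_ h1
  have h3 : ((formsZ ι (e + 2) H).filter (fun f => ¬ SmoothC b f)).card ≤
      ((sysZ ι (fun _ : Fin 1 => e) H).filter (fun f => ¬ SmoothS f)).card := by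
    apply Finset.card_le_card_of_injOn (fun f _ => f)
    · intro f hf
      have hf' := Finset.mem_filter.mp (Finset.mem_coe.mp hf)
      simp only [Finset.coe_filter, Set.mem_setOf_eq]
      refine ⟨mem_sysZ.mpr (fun j => mem_formsZ.mp hf'.1), fun hs => hf'.2 ?_⟩
      intro K _ _ x z hx hxz
      by_cases hz : z = 0
      · left
        rw [hz, zero_pow (by omega)] at hxz
        obtain ⟨i, hi⟩ := hs K x (fun _ => 1) hx (fun h0 => one_ne_zero (congrFun h0 0))
          (fun _ => hxz)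
        refine ⟨i, ?_⟩
        simpa using hi
      · right
        exact mul_ne_zero (by exact_mod_cast (by omega : b ≠ 0)) (pow_ne_zero _ hz)
    · intro f _ g _ hfg
      exact congrFun hfg 0
  exact_mod_cast h3

theorem fin_sol_els {ι : Type} {b : ℕ} {f : MvPolynomial ι ℤ}
    (h : ∃ (x : ι → ℤ) (ω : ℤ), x ≠ 0 ∧ MvPolynomial.eval x f = ω ^ b) : ElsC b f := by
  obtain ⟨x, ω, hx, hf⟩ := h
  constructor
  · refine ⟨fun i => (x i : ℝ), (ω : ℝ), ?_, by rw [aeval_cast, hf]; push_cast; rfl⟩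
    intro h0
    apply hx
    funext i
    have := congrFun h0 i
    simp only [Pi.zero_apply] at this
    exact_mod_cast this
  · intro p _
    refine ⟨fun i => (x i : ℚ_[p]), (ω : ℚ_[p]), ?_, by rw [aeval_cast, hf]; push_cast; rfl⟩
    intro h0
    apply hx
    funext i
    have := congrFun h0 i
    simp only [Pi.zero_apply] at this
    exact_mod_cast this

/-- The main theorem for smooth covers. -/
theorem fin_main (ι : Type) [Fintype ι] (e b l : ℕ) (hb : 1 ≤ b) (hpos : S_POS ι e b)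
    (hwm : S_WM ι e b l) :
    (∃ m : ℕ → ℕ, Tendsto m atTop atTop ∧ Tendsto (fun H : ℕ =>
      (({f : MvPolynomial ι ℤ | (f.IsHomogeneous (e + 2) ∧ ∀ s, |f.coeff s| ≤ (H : ℤ)) ∧
        SmoothC b f ∧ ElsC b f ∧ WAC b l (m H) H f} : Set _).ncard : ℝ) /
      (({f : MvPolynomial ι ℤ | (f.IsHomogeneous (e + 2) ∧ ∀ s, |f.coeff s| ≤ (H : ℤ)) ∧
        SmoothC b f ∧ ElsC b f} : Set _).ncard : ℝ)) atTop (𝓝 1)) ∧
    ∃ c : ℝ, 0 < c ∧ ∀ᶠ H : ℕ in atTop,
      c * (({f : MvPolynomial ι ℤ | f.IsHomogeneous (e + 2) ∧ ∀ s, |f.coeff s| ≤ (H : ℤ)} :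
        Set _).ncard : ℝ) ≤
      (({f : MvPolynomial ι ℤ | (f.IsHomogeneous (e + 2) ∧ ∀ s, |f.coeff s| ≤ (H : ℤ)) ∧
        SmoothC b f ∧ ElsC b f} : Set _).ncard : ℝ) := by
  classical
  obtain ⟨c, hc0, H₁, hH₁⟩ := hpos
  have hset : ∀ (H : ℕ) (p : MvPolynomial ι ℤ → Prop),
      ({f : MvPolynomial ι ℤ | (f.IsHomogeneous (e + 2) ∧ ∀ s, |f.coeff s| ≤ (H : ℤ)) ∧ p f} :
        Set _).ncard = ((formsZ ι (e + 2) (H : ℝ)).filter p).card := by
    intro H p
    rw [← ncard_eq_filter']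
    congr 1
    ext f
    simp only [Set.mem_setOf_eq, isF_iff]
  have hT : ∀ H : ℕ, (0:ℝ) < ((formsZ ι (e + 2) (H : ℝ)).card : ℝ) := fun H => by
    exact_mod_cast card_forms_pos (ι := ι) (e + 2) (Nat.cast_nonneg H)
  have hns : ∀ ε : ℝ, 0 < ε → ∀ᶠ H : ℕ in atTop,
      (((formsZ ι (e + 2) (H : ℝ)).filter (fun f => ¬ SmoothC b f)).card : ℝ) ≤
        ε * (formsZ ι (e + 2) (H : ℝ)).card := by
    intro ε hε
    obtain ⟨H₀, hH₀⟩ := fin_smooth ι e b hb ε hε
    filter_upwards [eventually_ge_atTop ⌈H₀⌉₊] with H hH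
    exact hH₀ (H : ℝ) ((Nat.le_ceil H₀).trans (by exact_mod_cast hH))
  have hels : ∀ᶠ H : ℕ in atTop, c * ((formsZ ι (e + 2) (H : ℝ)).card : ℝ) ≤
      (((formsZ ι (e + 2) (H : ℝ)).filter (fun f => ElsC b f)).card : ℝ) := by
    filter_upwards [eventually_ge_atTop ⌈H₁⌉₊] with H hH
    have h1 := hH₁ (H : ℝ) ((Nat.le_ceil H₁).trans (by exact_mod_cast hH))
    refine h1.trans ?_
    exact card_filter_le' _ _ _ (fun f _ hf => fin_sol_els hf)
  constructor
  · obtain ⟨m, hm, h⟩ := hwm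
    refine ⟨m, hm, ?_⟩
    simp only [hset] at h ⊢
    refine fin_ratio_aux (T := fun H : ℕ => ((formsZ ι (e + 2) (H : ℝ)).card : ℝ))
      (a := fun H : ℕ => (((formsZ ι (e + 2) (H : ℝ)).filter
        (fun f => ElsC b f ∧ WAC b l (m H) H f)).card : ℝ))
      (b := fun H : ℕ => (((formsZ ι (e + 2) (H : ℝ)).filter (fun f => ElsC b f)).card : ℝ))
      (ns := fun H : ℕ => (((formsZ ι (e + 2) (H : ℝ)).filter
        (fun f => ¬ SmoothC b f)).card : ℝ))
      hc0 (Eventually.of_forall hT) (fun H => Nat.cast_nonneg _) hns hels (fun H => ?_)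
      (fun H => ?_) (fun H => ?_) (fun H => Nat.cast_nonneg _) (by convert h)
    · exact card_filter_le' _ _ _ (fun f hf h => ⟨h.1, h.2.1⟩)
    · exact card_filter_le' _ _ _ (fun f hf h => h.2)
    · rw [sub_le_iff_le_add]
      refine fin_card_add _ (fun f => ElsC b f ∧ WAC b l (m H) H f)
        (fun f => SmoothC b f ∧ ElsC b f ∧ WAC b l (m H) H f) (fun f => ¬ SmoothC b f)
        (fun f _ hf => ?_)
      by_cases hs : SmoothC b f
      · left; exact ⟨hs, hf⟩
      · right; exact hs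
  · refine ⟨c / 2, by positivity, ?_⟩
    filter_upwards [hels, hns (c / 2) (by positivity)] with H h1 h2
    rw [hset]
    have h3 : ({f : MvPolynomial ι ℤ | f.IsHomogeneous (e + 2) ∧
        ∀ s, |f.coeff s| ≤ (H : ℤ)} : Set _).ncard = (formsZ ι (e + 2) (H : ℝ)).card := by
      have h4 := hset H (fun _ => True)
      simp only [and_true, Finset.filter_true] at h4
      exact h4
    rw [h3]
    have h4 : (((formsZ ι (e + 2) (H : ℝ)).filter (fun f => ElsC b f)).card : ℝ) ≤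
        (((formsZ ι (e + 2) (H : ℝ)).filter (fun f => SmoothC b f ∧ ElsC b f)).card : ℝ) +
        (((formsZ ι (e + 2) (H : ℝ)).filter (fun f => ¬ SmoothC b f)).card : ℝ) := by
      refine fin_card_add _ _ _ _ (fun f _ hf => ?_)
      by_cases hs : SmoothC b f
      · left; exact ⟨hs, hf⟩
      · right; exact hs
    have h5 : (((formsZ ι (e + 2) (H : ℝ)).filter (fun f => SmoothC b f ∧ ElsC b f)).card : ℝ) ≤
        ((Finset.filter (fun f => SmoothC b f ∧ ElsC b f) (formsZ ι (e + 2) (H : ℝ))).card : ℝ) :=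
      le_rfl
    refine le_trans ?_ (le_trans h5 (card_filter_le' _ _ _ (fun _ _ h => h)))
    linarith

end Pool.Agent.H90Q
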