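import Pool.Agent.H90Q.Stm

/-!
# Project H90Q, piece GS (helper58): the contribution of the pairs in general position, two targets

Port of `good_sum_D` (`Y716/Q/Good.lean`) and `good_sum` (`Y716/Q/Moment.lean`).
-/

set_option autoImplicit false

namespace Pool.Agent.H90Q

open Pool.Agent.Y716.Q

section

variable {ι : Type} [Fintype ι]

open scoped Classical in
theorem good_sum_D2 (e : ℕ) {w : ℕ} {fc fc' : MvPolynomial ι ℤ} {S J : ℕ} {xc : ι → ℤ}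
    {P : ℝ} {ξ : ι → ℝ} {i₀ : ι} {ρ ρ' B a A A₂ Δ κ : ℝ} (ha : 1 ≤ a) (haB : a ≤ B) (hκ : 0 < κ)
    {Lg : ℝ}
    (hLg : ∀ s : ℕ, (s : ℝ) ≤ 15 * (Fintype.card ι) ^ 2 * a * B → (Nat.log 2 s : ℝ) ≤ Lg)
    (u u' : (ι → ℤ) → ℤ)
    (hu : ∀ x ∈ box P ξ i₀ ρ ρ' S xc, MvPolynomial.eval x fc = -(((S * J : ℕ) : ℤ) * u x))
    (hu' : ∀ x ∈ box P ξ i₀ ρ ρ' S xc, MvPolynomial.eval x fc' = -(((S * J : ℕ) : ℤ) * u' x))
    {K N D : ℕ} (hK : 0 < K) (hD : 0 < D) (hΔ : 0 ≤ Δ) (hΔK : K * D ≤ Δ)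
    (hA : A + (c1pt (Fintype.card ι) (e + 1) + cker (Fintype.card ι) e *
      (1 + (mons ι (e + 2)).card * c1pt (Fintype.card ι) (e + 1)) / κ) *
      (Δ / B ^ (e + 2) + K * a) + cker (Fintype.card ι) e * ((1 + Lg) * a ^ 2) ≤ A₂)
    {R₁ R₂ : ℝ} (hR₂ : 0 ≤ R₂)
    (hL1 : ∀ g ∈ formsZ ι (e + 2) A₂,
      ((locSet P ξ i₀ ρ ρ' S J xc (mem' fc S J g) K 1 0 ((S * J : ℕ) * Δ)).card : ℝ) ≤ R₁)
    (hL2 : ∀ g ∈ formsZ ι (e + 2) A₂, ∀ ζ,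
      ((locSet P ξ i₀ ρ ρ' S J xc (mem' fc' S J g) K D ζ ((S * J : ℕ) * Δ)).card : ℝ) ≤ R₂)
    (Gd : Finset ((ι → ℤ) × (ι → ℤ)))
    (hGd : ∀ p ∈ Gd, p.1 ∈ testSet B a P ξ i₀ ρ ρ' S xc ∧ p.2 ∈ testSet B a P ξ i₀ ρ ρ' S xc ∧
      GoodPair w K N B κ p D) :
    (∑ p ∈ Gd, (c2t e A p.1 p.2 (u p.1) (u' p.2) : ℝ)) * ((2 * Δ / K - 1) * (2 * Δ / (K * D) - 1)) ≤
      (formsZ ι (e + 2) A₂).card * (R₁ * (D * R₂)) := by
  -- the residue multipliers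
  have hlam : ∀ p ∈ Gd, ∃ c : ℕ, c < D ∧ ∀ i, (D : ℤ) ∣ p.2 i - c * p.1 i := by
    intro p hp
    obtain ⟨h1, h2, g, hg0, hg1, hg2, hg3, hg4, hg5, hg6, hg7, hg8⟩ := hGd p hp
    exact exists_lambda (mem_testSet.mp h1).2.2.1 hD (fun i j => hg6.trans (hg1 i j))
  choose! lam hlam1 hlam2 using hlam
  set Δ₁ : ℝ := ((S * J : ℕ) : ℝ) * Δ with hΔ₁
  set Loc : MvPolynomial ι ℤ → Finset (ι → ℤ) := fun g =>
    locSet P ξ i₀ ρ ρ' S J xc (mem' fc S J g) K 1 0 Δ₁ with hLoc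
  set LocD : MvPolynomial ι ℤ → (ι → ℤ) → Finset (ι → ℤ) := fun g ζ =>
    locSet P ξ i₀ ρ ρ' S J xc (mem' fc' S J g) K D ζ Δ₁ with hLocD
  have hA1 : ∀ p ∈ Gd, (c2t e A p.1 p.2 (u p.1) (u' p.2) : ℝ) * ((2 * Δ / K - 1) * (2 * Δ / (K * D) - 1)) ≤
      (((formsZ ι (e + 2) A₂).filter
        (fun g => p.1 ∈ Loc g ∧ p.2 ∈ LocD g (fun i => (lam p : ℤ) * p.1 i))).card : ℝ) := by
    intro p hp
    obtain ⟨h1, h2, g, hg0, hg1, hg2, hg3, hg4, hg5, hg6, hg7, hg8⟩ := hGd p hp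
    obtain ⟨hx1, hx2, hx3, hx4⟩ := mem_testSet.mp h1
    obtain ⟨hy1, hy2, hy3, hy4⟩ := mem_testSet.mp h2
    have key := cnt2_cond e hx4 hx2 hx3 hy4 hy2 ha haB hg0 hg1 hg2 hκ hg3 hLg (u p.1) (u' p.2)
      hK hD hg7 hΔ hΔK hA
    refine key.trans ?_
    have : ((formsZ ι (e + 2) A₂).filter
      (fun f => ((K : ℤ) ∣ MvPolynomial.eval p.1 f - u p.1 ∧
        |((MvPolynomial.eval p.1 f - u p.1 : ℤ) : ℝ)| ≤ Δ) ∧
        ((K : ℤ) ∣ MvPolynomial.eval p.2 f - u' p.2 ∧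
        |((MvPolynomial.eval p.2 f - u' p.2 : ℤ) : ℝ)| ≤ Δ))).card ≤ ((formsZ ι (e + 2) A₂).filter
        (fun g => p.1 ∈ Loc g ∧ p.2 ∈ LocD g (fun i => (lam p : ℤ) * p.1 i))).card := by
      apply Finset.card_le_card
      intro f hf
      rw [Finset.mem_filter] at hf ⊢
      obtain ⟨hf1, ⟨hf2, hf3⟩, hf4, hf5⟩ := hf
      refine ⟨hf1, ?_, ?_⟩
      · exact mem_locSet_of hx1 (hu _ hx1) hf2 hf3 (fun i => by simp)
      · exact mem_locSet_of hy1 (hu' _ hy1) hf4 hf5 (hlam2 p hp)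
    exact_mod_cast this
  have hB1 : ∑ p ∈ Gd, (((formsZ ι (e + 2) A₂).filter
      (fun g => p.1 ∈ Loc g ∧ p.2 ∈ LocD g (fun i => (lam p : ℤ) * p.1 i))).card : ℝ) =
      ∑ g ∈ formsZ ι (e + 2) A₂, ((Gd.filter
        (fun p => p.1 ∈ Loc g ∧ p.2 ∈ LocD g (fun i => (lam p : ℤ) * p.1 i))).card : ℝ) := by
    simp only [Finset.card_filter, Nat.cast_sum]
    exact Finset.sum_comm
  have hB2 : ∀ g ∈ formsZ ι (e + 2) A₂, ((Gd.filter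
        (fun p => p.1 ∈ Loc g ∧ p.2 ∈ LocD g (fun i => (lam p : ℤ) * p.1 i))).card : ℝ) ≤
        R₁ * (D * R₂) := by
    intro g hg
    have hsub : (Gd.filter (fun p => p.1 ∈ Loc g ∧ p.2 ∈ LocD g (fun i => (lam p : ℤ) * p.1 i))) ⊆
        ((Loc g) ×ˢ (Finset.range D)).biUnion
          (fun r => (LocD g (fun i => ((r.2 : ℕ) : ℤ) * r.1 i)).image (fun y => (r.1, y))) := by
      intro p hp
      rw [Finset.mem_filter] at hp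
      rw [Finset.mem_biUnion]
      refine ⟨(p.1, lam p), ?_, ?_⟩
      · rw [Finset.mem_product]
        exact ⟨hp.2.1, Finset.mem_range.mpr (hlam1 p hp.1)⟩
      · rw [Finset.mem_image]
        exact ⟨p.2, hp.2.2, rfl⟩
    have h1 := (Finset.card_le_card hsub).trans Finset.card_biUnion_le
    have h1' := (Nat.cast_le (α := ℝ)).mpr h1
    rw [Nat.cast_sum] at h1'
    refine h1'.trans ?_
    have h2 : ∀ r ∈ (Loc g) ×ˢ (Finset.range D),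
        (((LocD g (fun i => ((r.2 : ℕ) : ℤ) * r.1 i)).image (fun y => (r.1, y))).card : ℝ) ≤ R₂ := by
      intro r _
      refine le_trans ?_ (hL2 g hg (fun i => ((r.2 : ℕ) : ℤ) * r.1 i))
      exact_mod_cast Finset.card_image_le
    refine (Finset.sum_le_sum h2).trans ?_
    rw [Finset.sum_const, nsmul_eq_mul, Finset.card_product, Finset.card_range]
    push_cast
    rw [mul_assoc]
    apply mul_le_mul_of_nonneg_right (hL1 g hg) (by positivity)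
  rw [Finset.sum_mul]
  refine (Finset.sum_le_sum hA1).trans ?_
  rw [hB1]
  refine (Finset.sum_le_sum hB2).trans ?_
  rw [Finset.sum_const, nsmul_eq_mul]

open scoped Classical in
theorem good_sum2 (e : ℕ) {w : ℕ} (hw : 1 ≤ w) {fc fc' : MvPolynomial ι ℤ} {S J : ℕ} {xc : ι → ℤ}
    {P : ℝ} {ξ : ι → ℝ} {i₀ : ι} {ρ ρ' B a A A₂ Δ κ : ℝ} (ha : 1 ≤ a) (haB : a ≤ B) (hκ : 0 < κ)
    {Lg : ℝ}
    (hLg : ∀ s : ℕ, (s : ℝ) ≤ 15 * (Fintype.card ι) ^ 2 * a * B → (Nat.log 2 s : ℝ) ≤ Lg)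
    (u u' : (ι → ℤ) → ℤ)
    (hu : ∀ x ∈ box P ξ i₀ ρ ρ' S xc, MvPolynomial.eval x fc = -(((S * J : ℕ) : ℤ) * u x))
    (hu' : ∀ x ∈ box P ξ i₀ ρ ρ' S xc, MvPolynomial.eval x fc' = -(((S * J : ℕ) : ℤ) * u' x))
    {K N : ℕ} (hK : 0 < K) (hΔ : 0 ≤ Δ) (hΔK : K * N ≤ Δ)
    (hA : A + (c1pt (Fintype.card ι) (e + 1) + cker (Fintype.card ι) e *
      (1 + (mons ι (e + 2)).card * c1pt (Fintype.card ι) (e + 1)) / κ) *
      (Δ / B ^ (e + 2) + K * a) + cker (Fintype.card ι) e * ((1 + Lg) * a ^ 2) ≤ A₂)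
    {R₁ E : ℝ} {R₂ : ℕ → ℝ} (hR₂ : ∀ D, 0 ≤ R₂ D) (hE : 0 ≤ E)
    (hL1 : ∀ g ∈ formsZ ι (e + 2) A₂,
      ((locSet P ξ i₀ ρ ρ' S J xc (mem' fc S J g) K 1 0 ((S * J : ℕ) * Δ)).card : ℝ) ≤ R₁)
    (hL2 : ∀ D : ℕ, 0 < D → D ≤ N → (∀ q : ℕ, q.Prime → q ≤ w → ¬ q ∣ D) →
      ∀ g ∈ formsZ ι (e + 2) A₂, ∀ ζ,
      ((locSet P ξ i₀ ρ ρ' S J xc (mem' fc' S J g) K D ζ ((S * J : ℕ) * Δ)).card : ℝ) ≤ R₂ D)
    (hED : ∀ D : ℕ, 0 < D → D ≤ N → (formsZ ι (e + 2) A₂).card * (R₁ * (D * R₂ D)) ≤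
      (formsZ ι (e + 2) A).card * (E * (1 / (D : ℝ) ^ 2)) *
        ((2 * Δ / K - 1) * (2 * Δ / (K * D) - 1)))
    (Gd : Finset ((ι → ℤ) × (ι → ℤ)))
    (hGd : ∀ p ∈ Gd, p.1 ∈ testSet B a P ξ i₀ ρ ρ' S xc ∧ p.2 ∈ testSet B a P ξ i₀ ρ ρ' S xc ∧
      ∃ D, GoodPair w K N B κ p D) :
    ∑ p ∈ Gd, (c2t e A p.1 p.2 (u p.1) (u' p.2) : ℝ) ≤ (formsZ ι (e + 2) A).card * E * (1 + 1 / w) := by
  choose! Df hDf using fun p hp => (hGd p hp).2.2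
  set 𝒟 := Gd.image Df with h𝒟
  have hKr : (1:ℝ) ≤ K := by exact_mod_cast hK
  have h𝒟p : ∀ D ∈ 𝒟, 0 < D ∧ D ≤ N ∧ (∀ q : ℕ, q.Prime → q ≤ w → ¬ q ∣ D) := by
    intro D hD
    obtain ⟨p, hp, rfl⟩ := Finset.mem_image.mp hD
    obtain ⟨g, hg0, hg1, hg2, hg3, hg4, hg5, hg6, hg7, hg8⟩ := hDf p hp
    exact ⟨hg4, hg5, hg8⟩
  rw [← Finset.sum_fiberwise_of_maps_to (fun p hp => Finset.mem_image_of_mem Df hp :
    ∀ p ∈ Gd, Df p ∈ 𝒟)]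
  have hterm : ∀ D ∈ 𝒟, ∑ p ∈ Gd.filter (fun p => Df p = D), (c2t e A p.1 p.2 (u p.1) (u' p.2) : ℝ) ≤
      (formsZ ι (e + 2) A).card * E * (1 / (D : ℝ) ^ 2) := by
    intro D hD
    obtain ⟨hD1, hD2, hD3⟩ := h𝒟p D hD
    have hD1r : (1:ℝ) ≤ D := by exact_mod_cast hD1
    have hKD : (K:ℝ) * D ≤ Δ := by
      have h0 : (D:ℝ) ≤ N := by exact_mod_cast hD2
      have h1 := mul_le_mul_of_nonneg_left h0 (by linarith : (0:ℝ) ≤ K)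
      linarith
    have key := good_sum_D2 e ha haB hκ hLg u u' hu hu' hK hD1 hΔ hKD hA (hR₂ D) hL1
      (hL2 D hD1 hD2 hD3) (Gd.filter (fun p => Df p = D)) (by
        intro p hp
        rw [Finset.mem_filter] at hp
        have h1 := hGd p hp.1
        refine ⟨h1.1, h1.2.1, ?_⟩
        rw [← hp.2]
        exact hDf p hp.1)
    have key2 := key.trans (hED D hD1 hD2)
    have hpos1 : 0 < 2 * Δ / K - 1 := by
      rw [sub_pos, lt_div_iff₀ (by linarith)]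
      have h0 : (K:ℝ) ≤ K * D := le_mul_of_one_le_right (by linarith) hD1r
      linarith
    have hpos2 : 0 < 2 * Δ / (K * D) - 1 := by
      rw [sub_pos, lt_div_iff₀ (by positivity)]
      have : 0 < (K:ℝ) * D := by positivity
      linarith
    have := le_of_mul_le_mul_right key2 (mul_pos hpos1 hpos2)
    refine this.trans (le_of_eq ?_)
    ring
  refine (Finset.sum_le_sum hterm).trans ?_
  rw [← Finset.mul_sum]
  apply mul_le_mul_of_nonneg_left _ (by positivity)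
  exact sum_D_bound hw 𝒟 (fun D hD => ⟨(h𝒟p D hD).2.1, one_or_gt (h𝒟p D hD).1 (h𝒟p D hD).2.2⟩)

end

/-- **GS.** -/
theorem t_GS (ι : Type) [Fintype ι] : S_GS ι := by
  intro e w hw fc fc' S J xc P ξ i₀ ρ ρ' B a A A₂ Δ κ ha haB hκ Lg hLg u u' hu hu' K N hK hΔ hΔK hA
    R₁ E R₂ hR₂ hE hL1 hL2 hED Gd hGd
  exact good_sum2 e hw ha haB hκ hLg u u' hu hu' hK hΔ hΔK hA hR₂ hE hL1 hL2 hED Gd hGd

end Pool.Agent.H90Q
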