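import Pool.Agent.H90Q.Stm

/-!
# Project H90Q, piece LP (helper21): local `p`-adic data
-/

set_option autoImplicit false

namespace Pool.Agent.H90Q

open Pool.Agent.Y716.Q

theorem lp_norm_data {ι : Type} [Fintype ι] {p : ℕ} [Fact p.Prime] {b l : ℕ} (hb : 1 ≤ b)
    (f : MvPolynomial ι ℤ) (hf : f.IsHomogeneous (b * l)) (x : ι → ℚ_[p]) (z : ℚ_[p])
    (hx0 : x ≠ 0) (hxf : MvPolynomial.aeval x f = z ^ b) :
    ∃ (r : ι) (y : ι → ℤ_[p]) (t : ℤ_[p]), x r ≠ 0 ∧ ‖x r‖ ≤ ‖x‖ ∧ (∀ i, x i = x r * y i) ∧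
      y r = 1 ∧ z = x r ^ l * t ∧ MvPolynomial.aeval y f = t ^ b := by
  classical
  have hne : Nonempty ι := by
    by_contra hcon
    rw [not_nonempty_iff] at hcon
    exact hx0 (Subsingleton.elim _ _)
  obtain ⟨r, -, hr⟩ := Finset.exists_max_image Finset.univ (fun i => ‖x i‖)
    ⟨Classical.arbitrary ι, Finset.mem_univ _⟩
  have hxr : x r ≠ 0 := by
    intro h0
    apply hx0
    funext i
    have := hr i (Finset.mem_univ i)
    rw [h0, norm_zero] at this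
    simpa using norm_le_zero_iff.mp this
  have hle : ∀ i, ‖(x r)⁻¹ * x i‖ ≤ 1 := by
    intro i
    rw [norm_mul, norm_inv, inv_mul_le_iff₀ (norm_pos_iff.mpr hxr), mul_one]
    exact hr i (Finset.mem_univ i)
  set y : ι → ℤ_[p] := fun i => ⟨(x r)⁻¹ * x i, hle i⟩ with hy
  have h2 : (algebraMap ℤ_[p] ℚ_[p]) (MvPolynomial.aeval y f)
      = MvPolynomial.aeval (fun i => (x r)⁻¹ * x i) f := by
    rw [MvPolynomial.aeval_def, MvPolynomial.aeval_def, MvPolynomial.hom_eval₂]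
    congr 1
  have h3 : (algebraMap ℤ_[p] ℚ_[p]) (MvPolynomial.aeval y f) = (z / x r ^ l) ^ b := by
    rw [h2, aeval_smul' hf, hxf, div_pow, ← pow_mul, inv_pow, Nat.mul_comm l b]
    field_simp
  have ht : ‖z / x r ^ l‖ ≤ 1 := by
    have h4 : ‖(z / x r ^ l) ^ b‖ ≤ 1 := by
      rw [← h3]
      exact PadicInt.norm_le_one (MvPolynomial.aeval y f)
    rw [norm_pow] at h4
    exact (pow_le_one_iff_of_nonneg (norm_nonneg _) (by omega)).1 h4
  obtain ⟨t, ht'⟩ : ∃ t : ℤ_[p], (t : ℚ_[p]) = z / x r ^ l := ⟨⟨z / x r ^ l, ht⟩, rfl⟩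
  refine ⟨r, y, t, hxr, norm_le_pi_norm x r, fun i => ?_, ?_, ?_, ?_⟩
  · change x i = x r * ((x r)⁻¹ * x i)
    rw [mul_inv_cancel_left₀ hxr]
  · apply Subtype.ext
    simp [hy, hxr]
  · rw [ht', mul_div_cancel₀ _ (pow_ne_zero _ hxr)]
  · have hinj : Function.Injective (algebraMap ℤ_[p] ℚ_[p]) := FaithfulSMul.algebraMap_injective _ _
    apply hinj
    have h5 : (algebraMap ℤ_[p] ℚ_[p]) t = z / x r ^ l := ht'
    rw [h3, map_pow, h5]

theorem lp_approx {ι : Type} {p : ℕ} [Fact p.Prime] {b : ℕ} (f : MvPolynomial ι ℤ)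
    (y : ι → ℤ_[p]) (t : ℤ_[p]) {r : ι}
    (hyr : y r = 1) (hyf : MvPolynomial.aeval y f = t ^ b) (E : ℕ) :
    ∃ (z : ι → ℤ) (ω : ℤ), z r = 1 ∧ (p : ℤ) ^ E ∣ MvPolynomial.eval z f - ω ^ b ∧
      (∀ i, (p : ℤ_[p]) ^ E ∣ y i - (z i : ℤ_[p])) ∧ (p : ℤ_[p]) ^ E ∣ t - (ω : ℤ_[p]) := by
  classical
  set z : ι → ℤ := fun i => if i = r then 1 else (PadicInt.appr (y i) E : ℤ) with hz
  have hker : ∀ i, PadicInt.toZModPow E (y i) = ((z i : ℤ) : ZMod (p ^ E)) := by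
    intro i
    by_cases hi : i = r
    · subst hi
      rw [hyr, hz]; simp
    · have : PadicInt.toZModPow E (y i) = ((PadicInt.appr (y i) E : ℕ) : ZMod (p ^ E)) := rfl
      rw [this, hz]
      simp [hi]
  set ω : ℤ := (PadicInt.appr t E : ℤ) with hω
  have hkt : PadicInt.toZModPow E t = ((ω : ℤ) : ZMod (p ^ E)) := by
    have : PadicInt.toZModPow E t = ((PadicInt.appr t E : ℕ) : ZMod (p ^ E)) := rfl
    rw [this, hω]
    simp
  have hdvd : ∀ (s : ℤ_[p]) (k : ℤ), PadicInt.toZModPow E s = ((k : ℤ) : ZMod (p ^ E)) →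
      (p : ℤ_[p]) ^ E ∣ s - (k : ℤ_[p]) := by
    intro s k hsk
    have h1 : PadicInt.toZModPow E (s - (k : ℤ_[p])) = 0 := by
      rw [map_sub, hsk, map_intCast, sub_self]
    have h2 : s - (k : ℤ_[p]) ∈ RingHom.ker (PadicInt.toZModPow (p := p) E) :=
      (RingHom.mem_ker).mpr h1
    rw [PadicInt.ker_toZModPow, Ideal.mem_span_singleton] at h2
    exact h2
  refine ⟨z, ω, by simp [hz], ?_, fun i => hdvd _ _ (hker i), hdvd _ _ hkt⟩
  have h3 : ((MvPolynomial.eval z f - ω ^ b : ℤ) : ZMod (p ^ E)) = 0 := by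
    have h4 : PadicInt.toZModPow E (MvPolynomial.aeval y f) =
        ((MvPolynomial.eval z f : ℤ) : ZMod (p ^ E)) := by
      rw [MvPolynomial.aeval_def, MvPolynomial.hom_eval₂]
      have h5 : ((MvPolynomial.eval z f : ℤ) : ZMod (p ^ E))
          = (Int.castRingHom (ZMod (p ^ E))) (MvPolynomial.eval₂ (RingHom.id ℤ) z f) := rfl
      rw [h5, MvPolynomial.hom_eval₂]
      have h6 : ((PadicInt.toZModPow E).comp (algebraMap ℤ ℤ_[p]))
          = (Int.castRingHom (ZMod (p ^ E))).comp (RingHom.id ℤ) := RingHom.ext_int _ _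
      rw [h6]
      congr 1
      funext i
      exact hker i
    rw [Int.cast_sub, ← h4, hyf, map_pow, hkt, Int.cast_pow, sub_self]
  rw [ZMod.intCast_zmod_eq_zero_iff_dvd] at h3
  exact_mod_cast h3

theorem t_LP (ι : Type) [Fintype ι] : S_LP ι := by
  intro p hp b l m hb hm f hf x z hx0 hxf
  obtain ⟨r, Y, t, hr0, hrn, hY, hYr, hzt, hYf⟩ := lp_norm_data hb f hf x z hx0 hxf
  obtain ⟨c, cω, hc1, hc2, hc3, hc4⟩ := lp_approx f Y t hYr hYf m
  have hpow : (p : ℝ) ^ (-(m : ℤ)) ≤ 1 / m := by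
    rw [zpow_neg, zpow_natCast, ← one_div]
    apply one_div_le_one_div_of_le (by exact_mod_cast hm)
    have h5 : m < 2 ^ m := Nat.lt_two_pow_self
    have h6 : 2 ^ m ≤ p ^ m := Nat.pow_le_pow_left hp.out.two_le _
    have h7 : m ≤ p ^ m := by omega
    exact_mod_cast h7
  refine ⟨c, cω, fun E => ?_, fun a ω ha hω => ?_⟩
  · obtain ⟨a, ω, hx1, hx2, hx3, hx4⟩ := lp_approx f Y t hYr hYf (max E m)
    refine ⟨r, a, ω, hx1, (pow_dvd_pow _ (le_max_left _ _)).trans hx2, fun i => ?_, ?_⟩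
    · rw [← padic_dvd_iff]
      push_cast
      have h1 := (pow_dvd_pow (p : ℤ_[p]) (le_max_right E m)).trans (hx3 i)
      have := dvd_sub (hc3 i) h1
      simpa using this
    · rw [← padic_dvd_iff]
      push_cast
      have h1 := (pow_dvd_pow (p : ℤ_[p]) (le_max_right E m)).trans hx4
      have := dvd_sub hc4 h1
      simpa using this
  · refine ⟨x r, hr0, fun i => ?_, ?_⟩
    · have h1 : (p : ℤ_[p]) ^ m ∣ Y i - (a i : ℤ_[p]) := by
        have h2 := (padic_dvd_iff (p := p) m (a i - c i)).mpr (ha i)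
        push_cast at h2
        have := dvd_sub (hc3 i) h2
        simpa using this
      have h2 : ‖Y i - (a i : ℤ_[p])‖ ≤ (p : ℝ) ^ (-(m : ℤ)) := by
        rw [PadicInt.norm_le_pow_iff_mem_span_pow, Ideal.mem_span_singleton]
        exact h1
      have h3 : x i - x r * (a i : ℚ_[p]) = x r * ((Y i - (a i : ℤ_[p]) : ℤ_[p]) : ℚ_[p]) := by
        rw [hY i]
        push_cast
        ring
      rw [h3, norm_mul]
      have h4 : ‖((Y i - (a i : ℤ_[p]) : ℤ_[p]) : ℚ_[p])‖ = ‖Y i - (a i : ℤ_[p])‖ := rfl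
      rw [h4, div_eq_mul_one_div]
      exact mul_le_mul hrn (h2.trans hpow) (norm_nonneg _) (norm_nonneg _)
    · have h1 : (p : ℤ_[p]) ^ m ∣ t - (ω : ℤ_[p]) := by
        have h2 := (padic_dvd_iff (p := p) m (ω - cω)).mpr hω
        push_cast at h2
        have := dvd_sub hc4 h2
        simpa using this
      have h2 : ‖t - (ω : ℤ_[p])‖ ≤ (p : ℝ) ^ (-(m : ℤ)) := by
        rw [PadicInt.norm_le_pow_iff_mem_span_pow, Ideal.mem_span_singleton]
        exact h1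
      have h3 : z - x r ^ l * (ω : ℚ_[p]) = x r ^ l * ((t - (ω : ℤ_[p]) : ℤ_[p]) : ℚ_[p]) := by
        rw [hzt]
        push_cast
        ring
      rw [h3, norm_mul, norm_pow]
      have h4 : ‖((t - (ω : ℤ_[p]) : ℤ_[p]) : ℚ_[p])‖ = ‖t - (ω : ℤ_[p])‖ := rfl
      rw [h4, div_eq_mul_one_div]
      exact mul_le_mul (pow_le_pow_left₀ (norm_nonneg _) hrn l) (h2.trans hpow) (norm_nonneg _)
        (pow_nonneg (norm_nonneg _) _)

end Pool.Agent.H90Q
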