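import Pool.Agent.H90Q.Stm

/-!
# Project H90Q, piece RC: real analysis for the forms of a class, with a target value

Port of `real_class` in `Pool/Agent/Y716/Q/RealClass.lean`; by helper88.
-/

namespace Pool.Agent.H90Q

open Pool.Agent.Y716.Q

theorem t_RC (ι : Type) [Fintype ι] (e : ℕ) : S_RC ι e := by
  classical
  obtain ⟨C₁, hC₁1, hC₁⟩ := form_bounds (ι := ι) (e + 1)
  obtain ⟨C₂, hC₂1, hC₂⟩ := form_bounds (ι := ι) (e + 2)
  obtain ⟨M, hM⟩ : ∃ M : ℝ, ((mons ι (e + 2)).card : ℝ) + 1 = M := ⟨_, rfl⟩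
  have hM0 : 0 ≤ M := by rw [← hM]; positivity
  refine ⟨C₁ * (e + 2) * 2 ^ (e + 1) + 2 * (3 * C₂ * 2 ^ (e + 1) + M + C₂ + 1), ?_, ?_⟩
  · have : 0 ≤ C₁ * (e + 2) * 2 ^ (e + 1) := by positivity
    have : 0 ≤ 3 * C₂ * 2 ^ (e + 1) := by positivity
    linarith
  intro H γ η θ ρ ρ' P fc ξ i₀ hform hξ hξr hgξ hH hγ hη hη1 hθ hθ1 hρ hρρ' hρ'1 hP hc1 hc2
  have hρ'0 : 0 < ρ' := lt_of_lt_of_le hρ hρρ'
  obtain ⟨g₀, hg₀⟩ : ∃ g₀ : ℝ, MvPolynomial.aeval ξ (MvPolynomial.pderiv i₀ fc) = g₀ := ⟨_, rfl⟩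
  rw [hg₀] at hgξ ⊢
  have hg₀pos : 0 < |g₀| := lt_of_lt_of_le (by positivity) hgξ
  obtain ⟨D, hD⟩ : ∃ D : ℝ, |g₀| * P ^ (e + 1) = D := ⟨_, rfl⟩
  rw [hD]
  have hDpos : 0 < D := by rw [← hD]; positivity
  have hDlow : γ * H * P ^ (e + 1) ≤ D := by
    rw [← hD]; exact mul_le_mul_of_nonneg_right hgξ (by positivity)
  -- sign
  obtain ⟨σ, hσ, hσg⟩ : ∃ σ : ℝ, (σ = 1 ∨ σ = -1) ∧ σ * g₀ = |g₀| := by
    by_cases h : 0 ≤ g₀
    · exact ⟨1, Or.inl rfl, by rw [one_mul, abs_of_nonneg h]⟩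
    · exact ⟨-1, Or.inr rfl, by rw [abs_of_neg (not_le.mp h)]; ring⟩
  have hσ1 : |σ| = 1 := by
    rcases hσ with h | h <;> rw [h] <;> norm_num
  refine ⟨σ, hσ1, ?_⟩
  intro t₀ hfξ h hh
  rw [hM] at hfξ
  set f := fc + h with hf
  have hsub : ∀ x : ι → ℝ, MvPolynomial.aeval x (f - MvPolynomial.C t₀) =
      MvPolynomial.aeval x f - t₀ := by
    intro x
    rw [map_sub, MvPolynomial.aeval_C]
    rfl
  have hwd : ∀ i, 0 ≤ wd i₀ ρ ρ' i ∧ wd i₀ ρ ρ' i ≤ ρ' := by
    intro i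
    unfold wd
    split_ifs
    · exact ⟨hρ'0.le, le_rfl⟩
    · exact ⟨hρ.le, hρρ'⟩
  have hbox2 : ∀ x, InBox P ξ i₀ ρ ρ' x → ∀ i, |x i| ≤ 2 * P := by
    intro x hx i
    exact rc_box2 hP (hξ i) ((hwd i).2.trans hρ'1) (hx i).1 (hx i).2
  have hPξ2 : ∀ i, |P * ξ i| ≤ 2 * P := fun i => rc_abs hP (hξ i)
  have hcenter : InBox P ξ i₀ ρ ρ' (fun i => P * ξ i) := fun i => rc_center hP (hwd i).1
  have hcl : ∀ x, InBox P ξ i₀ ρ ρ' x → ∀ i, |x i - P * ξ i| ≤ ρ' * P := by
    intro x hx i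
    exact rc_cl hP (hwd i).2 (hx i).1 (hx i).2
  -- derivative
  have hder : ∀ x, InBox P ξ i₀ ρ ρ' x →
      (1 - θ) * D ≤ σ * MvPolynomial.aeval x (MvPolynomial.pderiv i₀ f) ∧
      σ * MvPolynomial.aeval x (MvPolynomial.pderiv i₀ f) ≤ (1 + θ) * D := by
    intro x hx
    have h1 := (hC₁ _ _ (hform.pderiv i₀).1 (hform.pderiv i₀).2 (2 * P) (by positivity)).2 x
      (fun i => P * ξ i) (ρ' * P) (by positivity) (hbox2 x hx) hPξ2 (hcl x hx)
    have h2 := (hC₁ _ _ (hh.pderiv i₀).1 (hh.pderiv i₀).2 (2 * P) (by positivity)).1 x (hbox2 x hx)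
    rw [aeval_smul_form (hform.pderiv i₀).1, hg₀] at h1
    have h3 : MvPolynomial.aeval x (MvPolynomial.pderiv i₀ f) =
        MvPolynomial.aeval x (MvPolynomial.pderiv i₀ fc) +
        MvPolynomial.aeval x (MvPolynomial.pderiv i₀ h) := by
      rw [hf, map_add, map_add]
    have h4 : |σ * MvPolynomial.aeval x (MvPolynomial.pderiv i₀ f) - D| ≤ θ * D := by
      have h5 : σ * MvPolynomial.aeval x (MvPolynomial.pderiv i₀ f) - D =
          σ * ((MvPolynomial.aeval x (MvPolynomial.pderiv i₀ fc) - P ^ (e + 1) * g₀) +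
          MvPolynomial.aeval x (MvPolynomial.pderiv i₀ h)) := by
        rw [h3, ← hD, ← hσg]; ring
      rw [h5, abs_mul, hσ1, one_mul]
      refine (abs_add_le _ _).trans ((add_le_add h1 h2).trans ?_)
      have h6 : C₁ * (e + 2) * 2 ^ (e + 1) * (ρ' + η) ≤ θ * γ := by
        refine le_trans ?_ hc1
        apply mul_le_mul_of_nonneg_right _ (by positivity)
        have : 0 ≤ 3 * C₂ * 2 ^ (e + 1) := by positivity
        linarith
      have h7 := mul_le_mul_of_nonneg_right h6 (by positivity : 0 ≤ H * P ^ (e + 1))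
      have h8 : θ * γ * (H * P ^ (e + 1)) ≤ θ * D := by
        have := mul_le_mul_of_nonneg_left hDlow hθ.le
        linarith
      refine le_trans (le_of_eq ?_) (h7.trans h8)
      rw [Nat.add_sub_cancel]
      push_cast
      rw [mul_pow, mul_pow, pow_succ, pow_succ]
      ring
    have h5 := abs_le.mp h4
    constructor
    · linarith [h5.1]
    · linarith [h5.2]
  have hupd : ∀ x, InBox P ξ i₀ ρ ρ' x → ∀ τ, P * (ξ i₀ - ρ') ≤ τ → τ ≤ P * (ξ i₀ + ρ') →
      InBox P ξ i₀ ρ ρ' (Function.update x i₀ τ) := by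
    intro x hx τ h1 h2 i
    by_cases hi : i = i₀
    · subst hi
      rw [Function.update_self]
      unfold wd
      rw [if_pos rfl]
      exact ⟨h1, h2⟩
    · rw [Function.update_of_ne hi]
      exact hx i
  have hslope : ∀ x, InBox P ξ i₀ ρ ρ' x → ∀ s t : ℝ, P * (ξ i₀ - ρ') ≤ s → s ≤ t →
      t ≤ P * (ξ i₀ + ρ') → ((1 - θ) * D) * (t - s) ≤
          σ * MvPolynomial.aeval (Function.update x i₀ t) f -
          σ * MvPolynomial.aeval (Function.update x i₀ s) f ∧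
        σ * MvPolynomial.aeval (Function.update x i₀ t) f -
          σ * MvPolynomial.aeval (Function.update x i₀ s) f ≤ ((1 + θ) * D) * (t - s) := by
    intro x hx s t hs hst ht
    rcases hσ with h1 | h1
    · have := slope_of_pderiv f i₀ x s t ((1 - θ) * D) ((1 + θ) * D) hst (by
        intro τ h2 h3
        have := hder _ (hupd x hx τ (hs.trans h2) (h3.trans ht))
        rw [h1, one_mul] at this
        exact this)
      rw [h1, one_mul, one_mul]
      exact this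
    · have := slope_of_pderiv f i₀ x s t (-((1 + θ) * D)) (-((1 - θ) * D)) hst (by
        intro τ h2 h3
        have := hder _ (hupd x hx τ (hs.trans h2) (h3.trans ht))
        rw [h1] at this
        constructor <;> linarith [this.1, this.2])
      rw [h1]
      constructor <;> linarith [this.1, this.2]
  intro x hx
  refine ⟨?_, ?_⟩
  · intro s t h1 h2 h3
    have h4 := hslope x hx s t h1 h2 h3
    rw [hsub, hsub]
    constructor
    · linarith [h4.1]
    · linarith [h4.2]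
  rw [hsub, hsub]
  -- end values
  have hηH : η * H ≤ H := mul_le_of_le_one_left hH.le hη1
  have hff : IsF (e + 2) (3 * H) f := (hform.add hh).mono (by linarith)
  have hξPf : |MvPolynomial.aeval (fun i => P * ξ i) f - t₀| ≤
      (M + C₂) * (η * H) * P ^ (e + 2) := by
    rw [aeval_smul_form hff.1, hf, map_add]
    have h1 := (hC₂ _ _ hh.1 hh.2 1 (by norm_num)).1 ξ hξ
    rw [one_pow, mul_one] at h1
    have h3 : |P ^ (e + 2) * MvPolynomial.aeval ξ h| ≤ C₂ * (η * H) * P ^ (e + 2) := by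
      rw [abs_mul, abs_of_pos (by positivity), mul_comm]
      exact mul_le_mul_of_nonneg_right h1 (by positivity)
    have h2 := (abs_add_le (P ^ (e + 2) * MvPolynomial.aeval ξ fc - t₀)
      (P ^ (e + 2) * MvPolynomial.aeval ξ h)).trans (add_le_add hfξ h3)
    have h4 : P ^ (e + 2) * (MvPolynomial.aeval ξ fc + MvPolynomial.aeval ξ h) - t₀ =
        P ^ (e + 2) * MvPolynomial.aeval ξ fc - t₀ + P ^ (e + 2) * MvPolynomial.aeval ξ h := by
      ring
    rw [h4]
    refine h2.trans (le_of_eq ?_)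
    ring
  have hlip : ∀ τ, P * (ξ i₀ - ρ') ≤ τ → τ ≤ P * (ξ i₀ + ρ') →
      |MvPolynomial.aeval (Function.update x i₀ τ) f -
        MvPolynomial.aeval (Function.update (fun i => P * ξ i) i₀ τ) f| ≤
      C₂ * (3 * H) * (2 * P) ^ (e + 1) * (ρ * P) := by
    intro τ h1 h2
    have := (hC₂ _ _ hff.1 hff.2 (2 * P) (by positivity)).2 (Function.update x i₀ τ)
      (Function.update (fun i => P * ξ i) i₀ τ) (ρ * P) (by positivity)
      (hbox2 _ (hupd x hx τ h1 h2)) (hbox2 _ (hupd _ hcenter τ h1 h2)) (by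
        intro i
        by_cases hi : i = i₀
        · subst hi
          rw [Function.update_self, Function.update_self, sub_self, abs_zero]
          positivity
        · rw [Function.update_of_ne hi, Function.update_of_ne hi]
          have h3 := hx i
          unfold wd at h3
          rw [if_neg hi] at h3
          exact rc_cl hP le_rfl h3.1 h3.2)
    simpa using this
  have hself : Function.update (fun i => P * ξ i) i₀ (P * ξ i₀) = fun i => P * ξ i :=
    Function.update_eq_self i₀ _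
  have hc2' : 2 * (3 * C₂ * 2 ^ (e + 1) + M + C₂ + 1) * (ρ + η) ≤ γ * ρ' := by
    refine le_trans ?_ hc2
    apply mul_le_mul_of_nonneg_right _ (by positivity)
    have : 0 ≤ C₁ * (e + 2) * 2 ^ (e + 1) := by positivity
    linarith
  have hPe : 0 < P ^ (e + 1) := by positivity
  -- main inequality
  have hmain : C₂ * (3 * H) * (2 * P) ^ (e + 1) * (ρ * P) + (M + C₂) * (η * H) * P ^ (e + 2) +
      η * H * P ^ (e + 2) ≤ ((1 - θ) * D) * (P * ρ') := by
    have h1 : (1 / 2) * (γ * H * P ^ (e + 1)) * (P * ρ') ≤ ((1 - θ) * D) * (P * ρ') :=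
      rc_half hθ1 hDpos.le hDlow (by positivity)
    refine le_trans ?_ h1
    have h2 : (3 * C₂ * 2 ^ (e + 1) + M + C₂ + 1) * (ρ + η) ≤ (1 / 2) * (γ * ρ') := by linarith
    have h3 := mul_le_mul_of_nonneg_right h2 (by positivity : 0 ≤ H * P ^ (e + 2))
    have h4 : C₂ * (3 * H) * (2 * P) ^ (e + 1) * (ρ * P) =
        3 * C₂ * 2 ^ (e + 1) * ρ * (H * P ^ (e + 2)) := by
      rw [mul_pow, pow_succ P (e + 1)]; ring
    have h5 : (3 * C₂ * 2 ^ (e + 1) * ρ + (M + C₂ + 1) * η) * (H * P ^ (e + 2)) ≤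
        (3 * C₂ * 2 ^ (e + 1) + M + C₂ + 1) * (ρ + η) * (H * P ^ (e + 2)) :=
      rc_coef (by positivity) hM0 (by linarith) hρ.le hη.le (by positivity)
    have h6 : (1 / 2) * (γ * H * P ^ (e + 1)) * (P * ρ') = 1 / 2 * (γ * ρ') * (H * P ^ (e + 2)) := by
      rw [pow_succ P (e + 1)]; ring
    rw [h4, h6]
    refine le_trans (le_of_eq ?_) (h5.trans h3)
    ring
  have hc0 := rc_center (ξ := ξ i₀) hP hρ'0.le
  constructor
  · have h1 := hlip (P * (ξ i₀ - ρ')) le_rfl (hc0.1.trans hc0.2)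
    have h2 := (hslope _ hcenter (P * (ξ i₀ - ρ')) (P * ξ i₀) le_rfl hc0.1 hc0.2).1
    rw [hself] at h2
    have h3 : P * ξ i₀ - P * (ξ i₀ - ρ') = P * ρ' := by ring
    rw [h3] at h2
    have h4 : |σ * (MvPolynomial.aeval (fun i => P * ξ i) f - t₀)| ≤
        (M + C₂) * (η * H) * P ^ (e + 2) := by rw [abs_mul, hσ1, one_mul]; exact hξPf
    have h5 : |σ * MvPolynomial.aeval (Function.update x i₀ (P * (ξ i₀ - ρ'))) f -
        σ * MvPolynomial.aeval (Function.update (fun i => P * ξ i) i₀ (P * (ξ i₀ - ρ'))) f| ≤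
        C₂ * (3 * H) * (2 * P) ^ (e + 1) * (ρ * P) := by
      rw [← mul_sub, abs_mul, hσ1, one_mul]; exact h1
    have h6 := (abs_le.mp h4).2
    have h7 := (abs_le.mp h5).2
    linarith
  · have h1 := hlip (P * (ξ i₀ + ρ')) (hc0.1.trans hc0.2) le_rfl
    have h2 := (hslope _ hcenter (P * ξ i₀) (P * (ξ i₀ + ρ')) hc0.1 hc0.2 le_rfl).1
    rw [hself] at h2
    have h3 : P * (ξ i₀ + ρ') - P * ξ i₀ = P * ρ' := by ring
    rw [h3] at h2
    have h4 : |σ * (MvPolynomial.aeval (fun i => P * ξ i) f - t₀)| ≤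
        (M + C₂) * (η * H) * P ^ (e + 2) := by rw [abs_mul, hσ1, one_mul]; exact hξPf
    have h5 : |σ * MvPolynomial.aeval (Function.update x i₀ (P * (ξ i₀ + ρ'))) f -
        σ * MvPolynomial.aeval (Function.update (fun i => P * ξ i) i₀ (P * (ξ i₀ + ρ'))) f| ≤
        C₂ * (3 * H) * (2 * P) ^ (e + 1) * (ρ * P) := by
      rw [← mul_sub, abs_mul, hσ1, one_mul]; exact h1
    have h6 := (abs_le.mp h4).1
    have h7 := (abs_le.mp h5).1
    linarith

end Pool.Agent.H90Q
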