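import Pool.Agent.H90Q.Stm

/-!
# Project H90Q, piece SM (helper58): the second moment with two targets

Port of `second_moment` (`Y716/Q/Moment.lean`); the proportional pairs are left out.
-/

set_option autoImplicit false

namespace Pool.Agent.H90Q

open Pool.Agent.Y716.Q

/-- **SM.** -/
theorem t_SM (ι : Type) [Fintype ι] (hGS : S_GS ι) : S_SM ι := by
  classical
  intro hk4 e
  obtain ⟨C₀, hC₀, htail⟩ := tail_sum_int (ι := ι) hk4
  obtain ⟨k, hk⟩ : ∃ k, Fintype.card ι = k := ⟨_, rfl⟩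
  have hk0 : 0 < k := by omega
  obtain ⟨c, hc⟩ : ∃ c, c1pt k (e + 1) = c := ⟨_, rfl⟩
  have hc0 : 0 < c := by rw [← hc]; unfold c1pt; positivity
  obtain ⟨c', hc'⟩ : ∃ c', cker k e = c' := ⟨_, rfl⟩
  have hc'0 : 0 < c' := by rw [← hc']; unfold cker c1pt; positivity
  refine ⟨4 * c * c' * C₀ + 4 * c, by positivity, ?_⟩
  intro w hw fc fc' S J xc P ξ i₀ ρ ρ' B a A A₂ Δ T ha haB hT Lg hLg u u' hu hu' N hTN K hKdef hΔ
    hΔK hA haA haA2 R₁ E R₂ hR₂ hE hL1 hL2 hED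
  rw [hk, hc] at haA
  rw [hk, hc'] at haA2
  rw [hk]
  have hB : 1 ≤ B := ha.trans haB
  have hB0 : 0 < B := by linarith
  have hT0 : 0 < T := by linarith
  have hAp : 0 < A := lt_of_lt_of_le (by positivity : 0 < 2 * c * a) haA
  have hK0 : 0 < K := by
    rw [hKdef]
    apply pow_pos
    apply Finset.prod_pos
    intro p hp
    exact (Finset.mem_filter.mp hp).2.pos
  set X' := testSet B a P ξ i₀ ρ ρ' S xc with hX'
  set G := formsZ ι (e + 2) A with hG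
  have hdata : ∀ p : (ι → ℤ) × (ι → ℤ), (∃ i j, mn p.1 p.2 i j ≠ 0) →
      ∃ (g : ℤ) (μ : ℝ), g ≠ 0 ∧ (∀ i j, g ∣ mn p.1 p.2 i j) ∧
      (∀ D, (∀ i j, D ∣ mn p.1 p.2 i j) → D ∣ g) ∧ 0 < μ ∧
      (∃ i j, μ ≤ |(mn p.1 p.2 i j : ℝ)|) ∧
      (∀ i j, |(mn p.1 p.2 i j : ℝ)| ≤ μ) ∧ |(g : ℝ)| ≤ μ := fun p hp => exists_gcd_data hp
  choose! gf μf hg0 hg1 hg2 hg3 hg4 hg5 hg6 using hdata
  set Np := npPairs X' with hNp
  set Gd := Np.filter (fun p => B ^ 2 * |(gf p : ℝ)| ≤ T * μf p) with hGd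
  set Tl := Np.filter (fun p => ¬ B ^ 2 * |(gf p : ℝ)| ≤ T * μf p) with hTl
  have hNp' : ∀ p ∈ Np, p.1 ∈ X' ∧ p.2 ∈ X' ∧ ∃ i j, mn p.1 p.2 i j ≠ 0 := by
    intro p hp
    rw [hNp] at hp
    unfold npPairs at hp
    rw [Finset.mem_filter, Finset.mem_product] at hp
    exact ⟨hp.1.1, hp.1.2, hp.2⟩
  have hμB : ∀ p ∈ Np, μf p ≤ 2 * B ^ 2 := by
    intro p hp
    obtain ⟨h1, h2, h3⟩ := hNp' p hp
    obtain ⟨i, j, hij⟩ := hg4 p h3
    refine hij.trans ?_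
    obtain ⟨_, hx, _⟩ := mem_testSet.mp h1
    obtain ⟨_, hy, _⟩ := mem_testSet.mp h2
    unfold mn
    push_cast
    refine (abs_sub _ _).trans ?_
    rw [abs_mul, abs_mul]
    have e1 : |(p.1 i : ℝ)| * |(p.2 j : ℝ)| ≤ B * B :=
      mul_le_mul (hx.1 i) (hy.1 j) (abs_nonneg _) hB0.le
    have e2 : |(p.1 j : ℝ)| * |(p.2 i : ℝ)| ≤ B * B :=
      mul_le_mul (hx.1 j) (hy.1 i) (abs_nonneg _) hB0.le
    linarith [sq B]
  have hsum : ∑ p ∈ Np, (c2t e A p.1 p.2 (u p.1) (u' p.2) : ℝ) =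
      ∑ p ∈ Gd, (c2t e A p.1 p.2 (u p.1) (u' p.2) : ℝ) +
        ∑ p ∈ Tl, (c2t e A p.1 p.2 (u p.1) (u' p.2) : ℝ) := by
    rw [← Finset.sum_filter_add_sum_filter_not _ (fun p => B ^ 2 * |(gf p : ℝ)| ≤ T * μf p)]
  -- good pairs
  have hGdb : ∑ p ∈ Gd, (c2t e A p.1 p.2 (u p.1) (u' p.2) : ℝ) ≤ G.card * E * (1 + 1 / w) := by
    apply hGS e w hw fc fc' S J xc P ξ i₀ ρ ρ' B a A A₂ Δ (1 / T) ha haB
      (by positivity : 0 < 1 / T) Lg hLg u u' hu hu' K N hK0 hΔ hΔK hA R₁ E R₂ hR₂ hE hL1 hL2 hED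
    intro p hp
    rw [hGd, Finset.mem_filter] at hp
    obtain ⟨h1, h2, h3⟩ := hNp' p hp.1
    refine ⟨h1, h2, ?_⟩
    have hgne := hg0 p h3
    have hg1' : 1 ≤ |(gf p : ℝ)| := by
      have := Int.one_le_abs hgne
      exact_mod_cast this
    have hgN : (gf p).natAbs ≤ N := by
      have h4 : |(gf p : ℝ)| ≤ 2 * T := by
        have h5 := hp.2.trans (mul_le_mul_of_nonneg_left (hμB p hp.1) hT0.le)
        have h6 : B ^ 2 * |(gf p : ℝ)| ≤ B ^ 2 * (2 * T) := by linarith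
        exact le_of_mul_le_mul_left h6 (by positivity)
      have h5 : (((gf p).natAbs : ℕ) : ℝ) ≤ (N : ℝ) := by
        rw [Nat.cast_natAbs, Int.cast_abs]
        exact h4.trans hTN
      exact_mod_cast h5
    have hgN2 : (gf p).natAbs ≤ 2 ^ N := hgN.trans (Nat.lt_two_pow_self).le
    obtain ⟨D, hD1, hD2, hD3, hD4⟩ := exists_coprime_part w N (Int.natAbs_ne_zero.mpr hgne) hgN2
    refine ⟨D, gf p, hgne, hg1 p h3, hg2 p h3, ?_, hD1, ?_, ?_, ?_, hD4⟩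
    · obtain ⟨i, j, hij⟩ := hg4 p h3
      refine ⟨i, j, le_trans ?_ hij⟩
      rw [one_div, inv_mul_le_iff₀ hT0]
      refine le_trans ?_ hp.2
      exact le_mul_of_one_le_right (by positivity) hg1'
    · exact (Nat.le_of_dvd (Int.natAbs_pos.mpr hgne) hD2).trans hgN
    · exact Int.natCast_dvd.mpr hD2
    · rw [← hKdef] at hD3
      have := Int.natAbs_dvd_natAbs (a := gf p) (b := ((K * D : ℕ) : ℤ))
      rw [Int.natAbs_natCast] at this
      have h7 := this.mp hD3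
      push_cast at h7
      exact h7
  -- tail pairs
  have hTlb : ∑ p ∈ Tl, (c2t e A p.1 p.2 (u p.1) (u' p.2) : ℝ) ≤
      4 * c * c' * C₀ * (formsZ ι (e + 2) (3 * A)).card * B ^ (2 * k) /
        (A ^ 2 * B ^ (2 * e + 4) * Real.sqrt T) := by
    have h1 : ∀ p ∈ Tl, (c2t e A p.1 p.2 (u p.1) (u' p.2) : ℝ) ≤
        4 * c * c' * (formsZ ι (e + 2) (3 * A)).card / (A ^ 2 * B ^ (2 * e + 4)) *
          (B ^ 2 * |(gf p : ℝ)| / μf p) := by
      intro p hp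
      rw [hTl, Finset.mem_filter] at hp
      obtain ⟨h1, h2, h3⟩ := hNp' p hp.1
      obtain ⟨hx1, hx2, hx3, hx4⟩ := mem_testSet.mp h1
      obtain ⟨hy1, hy2, hy3, hy4⟩ := mem_testSet.mp h2
      have hμ0 := hg3 p h3
      have key := cnt2_le (A := A) e hx4 hx2 hx3 hy4 hy2 ha haB (hg0 p h3) (hg1 p h3) (hg2 p h3) hμ0
        (hg4 p h3) hLg (by rw [hk, hc]; exact haA) (by rw [hk, hc']; exact haA2) (u p.1) (u' p.2)
      rw [hk, hc, hc'] at key
      rw [← le_div_iff₀ (by positivity)] at key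
      refine key.trans (le_of_eq ?_)
      have : B ^ (2 * e + 4) = B ^ (e + 2) * B ^ e * B ^ 2 := by
        rw [← pow_add, ← pow_add]; congr 1; ring
      rw [this]
      field_simp
    refine (Finset.sum_le_sum h1).trans ?_
    rw [← Finset.mul_sum]
    have h2 := htail B T hB hT Tl (fun p => B ^ 2 * |(gf p : ℝ)| / μf p) (by
      intro p hp
      rw [hTl, Finset.mem_filter] at hp
      obtain ⟨h1, h2, h3⟩ := hNp' p hp.1
      obtain ⟨hx1, hx2, hx3, hx4⟩ := mem_testSet.mp h1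
      obtain ⟨hy1, hy2, hy3, hy4⟩ := mem_testSet.mp h2
      have hμ0 := hg3 p h3
      refine ⟨hx2.1, hy2.1, h3, ?_, gf p, μf p, hg1 p h3, hg5 p h3, ?_⟩
      · rw [lt_div_iff₀ hμ0]
        exact not_le.mp hp.2
      · rw [div_mul_cancel₀ _ hμ0.ne'])
    rw [hk] at h2
    have h3 := mul_le_mul_of_nonneg_left h2
      (by positivity : 0 ≤ 4 * c * c' * ((formsZ ι (e + 2) (3 * A)).card : ℝ) /
        (A ^ 2 * B ^ (2 * e + 4)))
    refine h3.trans (le_of_eq ?_)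
    have hsT : 0 < Real.sqrt T := Real.sqrt_pos.mpr hT0
    field_simp
  rw [hsum]
  have hs1 : 4 * c * c' * C₀ * (formsZ ι (e + 2) (3 * A)).card * B ^ (2 * k) /
        (A ^ 2 * B ^ (2 * e + 4) * Real.sqrt T) ≤
        (4 * c * c' * C₀ + 4 * c) * (formsZ ι (e + 2) (3 * A)).card * B ^ (2 * k) /
        (A ^ 2 * B ^ (2 * e + 4) * Real.sqrt T) := by
    apply div_le_div_of_nonneg_right _ (by positivity)
    apply mul_le_mul_of_nonneg_right _ (by positivity)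
    apply mul_le_mul_of_nonneg_right _ (by positivity)
    linarith
  linarith

end Pool.Agent.H90Q
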