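import Pool.Agent.H90Q.Stm

/-!
# Piece STAB of project H90Q: the `p`-adic data of a cyclic cover
-/

namespace Pool.Agent.H90Q

open Pool.Agent.Y716.Q

theorem STAB_dvd {p ℓ d : ℕ} (hp : p.Prime) (hd : 1 ≤ d) {z : ℤ}
    (h : (p : ℤ) ^ (ℓ + d) ∣ (d : ℤ) * z) : (p : ℤ) ^ ℓ ∣ z := by
  obtain ⟨v, d', hd', hdv⟩ := Nat.exists_eq_pow_mul_and_not_dvd (n := d) (by omega) p hp.ne_one
  have hv : v ≤ d := by
    have h1 : v < p ^ v := Nat.lt_pow_self hp.one_lt
    have h2 : p ^ v ≤ d := Nat.le_of_dvd (by omega) ⟨d', hdv⟩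
    omega
  have hpZ : Prime (p : ℤ) := Nat.prime_iff_prime_int.mp hp
  have h3 : (p : ℤ) ^ v * (p : ℤ) ^ (ℓ + d - v) ∣ (p : ℤ) ^ v * ((d' : ℤ) * z) := by
    rw [← pow_add, show v + (ℓ + d - v) = ℓ + d by omega, ← mul_assoc]
    have h4 : ((p : ℤ) ^ v * (d' : ℤ)) = (d : ℤ) := by
      conv_rhs => rw [hdv]
      push_cast
      ring
    rw [h4]
    exact h
  have h5 : (p : ℤ) ^ (ℓ + d - v) ∣ (d' : ℤ) * z :=
    (mul_dvd_mul_iff_left (pow_ne_zero v hpZ.ne_zero)).mp h3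
  have h6 : (p : ℤ) ^ (ℓ + d - v) ∣ z := by
    refine hpZ.pow_dvd_of_dvd_mul_left _ ?_ h5
    intro h7
    exact hd' (by exact_mod_cast h7)
  exact (pow_dvd_pow _ (by omega)).trans h6

theorem STAB_pderiv {ι : Type} [Fintype ι] (f : MvPolynomial ι ℤ) (c : ℤ) (i : ι) :
    MvPolynomial.pderiv i (f - MvPolynomial.C c) = MvPolynomial.pderiv i f := by
  rw [map_sub, MvPolynomial.pderiv_C, sub_zero]

theorem t_STAB (ι : Type) [Fintype ι] : S_STAB ι := by
  classical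
  intro w ℓ b d hℓ hb hd f hf N c cω hN hfin
  have hdat : ∀ p ∈ primesUpTo w, ∃ (r : ι) (x : ι → ℤ) (ω : ℤ), x r = 1 ∧
      (p : ℤ) ^ (2 * (ℓ + d)) ∣ MvPolynomial.eval x f - ω ^ b ∧
      ∀ a : ℕ, p ^ a ∣ N → (∀ i, (p : ℤ) ^ a ∣ x i - c i) ∧ (p : ℤ) ^ a ∣ ω - cω :=
    fun p hp => (hfin p hp).1
  choose! rP xP wP hr hval hcl using hdat
  have hcrt : ∃ y : ℤ, ∀ p ∈ primesUpTo w, (p : ℤ) ^ (2 * (ℓ + d)) ∣ y - wP p := by
    have := Ideal.exists_forall_sub_mem_ideal (R := ℤ)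
      (I := fun p : primesUpTo w => Ideal.span {((p : ℕ) : ℤ) ^ (2 * (ℓ + d))}) (by
        intro p q hpq
        simp only [Function.onFun]
        rw [Ideal.isCoprime_span_singleton_iff]
        exact (Nat.isCoprime_iff_coprime.mpr
          (primes_coprime p.2 q.2 (fun h => hpq (Subtype.ext h)))).pow) (fun p => wP p)
    obtain ⟨y, hy⟩ := this
    exact ⟨y, fun p hp => Ideal.mem_span_singleton.mp (hy ⟨p, hp⟩)⟩
  obtain ⟨ωc, hωc⟩ := hcrt
  obtain ⟨S, J, xc, v, h1, h2, h3, h4⟩ := exists_stable (w := w) (ℓ := ℓ + d) (by omega)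
    (f := f - MvPolynomial.C (ωc ^ b)) (N := N) (c := c)
    (fun p a hp ha => ⟨(hN p a hp ha).1, by have := (hN p a hp ha).2; omega⟩) (by
      intro p hp
      refine ⟨⟨rP p hp, xP p, hr p hp, ?_, fun a ha => (hcl p hp a ha).1⟩, ?_⟩
      · rw [map_sub, MvPolynomial.eval_C]
        have h5 : (p : ℤ) ^ (2 * (ℓ + d)) ∣ ωc ^ b - wP p ^ b :=
          (hωc p hp).trans (sub_dvd_pow_sub_pow _ _ b)
        have h6 := dvd_sub (hval p hp) h5
        rwa [sub_sub_sub_cancel_right] at h6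
      · rintro ⟨r, x, hxr, hx0, hx⟩
        refine (hfin p hp).2 ⟨r, x, hxr, ?_, ?_⟩
        · push_cast
          apply STAB_dvd (mem_primesUpTo.mp hp).2 hd
          have h7 := congrArg (MvPolynomial.eval x) hf.sum_X_mul_pderiv
          rw [map_sum] at h7
          rw [nsmul_eq_mul, map_mul, map_natCast] at h7
          rw [← h7]
          apply Finset.dvd_sum
          intro i _
          rw [map_mul]
          apply Dvd.dvd.mul_left
          have h8 := hx i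
          rw [STAB_pderiv] at h8
          push_cast at h8
          exact h8
        · intro i
          have h8 := hx i
          rw [STAB_pderiv] at h8
          refine dvd_trans ?_ h8
          push_cast
          exact pow_dvd_pow _ (by omega))
  refine ⟨S, J, xc, v, ωc, h1, h2, h3, h4, ?_⟩
  apply dvd_of_prime_pow
  intro p a hp ha
  obtain _ | a := a
  · rw [pow_zero]; exact one_dvd _
  obtain ⟨h5, h6⟩ := hN p a hp ha
  have hpw : p ∈ primesUpTo w := mem_primesUpTo.mpr ⟨h5, hp⟩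
  have h7 := (pow_dvd_pow (p : ℤ) (by omega : a + 1 ≤ 2 * (ℓ + d))).trans (hωc p hpw)
  have h8 := dvd_add h7 (hcl p hpw (a + 1) ha).2
  rwa [sub_add_sub_cancel] at h8

end Pool.Agent.H90Q
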