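import Pool.Agent.H90Q.Stm

/-!
# Project H90Q, piece WAT (helper21): weak approximation from targets
-/

set_option autoImplicit false

namespace Pool.Agent.H90Q

open Pool.Agent.Y716.Q

/-- grid points -/
theorem wat_grid {v B : ℝ} {m s₀ : ℕ} (hm : 1 ≤ m) (hB : B = s₀) (hv : |v| ≤ B) :
    ∃ t ∈ Finset.Icc (-(3 * m * s₀ : ℤ)) (3 * m * s₀), |v - (t : ℝ) / (3 * m)| ≤ 1 / (3 * m) := by
  have hmr : (1:ℝ) ≤ m := by exact_mod_cast hm
  have h1 := abs_le.mp hv
  have h3 : (0:ℝ) < 3 * m := by linarith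
  subst hB
  refine ⟨⌊v * (3 * m)⌋, ?_, ?_⟩
  · rw [Finset.mem_Icc]
    constructor
    · rw [Int.le_floor]
      push_cast
      have := mul_le_mul_of_nonneg_right h1.1 h3.le
      linarith
    · have h4 : (⌊v * (3 * m)⌋ : ℝ) ≤ 3 * m * s₀ := by
        refine (Int.floor_le _).trans ?_
        have := mul_le_mul_of_nonneg_right h1.2 h3.le
        linarith
      exact_mod_cast h4
  · have h4 := Int.floor_le (v * (3 * m))
    have h5 := Int.lt_floor_add_one (v * (3 * m))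
    have h6 : v - (⌊v * (3 * m)⌋ : ℝ) / (3 * m) = (v * (3 * m) - ⌊v * (3 * m)⌋) / (3 * m) := by
      field_simp
    rw [h6, abs_div, abs_of_pos h3]
    apply div_le_div_of_nonneg_right _ h3.le
    rw [abs_le]
    constructor <;> linarith

theorem wat_abs_le {v : ℝ} {b s₀ : ℕ} (hb : 1 ≤ b) (h : |v| ^ b ≤ s₀) : |v| ≤ s₀ := by
  by_contra hcon
  push Not at hcon
  rcases Nat.eq_zero_or_pos s₀ with h0 | h0
  · subst h0
    rw [Nat.cast_zero] at h hcon
    have := pow_pos hcon b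
    linarith
  · have h1 : (s₀ : ℝ) ^ b < |v| ^ b := pow_lt_pow_left₀ hcon (Nat.cast_nonneg _) (by omega)
    have h2 : (1 : ℝ) ≤ s₀ := by exact_mod_cast h0
    have h3 : (s₀ : ℝ) ≤ (s₀ : ℝ) ^ b := le_self_pow₀ h2 (by omega)
    linarith

theorem t_WAT (ι : Type) [Fintype ι] (hLP : S_LP ι) : S_WAT ι := by
  classical
  intro b l m h hb hl hm hh f hf htar x z y u hxz hy0 hyf
  have hmr : (1:ℝ) ≤ m := by exact_mod_cast hm
  have h3m : (0:ℝ) < 3 * m := by linarith
  have hfh : f.IsHomogeneous (b * l) := hf.1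
  set s₀ := (mons ι (b * l)).card with hs₀
  -- data at the primes
  have hloc : ∀ p : ℕ, p.Prime → ∃ cc : (ι → ℤ) × ℤ,
      (∀ E : ℕ, ∃ (r : ι) (a : ι → ℤ) (ω : ℤ), a r = 1 ∧
        (p : ℤ) ^ E ∣ MvPolynomial.eval a f - ω ^ b ∧ (∀ i, (p : ℤ) ^ m ∣ a i - cc.1 i) ∧
        (p : ℤ) ^ m ∣ ω - cc.2) ∧
      ∀ (a : ι → ℤ) (ω : ℤ), (∀ i, (p : ℤ) ^ m ∣ a i - cc.1 i) → (p : ℤ) ^ m ∣ ω - cc.2 →
        ∀ [Fact p.Prime], ∃ c' : ℚ_[p], c' ≠ 0 ∧ (∀ i, ‖x p i - c' * (a i : ℚ_[p])‖ ≤ ‖x p‖ / m) ∧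
          ‖z p - c' ^ l * (ω : ℚ_[p])‖ ≤ ‖x p‖ ^ l / m := by
    intro p hp
    haveI : Fact p.Prime := ⟨hp⟩
    obtain ⟨c, cω, h1, h2⟩ := hLP p b l m (by omega) hm f hfh (x p) (z p) (hxz p).1 (hxz p).2
    exact ⟨(c, cω), h1, fun a ω ha hω _ => h2 a ω ha hω⟩
  choose! cP hcP1 hcP2 using hloc
  -- Chinese remainder theorem
  have hcrt : ∀ k : ℕ → ℤ, ∃ c : ℤ, c ∈ Finset.Ico (0 : ℤ) (modN m) ∧
      ∀ p ∈ primesUpTo m, (p : ℤ) ^ m ∣ c - k p := by
    intro k
    have := Ideal.exists_forall_sub_mem_ideal (R := ℤ)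
      (I := fun p : primesUpTo m => Ideal.span {((p : ℕ) : ℤ) ^ m}) (by
        intro p q hpq
        simp only [Function.onFun]
        rw [Ideal.isCoprime_span_singleton_iff]
        exact (Nat.isCoprime_iff_coprime.mpr
          (primes_coprime p.2 q.2 (fun h => hpq (Subtype.ext h)))).pow) (fun p => k p)
    obtain ⟨c, hc⟩ := this
    have hN0 : (0 : ℤ) < modN m := by exact_mod_cast modN_pos m
    refine ⟨c % (modN m : ℤ), ?_, fun p hp => ?_⟩
    · rw [Finset.mem_Ico]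
      exact ⟨Int.emod_nonneg _ hN0.ne', Int.emod_lt_of_pos _ hN0⟩
    · have h1 : (p : ℤ) ^ m ∣ c - k p := Ideal.mem_span_singleton.mp (hc ⟨p, hp⟩)
      have h2 : (p : ℤ) ^ m ∣ (modN m : ℤ) := by
        exact_mod_cast dvd_modN (mem_primesUpTo.mp hp).2 (mem_primesUpTo.mp hp).1
      have h3 : (modN m : ℤ) ∣ c % (modN m : ℤ) - c := by
        have := Int.emod_add_mul_ediv c (modN m : ℤ)
        exact ⟨-(c / (modN m : ℤ)), by linarith⟩
      have := dvd_add (h2.trans h3) h1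
      simpa using this
  choose c hc1 hc2 using fun i => hcrt (fun p => (cP p).1 i)
  obtain ⟨cω, hcω1, hcω2⟩ := hcrt (fun p => (cP p).2)
  -- real data
  obtain ⟨r, hr0, hrn, hr1⟩ := real_norm_data y hy0
  set t : ℝ := u / (h * y r ^ l) with ht
  have hyl : y r ^ l ≠ 0 := pow_ne_zero _ hr0
  have hfξ : MvPolynomial.aeval (fun i => (y r)⁻¹ * y i) f = (h * t) ^ b := by
    rw [aeval_smul' hfh, hyf, ht, inv_pow, Nat.mul_comm b l, pow_mul, ← inv_pow, ← mul_pow]
    congr 1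
    field_simp
  have htb : |t| ^ b ≤ s₀ := by
    have h1 := hf.aeval_le_one (ξ := fun i => (y r)⁻¹ * y i) hr1
    rw [hfξ, abs_pow, abs_mul, mul_pow, abs_of_pos hh, mul_comm (h ^ b)] at h1
    exact le_of_mul_le_mul_right h1 (pow_pos hh b)
  have hts : |t| ≤ s₀ := wat_abs_le (by omega) htb
  have hgrid : ∀ i, ∃ t ∈ Finset.Icc (-(3 * m : ℤ)) (3 * m),
      |(y r)⁻¹ * y i - (t : ℝ) / (3 * m)| ≤ 1 / (3 * m) := by
    intro i
    have h1 := wat_grid (s₀ := 1) hm (by rw [Nat.cast_one]) (hr1 i)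
    simpa using h1
  choose g hg1 hg2 using hgrid
  obtain ⟨j, hj1, hj2⟩ := wat_grid hm rfl hts
  have hmem : ((c, cω), (g, j)) ∈ targetsC ι m s₀ := by
    unfold targetsC
    rw [Finset.mem_product, Finset.mem_product, Finset.mem_product, Fintype.mem_piFinset,
      Fintype.mem_piFinset]
    exact ⟨⟨hc1, hcω1⟩, hg1, hj1⟩
  have hL : LocC b (modN m) c cω (fun i => (g i : ℝ) / (3 * m)) ((j : ℝ) / (3 * m))
      (1 / (3 * m)) h f := by
    constructor
    · intro p hp E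
      obtain ⟨r', a, ω, hx1, hx2, hx3, hx4⟩ := hcP1 p hp E
      refine ⟨r', a, ω, hx1, hx2, fun a' ha => ?_⟩
      rcases pow_dvd_modN hp ha with ⟨h1, h2⟩ | h1
      · have h3 : (p : ℤ) ^ a' ∣ (p : ℤ) ^ m := by exact_mod_cast h2
        refine ⟨fun i => h3.trans ?_, h3.trans ?_⟩
        · have := dvd_sub (hx3 i) (hc2 i p (mem_primesUpTo.mpr ⟨h1, hp⟩))
          simpa using this
        · have := dvd_sub hx4 (hcω2 p (mem_primesUpTo.mpr ⟨h1, hp⟩))
          simpa using this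
      · have h3 : (p : ℤ) ^ a' = 1 := by exact_mod_cast h1
        rw [h3]
        exact ⟨fun i => one_dvd _, one_dvd _⟩
    · exact ⟨r, fun i => (y r)⁻¹ * y i, t, inv_mul_cancel₀ hr0, hr1, hg2, hj2, hfξ⟩
  obtain ⟨a, ω, hx1, hx2, hx3, hx3', P, hP, hx4, hx5⟩ := htar ((c, cω), (g, j)) hmem hL
  simp only at hx3 hx3' hx4 hx5
  refine ⟨fun i => (a i : ℚ), (ω : ℚ), ?_, by rw [aeval_cast, hx2]; push_cast; rfl, ?_, ?_⟩
  · intro h0
    apply hx1.ne_zero'
    funext i
    have := congrFun h0 i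
    simp only [Pi.zero_apply] at this
    exact_mod_cast this
  · intro p hp hpm
    have h1 : (p : ℤ) ^ m ∣ (modN m : ℤ) := by exact_mod_cast dvd_modN hp.out hpm
    have hpu : p ∈ primesUpTo m := mem_primesUpTo.mpr ⟨hpm, hp.out⟩
    have := hcP2 p hp.out a ω (fun i => by
      have := dvd_add (h1.trans (hx3 i)) (hc2 i p hpu)
      simpa using this) (by
      have := dvd_add (h1.trans hx3') (hcω2 p hpu)
      simpa using this)
    obtain ⟨c', h1, h2, h3⟩ := this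
    refine ⟨c', h1, fun i => ?_, ?_⟩
    · have := h2 i
      simpa using this
    · simpa using h3
  · have hm3 : (1 : ℝ) / m = 3 * (1 / (3 * m)) := by field_simp
    refine ⟨y r / P, div_ne_zero hr0 hP.ne', fun i => ?_, ?_⟩
    · have h1 := hg2 i
      have h2 := hx4 i
      have h3 : y i - y r / P * ((a i : ℚ) : ℝ) =
          y r * (((y r)⁻¹ * y i - (g i : ℝ) / (3 * m)) -
            ((a i : ℝ) - P * ((g i : ℝ) / (3 * m))) / P) := by
        push_cast
        field_simp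
        ring
      have h6 : ‖y‖ / m = ‖y‖ * (1 / m) := div_eq_mul_one_div _ _
      rw [h3, abs_mul, h6]
      apply mul_le_mul hrn _ (abs_nonneg _) (norm_nonneg _)
      refine (abs_sub _ _).trans ?_
      have h4 : |((a i : ℝ) - P * ((g i : ℝ) / (3 * m))) / P| ≤ 2 * (1 / (3 * m)) := by
        rw [abs_div, abs_of_pos hP, div_le_iff₀ hP]
        exact h2
      rw [hm3]
      linarith
    · have hrp : (h ^ b) ^ (1 / (b : ℝ)) = h := by
        rw [one_div]
        exact Real.pow_rpow_inv_natCast hh.le (by omega)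
      have hPl : 0 < P ^ l := pow_pos hP l
      have h3 : u - (y r / P) ^ l * ((ω : ℚ) : ℝ) =
          (h * y r ^ l) * ((t - (j : ℝ) / (3 * m)) -
            ((ω : ℝ) - h * P ^ l * ((j : ℝ) / (3 * m))) / (h * P ^ l)) := by
        rw [ht]
        push_cast
        rw [div_pow]
        field_simp
        ring
      have h4 : |((ω : ℝ) - h * P ^ l * ((j : ℝ) / (3 * m))) / (h * P ^ l)| ≤
          2 * (1 / (3 * m)) := by
        rw [abs_div, abs_of_pos (by positivity : 0 < h * P ^ l), div_le_iff₀ (by positivity)]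
        exact hx5
      have h5 : |h * y r ^ l| ≤ h * ‖y‖ ^ l := by
        rw [abs_mul, abs_of_pos hh, abs_pow]
        exact mul_le_mul_of_nonneg_left (pow_le_pow_left₀ (abs_nonneg _) hrn l) hh.le
      rw [hrp, h3, abs_mul, div_eq_mul_one_div (h * ‖y‖ ^ l)]
      apply mul_le_mul h5 _ (abs_nonneg _) (by positivity)
      refine (abs_sub _ _).trans ?_
      rw [hm3]
      linarith

end Pool.Agent.H90Q
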