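import Pool.Agent.H90Q.Stm

/-!
# Piece WM of project H90Q: weak approximation for almost all covers
-/

namespace Pool.Agent.H90Q

open Pool.Agent.Y716.Q
open Filter

open scoped Classical in
theorem WM_exc (ι : Type) [Fintype ι] (hWAT : S_WAT ι) {e q l : ℕ} (hq : 2 ≤ q) (hl : 1 ≤ l)
    (hel : e + 2 = q * l) (hEXC : S_EXC ι e q l) {m : ℕ} (hm : 1 ≤ m) {ε : ℝ} (hε : 0 < ε) :
    ∃ H₀ : ℝ, ∀ H : ℝ, H₀ ≤ H →
    (((formsZ ι (e + 2) H).filter (fun f => ¬ WAC q l m H f)).card : ℝ) ≤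
        ε * (formsZ ι (e + 2) H).card := by
  have hmr : (1:ℝ) ≤ m := by exact_mod_cast hm
  have hδ : (0:ℝ) < 1 / (3 * m) := by positivity
  obtain ⟨s₀, hs₀⟩ : ∃ s₀ : ℕ, s₀ = (mons ι (q * l)).card := ⟨_, rfl⟩
  have hT0 : (0:ℝ) ≤ (targetsC ι m s₀).card := Nat.cast_nonneg _
  have h1 := fun t : ((ι → ℤ) × ℤ) × ((ι → ℤ) × ℤ) => hEXC (modN m) (modN_pos m) t.1.1 t.1.2
    (fun i => (t.2.1 i : ℝ) / (3 * m)) ((t.2.2 : ℝ) / (3 * m)) (1 / (3 * m)) hδ
    (ε / ((targetsC ι m s₀).card + 1)) (by positivity)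
  choose Hf hHf1 hHf using h1
  obtain ⟨H₀, hH₀⟩ := Finset.exists_le ((targetsC ι m s₀).image Hf)
  refine ⟨(max H₀ 1) ^ q, fun H hH => ?_⟩
  have hm0 : (1:ℝ) ≤ max H₀ 1 := le_max_right _ _
  have hH1 : 1 ≤ H := (one_le_pow₀ hm0).trans hH
  obtain ⟨h, hh⟩ : ∃ h : ℝ, h = H ^ (1 / (q : ℝ)) := ⟨_, rfl⟩
  have hqr : (0:ℝ) < q := by
    have : 0 < q := by omega
    exact_mod_cast this
  have hhq : h ^ q = H := by
    rw [hh, ← Real.rpow_natCast, ← Real.rpow_mul (by linarith)]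
    rw [one_div, inv_mul_cancel₀ hqr.ne', Real.rpow_one]
  have hh0 : 0 < h := by
    rw [hh]
    exact Real.rpow_pos_of_pos (by linarith) _
  have hhH₀ : H₀ ≤ h := by
    refine (le_max_left H₀ 1).trans ?_
    refine le_of_pow_le_pow_left₀ (n := q) (by omega) hh0.le ?_
    rw [hhq]
    exact hH
  have hsub : (formsZ ι (e + 2) H).filter (fun f => ¬ WAC q l m H f) ⊆
      (targetsC ι m s₀).biUnion (fun t => (formsZ ι (e + 2) H).filter (fun f =>
        LocC q (modN m) t.1.1 t.1.2 (fun i => (t.2.1 i : ℝ) / (3 * m)) ((t.2.2 : ℝ) / (3 * m))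
          (1 / (3 * m)) h f ∧
        ¬ SolC q l (modN m) t.1.1 t.1.2 (fun i => (t.2.1 i : ℝ) / (3 * m)) ((t.2.2 : ℝ) / (3 * m))
          (1 / (3 * m)) h f)) := by
    intro f hf
    rw [Finset.mem_filter] at hf
    rw [Finset.mem_biUnion]
    by_contra hcon
    push Not at hcon
    apply hf.2
    rw [← hhq]
    have hf1 := mem_formsZ.mp hf.1
    rw [← hhq, hel] at hf1
    apply hWAT q l m h hq hl hm hh0 f hf1
    intro t ht hL
    rw [← hs₀] at ht
    by_contra hS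
    exact hcon t ht (Finset.mem_filter.mpr ⟨hf.1, hL, hS⟩)
  have h2 := (Finset.card_le_card hsub).trans Finset.card_biUnion_le
  have h3 := (Nat.cast_le (α := ℝ)).mpr h2
  push_cast at h3
  refine h3.trans ?_
  calc _ ≤ (targetsC ι m s₀).card • (ε / ((targetsC ι m s₀).card + 1) *
        ((formsZ ι (e + 2) H).card : ℝ)) := by
        apply Finset.sum_le_card_nsmul
        intro t ht
        have h4 := hHf t h ((hH₀ _ (Finset.mem_image_of_mem Hf ht)).trans hhH₀)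
        rw [hhq] at h4
        exact h4
    _ = ((targetsC ι m s₀).card / ((targetsC ι m s₀).card + 1)) *
        (ε * ((formsZ ι (e + 2) H).card : ℝ)) := by
        rw [nsmul_eq_mul]; ring
    _ ≤ 1 * (ε * ((formsZ ι (e + 2) H).card : ℝ)) := by
        apply mul_le_mul_of_nonneg_right _ (by positivity)
        rw [div_le_one (by positivity)]
        linarith
    _ = _ := one_mul _

theorem WM_els {ι : Type} [Fintype ι] {q : ℕ} {f : MvPolynomial ι ℤ}
    (h : ∃ (x : ι → ℤ) (ω : ℤ), x ≠ 0 ∧ MvPolynomial.eval x f = ω ^ q) : ElsC q f := by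
  obtain ⟨x, ω, hx0, hx⟩ := h
  constructor
  · refine ⟨fun i => (x i : ℝ), (ω : ℝ), ?_, by rw [aeval_cast, hx, Int.cast_pow]⟩
    intro h0
    apply hx0
    funext i
    have := congrFun h0 i
    simp only [Pi.zero_apply] at this
    exact_mod_cast this
  · intro p _
    refine ⟨fun i => (x i : Padic p), (ω : Padic p), ?_, by rw [aeval_cast, hx, Int.cast_pow]⟩
    intro h0
    apply hx0
    funext i
    have := congrFun h0 i
    simp only [Pi.zero_apply] at this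
    exact_mod_cast this

open scoped Classical in
theorem t_WM (ι : Type) [Fintype ι] : S_WMain ι := by
  intro hWAT e q l hq hl hel hEXC hPOS
  obtain ⟨c, hc0, H₁, hH₁⟩ := hPOS
  have h1 := fun m : ℕ => WM_exc ι hWAT hq hl hel hEXC (m := m + 1) (by omega) (ε := c / (m + 1))
    (by positivity)
  choose Hf hHf using h1
  obtain ⟨M, hM⟩ : ∃ M : ℕ → ℕ, M = fun H : ℕ => Nat.findGreatest
      (fun j => ∀ i, i < j → Hf i ≤ (H : ℝ)) H := ⟨_, rfl⟩
  have hMtop : Tendsto M atTop atTop := by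
    rw [tendsto_atTop]
    intro b
    obtain ⟨B, hB⟩ := Finset.exists_le ((Finset.range b).image Hf)
    filter_upwards [eventually_ge_atTop b, eventually_ge_atTop ⌈B⌉₊] with H hH1 hH2
    rw [hM]
    apply Nat.le_findGreatest hH1
    intro i hi
    refine (hB _ (Finset.mem_image_of_mem Hf (Finset.mem_range.mpr hi))).trans ?_
    exact (Nat.le_ceil B).trans (by exact_mod_cast hH2)
  have hMspec : ∀ H : ℕ, 1 ≤ M H → Hf (M H - 1) ≤ (H : ℝ) := by
    intro H hH
    have h2 : ∀ i, i < M H → Hf i ≤ (H : ℝ) := by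
      have := Nat.findGreatest_spec (P := fun j => ∀ i, i < j → Hf i ≤ (H : ℝ)) (m := 0) (n := H)
        (Nat.zero_le _) (fun i hi => absurd hi (Nat.not_lt_zero i))
      rw [hM]
      exact this
    exact h2 _ (by omega)
  refine ⟨M, hMtop, ?_⟩
  rw [Metric.tendsto_atTop]
  intro δ hδ
  obtain ⟨j, hj⟩ := exists_nat_gt (1 / δ)
  have h3 := (tendsto_atTop.mp hMtop (j + 1)).and (eventually_ge_atTop ⌈H₁⌉₊)
  obtain ⟨H₂, hH₂⟩ := eventually_atTop.mp h3
  refine ⟨H₂, fun H hH => ?_⟩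
  obtain ⟨h4, h5⟩ := hH₂ H hH
  have hH1 : H₁ ≤ (H : ℝ) := (Nat.le_ceil H₁).trans (by exact_mod_cast h5)
  have h6 := hH₁ H hH1
  have h7 := hHf (M H - 1) H (hMspec H (by omega))
  have h8 : M H - 1 + 1 = M H := by omega
  rw [h8] at h7
  have h9 : (((M H - 1 : ℕ) : ℝ) + 1) = (M H : ℝ) := by exact_mod_cast h8
  rw [h9] at h7
  have hset1 : ({f : MvPolynomial ι ℤ | (f.IsHomogeneous (e + 2) ∧ ∀ s, |f.coeff s| ≤ (H : ℤ)) ∧
      ElsC q f ∧ WAC q l (M H) H f} : Set _).ncard =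
      ((formsZ ι (e + 2) (H : ℝ)).filter (fun f => ElsC q f ∧ WAC q l (M H) H f)).card := by
    rw [← ncard_eq_filter']
    congr 1
    ext f
    simp only [Set.mem_setOf_eq, isF_iff]
  have hset2 : ({f : MvPolynomial ι ℤ | (f.IsHomogeneous (e + 2) ∧ ∀ s, |f.coeff s| ≤ (H : ℤ)) ∧
      ElsC q f} : Set _).ncard = ((formsZ ι (e + 2) (H : ℝ)).filter (fun f => ElsC q f)).card := by
    rw [← ncard_eq_filter']
    congr 1
    ext f
    simp only [Set.mem_setOf_eq, isF_iff]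
  rw [hset1, hset2]
  obtain ⟨Fo, hFo⟩ : ∃ Fo, Fo = formsZ ι (e + 2) (H : ℝ) := ⟨_, rfl⟩
  have hmem : ∀ f ∈ Fo, f.IsHomogeneous (e + 2) := by
    intro f hf
    rw [hFo] at hf
    exact (mem_formsZ.mp hf).1
  have hFo0 : (0:ℝ) < Fo.card := by
    rw [hFo]; exact_mod_cast card_forms_pos (ι := ι) (e + 2) (Nat.cast_nonneg H)
  rw [← hFo] at h6 h7 ⊢
  obtain ⟨a, ha⟩ : ∃ a : ℝ, a = ((Fo.filter (fun f => ElsC q f ∧ WAC q l (M H) H f)).card : ℝ) :=
    ⟨_, rfl⟩
  obtain ⟨b, hb⟩ : ∃ b : ℝ, b = ((Fo.filter (fun f => ElsC q f)).card : ℝ) := ⟨_, rfl⟩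
  have hab' : a ≤ b := by
    rw [ha, hb]
    exact card_filter_le' _ _ _ (fun f _ h => h.1)
  have hcb : c * Fo.card ≤ b := by
    refine h6.trans ?_
    rw [hb]
    exact card_filter_le' _ _ _ (fun f _ h => WM_els h)
  have hM0 : (0:ℝ) < M H := by
    have : 0 < M H := by omega
    exact_mod_cast this
  have hba : b ≤ a + c / (M H) * Fo.card := by
    have h10 : (Fo.filter (fun f => ElsC q f)) ⊆ (Fo.filter (fun f => ElsC q f ∧ WAC q l (M H) H f)) ∪
        (Fo.filter (fun f => ¬ WAC q l (M H) H f)) := by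
      intro f hf
      rw [Finset.mem_filter] at hf
      rw [Finset.mem_union, Finset.mem_filter, Finset.mem_filter]
      by_cases hw : WAC q l (M H) H f
      · left; exact ⟨hf.1, hf.2, hw⟩
      · right; exact ⟨hf.1, hw⟩
    have h11 := (Finset.card_le_card h10).trans (Finset.card_union_le _ _)
    have h12 : b ≤ a + ((Fo.filter (fun f => ¬ WAC q l (M H) H f)).card : ℝ) := by
      rw [ha, hb]; exact_mod_cast h11
    linarith
  have hb0 : 0 < b := lt_of_lt_of_le (by positivity) hcb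
  rw [← ha, ← hb, Real.dist_eq]
  have h13 : a / b - 1 = -((b - a) / b) := by field_simp; ring
  rw [h13, abs_neg, abs_of_nonneg (div_nonneg (by linarith) hb0.le), div_lt_iff₀ hb0]
  have h14 : c / (M H) * Fo.card ≤ 1 / (M H) * b := by
    have := mul_le_mul_of_nonneg_left hcb (by positivity : 0 ≤ 1 / (M H : ℝ))
    refine le_trans (le_of_eq ?_) this
    ring
  have h15 : 1 / (M H : ℝ) < δ := by
    rw [div_lt_iff₀ hM0]
    rw [div_lt_iff₀ hδ] at hj
    have h16 : (j : ℝ) + 1 ≤ M H := by exact_mod_cast h4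
    have h17 := mul_le_mul_of_nonneg_left h16 hδ.le
    linarith
  have h18 := mul_lt_mul_of_pos_right h15 hb0
  linarith

end Pool.Agent.H90Q
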