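import Pool.Agent.H90Q.AVG
import Pool.Agent.H90Q.CB
import Pool.Agent.H90Q.CO1
import Pool.Agent.H90Q.CO2
import Pool.Agent.H90Q.CT
import Pool.Agent.H90Q.DG
import Pool.Agent.H90Q.EX
import Pool.Agent.H90Q.Fin
import Pool.Agent.H90Q.GS
import Pool.Agent.H90Q.LP
import Pool.Agent.H90Q.PO
import Pool.Agent.H90Q.RC
import Pool.Agent.H90Q.SM
import Pool.Agent.H90Q.STAB
import Pool.Agent.H90Q.WAT
import Pool.Agent.H90Q.WM
import Pool.Agent.H90Q.WS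

/-!
# Cyclic covers of `ℙⁿ`, `n ≥ 3`, over the rational numbers: assembly
-/

namespace Pool.Agent.H90Q

open Filter Topology

/-- The class theorem for cyclic covers of projective spaces of dimension at least three. -/
theorem class_cov (ι : Type) [Fintype ι] (hk : 4 ≤ Fintype.card ι) (e b l : ℕ) (hb : 2 ≤ b)
    (hl : 1 ≤ l) (hebl : e + 2 = b * l) (he : e + 3 ≤ Fintype.card ι + l) : S_CLASS ι e b l :=
  t_CT ι (t_CO1 ι (t_CO2 ι (t_DG ι) (t_CB ι))) (t_SM ι (t_GS ι)) (t_RC ι) t_WS hk e b l hb hl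
    hebl he

/-- From the class theorem to the main theorem. -/
theorem main_of_class (ι : Type) [Fintype ι] (hk : 2 ≤ Fintype.card ι) (e b l : ℕ) (hb : 2 ≤ b)
    (hl : 1 ≤ l) (hebl : e + 2 = b * l) (hC : S_CLASS ι e b l) :
    (∃ m : ℕ → ℕ, Tendsto m atTop atTop ∧ Tendsto (fun H : ℕ =>
      (({f : MvPolynomial ι ℤ | (f.IsHomogeneous (e + 2) ∧ ∀ s, |f.coeff s| ≤ (H : ℤ)) ∧
        SmoothC b f ∧ ElsC b f ∧ WAC b l (m H) H f} : Set _).ncard : ℝ) /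
      (({f : MvPolynomial ι ℤ | (f.IsHomogeneous (e + 2) ∧ ∀ s, |f.coeff s| ≤ (H : ℤ)) ∧
        SmoothC b f ∧ ElsC b f} : Set _).ncard : ℝ)) atTop (𝓝 1)) ∧
    ∃ c : ℝ, 0 < c ∧ ∀ᶠ H : ℕ in atTop,
      c * (({f : MvPolynomial ι ℤ | f.IsHomogeneous (e + 2) ∧ ∀ s, |f.coeff s| ≤ (H : ℤ)} :
        Set _).ncard : ℝ) ≤
      (({f : MvPolynomial ι ℤ | (f.IsHomogeneous (e + 2) ∧ ∀ s, |f.coeff s| ≤ (H : ℤ)) ∧
        SmoothC b f ∧ ElsC b f} : Set _).ncard : ℝ) := by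
  have hpos : S_POS ι e b := t_PO ι e b l hb hl hk hC
  have hexc : S_EXC ι e b l := t_EX ι (t_STAB ι) (t_AVG ι) e b l hb hl hk hC
  exact fin_main ι e b l (by omega) hpos (t_WM ι (t_WAT ι (t_LP ι)) e b l hb hl hebl hexc hpos)

end Pool.Agent.H90Q
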