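import Pool.Agent.H90Q.Stm3

/-!
# Piece CMP of project H90Q, phase 2: the congruence `f(y) ≡ lam ^ (b l) f(x)`
-/

namespace Pool.Agent.H90Q

open Pool.Agent.Y716.Q

theorem eval_mod_eq {ι : Type*} (f : MvPolynomial ι ℤ) (x y : ι → ℤ) (D : ℤ)
    (h : ∀ i, D ∣ y i - x i) : D ∣ MvPolynomial.eval y f - MvPolynomial.eval x f := by
  induction f using MvPolynomial.induction_on with
  | C a => simp
  | add p q hp hq =>
    have : MvPolynomial.eval y (p + q) - MvPolynomial.eval x (p + q) =
        (MvPolynomial.eval y p - MvPolynomial.eval x p) +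
        (MvPolynomial.eval y q - MvPolynomial.eval x q) := by
      simp only [map_add]; ring
    rw [this]
    exact dvd_add hp hq
  | mul_X p i hp =>
    have : MvPolynomial.eval y (p * MvPolynomial.X i) - MvPolynomial.eval x (p * MvPolynomial.X i) =
        (MvPolynomial.eval y p - MvPolynomial.eval x p) * y i +
        MvPolynomial.eval x p * (y i - x i) := by
      simp only [map_mul, MvPolynomial.eval_X]; ring
    rw [this]
    exact dvd_add (Dvd.dvd.mul_right hp _) (Dvd.dvd.mul_left (h i) _)

theorem eval_smul_homog {ι : Type*} {f : MvPolynomial ι ℤ} {n : ℕ} (hf : f.IsHomogeneous n)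
    (lam : ℤ) (x : ι → ℤ) :
    MvPolynomial.eval (fun i => lam * x i) f = lam ^ n * MvPolynomial.eval x f := by
  rw [MvPolynomial.eval_eq, MvPolynomial.eval_eq, Finset.mul_sum]
  refine Finset.sum_congr rfl fun d hd => ?_
  have hdeg : ∑ i ∈ d.support, d i = n := by
    have := hf (MvPolynomial.mem_support_iff.mp hd)
    rw [Finsupp.weight_apply] at this
    simpa [Finsupp.sum] using this
  have : ∏ i ∈ d.support, (lam * x i) ^ d i = lam ^ n * ∏ i ∈ d.support, x i ^ d i := by
    simp only [mul_pow, Finset.prod_mul_distrib]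
    rw [Finset.prod_pow_eq_pow_sum, hdeg]
  rw [this]; ring

theorem t_CMP (ι : Type) [Fintype ι] : S_CMP ι := by
  intro e b l S J fc g x y D lam ω ω' hbl hfc hg hD hx hy
  have hF : (mem' fc S J g).IsHomogeneous (e + 2) := by
    unfold mem'
    have hC : (MvPolynomial.C ((S * J : ℕ) : ℤ) * g).IsHomogeneous (e + 2) := by
      have := (MvPolynomial.isHomogeneous_C ι (((S * J : ℕ) : ℤ))).mul hg
      rwa [zero_add] at this
    exact hfc.add hC
  have h1 := eval_mod_eq (mem' fc S J g) (fun i => lam * x i) y D hD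
  rw [eval_smul_homog hF, hx, hy] at h1
  have h2 : lam ^ (e + 2) = (lam ^ l) ^ b := by
    rw [hbl, ← pow_mul, mul_comm]
  rwa [h2] at h1

end Pool.Agent.H90Q
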