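import Pool.Agent.H90Q.Stm3

/-!
# Project H90Q, phase 2, piece CO23: the final assembly of the class theorem for surfaces
-/

namespace Pool.Agent.H90Q

open Pool.Agent.Y716.Q

/-- `core_ED` for three variables -/
theorem CO23_ED {τ R Δ G G₂ : ℝ} {K D : ℕ} (hK : 0 < K) (hD : 0 < D)
    (hτ0 : 0 < τ) (hτ1 : τ ≤ 1 / 2) (hR : 0 < R) (hΔ : 0 < Δ) (hG : 0 < G)
    (hG₂ : G₂ ≤ (1 + τ) * G) (h1 : ((K * D : ℕ) : ℝ) ≤ τ * Δ) :
    G₂ * (((1 + τ) ^ 3 / (1 - τ) * R / (K * ((1 : ℕ) : ℝ) ^ 3)) *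
      (D * ((1 + τ) ^ 3 / (1 - τ) * R / (K * (D : ℝ) ^ 3)))) ≤
    G * (((1 + τ) ^ (2 * 3 + 1) / (1 - τ) ^ 4 * (R / (2 * Δ)) ^ 2) * (1 / (D : ℝ))) *
        ((2 * Δ / K - 1) * (2 * Δ / (K * D) - 1)) := by
  have hKr : (0:ℝ) < K := by exact_mod_cast hK
  have hDr : (0:ℝ) < D := by exact_mod_cast hD
  have hD1 : (1:ℝ) ≤ D := by exact_mod_cast hD
  have h1τ : 0 < 1 - τ := by linarith
  push_cast at h1
  have hKD : (K : ℝ) ≤ K * D := le_mul_of_one_le_right hKr.le hD1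
  have e1 : (1 - τ) * (2 * Δ / K) ≤ 2 * Δ / K - 1 := by
    have : 1 ≤ τ * (2 * Δ / K) := by
      rw [← mul_div_assoc, le_div_iff₀ hKr]
      have : 0 < τ * Δ := by positivity
      linarith
    linarith
  have e2 : (1 - τ) * (2 * Δ / (K * D)) ≤ 2 * Δ / (K * D) - 1 := by
    have : 1 ≤ τ * (2 * Δ / (K * D)) := by
      rw [← mul_div_assoc, le_div_iff₀ (by positivity)]
      have : 0 < τ * Δ := by positivity
      linarith
    linarith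
  have e3 := mul_le_mul e1 e2 (by positivity) (le_trans (by positivity) e1)
  have e4 := mul_le_mul_of_nonneg_left e3 (by positivity :
    0 ≤ G * (((1 + τ) ^ (2 * 3 + 1) / (1 - τ) ^ 4 * (R / (2 * Δ)) ^ 2) * (1 / (D : ℝ))))
  refine le_trans ?_ e4
  have e5 := mul_le_mul_of_nonneg_right hG₂ (by positivity :
    0 ≤ (((1 + τ) ^ 3 / (1 - τ) * R / (K * ((1 : ℕ) : ℝ) ^ 3)) *
      (D * ((1 + τ) ^ 3 / (1 - τ) * R / (K * (D : ℝ) ^ 3)))))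
  refine e5.trans (le_of_eq ?_)
  simp only [Nat.cast_one, one_pow, mul_one]
  field_simp

theorem CO23_t2 {M : ℕ} {e : ℕ} {Ct G G₃ P A Y ε c₀ cW E2 X Xc Wc : ℝ} (hCt : 0 < Ct)
    (hG : 0 < G) (hG₃ : G₃ ≤ 3 ^ M * G) (hP : 1 ≤ P) (hA : 0 < A) (hε : 0 < ε)
    (hc₀ : 0 < c₀) (hcW : 0 < cW)
    (hTs : 16 * Ct * 3 ^ M * 6 ^ 3 / (ε * c₀ ^ 2 * cW) ≤ Y) (hX : X ≤ (6 * P) ^ 3) (hX0 : 0 ≤ X)
    (hXc : 0 < Xc) (hAP : A * Y * P ^ (e + 2) ≤ Xc * P ^ 3) (hW : cW * Xc ≤ Wc)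
    (hE : c₀ ^ 2 / 4 * (P ^ (2 * 3) / (A ^ 2 * P ^ (2 * e + 4))) ≤ E2) :
    Ct * G₃ * X / (A * (2 * P) ^ (e + 2)) ≤ ε / 4 * (Wc * E2 * G) := by
  have hP0 : 0 < P := by linarith
  have h0 : cW * Xc * (c₀ ^ 2 / 4 * (P ^ (2 * 3) / (A ^ 2 * P ^ (2 * e + 4)))) ≤ Wc * E2 :=
    mul_le_mul hW hE (by positivity) ((by positivity : 0 ≤ cW * Xc).trans hW)
  have h1 := mul_le_mul_of_nonneg_right h0 (by positivity : 0 ≤ ε / 4 * G)
  have h2 : ε / 4 * (Wc * E2 * G) = Wc * E2 * (ε / 4 * G) := by ring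
  rw [h2]
  refine le_trans ?_ h1
  have h3 : Ct * G₃ * X / (A * (2 * P) ^ (e + 2)) ≤
      Ct * (3 ^ M * G) * (6 * P) ^ 3 / (A * P ^ (e + 2)) := by
    apply div_le_div₀ (by positivity) _ (by positivity) _
    · exact mul_le_mul (mul_le_mul_of_nonneg_left hG₃ hCt.le) hX hX0 (by positivity)
    · apply mul_le_mul_of_nonneg_left _ hA.le
      exact pow_le_pow_left₀ hP0.le (by linarith) _
  refine h3.trans ?_
  rw [div_le_iff₀ (by positivity)] at hTs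
  rw [mul_pow, div_le_iff₀ (by positivity)]
  have h4 : cW * Xc * (c₀ ^ 2 / 4 * (P ^ (2 * 3) / (A ^ 2 * P ^ (2 * e + 4)))) * (ε / 4 * G) *
      (A * P ^ (e + 2)) = (ε * c₀ ^ 2 * cW * G / 16 * P ^ 3) * (Xc * P ^ 3 / (A * P ^ (e + 2))) := by
    rw [show 2 * e + 4 = (e + 2) + (e + 2) by ring, pow_add P (e + 2) (e + 2)]
    field_simp
    ring
  rw [h4]
  have h5 : Y ≤ Xc * P ^ 3 / (A * P ^ (e + 2)) := by
    rw [le_div_iff₀ (by positivity)]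
    linarith
  have h6 := mul_le_mul_of_nonneg_left h5 (by positivity :
    0 ≤ ε * c₀ ^ 2 * cW * G / 16 * P ^ 3)
  refine le_trans ?_ h6
  have h7 := mul_le_mul_of_nonneg_right hTs (by positivity : 0 ≤ G * P ^ 3 / 16)
  refine le_trans (le_of_eq ?_) (h7.trans (le_of_eq ?_))
  · ring
  · ring

theorem CO23_split {ι : Type} [Fintype ι] (X : Finset (ι → ℤ)) (f : (ι → ℤ) × (ι → ℤ) → ℝ) :
    ∑ p ∈ X ×ˢ X, f p = ∑ p ∈ npPairs X, f p + ∑ p ∈ prPairs X, f p := by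
  classical
  have h1 : prPairs X = (X ×ˢ X).filter (fun p => ¬ ∃ i j, mn p.1 p.2 i j ≠ 0) := by
    unfold prPairs
    ext p
    simp only [Finset.mem_filter]
    push Not
    rfl
  have h2 : npPairs X = (X ×ˢ X).filter (fun p => ∃ i j, mn p.1 p.2 i j ≠ 0) := by
    unfold npPairs
    ext p
    simp only [Finset.mem_filter]
  rw [h1, h2]
  exact (Finset.sum_filter_add_sum_filter_not _ _ _).symm

theorem CO23_small {Y : ℝ} (hY : 64 * (3:ℝ) + 9 ≤ Y) {m : ℕ}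
    (hm1 : (m : ℝ) ≤ Y ^ 20) (hm2 : Y ^ 20 / 2 ≤ (m : ℝ)) :
    ((((3 : ℕ) : ℝ) * (32 : ℕ) * m + 1) * (2 * Y ^ 36) + 1) *
      (1 / (2 * m * (1 / Y ^ 19))) ^ (2 * 32) < 1 := by
  have hY0 : 0 < Y := by linarith
  have hY1 : 1 ≤ Y := by linarith
  have h1 : Y ≤ 2 * m * (1 / Y ^ 19) := by
    rw [mul_one_div, le_div_iff₀ (by positivity)]
    calc Y * Y ^ 19 = Y ^ 20 := by ring
      _ ≤ 2 * (m : ℝ) := by linarith
  have h2 : (1 / (2 * m * (1 / Y ^ 19))) ^ (2 * 32) ≤ 1 / Y ^ 64 := by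
    calc (1 / (2 * m * (1 / Y ^ 19))) ^ (2 * 32) ≤ (1 / Y) ^ (2 * 32) :=
          pow_le_pow_left₀ (by positivity) (one_div_le_one_div_of_le hY0 h1) _
      _ = 1 / Y ^ 64 := by rw [one_div_pow]
  have h3 : (((3 : ℕ) : ℝ) * (32 : ℕ) * m + 1) * (2 * Y ^ 36) + 1 ≤ 195 * Y ^ 56 := by
    push_cast
    have h5 : (3 * 32 * (m : ℝ) + 1) * (2 * Y ^ 36) ≤ (96 * Y ^ 20 + 1) * (2 * Y ^ 36) :=
      mul_le_mul_of_nonneg_right (by linarith) (by positivity)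
    have h6 : (96 * Y ^ 20 + 1) * (2 * Y ^ 36) = 192 * Y ^ 56 + 2 * Y ^ 36 := by ring
    have h7 : Y ^ 36 ≤ Y ^ 56 := pow_le_pow_right₀ hY1 (by norm_num)
    have h8 : 1 ≤ Y ^ 56 := one_le_pow₀ hY1
    linarith
  have h4 : ((((3 : ℕ) : ℝ) * (32 : ℕ) * m + 1) * (2 * Y ^ 36) + 1) *
      (1 / (2 * m * (1 / Y ^ 19))) ^ (2 * 32) ≤ (195 * Y ^ 56) * (1 / Y ^ 64) :=
    mul_le_mul h3 h2 (by positivity) (by positivity)
  refine lt_of_le_of_lt h4 ?_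
  rw [mul_one_div, div_lt_one (by positivity)]
  calc 195 * Y ^ 56 ≤ Y * Y ^ 56 := mul_le_mul_of_nonneg_right (by linarith) (by positivity)
    _ = Y ^ 57 := by ring
    _ < Y ^ 64 := pow_lt_pow_right₀ (by linarith) (by norm_num)

theorem CO23_unbal {Y Cu τ cR : ℝ} (hY : 2 ≤ Y) (hCu : 0 < Cu) (hτ : 0 < τ)
    (hcR : 0 < cR) (h : 100 * Cu * 4 ^ (3 - 1) / (τ * cR) ≤ Y) :
    Cu * (2 * Y ^ 36) ^ 2 * (2 * (2 * Y ^ 36) * (1 / Y ^ 19)) ^ (3 - 1) *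
      (1 + Real.log (2 * (2 * Y ^ 36) * (1 / Y ^ 19))) ≤ τ * (cR * (Y ^ 36) ^ 3) := by
  have hY0 : 0 < Y := by linarith
  have hY1 : 1 ≤ Y := by linarith
  have e1 : 2 * (2 * Y ^ 36) * (1 / Y ^ 19) = 4 * Y ^ 17 := by
    field_simp; ring
  rw [e1]
  have h1 : 1 + Real.log (4 * Y ^ 17) ≤ 25 * Y := by
    refine le_trans ?_ (log_le_lin hY1)
    have : Real.log (4 * Y ^ 17) ≤ Real.log (4 * Y ^ 22) := by
      apply Real.log_le_log (by positivity)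
      have : Y ^ 17 ≤ Y ^ 22 := pow_le_pow_right₀ hY1 (by norm_num)
      linarith
    linarith
  have h2 : Cu * (2 * Y ^ 36) ^ 2 * (4 * Y ^ 17) ^ (3 - 1) * (1 + Real.log (4 * Y ^ 17)) ≤
      Cu * (2 * Y ^ 36) ^ 2 * (4 * Y ^ 17) ^ (3 - 1) * (25 * Y) :=
    mul_le_mul_of_nonneg_left h1 (by positivity)
  refine h2.trans ?_
  rw [div_le_iff₀ (by positivity)] at h
  norm_num at h ⊢
  have e2 : Cu * (2 * Y ^ 36) ^ 2 * (4 * Y ^ 17) ^ 2 * (25 * Y) = (100 * Cu * 16) * Y ^ 107 := by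
    ring
  rw [e2]
  have h3 := mul_le_mul_of_nonneg_right h (by positivity : 0 ≤ Y ^ 107)
  have e3 : Y * (τ * cR) * Y ^ 107 = τ * (cR * (Y ^ 36) ^ 3) := by ring
  linarith

open scoped Classical in
theorem t_CO23 (hDG : S_DG (Fin 3)) (hCB : S_CB (Fin 3)) : CoreC23 := by
  intro e b l hb he M hM c c' Ct Cu hc hc' hc0 hCt0 hCu0 hCt hCu ε τ τ₂ T cR c₀ cW CW δW X hε hτ0
    hτ1 hb1 hb0 hτF w hw1 hwτ hwτ2 hT1 hc₀0 hCW0 hδW0 N hNT K hK hK0 hcR0 hcW0 N' hN'1 hN'r Y A P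
    y1 y2 y8 y9 hPdef hTs W fc S J xc v ξ i₀ ρ ρ' σ D₀ Δ₀ hfc hP hS hJ hWc hXp hAYP hdist hcp1 hcp2
    hρ0 hρρ' hρ'2 hξ hξr hσ hD₀0 hmemS
    Δ Δ₁ X₁ X₂ R hΔ₁ hΔ₁ρ hX₁ hX₂ hX₁K hX₂K hRdef hR0 hRlow hϱlow hA0 hP0 hP1 m a hm1 hm2 hm3
    ha ha1 haB u hu hΔ0 hΔ₁0 hKNΔτ hKNΔ h1Δτ hA₂ hA' haA haA2 hLg hτ₂0 hτ₂1 G hG hG0 hG₂ hG'
    hG3A hG2A
  have hk : Fintype.card (Fin 3) = 3 := Fintype.card_fin 3
  have hkι : 1 ≤ Fintype.card (Fin 3) := by rw [hk]; norm_num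
  have hKr : (1:ℝ) ≤ K := by exact_mod_cast hK0
  have hN'0 : (0:ℝ) ≤ N' := Nat.cast_nonneg _
  have hKN0 : (0:ℝ) ≤ K * N := by positivity
  have hN1 : 1 ≤ N := by
    have : (1:ℝ) ≤ N := by linarith
    exact_mod_cast this
  have hKDle : ∀ D : ℕ, D ≤ N → ((K * D : ℕ) : ℝ) ≤ K * N := by
    intro D hD
    push_cast
    apply mul_le_mul_of_nonneg_left _ (by linarith)
    exact_mod_cast hD
  have hKD₁ : ∀ D : ℕ, D ≤ N → ((K * D : ℕ) : ℝ) ≤ τ * X₁ := by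
    intro D hD
    have := hKDle D hD
    linarith
  have hKD₂ : ∀ D : ℕ, D ≤ N → ((K * D : ℕ) : ℝ) ≤ τ * X₂ := by
    intro D hD
    have := hKDle D hD
    linarith
  -- local bounds
  have hloc : ∀ ω ∈ W, ∀ D : ℕ, 0 < D → D ≤ N → (∀ q : ℕ, q.Prime → q ≤ w → ¬ q ∣ D) →
      ∀ g ∈ formsZ (Fin 3) (e + 2) ((1 + τ₂) * A), ∀ ζ,
      ((locSet P ξ i₀ ρ ρ' S J xc (mem' (fc - MvPolynomial.C (ω ^ b)) S J g) K D ζ
        (((S * J : ℕ) : ℝ) * Δ)).card : ℝ) ≤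
        (1 + τ) ^ 3 / (1 - τ) * R / (K * (D : ℝ) ^ 3) := by
    intro ω hω D hD hDN hDw g hg ζ
    have h := loc_norm_le (hP ω hω) hρ0.le (hρ0.le.trans hρρ') hP0.le hτ0 hτ1 hD₀0 hσ hΔ₁0.le
      hΔ₁ρ (hmemS ω hω _ (mul_le_mul_of_nonneg_right (by linarith) hA0.le) g hg) hX₁ hX₂ hK hD hDw
      (hKD₁ D hDN) (hKD₂ D hDN) hkι ζ
    rw [hk] at h
    rw [hΔ₁, ← hRdef]
    exact h
  set X' := testSet (2 * P) a P ξ i₀ ρ ρ' S xc with hX'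
  have hSM : (∑ ω ∈ W, ∑ ω' ∈ W, ∑ p ∈ npPairs X', (c2t e A p.1 p.2 (u ω p.1) (u ω' p.2) : ℝ)) ≤
      G * ((1 + τ) ^ (2 * 3 + 1) / (1 - τ) ^ 4 * (R / (2 * Δ)) ^ 2) *
        ((1 + τ) ^ 2 * (W.card : ℝ) ^ 2) * (1 + 2 / Real.sqrt w) +
      Ct * CW * (formsZ (Fin 3) (e + 2) (3 * A)).card * (2 * P) ^ 6 * (W.card : ℝ) ^ 2 /
        (A ^ 2 * (2 * P) ^ (2 * e + 4)) *
        (1 / Real.sqrt T + δW * (1 + Real.log (2 * P))) := by
    have := hCt w hw1 W ((1 + τ) ^ 2) CW δW fc hfc S J hS hJ xc P ξ i₀ ρ ρ' (2 * P) a A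
      ((1 + τ₂) * A) Δ T ha1 haB hT1 (by positivity) hCW0.le hδW0
      (2 * Y) (by rw [hk]; exact_mod_cast hLg) u hu N hNT K hK hΔ0.le hKNΔ
      (by rw [hk, hM, hc, hc']; exact hA₂)
      (by rw [hk, hc]; exact haA) (by rw [hk, hc']; exact haA2)
      ((1 + τ) ^ 3 / (1 - τ) * R / (K * ((1 : ℕ) : ℝ) ^ 3))
      ((1 + τ) ^ (2 * 3 + 1) / (1 - τ) ^ 4 * (R / (2 * Δ)) ^ 2)
      (fun D => (1 + τ) ^ 3 / (1 - τ) * R / (K * (D : ℝ) ^ 3))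
      (fun D => div_nonneg (mul_nonneg (div_nonneg (by positivity) (by linarith)) hR0.le)
        (by positivity))
      (mul_nonneg (div_nonneg (by positivity) (pow_nonneg (by linarith) _)) (by positivity))
      (fun ω hω g hg => hloc ω hω 1 one_pos hN1
        (fun q hq _ hq1 => hq.one_lt.ne' (Nat.dvd_one.mp hq1)) g hg 0)
      (fun D hD hDN hDw ω hω g hg ζ => hloc ω hω D hD hDN hDw g hg ζ)
      (fun D hD hDN => by
        rw [hG]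
        exact CO23_ED hK0 hD hτ0 hτ1 hR0 hΔ0 hG0 hG₂ ((hKDle D hDN).trans hKNΔτ))
      hcp1 hcp2
    rw [hG] at this
    exact this
  -- first moment and Chebyshev
  have htest : ∀ ω ∈ W, ∀ g ∈ formsZ (Fin 3) (e + 2) ((1 - τ₂) * A), bfun 3 τ * R ≤
      ((X'.filter (fun x =>
        |((MvPolynomial.eval x (mem' (fc - MvPolynomial.C (ω ^ b)) S J g) : ℤ) : ℝ)| ≤
          ((S * J : ℕ) : ℝ) * Δ)).card : ℝ) := by
    intro ω hω g hg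
    rw [hΔ₁]
    have key := test_lower hw1 (hP ω hω) hρ0.le hρρ' hρ'2 hP0 hτ0 hτ1 hD₀0 hwτ hξ hξr hσ hΔ₁0.le
      hΔ₁ρ (hmemS ω hω _ (mul_le_mul_of_nonneg_right (by linarith) hA0.le) g hg) hX₁ hX₂ hN'1
      (by linarith) (by linarith) (by rw [hk]; norm_num) (a := a) ?_ ?_
    · rw [hk, hRdef] at key
      exact key
    · rw [hk, hRdef]
      have h1 : (0:ℝ) < N' := by exact_mod_cast hN'1
      rw [div_le_iff₀ (by positivity)] at hN'r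
      rw [div_le_iff₀ h1, mul_pow]
      have h2 := mul_le_mul_of_nonneg_right hN'r (by positivity : 0 ≤ P ^ 3)
      have h3 := mul_le_mul_of_nonneg_left hRlow (by positivity : 0 ≤ τ * (N' : ℝ))
      linarith
    · intro U hU
      rw [hk, hRdef]
      have hPU : (1:ℝ) ≤ 2 * P := by linarith
      have hYY : 2 ^ 19 ≤ Y ^ 19 := pow_le_pow_left₀ (by norm_num) y1 19
      have hYp : 0 < Y ^ 19 := by positivity
      have h1 := hCu (2 * P) m 32 (1 / Y ^ 19) hPU hm3 (by norm_num) (by positivity)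
        (by
          rw [div_le_div_iff₀ hYp (by norm_num)]
          have : (64:ℝ) ≤ 2 ^ 19 := by norm_num
          linarith)
        (by rw [hk, hPdef]; exact CO23_small y2 hm1 hm2)
        (by
          rw [mul_one_div, le_div_iff₀ hYp, hPdef]
          have : Y ^ 19 ≤ Y ^ 36 := pow_le_pow_right₀ (by linarith) (by norm_num)
          have : 0 ≤ Y ^ 36 := by positivity
          linarith)
        U (by rw [ha]; exact hU)
      rw [hk, hPdef] at h1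
      refine h1.trans ((CO23_unbal y1 hCu0 hτ0 hcR0 y8).trans ?_)
      rw [← hPdef]
      exact mul_le_mul_of_nonneg_left hRlow hτ0.le
  have hr0 : 0 < R / (2 * Δ) := by positivity
  have hβ0 : 0 < (1 - τ) / (1 + τ) * bfun 3 τ := by linarith
  have hE₁0 : 0 < (1 - τ) / (1 + τ) * bfun 3 τ * (R / (2 * Δ)) := mul_pos hβ0 hr0
  have hWpos : (0:ℝ) < W.card := lt_of_lt_of_le (by positivity) hWc
  have hcheb := hCB e W (fun ω => fc - MvPolynomial.C (ω ^ b)) S J hS hJ xc P ξ i₀ ρ ρ' (2 * P) a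
    A ((1 - τ₂) * A) Δ ha1
    (by linarith : (1:ℝ) ≤ 2 * P) u hu hΔ0.le (by rw [hk, hc]; exact hA')
    (bfun 3 τ * R) ((1 - τ) / (1 + τ) * bfun 3 τ * (R / (2 * Δ))) hE₁0.le htest
    (by rw [hG]; exact core_cheb hτ0 hb0 hR0 hΔ0 hG0 hG' hτ1 h1Δτ)
  rw [hG] at hcheb ⊢
  have hsub : (((formsZ (Fin 3) (e + 2) A).filter (fun g =>
      ¬ PtIn W (fun ω => fc - MvPolynomial.C (ω ^ b)) S J (box P ξ i₀ ρ ρ' S xc) g)).card : ℝ) ≤
      (((formsZ (Fin 3) (e + 2) A).filter (fun g =>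
      ¬ PtIn W (fun ω => fc - MvPolynomial.C (ω ^ b)) S J X' g)).card : ℝ) := by
    have : ((formsZ (Fin 3) (e + 2) A).filter (fun g =>
      ¬ PtIn W (fun ω => fc - MvPolynomial.C (ω ^ b)) S J (box P ξ i₀ ρ ρ' S xc) g)) ⊆
      ((formsZ (Fin 3) (e + 2) A).filter (fun g =>
      ¬ PtIn W (fun ω => fc - MvPolynomial.C (ω ^ b)) S J X' g)) := by
      intro g hg
      rw [Finset.mem_filter] at hg ⊢
      refine ⟨hg.1, ?_⟩
      rintro ⟨x, hx, hx0⟩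
      exact hg.2 ⟨x, (mem_testSet.mp hx).1, hx0⟩
    exact_mod_cast Finset.card_le_card this
  refine hsub.trans ?_
  have hE2 := core_E1 (by norm_num : 1 ≤ 3) e hb1 hc₀0 hP0 hA0 hϱlow
  -- the proportional pairs
  have hpr := hDG e W u 1 X' (2 * P) a A hkι ha1 (by linarith)
    (fun x hx => ⟨(mem_testSet.mp hx).2.1, (mem_testSet.mp hx).2.2.1, (mem_testSet.mp hx).2.2.2⟩)
    (by rw [hk, hc]; exact haA)
    (fun x hx c => by
      rw [Finset.card_le_one]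
      intro ω₁ h₁ ω₂ h₂
      rw [Finset.mem_filter] at h₁ h₂
      apply hdist ω₁ h₁.1 ω₂ h₂.1
      have e1 := hu ω₁ h₁.1 x (mem_testSet.mp hx).1
      have e2 := hu ω₂ h₂.1 x (mem_testSet.mp hx).1
      rw [h₁.2] at e1
      rw [h₂.2, ← e1, map_sub, map_sub, MvPolynomial.eval_C, MvPolynomial.eval_C] at e2
      linarith)
  -- the second moment
  have hM2 : (∑ ω ∈ W, ∑ ω' ∈ W, ∑ p ∈ X' ×ˢ X', (c2t e A p.1 p.2 (u ω p.1) (u ω' p.2) : ℝ)) ≤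
      G * ((W.card : ℝ) ^ 2 * ((1 + τ) ^ (2 * 3 + 1) / (1 - τ) ^ 4 * (1 + τ) ^ 2 *
        (R / (2 * Δ)) ^ 2)) * (1 + 2 / Real.sqrt w) +
      (W.card : ℝ) ^ 2 * (Ct * CW * (formsZ (Fin 3) (e + 2) (3 * A)).card * (2 * P) ^ (2 * 3) /
        (A ^ 2 * (2 * P) ^ (2 * e + 4) *
          (1 / Real.sqrt T + δW * (1 + Real.log (2 * P)))⁻¹)) +
      (W.card : ℝ) * ((4 * c) * (formsZ (Fin 3) (e + 2) (2 * A)).card * X'.card /
        (A * (2 * P) ^ (e + 2))) := by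
    have h1 : (∑ ω ∈ W, ∑ ω' ∈ W, ∑ p ∈ X' ×ˢ X', (c2t e A p.1 p.2 (u ω p.1) (u ω' p.2) : ℝ)) =
        (∑ ω ∈ W, ∑ ω' ∈ W, ∑ p ∈ npPairs X', (c2t e A p.1 p.2 (u ω p.1) (u ω' p.2) : ℝ)) +
        ∑ ω ∈ W, ∑ ω' ∈ W, ∑ p ∈ prPairs X', (c2t e A p.1 p.2 (u ω p.1) (u ω' p.2) : ℝ) := by
      rw [← Finset.sum_add_distrib]
      refine Finset.sum_congr rfl fun ω _ => ?_
      rw [← Finset.sum_add_distrib]
      refine Finset.sum_congr rfl fun ω' _ => ?_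
      exact CO23_split X' fun p => (c2t e A p.1 p.2 (u ω p.1) (u ω' p.2) : ℝ)
    rw [h1]
    rw [hk, hc] at hpr
    refine (add_le_add hSM hpr).trans (le_of_eq ?_)
    have hinv : ∀ Z u v : ℝ, u / (v * Z⁻¹) = u / v * Z := fun Z u v => by
      rw [div_mul_eq_div_div, div_inv_eq_mul]
    rw [hinv]
    push_cast
    ring
  have hX'0 : (0:ℝ) ≤ X'.card := Nat.cast_nonneg _
  have hX'c : (X'.card : ℝ) ≤ (6 * P) ^ 3 := by
    have h1 := div_count (by linarith : (0:ℝ) ≤ 2 * P) 1 one_pos (by push_cast; linarith)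
      X' (fun x hx => ⟨(mem_testSet.mp hx).2.1.1, fun i => by simp⟩)
    rw [hk] at h1
    refine h1.trans (le_of_eq ?_)
    congr 1
    push_cast; ring
  have hWE : ∀ z : ℝ, ((W.card : ℝ) * z) ^ 2 = (W.card : ℝ) ^ 2 * z ^ 2 := fun z => by ring
  have hlog : 0 ≤ 1 + Real.log (2 * P) := by
    have : 0 ≤ Real.log (2 * P) := Real.log_nonneg (by linarith)
    linarith
  have hZ0 : 0 < 1 / Real.sqrt T + δW * (1 + Real.log (2 * P)) := by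
    have h1 : 0 < 1 / Real.sqrt T := one_div_pos.mpr (Real.sqrt_pos.mpr (by linarith))
    have h2 := mul_nonneg hδW0 hlog
    linarith
  have h1τ : 0 < 1 - τ := by linarith
  refine final_ineq (mul_pos hWpos hE₁0) hcheb hM2 ?_ ?_ ?_
  · have h1 := core_main (F := (1 + τ) ^ (2 * 3 + 1) / (1 - τ) ^ 4 * (1 + τ) ^ 2)
      (r := R / (2 * Δ)) (by positivity) hG0.le
      (by linarith : 1 + 2 / Real.sqrt (w : ℝ) ≤ 1 + τ)
      (by
        refine le_trans (le_of_eq ?_) hτF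
        ring)
    have h2 := mul_le_mul_of_nonneg_left h1 (by positivity : 0 ≤ (W.card : ℝ) ^ 2)
    rw [hWE]
    linarith
  · have h1 := core_t1 (k := 3) (M := M) (mul_pos hCt0 hCW0) hG0 hG3A hP0 hA0 hε hc₀0
      (inv_pos.mpr hZ0) (by rw [le_inv_comm₀ (by positivity) hZ0]
                            rw [inv_eq_one_div, le_div_iff₀ (by positivity)]
                            linarith) hE2
    have h2 := mul_le_mul_of_nonneg_left h1 (by positivity : 0 ≤ (W.card : ℝ) ^ 2)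
    rw [hWE]
    linarith
  · have h1 := CO23_t2 (Ct := 4 * c) (by positivity) hG0 hG2A hP1 hA0 hε hc₀0 hcW0 y9
      hX'c hX'0 hXp hAYP hWc hE2
    have h2 := mul_le_mul_of_nonneg_left h1 hWpos.le
    rw [hWE]
    linarith

end Pool.Agent.H90Q
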