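import Pool.Agent.H90Q.Stm3

/-!
# Project H90Q, phase 2, piece CP1: pairs with `ω' ^ b ≡ u ω ^ b` modulo `D`
-/

namespace Pool.Agent.H90Q

open Pool.Agent.Y716.Q

lemma cpt_le_nuB (b D : ℕ) (u : ℤ) (W : Finset ℤ) (κ : ℝ) (hD : 0 < D)
    (hκ : ∀ r : ℤ, ((W.filter (fun ω => (D : ℤ) ∣ ω - r)).card : ℝ) ≤ κ) :
    (cpt W b D u : ℝ) ≤ nuB b D u * κ ^ 2 := by
  classical
  have hDz : (0 : ℤ) < D := by exact_mod_cast hD
  set s := (W ×ˢ W).filter (fun p => (D : ℤ) ∣ p.2 ^ b - u * p.1 ^ b) with hs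
  set t := (Finset.range D ×ˢ Finset.range D).filter
    (fun p => (D : ℤ) ∣ (p.2 : ℤ) ^ b - u * (p.1 : ℤ) ^ b) with ht
  let f : ℤ × ℤ → ℕ × ℕ := fun p => ((p.1 % D).toNat, (p.2 % D).toNat)
  have hcast : ∀ x : ℤ, (((x % D).toNat : ℕ) : ℤ) = x % D := fun x =>
    Int.toNat_of_nonneg (Int.emod_nonneg x hDz.ne')
  have hlt : ∀ x : ℤ, (x % D).toNat < D := by
    intro x
    have h1 := Int.emod_lt_of_pos x hDz
    have h2 := hcast x
    omega
  have hmaps : ∀ p ∈ s, f p ∈ t := by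
    intro p hp
    rw [hs, Finset.mem_filter] at hp
    rw [ht, Finset.mem_filter, Finset.mem_product, Finset.mem_range, Finset.mem_range]
    refine ⟨⟨hlt _, hlt _⟩, ?_⟩
    simp only [f]
    rw [hcast, hcast]
    have h1 : (p.2 % D) ^ b ≡ p.2 ^ b [ZMOD D] := (Int.mod_modEq p.2 D).pow b
    have h2 : u * (p.1 % D) ^ b ≡ u * p.1 ^ b [ZMOD D] := ((Int.mod_modEq p.1 D).pow b).mul_left u
    have h3 : p.2 ^ b - u * p.1 ^ b ≡ 0 [ZMOD D] := (Int.modEq_zero_iff_dvd).2 hp.2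
    exact (Int.modEq_zero_iff_dvd).1 ((h1.sub h2).trans h3)
  have hcard : s.card = ∑ q ∈ t, (s.filter (fun p => f p = q)).card :=
    Finset.card_eq_sum_card_fiberwise hmaps
  have hfib : ∀ q ∈ t, ((s.filter (fun p => f p = q)).card : ℝ) ≤ κ ^ 2 := by
    intro q _
    have hsub : s.filter (fun p => f p = q) ⊆
        (W.filter (fun ω => (D : ℤ) ∣ ω - (q.1 : ℤ))) ×ˢ (W.filter (fun ω => (D : ℤ) ∣ ω - (q.2 : ℤ))) := by
      intro p hp
      rw [Finset.mem_filter, hs, Finset.mem_filter, Finset.mem_product] at hp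
      rw [Finset.mem_product, Finset.mem_filter, Finset.mem_filter]
      obtain ⟨⟨⟨h1, h2⟩, -⟩, h3⟩ := hp
      rw [← h3]
      simp only [f]
      rw [hcast, hcast]
      exact ⟨⟨h1, Int.dvd_self_sub_emod⟩, ⟨h2, Int.dvd_self_sub_emod⟩⟩
    have h1 := Finset.card_le_card hsub
    rw [Finset.card_product] at h1
    have h2 : ((s.filter (fun p => f p = q)).card : ℝ) ≤
        ((W.filter (fun ω => (D : ℤ) ∣ ω - (q.1 : ℤ))).card : ℝ) *
          ((W.filter (fun ω => (D : ℤ) ∣ ω - (q.2 : ℤ))).card : ℝ) := by exact_mod_cast h1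
    refine h2.trans ?_
    rw [sq]
    exact mul_le_mul (hκ _) (hκ _) (Nat.cast_nonneg _) ((Nat.cast_nonneg _).trans (hκ 0))
  have h1 : (cpt W b D u : ℝ) = (s.card : ℝ) := rfl
  have h2 : (nuB b D u : ℝ) = (t.card : ℝ) := rfl
  rw [h1, h2, hcard]
  push_cast
  refine (Finset.sum_le_sum hfib).trans ?_
  rw [Finset.sum_const, nsmul_eq_mul]

theorem t_CP1 (h : S_NU4) : S_CP1 := by
  intro b D u W κ hb hD hu hκ
  obtain ⟨h1, h2⟩ := h b D u hb hD hu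
  have h3 := cpt_le_nuB b D u W κ hD hκ
  have h4 : 0 ≤ κ ^ 2 := sq_nonneg κ
  refine ⟨h3.trans (mul_le_mul_of_nonneg_right h1 h4), fun hq => ?_⟩
  exact h3.trans (mul_le_mul_of_nonneg_right (h2 hq) h4)

end Pool.Agent.H90Q
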