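import Pool.Agent.H90Q.Stm3

/-!
# CP2: pairs in a well distributed set with `ω' ^ b ≡ u ω ^ b` modulo `g`
-/

namespace Pool.Agent.H90Q
namespace CP2

lemma cpt_mono (W : Finset ℤ) (b : ℕ) {D g : ℤ} (u : ℤ) (h : D ∣ g) :
    cpt W b g u ≤ cpt W b D u := by
  unfold cpt
  apply Finset.card_le_card
  intro p hp
  rw [Finset.mem_filter] at hp ⊢
  exact ⟨hp.1, h.trans hp.2⟩

lemma cpt_sum (W : Finset ℤ) (b : ℕ) (g u : ℤ) :
    cpt W b g u = ∑ ω ∈ W, (W.filter (fun ω' => g ∣ ω' ^ b - u * ω ^ b)).card := by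
  unfold cpt
  rw [Finset.card_filter, Finset.sum_product]
  refine Finset.sum_congr rfl fun ω _ => ?_
  rw [Finset.card_filter]

/-- (i): a divisor `D ≤ L` of `g` -/
lemma small_div (h1 : S_CP1) (b : ℕ) (W : Finset ℤ) (CW : ℝ) (hb : b = 2 ∨ b = 3) (hCW : 1 ≤ CW)
    (hW : ∀ g : ℕ, 0 < g → ∀ r : ℤ,
      ((W.filter (fun ω => (g : ℤ) ∣ ω - r)).card : ℝ) ≤ CW * W.card / g + 1)
    (g D : ℕ) (u : ℤ) (hu : IsCoprime u (g : ℤ)) (hD : 0 < D) (hDg : D ∣ g) (hDL : D ≤ W.card) :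
    (cpt W b g u : ℝ) ≤ 4 * 5 ^ 9 * CW ^ 2 * (W.card : ℝ) ^ 2 * (1 / Real.sqrt D) := by
  have hDg' : (D : ℤ) ∣ (g : ℤ) := by exact_mod_cast hDg
  have hD0 : (0:ℝ) < D := by exact_mod_cast hD
  have hDL' : (D : ℝ) ≤ W.card := by exact_mod_cast hDL
  have huD : IsCoprime u (D : ℤ) := IsCoprime.of_isCoprime_of_dvd_right hu hDg'
  have hκ := (h1 b D u W (CW * W.card / D + 1) hb hD huD (hW D hD)).1
  have h2 : (cpt W b g u : ℝ) ≤ cpt W b D u := by exact_mod_cast cpt_mono W b u hDg'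
  have h3 : CW * W.card / D + 1 ≤ 2 * (CW * W.card) / D := by
    have : 1 ≤ CW * W.card / D := by
      rw [le_div_iff₀ hD0]
      nlinarith
    have h4 : 2 * (CW * (W.card : ℝ)) / D = CW * W.card / D + CW * W.card / D := by ring
    linarith
  have h3' : 0 ≤ CW * W.card / D + 1 := by positivity
  have hsq : 0 < Real.sqrt D := Real.sqrt_pos.2 hD0
  calc (cpt W b g u : ℝ) ≤ cpt W b D u := h2
    _ ≤ 5 ^ 9 * (D * Real.sqrt D) * (CW * W.card / D + 1) ^ 2 := hκ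
    _ ≤ 5 ^ 9 * (D * Real.sqrt D) * (2 * (CW * W.card) / D) ^ 2 := by
        gcongr
    _ = 4 * 5 ^ 9 * CW ^ 2 * (W.card : ℝ) ^ 2 * (1 / Real.sqrt D) := by
        have hs : Real.sqrt D * Real.sqrt D = D := Real.mul_self_sqrt hD0.le
        field_simp
        rw [pow_two (Real.sqrt D), hs]
        ring

/-- the number of `ω'` in `W` with `ω' ^ b ≡ c` modulo `p`, `p ∤ c` -/
lemma unit_case (h2 : S_NU2) (b : ℕ) (W : Finset ℤ) (κ : ℝ) (hb : b = 2 ∨ b = 3) (p : ℕ)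
    (hp : p.Prime) (hκ : 0 ≤ κ)
    (hW : ∀ r : ℤ, ((W.filter (fun ω => (p : ℤ) ∣ ω - r)).card : ℝ) ≤ κ) (c : ℤ)
    (hc : ¬ (p : ℤ) ∣ c) :
    ((W.filter (fun ω' => (p : ℤ) ∣ ω' ^ b - c)).card : ℝ) ≤ 4 * κ := by
  have hR := h2 b p 1 c hb hp hc
  rw [pow_one] at hR
  set R := (Finset.range p).filter (fun a : ℕ => (p : ℤ) ∣ (a : ℤ) ^ b - c) with hRdef
  have hsub : W.filter (fun ω' => (p : ℤ) ∣ ω' ^ b - c) ⊆
      R.biUnion (fun a => W.filter (fun ω' => (p : ℤ) ∣ ω' - (a : ℤ))) := by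
    intro ω hω
    rw [Finset.mem_filter] at hω
    rw [Finset.mem_biUnion]
    have hp0 : (0:ℤ) < p := by exact_mod_cast hp.pos
    have hnn : 0 ≤ ω % (p : ℤ) := Int.emod_nonneg _ hp0.ne'
    have hcast : ((ω % (p : ℤ)).toNat : ℤ) = ω % (p : ℤ) := Int.toNat_of_nonneg hnn
    have hd : (p : ℤ) ∣ ω - ω % (p : ℤ) := Int.dvd_self_sub_emod
    refine ⟨(ω % (p : ℤ)).toNat, ?_, ?_⟩
    · rw [hRdef, Finset.mem_filter, Finset.mem_range]
      constructor
      · have := Int.emod_lt_of_pos ω hp0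
        zify
        rw [hcast]
        exact this
      · rw [hcast]
        have h3 : (p : ℤ) ∣ ω ^ b - (ω % (p : ℤ)) ^ b := hd.trans (sub_dvd_pow_sub_pow _ _ _)
        have h4 : (ω % (p : ℤ)) ^ b - c = (ω ^ b - c) - (ω ^ b - (ω % (p : ℤ)) ^ b) := by ring
        rw [h4]
        exact dvd_sub hω.2 h3
    · rw [Finset.mem_filter, hcast]
      exact ⟨hω.1, hd⟩
  calc ((W.filter (fun ω' => (p : ℤ) ∣ ω' ^ b - c)).card : ℝ)
      ≤ ((R.biUnion (fun a => W.filter (fun ω' => (p : ℤ) ∣ ω' - (a : ℤ)))).card : ℝ) := by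
        exact_mod_cast Finset.card_le_card hsub
    _ ≤ ∑ a ∈ R, ((W.filter (fun ω' => (p : ℤ) ∣ ω' - (a : ℤ))).card : ℝ) := by
        exact_mod_cast Finset.card_biUnion_le
    _ ≤ ∑ _a ∈ R, κ := Finset.sum_le_sum fun a _ => hW a
    _ = R.card * κ := by rw [Finset.sum_const, nsmul_eq_mul]
    _ ≤ 4 * κ := by
        have : (R.card : ℝ) ≤ 4 := by exact_mod_cast hR
        exact mul_le_mul_of_nonneg_right this hκ

/-- (ii): a prime factor `p > L` of `g` -/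
lemma big_prime (h2 : S_NU2) (b : ℕ) (W : Finset ℤ) (CW : ℝ) (hb : b = 2 ∨ b = 3) (hCW : 1 ≤ CW)
    (hL : 1 ≤ W.card)
    (hW : ∀ g : ℕ, 0 < g → ∀ r : ℤ,
      ((W.filter (fun ω => (g : ℤ) ∣ ω - r)).card : ℝ) ≤ CW * W.card / g + 1)
    (g p : ℕ) (u : ℤ) (hu : IsCoprime u (g : ℤ)) (hp : p.Prime) (hpg : p ∣ g)
    (hpL : W.card < p) :
    (cpt W b g u : ℝ) ≤ 12 * CW ^ 2 * (W.card : ℝ) := by
  have hpg' : (p : ℤ) ∣ (g : ℤ) := by exact_mod_cast hpg
  have hp0 : (0:ℝ) < p := by exact_mod_cast hp.pos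
  have hpL' : (W.card : ℝ) ≤ p := by exact_mod_cast hpL.le
  have hL' : (1 : ℝ) ≤ W.card := by exact_mod_cast hL
  have hpi : Prime (p : ℤ) := Nat.prime_iff_prime_int.1 hp
  have hup : ¬ (p : ℤ) ∣ u := by
    intro h
    have : IsUnit (p : ℤ) := hu.isUnit_of_dvd' h hpg'
    exact hpi.not_isUnit this
  have hκ : ∀ r : ℤ, ((W.filter (fun ω => (p : ℤ) ∣ ω - r)).card : ℝ) ≤ 2 * CW := by
    intro r
    refine (hW p hp.pos r).trans ?_
    have : CW * W.card / p ≤ CW := by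
      rw [div_le_iff₀ hp0]
      exact mul_le_mul_of_nonneg_left hpL' (by linarith)
    linarith
  have hb0 : b ≠ 0 := by rcases hb with rfl | rfl <;> norm_num
  have hmono : (cpt W b g u : ℝ) ≤ cpt W b p u := by exact_mod_cast cpt_mono W b u hpg'
  refine hmono.trans ?_
  rw [cpt_sum]
  push_cast
  have hdivcard : ((W.filter (fun ω => (p : ℤ) ∣ ω)).card : ℝ) ≤ 2 * CW := by
    have := hκ 0
    simpa using this
  have hterm : ∀ ω ∈ W, ((W.filter (fun ω' => (p : ℤ) ∣ ω' ^ b - u * ω ^ b)).card : ℝ) ≤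
      (8 * CW) + (if (p : ℤ) ∣ ω then 2 * CW else 0) := by
    intro ω _
    by_cases hω : (p : ℤ) ∣ ω
    · rw [if_pos hω]
      have h3 : W.filter (fun ω' => (p : ℤ) ∣ ω' ^ b - u * ω ^ b) ⊆
          W.filter (fun ω' => (p : ℤ) ∣ ω') := by
        intro ω' hω'
        rw [Finset.mem_filter] at hω' ⊢
        refine ⟨hω'.1, ?_⟩
        have h4 : (p : ℤ) ∣ u * ω ^ b := (hω.trans (dvd_pow_self ω hb0)).mul_left u
        have h5 : (p : ℤ) ∣ ω' ^ b := by
          have := dvd_add hω'.2 h4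
          simpa using this
        exact hpi.dvd_of_dvd_pow h5
      have h6 : ((W.filter (fun ω' => (p : ℤ) ∣ ω' ^ b - u * ω ^ b)).card : ℝ) ≤
          (W.filter (fun ω' => (p : ℤ) ∣ ω')).card := by exact_mod_cast Finset.card_le_card h3
      linarith
    · rw [if_neg hω]
      have hc : ¬ (p : ℤ) ∣ u * ω ^ b := by
        intro h
        rcases hpi.dvd_or_dvd h with h | h
        · exact hup h
        · exact hω (hpi.dvd_of_dvd_pow h)
      have := unit_case h2 b W (2 * CW) hb p hp (by linarith) hκ (u * ω ^ b) hc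
      linarith
  calc ∑ ω ∈ W, ((W.filter (fun ω' => (p : ℤ) ∣ ω' ^ b - u * ω ^ b)).card : ℝ)
      ≤ ∑ ω ∈ W, ((8 * CW) + (if (p : ℤ) ∣ ω then 2 * CW else 0)) := Finset.sum_le_sum hterm
    _ = W.card * (8 * CW) + (W.filter (fun ω => (p : ℤ) ∣ ω)).card * (2 * CW) := by
        rw [Finset.sum_add_distrib, Finset.sum_const, nsmul_eq_mul, ← Finset.sum_filter,
          Finset.sum_const, nsmul_eq_mul]
    _ ≤ W.card * (8 * CW) + (2 * CW) * (2 * CW) := by
        have : (0:ℝ) ≤ 2 * CW := by linarith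
        nlinarith [mul_le_mul_of_nonneg_right hdivcard this]
    _ ≤ 12 * CW ^ 2 * (W.card : ℝ) := by
        have h7 : CW ≤ CW ^ 2 := by nlinarith
        have h8 : (W.card : ℝ) * (8 * CW) ≤ 8 * CW ^ 2 * W.card := by nlinarith
        have h9 : (2 * CW) * (2 * CW) ≤ 4 * CW ^ 2 * W.card := by nlinarith [sq_nonneg CW]
        linarith

/-- (iii): if all the prime factors of `g > L` are at most `L`, there is a divisor `D ≤ L` with
`L ≤ D ^ 2` -/
lemma exists_div (L g : ℕ) (hL : 1 ≤ L) (hg : 0 < g) (hLg : L < g)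
    (hp : ∀ p : ℕ, p.Prime → p ∣ g → p ≤ L) :
    ∃ D : ℕ, 0 < D ∧ D ∣ g ∧ D ≤ L ∧ L ≤ D ^ 2 := by
  classical
  set S := g.divisors.filter (fun d => d ≤ L) with hS
  have hne : S.Nonempty := ⟨1, by
    rw [hS, Finset.mem_filter, Nat.mem_divisors]
    exact ⟨⟨one_dvd _, hg.ne'⟩, hL⟩⟩
  set D := S.max' hne with hD
  have hDS : D ∈ S := Finset.max'_mem S hne
  have hmax : ∀ d ∈ S, d ≤ D := fun d hd => Finset.le_max' S d hd
  have hDS' := hDS
  rw [hS, Finset.mem_filter, Nat.mem_divisors] at hDS'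
  obtain ⟨⟨hDg, -⟩, hDL⟩ := hDS'
  have hD0 : 0 < D := Nat.pos_of_dvd_of_pos hDg hg
  refine ⟨D, hD0, hDg, hDL, ?_⟩
  by_contra hcon
  push Not at hcon
  obtain ⟨k, hk⟩ := hDg
  have hk1 : k ≠ 1 := by
    rintro rfl
    omega
  obtain ⟨p, hpp, hpk⟩ := Nat.exists_prime_and_dvd hk1
  have hpg : p ∣ g := hk ▸ hpk.mul_left D
  have hpD : D * p ∣ g := by
    rw [hk]
    exact Nat.mul_dvd_mul_left D hpk
  have h1 : L < D * p := by
    by_contra h
    push Not at h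
    have hmem : D * p ∈ S := by
      rw [hS, Finset.mem_filter, Nat.mem_divisors]
      exact ⟨⟨hpD, hg.ne'⟩, h⟩
    have h2 := hmax _ hmem
    have h3 := hpp.two_le
    nlinarith
  have h4 : p ≤ D := by
    apply hmax
    rw [hS, Finset.mem_filter, Nat.mem_divisors]
    exact ⟨⟨hpg, hg.ne'⟩, hp p hpp hpg⟩
  nlinarith

end CP2

open CP2 in
theorem t_CP2 (h1 : S_CP1) (h2 : S_NU2) : S_CP2 := by
  intro b W CW hb hCW hL hW g u hg hu
  have hL' : (1 : ℝ) ≤ W.card := by exact_mod_cast hL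
  have hg' : (0 : ℝ) < g := by exact_mod_cast hg
  have hsL : 0 < Real.sqrt (Real.sqrt W.card) :=
    Real.sqrt_pos.2 (Real.sqrt_pos.2 (by linarith))
  have hsg : 0 < Real.sqrt g := Real.sqrt_pos.2 hg'
  have hcL : 0 < CW ^ 2 * (W.card : ℝ) ^ 2 := by positivity
  have e1 : 0 ≤ 1 / Real.sqrt (g:ℝ) := by positivity
  have e2 : 0 ≤ 1 / Real.sqrt (Real.sqrt (W.card : ℝ)) := by positivity
  have key : ∀ x : ℝ, 0 ≤ x → x ≤ 1 / Real.sqrt g + 1 / Real.sqrt (Real.sqrt W.card) →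
      4 * 5 ^ 9 * CW ^ 2 * (W.card : ℝ) ^ 2 * x ≤ 5 ^ 11 * CW ^ 2 * (W.card : ℝ) ^ 2 *
        (1 / Real.sqrt g + 1 / Real.sqrt (Real.sqrt W.card)) := by
    intro x hx hle
    have h3 : CW ^ 2 * (W.card : ℝ) ^ 2 * x ≤ CW ^ 2 * (W.card : ℝ) ^ 2 *
        (1 / Real.sqrt g + 1 / Real.sqrt (Real.sqrt W.card)) :=
      mul_le_mul_of_nonneg_left hle hcL.le
    have h4 : 0 ≤ CW ^ 2 * (W.card : ℝ) ^ 2 * x := by positivity
    nlinarith
  rcases le_or_gt g W.card with hle | hgt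
  · have h3 := small_div h1 b W CW hb hCW hW g g u hu hg dvd_rfl hle
    exact h3.trans (key _ e1 (by linarith))
  · by_cases hbig : ∃ p : ℕ, p.Prime ∧ p ∣ g ∧ W.card < p
    · obtain ⟨p, hp, hpg, hpL⟩ := hbig
      have h3 := big_prime h2 b W CW hb hCW hL hW g p u hu hp hpg hpL
      have h4 : Real.sqrt (Real.sqrt (W.card : ℝ)) ≤ W.card := by
        have h5 : Real.sqrt (W.card : ℝ) ≤ W.card := by
          rw [Real.sqrt_le_left (by linarith)]
          nlinarith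
        have h6 : Real.sqrt (Real.sqrt (W.card : ℝ)) ≤ Real.sqrt W.card :=
          Real.sqrt_le_sqrt h5
        linarith
      have h7 : 1 ≤ (W.card : ℝ) * (1 / Real.sqrt (Real.sqrt W.card)) := by
        rw [mul_one_div, le_div_iff₀ hsL]
        linarith
      have h8 : (W.card : ℝ) ≤ (W.card : ℝ) ^ 2 * (1 / Real.sqrt (Real.sqrt W.card)) := by
        have : (W.card : ℝ) ^ 2 * (1 / Real.sqrt (Real.sqrt W.card)) =
          W.card * ((W.card : ℝ) * (1 / Real.sqrt (Real.sqrt W.card))) := by ring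
        rw [this]
        nlinarith
      have h9 : 0 ≤ (W.card : ℝ) ^ 2 * (1 / Real.sqrt (g:ℝ)) := by positivity
      calc (cpt W b g u : ℝ) ≤ 12 * CW ^ 2 * (W.card : ℝ) := h3
        _ ≤ 12 * CW ^ 2 * ((W.card : ℝ) ^ 2 * (1 / Real.sqrt g +
              1 / Real.sqrt (Real.sqrt W.card))) := by
            apply mul_le_mul_of_nonneg_left _ (by positivity)
            rw [mul_add]
            linarith
        _ ≤ 5 ^ 11 * CW ^ 2 * ((W.card : ℝ) ^ 2 * (1 / Real.sqrt g +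
              1 / Real.sqrt (Real.sqrt W.card))) := by
            apply mul_le_mul_of_nonneg_right _ (by positivity)
            have : 0 ≤ CW ^ 2 := sq_nonneg _
            nlinarith
        _ = _ := by ring
    · push Not at hbig
      obtain ⟨D, hD0, hDg, hDL, hLD⟩ := exists_div W.card g hL hg hgt
        (fun p hp hpg => hbig p hp hpg)
      have h3 := small_div h1 b W CW hb hCW hW g D u hu hD0 hDg hDL
      refine h3.trans (key _ (by positivity) ?_)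
      have hD' : (0:ℝ) < D := by exact_mod_cast hD0
      have h4 : Real.sqrt (Real.sqrt (W.card : ℝ)) ≤ Real.sqrt D := by
        apply Real.sqrt_le_sqrt
        rw [Real.sqrt_le_left hD'.le]
        exact_mod_cast hLD
      have h5 : 1 / Real.sqrt (D:ℝ) ≤ 1 / Real.sqrt (Real.sqrt (W.card : ℝ)) :=
        one_div_le_one_div_of_le hsL h4
      linarith

end Pool.Agent.H90Q
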