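import Pool.Agent.H90Q.Stm3
import Pool.Agent.H90Q.CT

/-!
# The class theorem for surfaces
-/

namespace Pool.Agent.H90Q

open Filter Pool.Agent.Y716.Q

theorem tau3 {ε : ℝ} (hε : 0 < ε) : ∃ τ : ℝ, 0 < τ ∧ τ ≤ 1 / 2 ∧
    1 / 2 ≤ (1 - τ) / (1 + τ) * bfun 3 τ ∧ 0 < bfun 3 τ ∧
    (1 + τ) ^ (2 * 3 + 1) / (1 - τ) ^ 4 * (1 + τ) ^ 3 ≤
      (1 + ε) * ((1 - τ) / (1 + τ) * bfun 3 τ) ^ 2 := by
  obtain ⟨τ, h0, h1, h2, h3, h4⟩ := exists_tau 4 hε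
  have hle : bfun 4 τ ≤ bfun 3 τ := by
    unfold bfun
    have e1 : (1 - τ) ^ 4 / (1 + τ) ≤ (1 - τ) ^ 3 / (1 + τ) := by
      apply div_le_div_of_nonneg_right _ (by linarith)
      exact pow_le_pow_of_le_one (by linarith) (by linarith) (by norm_num)
    have e2 : (1 + τ) ^ 3 / (1 - τ) * τ ≤ (1 + τ) ^ 4 / (1 - τ) * τ := by
      apply mul_le_mul_of_nonneg_right _ h0.le
      apply div_le_div_of_nonneg_right _ (by linarith)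
      exact pow_le_pow_right₀ (by linarith) (by norm_num)
    linarith
  have hq : 0 < (1 - τ) / (1 + τ) := div_pos (by linarith) (by linarith)
  have h5 : (1 - τ) / (1 + τ) * bfun 4 τ ≤ (1 - τ) / (1 + τ) * bfun 3 τ :=
    mul_le_mul_of_nonneg_left hle hq.le
  refine ⟨τ, h0, h1, h2.trans h5, h3.trans_le hle, ?_⟩
  have h6 : ((1 - τ) / (1 + τ) * bfun 4 τ) ^ 2 ≤ ((1 - τ) / (1 + τ) * bfun 3 τ) ^ 2 :=
    pow_le_pow_left₀ (by positivity) h5 2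
  have h7 : (1 + τ) ^ (2 * 3 + 1) / (1 - τ) ^ 4 * (1 + τ) ^ 3 =
      (1 + τ) ^ (2 * 4 + 1) / (1 - τ) ^ 4 * (1 + τ) := by ring
  rw [h7]
  exact h4.trans (mul_le_mul_of_nonneg_left h6 (by linarith))

theorem ct3_kap {D t L : ℝ} (hD : 0 < D) :
    D * Real.sqrt D * (t * L / D) ^ 2 = t ^ 2 * L ^ 2 / Real.sqrt D := by
  obtain ⟨r, hr0, hr⟩ : ∃ r : ℝ, 0 < r ∧ D = r ^ 2 :=
    ⟨Real.sqrt D, Real.sqrt_pos.mpr hD, (Real.sq_sqrt hD.le).symm⟩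
  rw [hr, Real.sqrt_sq hr0.le]
  field_simp

theorem ct3_num {Z T cW Y P L : ℝ} (hZ : 0 < Z) (hT : 2 * Z ≤ Real.sqrt T) (hcW : 0 < cW)
    (hY : 1 ≤ Y) (hL : cW * Y ^ 36 ≤ L) (hY2 : 72 * Z / Real.sqrt (Real.sqrt cW) ≤ Y)
    (hP : P = Y ^ 36) :
    Z * (1 / Real.sqrt T + 1 / Real.sqrt (Real.sqrt L) * (1 + Real.log (2 * P))) ≤ 1 := by
  have hY0 : 0 < Y := by linarith
  have hsT : 0 < Real.sqrt T := lt_of_lt_of_le (by positivity) hT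
  have h1 : Z * (1 / Real.sqrt T) ≤ 1 / 2 := by
    rw [mul_one_div, div_le_iff₀ hsT]; linarith
  have h2 : Real.sqrt (Real.sqrt cW) * Y ^ 9 ≤ Real.sqrt (Real.sqrt L) := by
    have e1 : Real.sqrt (cW * Y ^ 36) = Real.sqrt cW * Y ^ 18 := by
      rw [Real.sqrt_mul hcW.le, show Y ^ 36 = (Y ^ 18) ^ 2 by ring, Real.sqrt_sq (by positivity)]
    have e2 : Real.sqrt (Real.sqrt cW * Y ^ 18) = Real.sqrt (Real.sqrt cW) * Y ^ 9 := by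
      rw [Real.sqrt_mul (Real.sqrt_nonneg _), show Y ^ 18 = (Y ^ 9) ^ 2 by ring,
        Real.sqrt_sq (by positivity)]
    rw [← e2, ← e1]
    exact Real.sqrt_le_sqrt (Real.sqrt_le_sqrt hL)
  have h3 : 1 + Real.log (2 * P) ≤ 36 * Y := by
    rw [hP, Real.log_mul (by norm_num) (by positivity), Real.log_pow]
    have e1 := Real.log_le_sub_one_of_pos hY0
    have e2 := Real.log_two_lt_d9
    push_cast
    linarith
  have hc0 : 0 < Real.sqrt (Real.sqrt cW) := Real.sqrt_pos.mpr (Real.sqrt_pos.mpr hcW)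
  have h4 : 0 < Real.sqrt (Real.sqrt L) := lt_of_lt_of_le (by positivity) h2
  have h5 : Z * (1 / Real.sqrt (Real.sqrt L) * (1 + Real.log (2 * P))) ≤ 1 / 2 := by
    have e1 : Z * (1 / Real.sqrt (Real.sqrt L) * (1 + Real.log (2 * P))) =
        Z * (1 + Real.log (2 * P)) / Real.sqrt (Real.sqrt L) := by ring
    rw [e1, div_le_iff₀ h4]
    have e2 : Z * (1 + Real.log (2 * P)) ≤ Z * (36 * Y) := mul_le_mul_of_nonneg_left h3 hZ.le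
    rw [div_le_iff₀ hc0] at hY2
    have e3 : Y * Y ≤ Y ^ 9 := by
      calc Y * Y = Y ^ 2 := by ring
        _ ≤ Y ^ 9 := pow_le_pow_right₀ hY (by norm_num)
    have e4 : Real.sqrt (Real.sqrt cW) * (Y * Y) ≤ Real.sqrt (Real.sqrt cW) * Y ^ 9 :=
      mul_le_mul_of_nonneg_left e3 hc0.le
    have e5 : 72 * Z * Y ≤ Y * Real.sqrt (Real.sqrt cW) * Y :=
      mul_le_mul_of_nonneg_right hY2 hY0.le
    nlinarith
  linarith [mul_add Z (1 / Real.sqrt T) (1 / Real.sqrt (Real.sqrt L) * (1 + Real.log (2 * P)))]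

open scoped Classical in
/-- The class theorem for surfaces. -/
theorem t_CT3 : S_CT3 := by
  intro hcore hSM hRC hWS hCP1 hCP2 e b l hb23 hl1 hebl hbl ε hε
  have hb2 : 2 ≤ b := by omega
  have hb3 : b ≤ 3 := by omega
  obtain ⟨Ct, hCt0, hCt⟩ := hSM e b l hebl
  obtain ⟨Cu, hCu0, hCu⟩ : ∃ Cu : ℝ, 0 < Cu ∧ UB (Fin 3) Cu :=
    unbal_bound (Fin 3) (by simp : 2 ≤ Fintype.card (Fin 3))
  obtain ⟨Cr, hCr1, hCr⟩ := hRC e
  obtain ⟨Cf, hCf1, hCf⟩ := form_bounds (ι := Fin 3) (e + 1)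
  obtain ⟨M, hM⟩ : ∃ M, (mons (Fin 3) (e + 2)).card = M := ⟨_, rfl⟩
  obtain ⟨c, hc⟩ : ∃ c, c1pt 3 (e + 1) = c := ⟨_, rfl⟩
  have hc0 : 0 < c := by rw [← hc]; unfold c1pt; positivity
  obtain ⟨c', hc'⟩ : ∃ c', cker 3 e = c' := ⟨_, rfl⟩
  have hc'0 : 0 < c' := by rw [← hc']; unfold cker c1pt; positivity
  obtain ⟨τ, hτ0, hτ1, hb1, hb0, hτF⟩ := tau3 (ε := ε / 2) (by positivity)
  refine ⟨max (⌈1 / τ⌉₊ + 26) ⌈4 / τ ^ 2⌉₊, le_trans (by omega) (le_max_left _ _), ?_⟩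
  intro w hw γ hγ hγ1 Q₀ hQ₀ η₀ hη₀
  have hwA : ⌈1 / τ⌉₊ + 26 ≤ w := (le_max_left _ _).trans hw
  have hwB : ⌈4 / τ ^ 2⌉₊ ≤ w := (le_max_right _ _).trans hw
  have hw1 : 1 ≤ w := by omega
  have hwr : (1:ℝ) ≤ w := by exact_mod_cast hw1
  have hwτ : 1 / (w : ℝ) ≤ τ := by
    have h1 : 1 / τ ≤ w := by
      refine (Nat.le_ceil _).trans ?_
      have : ⌈1 / τ⌉₊ ≤ w := by omega
      exact_mod_cast this
    rw [div_le_iff₀ hτ0] at h1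
    rw [div_le_iff₀ (by linarith)]
    linarith
  have hwτ2 : 2 / Real.sqrt w ≤ τ := by
    have h1 : 4 / τ ^ 2 ≤ w := (Nat.le_ceil _).trans (by exact_mod_cast hwB)
    have h2 : 2 / τ ≤ Real.sqrt w := by
      apply Real.le_sqrt_of_sq_le
      rw [div_pow]
      norm_num
      exact h1
    have h3 : 0 < Real.sqrt w := lt_of_lt_of_le (by positivity) h2
    rw [div_le_iff₀ hτ0] at h2
    rw [div_le_iff₀ h3]
    linarith
  have hQ₀r : (1:ℝ) ≤ Q₀ := by exact_mod_cast hQ₀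
  -- constants
  have hCr0 : 0 < Cr := by linarith
  obtain ⟨ρ', hρ'⟩ : ∃ ρ' : ℝ, ρ' = min (τ * γ / (2 * Cr)) η₀ := ⟨_, rfl⟩
  have hρ'0 : 0 < ρ' := by rw [hρ']; exact lt_min (by positivity) hη₀
  have hρ'η₀ : ρ' ≤ η₀ := by rw [hρ']; exact min_le_right _ _
  have hCρ' : Cr * ρ' ≤ τ * γ / 2 := by
    have h1 : ρ' ≤ τ * γ / (2 * Cr) := by rw [hρ']; exact min_le_left _ _
    have h2 := mul_le_mul_of_nonneg_left h1 hCr0.le
    refine h2.trans (le_of_eq ?_)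
    field_simp
  have hρ'τ : ρ' ≤ τ / 2 := by
    have h1 : ρ' ≤ Cr * ρ' := le_mul_of_one_le_left hρ'0.le hCr1
    have h2 : τ * γ ≤ τ := mul_le_of_le_one_right hτ0.le hγ1
    linarith
  have hρ'2 : ρ' ≤ 1 / 2 := by linarith
  obtain ⟨ρ, hρ⟩ : ∃ ρ : ℝ, ρ = γ * ρ' / (2 * Cr) := ⟨_, rfl⟩
  have hρ0 : 0 < ρ := by rw [hρ]; positivity
  have hCρ : Cr * ρ = γ * ρ' / 2 := by rw [hρ]; field_simp
  have hρρ' : ρ ≤ ρ' := by
    have h1 : ρ ≤ Cr * ρ := le_mul_of_one_le_left hρ0.le hCr1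
    have h2 : γ * ρ' ≤ ρ' := mul_le_of_le_one_left hρ'0.le hγ1
    linarith
  obtain ⟨η, hη⟩ : ∃ η : ℝ, η = ρ / 2 := ⟨_, rfl⟩
  have hη0 : 0 < η := by rw [hη]; positivity
  have hη1 : η ≤ 1 := by linarith
  have hηη₀ : η ≤ η₀ := by linarith
  obtain ⟨cW, hW₀, hcW0, hhW0, hWdat⟩ := hWS b (by omega) Q₀ hQ₀ (min η η₀) (3 * M)
    (lt_min hη0 hη₀) (by positivity)
  obtain ⟨CW, hCW⟩ : ∃ CW : ℝ, CW = 5 ^ 11 * (2 * Q₀) ^ 2 := ⟨_, rfl⟩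
  have hCW0 : 0 < CW := by rw [hCW]; positivity
  obtain ⟨Cg, hCg⟩ : ∃ Cg : ℝ, Cg = Cf * ((e + 2) * 2) := ⟨_, rfl⟩
  have hCg0 : 0 < Cg := by rw [hCg]; positivity
  obtain ⟨c₀, hc₀⟩ : ∃ c₀ : ℝ, c₀ = (2 * ρ / Q₀) ^ (3 - 1) * (η / (Cg * Q₀)) := ⟨_, rfl⟩
  have hc₀0 : 0 < c₀ := by rw [hc₀]; positivity
  obtain ⟨Z, hZ⟩ : ∃ Z : ℝ, Z = 16 * (Ct * CW) * 4 ^ M * 4 ^ 3 / (ε * c₀ ^ 2) := ⟨_, rfl⟩
  have hZ0 : 0 < Z := by rw [hZ]; positivity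
  obtain ⟨T, hT⟩ : ∃ T : ℝ, T = (2 * Z) ^ 2 + 1 := ⟨_, rfl⟩
  have hT1 : 1 ≤ T := by
    rw [hT]
    have := sq_nonneg (2 * Z)
    linarith
  have hTs : 2 * Z ≤ Real.sqrt T := by
    apply Real.le_sqrt_of_sq_le
    rw [hT]; linarith
  obtain ⟨N, hN⟩ : ∃ N : ℕ, N = ⌈2 * T⌉₊ := ⟨_, rfl⟩
  have hNT : 2 * T ≤ N := by rw [hN]; exact Nat.le_ceil _
  obtain ⟨K, hK⟩ : ∃ K : ℕ, K = (∏ p ∈ (Finset.range (w + 1)).filter Nat.Prime, p) ^ N := ⟨_, rfl⟩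
  have hK0 : 0 < K := by
    rw [hK]
    apply pow_pos
    apply Finset.prod_pos
    intro p hp
    exact (Finset.mem_filter.mp hp).2.pos
  have hKr : (1:ℝ) ≤ K := by exact_mod_cast hK0
  obtain ⟨τ₂, hτ₂0, hτ₂1, hτ₂2, hτ₂3⟩ := exists_ratio M hτ0
  obtain ⟨c₅, hc₅⟩ : ∃ c₅ : ℝ, c₅ = c + c' * (1 + M * c) / (1 / T) := ⟨_, rfl⟩
  have hT0 : 0 < T := by linarith
  have hc₅c : c ≤ c₅ := by
    rw [hc₅]
    have : 0 ≤ c' * (1 + M * c) / (1 / T) := by positivity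
    linarith
  have hc₅0 : 0 < c₅ := by linarith
  have hc6 : 6 ≤ c := by
    rw [← hc]; unfold c1pt
    have h1 : (1:ℝ) ≤ (6 * ((3 : ℕ) : ℝ)) ^ (e + 1) := by
      apply one_le_pow₀
      norm_num
    linarith
  obtain ⟨δ, hδ⟩ : ∃ δ : ℝ, δ = τ₂ / (4 * c₅) := ⟨_, rfl⟩
  have hδ0 : 0 < δ := by rw [hδ]; positivity
  have hδc : c₅ * δ = τ₂ / 4 := by rw [hδ]; field_simp
  have hδ1 : δ ≤ 1 := by
    rw [hδ, div_le_one (by positivity)]; linarith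
  obtain ⟨cR, hcR⟩ : ∃ cR : ℝ, cR = (2 * ρ / Q₀) ^ (3 - 1) * (2 * δ * η / (Cg * Q₀)) := ⟨_, rfl⟩
  have hcR0 : 0 < cR := by rw [hcR]; positivity
  obtain ⟨N', hN'⟩ : ∃ N' : ℕ, N' = ⌈6 ^ 3 / (τ * cR)⌉₊ + 1 := ⟨_, rfl⟩
  have hN'1 : 1 ≤ N' := by omega
  have hN'r : 6 ^ 3 / (τ * cR) ≤ N' := by
    rw [hN']
    push_cast
    have := Nat.le_ceil (6 ^ 3 / (τ * cR))
    linarith
  -- the threshold for Y
  have hev : ∀ᶠ Y : ℝ in atTop, 2 ≤ Y ∧ 64 * (3:ℝ) + 9 ≤ Y ∧ 960 * (3:ℝ) ^ 2 * Y ^ 56 < Real.exp Y ∧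
      2 * (32 * c₅ * K + 3072 * c') / τ₂ ≤ Y ∧ (K * N : ℝ) / (τ * δ) ≤ Y ∧
      (K * N + N' : ℝ) * Q₀ / (2 * ρ * τ) ≤ Y ∧
      2 * (K * N + N' : ℝ) * (Cg * Q₀) / (2 * δ * η * τ) ≤ Y ∧
      100 * Cu * 4 ^ (3 - 1) / (τ * cR) ≤ Y ∧ 16 * (4 * c) * 3 ^ M * 6 ^ 3 / (ε * c₀ ^ 2 * cW) ≤ Y ∧
      1 + 1 / τ₂ ≤ Y ∧ 1 / (τ * δ) ≤ Y ∧ 72 * Z / Real.sqrt (Real.sqrt cW) ≤ Y ∧
      (N + 1) / (τ * cW) ≤ Y := by
    filter_upwards [eventually_ge_atTop (2:ℝ), eventually_ge_atTop (64 * (3:ℝ) + 9),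
      eventually_exp (960 * (3:ℝ) ^ 2) 56,
      eventually_ge_atTop (2 * (32 * c₅ * K + 3072 * c') / τ₂),
      eventually_ge_atTop ((K * N : ℝ) / (τ * δ)),
      eventually_ge_atTop ((K * N + N' : ℝ) * Q₀ / (2 * ρ * τ)),
      eventually_ge_atTop (2 * (K * N + N' : ℝ) * (Cg * Q₀) / (2 * δ * η * τ)),
      eventually_ge_atTop (100 * Cu * 4 ^ (3 - 1) / (τ * cR)),
      eventually_ge_atTop (16 * (4 * c) * 3 ^ M * 6 ^ 3 / (ε * c₀ ^ 2 * cW)),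
      eventually_ge_atTop (1 + 1 / τ₂),
      eventually_ge_atTop (1 / (τ * δ)),
      eventually_ge_atTop (72 * Z / Real.sqrt (Real.sqrt cW)),
      eventually_ge_atTop ((N + 1) / (τ * cW))] with Y h1 h2 h3 h4 h5 h6 h7 h8 h9 h10 h11 h12 h13
    exact ⟨h1, h2, h3, h4, h5, h6, h7, h8, h9, h10, h11, h12, h13⟩
  obtain ⟨Y₁, hY₁⟩ := Filter.eventually_atTop.mp hev
  obtain ⟨Y₀, hY₀⟩ : ∃ Y₀ : ℝ, Y₀ = max Y₁ 1 := ⟨_, rfl⟩
  have hY₀1 : 1 ≤ Y₀ := by rw [hY₀]; exact le_max_right _ _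
  have hY₀Y₁ : Y₁ ≤ Y₀ := by rw [hY₀]; exact le_max_left _ _
  refine ⟨η, hη0, hη1, hηη₀, max (max hW₀ 1) (Q₀ * Y₀ ^ 42 / η),
    (le_max_right _ _).trans (le_max_left _ _), ?_⟩
  intro h hh fc S J xc v ωc ξ s i₀ hP hR hq
  have hhW : hW₀ ≤ h := (le_max_left _ _).trans ((le_max_left _ _).trans hh)
  have hh1 : 1 ≤ h := (le_max_right _ _).trans ((le_max_left _ _).trans hh)
  have hh0 : 0 < h := by linarith
  obtain ⟨H, hHdef⟩ : ∃ H : ℝ, h ^ b = H := ⟨_, rfl⟩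
  have hhH : h ≤ H := by rw [← hHdef]; exact le_self_pow₀ hh1 (by omega)
  have hH : Q₀ * Y₀ ^ 42 / η ≤ H := ((le_max_right _ _).trans hh).trans hhH
  obtain ⟨hRform, hRξ, hRξr, hRfξ, hRgξ⟩ := hR
  rw [hHdef] at hRform hRgξ ⊢
  obtain ⟨q, hqdef⟩ : ∃ q : ℕ, S * J = q := ⟨_, rfl⟩
  have hq1 : 1 ≤ q := by rw [← hqdef]; exact Nat.mul_pos hP.hS hP.hJ
  have hqr : (1:ℝ) ≤ q := by exact_mod_cast hq1
  have hqQ : (q:ℝ) ≤ Q₀ := by rw [← hqdef]; exact_mod_cast hq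
  have hSq : (S:ℝ) ≤ Q₀ := by
    have : S ≤ S * J := Nat.le_mul_of_pos_right S hP.hJ
    exact_mod_cast this.trans hq
  have hS1 : (1:ℝ) ≤ S := by exact_mod_cast hP.hS
  have hH0 : 0 < H := lt_of_lt_of_le (by positivity) hH
  rw [hqdef]
  obtain ⟨A, hA⟩ : ∃ A : ℝ, η * H / q = A := ⟨_, rfl⟩
  rw [hA]
  have hAq : q * A = η * H := by rw [← hA]; field_simp
  have hA₀ : Y₀ ^ 42 ≤ A := by
    rw [div_le_iff₀ hη0] at hH
    have h1 : (q:ℝ) * Y₀ ^ 42 ≤ q * A := by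
      rw [hAq]
      have : (q:ℝ) * Y₀ ^ 42 ≤ Q₀ * Y₀ ^ 42 := mul_le_mul_of_nonneg_right hqQ (by positivity)
      linarith
    exact le_of_mul_le_mul_left h1 (by linarith)
  have hA0 : 0 < A := lt_of_lt_of_le (by positivity) hA₀
  obtain ⟨Y, hY⟩ : ∃ Y : ℝ, Y = A ^ (((42 : ℕ) : ℝ)⁻¹) := ⟨_, rfl⟩
  have hYA : Y ^ 42 = A := by rw [hY]; exact Real.rpow_inv_natCast_pow hA0.le (by norm_num)
  have hYnn : 0 ≤ Y := by rw [hY]; positivity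
  have hYY₀ : Y₀ ≤ Y := by
    rw [← hYA] at hA₀
    exact le_of_pow_le_pow_left₀ (by norm_num) hYnn hA₀
  obtain ⟨y1, y2, y3, y4, y5, y6, y7, y8, y9, y10, y11, y12, y13⟩ := hY₁ Y (hY₀Y₁.trans hYY₀)
  clear hY₁ hev
  have hY0 : 0 < Y := by linarith
  have hY1 : 1 ≤ Y := by linarith
  obtain ⟨P, hPdef⟩ : ∃ P : ℝ, P = Y ^ 36 := ⟨_, rfl⟩
  have hPY : Y ≤ P := by
    rw [hPdef]
    calc Y = Y ^ 1 := by ring
      _ ≤ Y ^ 36 := pow_le_pow_right₀ hY1 (by norm_num)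
  have hP0 : 0 < P := by linarith
  have hP1 : 1 ≤ P := by linarith
  have hYh : Y ^ 14 ≤ h := by
    have h1 : A ≤ H := by
      have h2 : A ≤ q * A := le_mul_of_one_le_left hA0.le hqr
      have h3 : η * H ≤ 1 * H := mul_le_mul_of_nonneg_right hη1 hH0.le
      linarith
    have h2 : H ≤ h ^ 3 := by rw [← hHdef]; exact pow_le_pow_right₀ hh1 hb3
    have h3 : (Y ^ 14) ^ 3 ≤ h ^ 3 := by
      calc (Y ^ 14) ^ 3 = Y ^ 42 := by ring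
        _ = A := hYA
        _ ≤ h ^ 3 := h1.trans h2
    exact le_of_pow_le_pow_left₀ (by norm_num) hh0.le h3
  have hAYP : A * Y * P ^ (e + 2) ≤ h * P ^ l * P ^ 3 := by
    have h1 : A * Y ≤ h * P := by
      rw [← hYA, hPdef]
      calc Y ^ 42 * Y = Y ^ 7 * Y ^ 36 := by ring
        _ ≤ h * Y ^ 36 := by
          apply mul_le_mul_of_nonneg_right _ (by positivity)
          exact (pow_le_pow_right₀ hY1 (by norm_num)).trans hYh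
    have h2 : P ^ (e + 2) ≤ P ^ (l + 2) := by
      apply pow_le_pow_right₀ hP1
      obtain ⟨b', rfl⟩ : ∃ b', b = b' + 1 := ⟨b - 1, by omega⟩
      rw [hebl, add_mul, one_mul]
      rw [Nat.add_sub_cancel] at hbl
      omega
    calc A * Y * P ^ (e + 2) ≤ (h * P) * P ^ (l + 2) :=
          mul_le_mul h1 h2 (by positivity) (by positivity)
      _ = h * P ^ l * P ^ 3 := by ring
  -- real data
  have hgcd : |MvPolynomial.aeval ξ (MvPolynomial.pderiv i₀ fc)| ≤ Cg * H := by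
    have h1 := (hCf _ _ (hRform.pderiv i₀).1 (hRform.pderiv i₀).2 1 (by norm_num)).1 ξ hRξ
    rw [one_pow, mul_one] at h1
    refine h1.trans (le_of_eq ?_)
    rw [hCg]; push_cast; ring
  have hCrr : Cr * (ρ' + ρ) ≤ τ * γ := by
    have h1 : γ * ρ' ≤ γ * (τ / 2) := mul_le_mul_of_nonneg_left hρ'τ hγ.le
    rw [mul_add, hCρ]
    have h2 : 0 < τ * γ := mul_pos hτ0 hγ
    linarith
  have hCrr2 : Cr * (ρ + ρ) ≤ γ * ρ' := by
    rw [mul_add, hCρ]; linarith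
  obtain ⟨σ, hσ, hslope⟩ := hCr H γ ρ τ ρ ρ' P fc ξ i₀ hRform hRξ hRξr hRgξ hH0 hγ hρ0
    (by linarith) hτ0 hτ1 hρ0 hρρ' (by linarith) hP0 hCrr hCrr2
  -- the set of the integers ω
  obtain ⟨r₁, hr₁⟩ := hRξr
  have hM1 : 1 ≤ M := by
    rw [← hM]
    apply Finset.card_pos.mpr
    refine ⟨Finsupp.single r₁ (e + 2), mem_mons.mpr ?_⟩
    rw [Finset.sum_eq_single r₁]
    · rw [Finsupp.single_eq_same]
    · intro i _ hi
      rw [Finsupp.single_eq_of_ne hi]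
    · intro h1
      exact absurd (Finset.mem_univ _) h1
  have hs₀ : |s| ≤ 3 * M := by
    refine ct_abs_le (h := h) (b := b) (x := MvPolynomial.aeval ξ fc) hM1 (by omega) hh0 hη1 ?_ ?_
    · have h1 := hRform.aeval_le_one hRξ
      rw [hM] at h1
      rw [hHdef]; exact h1
    · rw [hM] at hRfξ
      exact hRfξ
  have hP1' : 1 ≤ P := hP1
  obtain ⟨X, hXdef⟩ : ∃ X : ℝ, h * P ^ l = X := ⟨_, rfl⟩
  have hPl1 : 1 ≤ P ^ l := one_le_pow₀ hP1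
  have hXh : h ≤ X := by rw [← hXdef]; exact le_mul_of_one_le_right hh0.le hPl1
  have hXP : P ≤ X := by
    rw [← hXdef]
    calc P = 1 * P ^ 1 := by ring
      _ ≤ h * P ^ l := mul_le_mul hh1 (pow_le_pow_right₀ hP1 hl1) (by positivity) (by positivity)
  have hX0 : 0 < X := by linarith
  rw [hXdef] at hAYP
  obtain ⟨W, hW1, hW2, hW3, hW4, hW5, hW6, hW7, hW8⟩ := hWdat X s (S * J) ωc (hhW.trans hXh) hs₀
    (Nat.mul_pos hP.hS hP.hJ) hq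
  have hXb : X ^ b = H * P ^ (e + 2) := by
    rw [← hXdef, mul_pow, hHdef, ← pow_mul, hebl, mul_comm l b]
  have hcWP : cW * P ≤ W.card := (mul_le_mul_of_nonneg_left hXP hcW0.le).trans hW5
  have hL0 : (0:ℝ) < W.card := lt_of_lt_of_le (by positivity) hcWP
  have hNτ : (N : ℝ) + 1 ≤ τ * W.card := by
    rw [div_le_iff₀ (by positivity)] at y13
    have h1 : Y * (τ * cW) ≤ P * (τ * cW) := mul_le_mul_of_nonneg_right hPY (by positivity)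
    have h2 := mul_le_mul_of_nonneg_left hcWP hτ0.le
    linarith
  obtain ⟨δW, hδW⟩ : ∃ δW : ℝ, δW = 1 / Real.sqrt (Real.sqrt W.card) := ⟨_, rfl⟩
  have hδW0 : 0 ≤ δW := by rw [hδW]; positivity
  have hnum : Z * (1 / Real.sqrt T + δW * (1 + Real.log (2 * P))) ≤ 1 := by
    rw [hδW]
    exact ct3_num hZ0 hTs hcW0 hY1 (by rw [← hPdef]; exact hcWP) y12 hPdef
  have hcpt1 : ∀ D : ℕ, 0 < D → D ≤ N → (∀ q : ℕ, q.Prime → q ≤ w → ¬ q ∣ D) → ∀ lam : ℤ,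
      IsCoprime lam (D : ℤ) →
      (cpt W b D ((lam ^ l) ^ b) : ℝ) ≤ (1 + τ) ^ 2 * (W.card : ℝ) ^ 2 / Real.sqrt D := by
    intro D hD hDN hDw lam hlam
    have hDr : (0:ℝ) < D := by exact_mod_cast hD
    have hcopS : Nat.Coprime D (S * J) := by
      rw [Nat.coprime_iff_gcd_eq_one]
      by_contra hne
      obtain ⟨p, hp, hpd⟩ := Nat.exists_prime_and_dvd hne
      have hpD := hpd.trans (Nat.gcd_dvd_left _ _)
      have hpS := hpd.trans (Nat.gcd_dvd_right _ _)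
      have hpS' : p ∣ S := by
        rcases (Nat.Prime.dvd_mul hp).mp hpS with h1 | h1
        · exact h1
        · exact h1.trans hP.hJS
      exact hDw p hp (hP.hSW p hp hpS') hpD
    have h1 := (hCP1 b D ((lam ^ l) ^ b) W ((1 + τ) * W.card / D) hb23 hD
      ((hlam.pow_left).pow_left) (fun r => by
        refine (hW7 D hD hcopS r).trans ?_
        rw [div_add_one hDr.ne', div_le_div_iff_of_pos_right hDr]
        have h2 : (D:ℝ) ≤ N := by exact_mod_cast hDN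
        linarith)).2 (fun q hq hq25 => hDw q hq (by omega))
    exact h1.trans (le_of_eq (ct3_kap hDr))
  have hcpt2 : ∀ g : ℕ, 0 < g → ∀ lam : ℤ, IsCoprime lam (g : ℤ) →
      (cpt W b g ((lam ^ l) ^ b) : ℝ) ≤ CW * (W.card : ℝ) ^ 2 * (1 / Real.sqrt g + δW) := by
    intro g hg lam hlam
    have h1 := hCP2 b W (2 * Q₀) hb23 (by linarith) hW6 hW8 g ((lam ^ l) ^ b) hg
      ((hlam.pow_left).pow_left)
    rw [hCW, hδW]
    exact h1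
  have hWinj : ∀ ω ∈ W, ∀ ω' ∈ W, ω ^ b = ω' ^ b → ω = ω' := fun ω hω ω' hω' h1 =>
    ct_inj (b := b) (by omega) hW2 hω hω' h1
  have hFP : ∀ ω ∈ W, PData w (fc - MvPolynomial.C (ω ^ b)) S J xc v := fun ω hω =>
    ct_pdata hP (hW1 ω hω)
  have htar : ∀ ω ∈ W, |P ^ (e + 2) * MvPolynomial.aeval ξ fc - ((ω ^ b : ℤ) : ℝ)| ≤
      ((mons (Fin 3) (e + 2)).card + 1) * (ρ * H) * P ^ (e + 2) := by
    intro ω hω
    have h1 := hW4 ω hω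
    have h2 : P ^ (e + 2) * MvPolynomial.aeval ξ fc - ((ω ^ b : ℤ) : ℝ) =
        P ^ (e + 2) * (MvPolynomial.aeval ξ fc - (h * s) ^ b) - ((ω : ℝ) ^ b - (X * s) ^ b) := by
      have h3 : (X * s) ^ b = P ^ (e + 2) * (h * s) ^ b := by
        rw [mul_pow, hXb, mul_pow h, hHdef]; ring
      rw [h3]; push_cast; ring
    rw [h2]
    refine (abs_sub _ _).trans ?_
    rw [abs_mul, abs_of_pos (by positivity : 0 < P ^ (e + 2))]
    have h3 := mul_le_mul_of_nonneg_left hRfξ (by positivity : 0 ≤ P ^ (e + 2))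
    rw [hHdef] at h3
    rw [hXb] at h1
    have h4 : min η η₀ * (H * P ^ (e + 2)) ≤ η * (H * P ^ (e + 2)) :=
      mul_le_mul_of_nonneg_right (min_le_left _ _) (by positivity)
    have h5 : η * (H * P ^ (e + 2)) ≤ ρ * (H * P ^ (e + 2)) :=
      mul_le_mul_of_nonneg_right (by linarith) (by positivity)
    have h6 : (0:ℝ) ≤ (mons (Fin 3) (e + 2)).card := Nat.cast_nonneg _
    have h7 := mul_le_mul_of_nonneg_left h5 h6
    have h8 : P ^ (e + 2) * (((mons (Fin 3) (e + 2)).card : ℝ) * (η * H)) =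
      ((mons (Fin 3) (e + 2)).card : ℝ) * (η * (H * P ^ (e + 2))) := by ring
    rw [h8] at h3
    have h9 : (((mons (Fin 3) (e + 2)).card : ℝ) + 1) * (ρ * H) * P ^ (e + 2) =
      ((mons (Fin 3) (e + 2)).card : ℝ) * (ρ * (H * P ^ (e + 2))) + ρ * (H * P ^ (e + 2)) := by ring
    rw [h9]
    linarith
  have hgξ := hRgξ
  obtain ⟨g₀, hg₀⟩ : ∃ g₀ : ℝ, |MvPolynomial.aeval ξ (MvPolynomial.pderiv i₀ fc)| = g₀ := ⟨_, rfl⟩
  rw [hg₀] at hgcd hgξ hslope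
  have hg₀0 : 0 < g₀ := lt_of_lt_of_le (by positivity) hgξ
  obtain ⟨D₀, hD₀⟩ : ∃ D₀ : ℝ, g₀ * P ^ (e + 1) = D₀ := ⟨_, rfl⟩
  rw [hD₀] at hslope
  have hD₀0 : 0 < D₀ := by rw [← hD₀]; positivity
  obtain ⟨Δ, hΔ⟩ : ∃ Δ : ℝ, Δ = δ * A * P ^ (e + 2) := ⟨_, rfl⟩
  have hΔ0 : 0 < Δ := by rw [hΔ]; positivity
  obtain ⟨Δ₁, hΔ₁⟩ : ∃ Δ₁ : ℝ, ((S * J : ℕ) : ℝ) * Δ = Δ₁ := ⟨_, rfl⟩
  have hΔ₁' : Δ₁ = δ * (η * H) * P ^ (e + 2) := by
    rw [← hΔ₁, hqdef, hΔ, ← hAq]; ring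
  have hΔ₁0 : 0 < Δ₁ := by rw [hΔ₁']; positivity
  have hΔ₁ρ : Δ₁ ≤ ρ * H * P ^ (e + 2) := by
    rw [hΔ₁']
    apply mul_le_mul_of_nonneg_right _ (by positivity)
    have h1 : δ * (η * H) ≤ 1 * (η * H) := mul_le_mul_of_nonneg_right hδ1 (by positivity)
    have h2 : η * H ≤ ρ * H := mul_le_mul_of_nonneg_right (by linarith) hH0.le
    linarith
  -- class members
  have hmemS : ∀ ω ∈ W, ∀ A₃ : ℝ, A₃ ≤ 2 * A → ∀ g ∈ formsZ (Fin 3) (e + 2) A₃,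
      SlopeCond σ ((1 - τ) * D₀) ((1 + τ) * D₀) (ρ * H * P ^ (e + 2)) P ξ i₀ ρ ρ'
        (mem' (fc - MvPolynomial.C (ω ^ b)) S J g) := by
    intro ω hω A₃ hA₃ g hg
    have hre : mem' (fc - MvPolynomial.C (ω ^ b)) S J g = fc + MvPolynomial.C ((S * J : ℕ) : ℤ) * g -
        MvPolynomial.C (ω ^ b) := by
      unfold mem'; ring
    rw [hre]
    apply hslope _ (htar ω hω)
    refine ((mem_formsZ.mp hg).C_mul _).mono ?_
    rw [hqdef, Int.cast_natCast, abs_of_nonneg (by linarith : (0:ℝ) ≤ q)]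
    have h1 : (q:ℝ) * A₃ ≤ q * (2 * A) := mul_le_mul_of_nonneg_left hA₃ (by linarith)
    have h2 : (q:ℝ) * (2 * A) = ρ * H := by
      have : (q:ℝ) * (2 * A) = 2 * (q * A) := by ring
      rw [this, hAq, hη]; ring
    linarith
  obtain ⟨X₁, hX₁⟩ : ∃ X₁ : ℝ, X₁ = 2 * ρ * P / S := ⟨_, rfl⟩
  obtain ⟨X₂, hX₂⟩ : ∃ X₂ : ℝ, X₂ = 2 * Δ₁ / (D₀ * S) := ⟨_, rfl⟩
  have hX₁0 : 0 < X₁ := by rw [hX₁]; positivity
  have hX₂0 : 0 < X₂ := by rw [hX₂]; positivity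
  have hX₁low : 2 * ρ / Q₀ * P ≤ X₁ := by
    rw [hX₁, div_mul_eq_mul_div]
    exact div_le_div_of_nonneg_left (by positivity) (by linarith) hSq
  have hX₂low : 2 * δ * η / (Cg * Q₀) * P ≤ X₂ := by
    have h1 : X₂ = 2 * δ * η * P * H / (g₀ * S) := by
      rw [hX₂, hΔ₁', ← hD₀, show e + 2 = (e + 1) + 1 by ring, pow_succ]
      field_simp
    rw [h1, div_mul_eq_mul_div, div_le_div_iff₀ (by positivity) (by positivity)]
    have h2 : g₀ * S ≤ Cg * H * Q₀ := mul_le_mul hgcd hSq (by positivity) (by positivity)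
    have h3 := mul_le_mul_of_nonneg_left h2 (by positivity : 0 ≤ 2 * δ * η * P)
    linarith
  have hX₁K : (K * N + N' : ℝ) ≤ τ * X₁ := by
    have h1 : (K * N + N' : ℝ) * Q₀ ≤ Y * (2 * ρ * τ) := by
      rwa [div_le_iff₀ (by positivity)] at y6
    have h2 : (K * N + N' : ℝ) ≤ τ * (2 * ρ / Q₀ * P) := by
      have h3 : τ * (2 * ρ / Q₀ * P) = 2 * ρ * τ * P / Q₀ := by ring
      rw [h3, le_div_iff₀ (by linarith)]
      have h4 : Y * (2 * ρ * τ) ≤ P * (2 * ρ * τ) := mul_le_mul_of_nonneg_right hPY (by positivity)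
      linarith
    exact h2.trans (mul_le_mul_of_nonneg_left hX₁low hτ0.le)
  have hX₂K : 2 * (K * N + N' : ℝ) ≤ τ * X₂ := by
    have h1 : 2 * (K * N + N' : ℝ) * (Cg * Q₀) ≤ Y * (2 * δ * η * τ) := by
      rwa [div_le_iff₀ (by positivity)] at y7
    have h2 : 2 * (K * N + N' : ℝ) ≤ τ * (2 * δ * η / (Cg * Q₀) * P) := by
      have h3 : τ * (2 * δ * η / (Cg * Q₀) * P) = 2 * δ * η * τ * P / (Cg * Q₀) := by ring
      rw [h3, le_div_iff₀ (by positivity)]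
      have h4 : Y * (2 * δ * η * τ) ≤ P * (2 * δ * η * τ) :=
        mul_le_mul_of_nonneg_right hPY (by positivity)
      linarith
    exact h2.trans (mul_le_mul_of_nonneg_left hX₂low hτ0.le)
  have hKN0 : (0:ℝ) ≤ K * N := by positivity
  have hN'0 : (0:ℝ) ≤ N' := Nat.cast_nonneg _
  obtain ⟨R, hRdef⟩ : ∃ R : ℝ, X₁ ^ (3 - 1) * X₂ = R := ⟨_, rfl⟩
  have hR0 : 0 < R := by rw [← hRdef]; positivity
  have hRlow : cR * P ^ 3 ≤ R := by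
    have h1 : (2 * ρ / Q₀ * P) ^ (3 - 1) ≤ X₁ ^ (3 - 1) := pow_le_pow_left₀ (by positivity) hX₁low _
    have h2 := mul_le_mul h1 hX₂low (by positivity) (by positivity)
    rw [hRdef] at h2
    refine le_trans (le_of_eq ?_) h2
    rw [hcR, mul_pow, show (3 - 1 : ℕ) = 2 from rfl]; ring
  have hϱlow : c₀ * P ^ (3 - 1) / (A * P ^ (e + 1)) ≤ R / (2 * Δ) := by
    rw [← hRdef]
    exact rho_low hc₀ hρ0 hQ₀r hP0 hX₁low hX₂ (by rw [← hΔ₁, hqdef]) hD₀ hΔ0 hS1 hSq hqr hg₀0 hgcd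
      hCg0 hH0 hη0 hA0 hAq
  have hsub : (((formsZ (Fin 3) (e + 2) A).filter (fun g =>
      ¬ NearC b l η₀ h ξ s S q xc ωc (mem' fc S J g))).card : ℝ) ≤
      (((formsZ (Fin 3) (e + 2) A).filter (fun g =>
      ¬ PtIn W (fun ω => fc - MvPolynomial.C (ω ^ b)) S J (box P ξ i₀ ρ ρ' S xc) g)).card : ℝ) := by
    refine card_filter_le' _ _ _ (fun g _ hg hpt => hg ?_)
    obtain ⟨x, hx, hx1, ω, hω, hx2⟩ := hpt
    have hx' := mem_box.mp hx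
    refine ⟨x, ω, hx1, ?_, hx'.2, ?_, P, hP0, fun i => ?_, ?_⟩
    · have hre : mem' (fc - MvPolynomial.C (ω ^ b)) S J g = mem' fc S J g -
          MvPolynomial.C (ω ^ b) := by
        unfold mem'; ring
      have hx3 : MvPolynomial.eval x (mem' (fc - MvPolynomial.C (ω ^ b)) S J g) = 0 := hx2
      rw [hre, map_sub, MvPolynomial.eval_C] at hx3
      linarith
    · rw [← hqdef]; exact hW1 ω hω
    · have h1 := hx'.1 i
      have h2 : wd i₀ ρ ρ' i ≤ η₀ := by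
        unfold wd
        split_ifs
        · exact hρ'η₀
        · exact hρρ'.trans hρ'η₀
      have h3 := mul_le_mul_of_nonneg_left h2 hP0.le
      rw [abs_le]
      constructor
      · linarith [h1.1]
      · linarith [h1.2]
    · rw [hXdef]
      refine (hW3 ω hω).trans (mul_le_mul_of_nonneg_right (min_le_right _ _) ?_)
      linarith
  refine hsub.trans ?_
  exact hcore hb23 hebl hM hc hc' hc0 hc'0 hCt0 hCu0 hCt hCu hε hτ0 hτ1 hb1 hb0 hτF hw1 hwτ hwτ2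
    hT1 hc₀0 hCW0 hδW0 hNT hK hK0 hτ₂0 hτ₂1 hτ₂2 hτ₂3 hc₅ hc₅c hδ0 hδ1 hδc hcR0 hcW0 hN'1 hN'r
    y1 y2 y3 y4 y5 y8 y9 y10 y11 hYA hPdef (by rw [← hZ]; exact hnum) hRform.1 hFP hP.hS hP.hJ
    hW5 hX0 hAYP hWinj hcpt1 hcpt2 hρ0 hρρ' hρ'2 hRξ ⟨r₁, hr₁⟩ hσ hD₀0
    hmemS hΔ hΔ₁ hΔ₁ρ hX₁ hX₂ hX₁K hX₂K hRdef hRlow hϱlow

end Pool.Agent.H90Q
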