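import Pool.Agent.H90Q.Stm3

/-!
# Project H90Q, piece GS3 (helper58): the contribution of the pairs in general position, surfaces

Port of `GS.lean`, the sum over the pairs of targets being inside.
-/

set_option autoImplicit false

namespace Pool.Agent.H90Q

open Pool.Agent.Y716.Q

section

variable {ι : Type} [Fintype ι]

omit [Fintype ι] in
theorem lam_coprime {x y : ι → ℤ} (hy : Prim y) {D lam : ℤ} (h : ∀ i, D ∣ y i - lam * x i) :
    IsCoprime lam D := by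
  rw [Int.isCoprime_iff_gcd_eq_one]
  have h1 : IsUnit ((Int.gcd lam D : ℕ) : ℤ) := by
    apply hy
    intro i
    have h2 : ((Int.gcd lam D : ℕ) : ℤ) ∣ y i - lam * x i := (Int.gcd_dvd_right lam D).trans (h i)
    have h3 : ((Int.gcd lam D : ℕ) : ℤ) ∣ lam * x i := (Int.gcd_dvd_left lam D).mul_right _
    have h4 := dvd_add h2 h3
    rwa [sub_add_cancel] at h4
  have h2 := Int.isUnit_iff_natAbs_eq.1 h1
  simpa using h2

theorem sum_D_bound3 {w N : ℕ} (hw : 1 ≤ w) (𝒟 : Finset ℕ)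
    (h𝒟 : ∀ D ∈ 𝒟, D ≤ N ∧ (D = 1 ∨ w < D)) :
    ∑ D ∈ 𝒟, (1 : ℝ) / ((D : ℝ) * Real.sqrt D) ≤ 1 + 2 / Real.sqrt w := by
  classical
  have hsub : 𝒟 ⊆ insert 1 (Finset.Ioc w N) := by
    intro D hD
    obtain ⟨h1, h2⟩ := h𝒟 D hD
    rw [Finset.mem_insert, Finset.mem_Ioc]
    rcases h2 with h | h
    · exact Or.inl h
    · exact Or.inr ⟨h, h1⟩
  refine (Finset.sum_le_sum_of_subset_of_nonneg hsub (fun _ _ _ => by positivity)).trans ?_
  rw [Finset.sum_insert (by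
    rw [Finset.mem_Ioc]; omega)]
  have key : ∀ n : ℕ, w ≤ n → ∑ D ∈ Finset.Ioc w n, (1 : ℝ) / ((D : ℝ) * Real.sqrt D) ≤
      2 / Real.sqrt w - 2 / Real.sqrt n := by
    intro n hn
    induction n, hn using Nat.le_induction with
    | base => simp
    | succ n hn ih =>
      rw [← Finset.insert_Ioc_right_eq_Ioc_add_one (by omega), Finset.sum_insert (by simp)]
      have hn0 : (0:ℝ) < n := by exact_mod_cast (by omega : 0 < n)
      set a := Real.sqrt (n : ℝ) with ha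
      set c := Real.sqrt ((n + 1 : ℕ) : ℝ) with hc
      have ha0 : 0 < a := Real.sqrt_pos.2 hn0
      have hac : a ≤ c := Real.sqrt_le_sqrt (by push_cast; linarith)
      have ha2 : a * a = n := Real.mul_self_sqrt hn0.le
      have hc2 : c * c = n + 1 := by
        rw [hc, Real.mul_self_sqrt (by positivity)]
        push_cast
        rfl
      have hc0 : 0 < c := ha0.trans_le hac
      have h1 : (1:ℝ) / (((n + 1 : ℕ) : ℝ) * c) ≤ 2 / a - 2 / c := by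
        have h2 : (((n + 1 : ℕ) : ℝ) * c) = c * c * c := by rw [hc2]; push_cast; ring
        rw [h2, div_sub_div _ _ ha0.ne' hc0.ne', div_le_div_iff₀ (by positivity) (by positivity)]
        have h3 : (c - a) * (c + a) = 1 := by nlinarith
        have h4 : 0 ≤ (c - a) * (2 * (c * c) - a * (c + a)) := by
          apply mul_nonneg (by linarith)
          nlinarith
        have h5 : a ≤ 2 * (c - a) * (c * c) := by nlinarith
        have h6 := mul_le_mul_of_nonneg_right h5 hc0.le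
        nlinarith
      linarith
  rcases le_or_gt w N with h | h
  · have h1 := key N h
    have h2 : (0:ℝ) ≤ 2 / Real.sqrt N := by positivity
    simp only [Nat.cast_one, Real.sqrt_one, mul_one, div_one]
    linarith
  · rw [Finset.Ioc_eq_empty (by omega), Finset.sum_empty]
    have h2 : (0:ℝ) ≤ 2 / Real.sqrt w := by positivity
    simp only [Nat.cast_one, Real.sqrt_one, mul_one, div_one]
    linarith

open scoped Classical in
theorem good_sum_D3 (hCMP : S_CMP ι) (e b l : ℕ) (hbl : e + 2 = b * l) {w : ℕ} {W : Finset ℤ}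
    {ω₀ : ℤ} (hω₀ : ω₀ ∈ W)
    {fc : MvPolynomial ι ℤ} (hfc : fc.IsHomogeneous (e + 2)) {S J : ℕ} {xc : ι → ℤ}
    {P : ℝ} {ξ : ι → ℝ} {i₀ : ι} {ρ ρ' B a A A₂ Δ κ : ℝ} (ha : 1 ≤ a) (haB : a ≤ B) (hκ : 0 < κ)
    {Lg : ℝ}
    (hLg : ∀ s : ℕ, (s : ℝ) ≤ 15 * (Fintype.card ι) ^ 2 * a * B → (Nat.log 2 s : ℝ) ≤ Lg)
    (u : ℤ → (ι → ℤ) → ℤ)
    (hu : ∀ ω ∈ W, ∀ x ∈ box P ξ i₀ ρ ρ' S xc,
      MvPolynomial.eval x (fc - MvPolynomial.C (ω ^ b)) = -(((S * J : ℕ) : ℤ) * u ω x))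
    {K N D : ℕ} (hK : 0 < K) (hD : 0 < D) (hΔ : 0 ≤ Δ) (hΔK : K * D ≤ Δ)
    (hA : A + (c1pt (Fintype.card ι) (e + 1) + cker (Fintype.card ι) e *
      (1 + (mons ι (e + 2)).card * c1pt (Fintype.card ι) (e + 1)) / κ) *
      (Δ / B ^ (e + 2) + K * a) + cker (Fintype.card ι) e * ((1 + Lg) * a ^ 2) ≤ A₂)
    {R₁ R₂ Cp : ℝ} (hR₂ : 0 ≤ R₂)
    (hL1 : ∀ ω ∈ W, ∀ g ∈ formsZ ι (e + 2) A₂,
      ((locSet P ξ i₀ ρ ρ' S J xc (mem' (fc - MvPolynomial.C (ω ^ b)) S J g) K 1 0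
        ((S * J : ℕ) * Δ)).card : ℝ) ≤ R₁)
    (hL2 : ∀ ω ∈ W, ∀ g ∈ formsZ ι (e + 2) A₂, ∀ ζ,
      ((locSet P ξ i₀ ρ ρ' S J xc (mem' (fc - MvPolynomial.C (ω ^ b)) S J g) K D ζ
        ((S * J : ℕ) * Δ)).card : ℝ) ≤ R₂)
    (hCp : ∀ lam : ℤ, IsCoprime lam (D : ℤ) → (cpt W b D ((lam ^ l) ^ b) : ℝ) ≤ Cp)
    (hCp0 : 0 ≤ Cp)
    (Gd : Finset ((ι → ℤ) × (ι → ℤ)))
    (hGd : ∀ p ∈ Gd, p.1 ∈ testSet B a P ξ i₀ ρ ρ' S xc ∧ p.2 ∈ testSet B a P ξ i₀ ρ ρ' S xc ∧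
      GoodPair w K N B κ p D) :
    (∑ p ∈ Gd, ∑ q ∈ W ×ˢ W, (c2t e A p.1 p.2 (u q.1 p.1) (u q.2 p.2) : ℝ)) *
      ((2 * Δ / K - 1) * (2 * Δ / (K * D) - 1)) ≤
      (formsZ ι (e + 2) A₂).card * (R₁ * (D * R₂)) * Cp := by
  -- the residue multipliers
  have hlam : ∀ p ∈ Gd, ∃ c : ℕ, c < D ∧ ∀ i, (D : ℤ) ∣ p.2 i - c * p.1 i := by
    intro p hp
    obtain ⟨h1, h2, g, hg0, hg1, hg2, hg3, hg4, hg5, hg6, hg7, hg8⟩ := hGd p hp
    exact exists_lambda (mem_testSet.mp h1).2.2.1 hD (fun i j => hg6.trans (hg1 i j))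
  choose! lam hlam1 hlam2 using hlam
  have hlam3 : ∀ p ∈ Gd, IsCoprime ((lam p : ℕ) : ℤ) (D : ℤ) := fun p hp =>
    lam_coprime (mem_testSet.mp (hGd p hp).2.1).2.2.1 (hlam2 p hp)
  set Δ₁ : ℝ := ((S * J : ℕ) : ℝ) * Δ with hΔ₁
  set Loc : ℤ → MvPolynomial ι ℤ → Finset (ι → ℤ) := fun ω g =>
    locSet P ξ i₀ ρ ρ' S J xc (mem' (fc - MvPolynomial.C (ω ^ b)) S J g) K 1 0 Δ₁ with hLoc
  set LocD : ℤ → MvPolynomial ι ℤ → (ι → ℤ) → Finset (ι → ℤ) := fun ω g ζ =>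
    locSet P ξ i₀ ρ ρ' S J xc (mem' (fc - MvPolynomial.C (ω ^ b)) S J g) K D ζ Δ₁ with hLocD
  set Cg : ℤ → ℤ → ℕ → Prop := fun ω ω' c => (D : ℤ) ∣ ω' ^ b - (((c : ℤ)) ^ l) ^ b * ω ^ b with hCg
  have hA1 : ∀ p ∈ Gd, ∀ q ∈ W ×ˢ W, (c2t e A p.1 p.2 (u q.1 p.1) (u q.2 p.2) : ℝ) *
      ((2 * Δ / K - 1) * (2 * Δ / (K * D) - 1)) ≤
      (((formsZ ι (e + 2) A₂).filter (fun g => Cg q.1 q.2 (lam p) ∧
        p.1 ∈ Loc q.1 g ∧ p.2 ∈ LocD q.2 g (fun i => (lam p : ℤ) * p.1 i))).card : ℝ) := by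
    intro p hp q hq
    obtain ⟨hq1, hq2⟩ := Finset.mem_product.1 hq
    obtain ⟨h1, h2, g, hg0, hg1, hg2, hg3, hg4, hg5, hg6, hg7, hg8⟩ := hGd p hp
    obtain ⟨hx1, hx2, hx3, hx4⟩ := mem_testSet.mp h1
    obtain ⟨hy1, hy2, hy3, hy4⟩ := mem_testSet.mp h2
    by_cases h0 : c2t e A p.1 p.2 (u q.1 p.1) (u q.2 p.2) = 0
    · rw [h0]
      push_cast
      rw [zero_mul]
      positivity
    · obtain ⟨f, hf⟩ := Finset.card_pos.1 (Nat.pos_of_ne_zero h0)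
      rw [Finset.mem_filter] at hf
      have hcg : Cg q.1 q.2 (lam p) := by
        refine hCMP e b l S J fc f p.1 p.2 D (lam p) q.1 q.2 hbl hfc ?_ (hlam2 p hp) ?_ ?_
        · exact (mem_formsZ.mp hf.1).1
        · have h3 := hu q.1 hq1 _ hx1
          unfold mem'
          rw [map_sub, MvPolynomial.eval_C] at h3
          rw [map_add, map_mul, MvPolynomial.eval_C, hf.2.1]
          linarith
        · have h3 := hu q.2 hq2 _ hy1
          unfold mem'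
          rw [map_sub, MvPolynomial.eval_C] at h3
          rw [map_add, map_mul, MvPolynomial.eval_C, hf.2.2]
          linarith
      have key := cnt2_cond e hx4 hx2 hx3 hy4 hy2 ha haB hg0 hg1 hg2 hκ hg3 hLg (u q.1 p.1)
        (u q.2 p.2) hK hD hg7 hΔ hΔK hA
      refine key.trans ?_
      have : ((formsZ ι (e + 2) A₂).filter
        (fun f => ((K : ℤ) ∣ MvPolynomial.eval p.1 f - u q.1 p.1 ∧
          |((MvPolynomial.eval p.1 f - u q.1 p.1 : ℤ) : ℝ)| ≤ Δ) ∧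
          ((K : ℤ) ∣ MvPolynomial.eval p.2 f - u q.2 p.2 ∧
          |((MvPolynomial.eval p.2 f - u q.2 p.2 : ℤ) : ℝ)| ≤ Δ))).card ≤
          ((formsZ ι (e + 2) A₂).filter (fun g => Cg q.1 q.2 (lam p) ∧
            p.1 ∈ Loc q.1 g ∧ p.2 ∈ LocD q.2 g (fun i => (lam p : ℤ) * p.1 i))).card := by
        apply Finset.card_le_card
        intro f hf
        rw [Finset.mem_filter] at hf ⊢
        obtain ⟨hf1, ⟨hf2, hf3⟩, hf4, hf5⟩ := hf
        refine ⟨hf1, hcg, ?_, ?_⟩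
        · exact mem_locSet_of hx1 (hu _ hq1 _ hx1) hf2 hf3 (fun i => by simp)
        · exact mem_locSet_of hy1 (hu _ hq2 _ hy1) hf4 hf5 (hlam2 p hp)
      exact_mod_cast this
  have hB1 : ∑ p ∈ Gd, ∑ q ∈ W ×ˢ W, (((formsZ ι (e + 2) A₂).filter (fun g => Cg q.1 q.2 (lam p) ∧
        p.1 ∈ Loc q.1 g ∧ p.2 ∈ LocD q.2 g (fun i => (lam p : ℤ) * p.1 i))).card : ℝ) =
      ∑ g ∈ formsZ ι (e + 2) A₂, ∑ q ∈ W ×ˢ W, ((Gd.filter (fun p => Cg q.1 q.2 (lam p) ∧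
        p.1 ∈ Loc q.1 g ∧ p.2 ∈ LocD q.2 g (fun i => (lam p : ℤ) * p.1 i))).card : ℝ) := by
    simp only [Finset.card_filter, Nat.cast_sum]
    rw [Finset.sum_comm]
    rw [Finset.sum_congr rfl (fun q _ => Finset.sum_comm)]
    rw [Finset.sum_comm]
  have hB2 : ∀ g ∈ formsZ ι (e + 2) A₂, ∀ q ∈ W ×ˢ W,
      ((Gd.filter (fun p => Cg q.1 q.2 (lam p) ∧
        p.1 ∈ Loc q.1 g ∧ p.2 ∈ LocD q.2 g (fun i => (lam p : ℤ) * p.1 i))).card : ℝ) ≤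
      (((Finset.range D).filter (fun c : ℕ => IsCoprime (c : ℤ) (D : ℤ) ∧ Cg q.1 q.2 c)).card : ℝ) *
        (R₁ * R₂) := by
    intro g hg q hq
    obtain ⟨hq1, hq2⟩ := Finset.mem_product.1 hq
    have hsub : (Gd.filter (fun p => Cg q.1 q.2 (lam p) ∧
        p.1 ∈ Loc q.1 g ∧ p.2 ∈ LocD q.2 g (fun i => (lam p : ℤ) * p.1 i))) ⊆
        (((Finset.range D).filter (fun c : ℕ => IsCoprime (c : ℤ) (D : ℤ) ∧ Cg q.1 q.2 c)) ×ˢ
          (Loc q.1 g)).biUnion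
          (fun r => (LocD q.2 g (fun i => ((r.1 : ℕ) : ℤ) * r.2 i)).image (fun y => (r.2, y))) := by
      intro p hp
      rw [Finset.mem_filter] at hp
      rw [Finset.mem_biUnion]
      refine ⟨(lam p, p.1), ?_, ?_⟩
      · rw [Finset.mem_product, Finset.mem_filter]
        exact ⟨⟨Finset.mem_range.mpr (hlam1 p hp.1), hlam3 p hp.1, hp.2.1⟩, hp.2.2.1⟩
      · rw [Finset.mem_image]
        exact ⟨p.2, hp.2.2.2, rfl⟩
    have h1 := (Finset.card_le_card hsub).trans Finset.card_biUnion_le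
    have h1' := (Nat.cast_le (α := ℝ)).mpr h1
    rw [Nat.cast_sum] at h1'
    refine h1'.trans ?_
    have h2 : ∀ r ∈ (((Finset.range D).filter
        (fun c : ℕ => IsCoprime (c : ℤ) (D : ℤ) ∧ Cg q.1 q.2 c)) ×ˢ (Loc q.1 g)),
        (((LocD q.2 g (fun i => ((r.1 : ℕ) : ℤ) * r.2 i)).image (fun y => (r.2, y))).card : ℝ) ≤
          R₂ := by
      intro r _
      refine le_trans ?_ (hL2 q.2 hq2 g hg (fun i => ((r.1 : ℕ) : ℤ) * r.2 i))
      exact_mod_cast Finset.card_image_le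
    refine (Finset.sum_le_sum h2).trans ?_
    rw [Finset.sum_const, nsmul_eq_mul, Finset.card_product]
    push_cast
    rw [mul_assoc]
    apply mul_le_mul_of_nonneg_left _ (by positivity)
    exact mul_le_mul_of_nonneg_right (hL1 q.1 hq1 g hg) hR₂
  have hB3 : ∑ q ∈ W ×ˢ W, (((Finset.range D).filter
      (fun c : ℕ => IsCoprime (c : ℤ) (D : ℤ) ∧ Cg q.1 q.2 c)).card : ℝ) ≤ D * Cp := by
    have h1 : ∑ q ∈ W ×ˢ W, (((Finset.range D).filter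
        (fun c : ℕ => IsCoprime (c : ℤ) (D : ℤ) ∧ Cg q.1 q.2 c)).card : ℝ) =
        ∑ c ∈ Finset.range D, (((W ×ˢ W).filter
          (fun q => IsCoprime (c : ℤ) (D : ℤ) ∧ Cg q.1 q.2 c)).card : ℝ) := by
      simp only [Finset.card_filter, Nat.cast_sum]
      exact Finset.sum_comm
    rw [h1]
    have h2 : ∀ c ∈ Finset.range D, (((W ×ˢ W).filter
          (fun q => IsCoprime (c : ℤ) (D : ℤ) ∧ Cg q.1 q.2 c)).card : ℝ) ≤ Cp := by
      intro c _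
      by_cases hc : IsCoprime (c : ℤ) (D : ℤ)
      · refine le_trans ?_ (hCp c hc)
        unfold cpt
        have h3 : (W ×ˢ W).filter (fun q => IsCoprime (c : ℤ) (D : ℤ) ∧ Cg q.1 q.2 c) ⊆
            (W ×ˢ W).filter (fun p => (D : ℤ) ∣ p.2 ^ b - (((c : ℤ)) ^ l) ^ b * p.1 ^ b) := by
          intro q hq
          rw [Finset.mem_filter] at hq ⊢
          exact ⟨hq.1, hq.2.2⟩
        exact_mod_cast Finset.card_le_card h3
      · rw [Finset.filter_false_of_mem (fun q _ h => hc h.1)]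
        simpa using hCp0
    refine (Finset.sum_le_sum h2).trans ?_
    rw [Finset.sum_const, nsmul_eq_mul, Finset.card_range]
  rw [Finset.sum_mul]
  simp_rw [Finset.sum_mul]
  refine (Finset.sum_le_sum (fun p hp => Finset.sum_le_sum (hA1 p hp))).trans ?_
  rw [hB1]
  have hB4 : ∀ g ∈ formsZ ι (e + 2) A₂, ∑ q ∈ W ×ˢ W, ((Gd.filter (fun p => Cg q.1 q.2 (lam p) ∧
        p.1 ∈ Loc q.1 g ∧ p.2 ∈ LocD q.2 g (fun i => (lam p : ℤ) * p.1 i))).card : ℝ) ≤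
        R₁ * (D * R₂) * Cp := by
    intro g hg
    have hR₁ : 0 ≤ R₁ := (Nat.cast_nonneg _).trans (hL1 ω₀ hω₀ g hg)
    refine (Finset.sum_le_sum (hB2 g hg)).trans ?_
    rw [← Finset.sum_mul]
    refine (mul_le_mul_of_nonneg_right hB3 (mul_nonneg hR₁ hR₂)).trans (le_of_eq ?_)
    ring
  refine (Finset.sum_le_sum hB4).trans (le_of_eq ?_)
  rw [Finset.sum_const, nsmul_eq_mul]
  ring

end

/-- **GS3.** -/
theorem t_GS3 (ι : Type) [Fintype ι] (hCMP : S_CMP ι) : S_GS3 ι := by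
  intro e b l w hw hbl W θ fc hfc S J _ _ xc P ξ i₀ ρ ρ' B a A A₂ Δ κ ha haB hκ hθ Lg hLg u hu K N
    hK hΔ hΔK hA R₁ E R₂ hR₂ hE hL1 hL2 hED hCp Gd hGd
  classical
  have e0 : (∑ ω ∈ W, ∑ ω' ∈ W, ∑ p ∈ Gd, (c2t e A p.1 p.2 (u ω p.1) (u ω' p.2) : ℝ)) =
      ∑ p ∈ Gd, ∑ q ∈ W ×ˢ W, (c2t e A p.1 p.2 (u q.1 p.1) (u q.2 p.2) : ℝ) := by
    rw [Finset.sum_comm (s := Gd) (t := W ×ˢ W), Finset.sum_product]
  rw [e0]
  rcases W.eq_empty_or_nonempty with hW0 | ⟨ω₀, hω₀⟩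
  · subst hW0
    simp
  choose! Df hDf using fun p hp => (hGd p hp).2.2
  set 𝒟 := Gd.image Df with h𝒟
  have hKr : (1:ℝ) ≤ K := by exact_mod_cast hK
  have h𝒟p : ∀ D ∈ 𝒟, 0 < D ∧ D ≤ N ∧ (∀ q : ℕ, q.Prime → q ≤ w → ¬ q ∣ D) := by
    intro D hD
    obtain ⟨p, hp, rfl⟩ := Finset.mem_image.mp hD
    obtain ⟨g, hg0, hg1, hg2, hg3, hg4, hg5, hg6, hg7, hg8⟩ := hDf p hp
    exact ⟨hg4, hg5, hg8⟩
  rw [← Finset.sum_fiberwise_of_maps_to (fun p hp => Finset.mem_image_of_mem Df hp :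
    ∀ p ∈ Gd, Df p ∈ 𝒟)]
  have hterm : ∀ D ∈ 𝒟, ∑ p ∈ Gd.filter (fun p => Df p = D),
      ∑ q ∈ W ×ˢ W, (c2t e A p.1 p.2 (u q.1 p.1) (u q.2 p.2) : ℝ) ≤
      (formsZ ι (e + 2) A).card * E * (θ * (W.card : ℝ) ^ 2) * (1 / ((D : ℝ) * Real.sqrt D)) := by
    intro D hD
    obtain ⟨hD1, hD2, hD3⟩ := h𝒟p D hD
    have hD1r : (1:ℝ) ≤ D := by exact_mod_cast hD1
    have hKD : (K:ℝ) * D ≤ Δ := by
      have h0 : (D:ℝ) ≤ N := by exact_mod_cast hD2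
      have h1 := mul_le_mul_of_nonneg_left h0 (by linarith : (0:ℝ) ≤ K)
      linarith
    have hCp0 : 0 ≤ θ * (W.card : ℝ) ^ 2 / Real.sqrt D := by positivity
    have key := good_sum_D3 hCMP e b l hbl hω₀ hfc ha haB hκ hLg u hu hK hD1 hΔ hKD hA (hR₂ D) hL1
      (hL2 D hD1 hD2 hD3) (hCp D hD1 hD2 hD3) hCp0 (Gd.filter (fun p => Df p = D)) (by
        intro p hp
        rw [Finset.mem_filter] at hp
        have h1 := hGd p hp.1
        refine ⟨h1.1, h1.2.1, ?_⟩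
        rw [← hp.2]
        exact hDf p hp.1)
    have key2 := key.trans (mul_le_mul_of_nonneg_right (hED D hD1 hD2) hCp0)
    have hpos1 : 0 < 2 * Δ / K - 1 := by
      rw [sub_pos, lt_div_iff₀ (by linarith)]
      have h0 : (K:ℝ) ≤ K * D := le_mul_of_one_le_right (by linarith) hD1r
      linarith
    have hpos2 : 0 < 2 * Δ / (K * D) - 1 := by
      rw [sub_pos, lt_div_iff₀ (by positivity)]
      have : 0 < (K:ℝ) * D := by positivity
      linarith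
    have key3 : (∑ p ∈ Gd.filter (fun p => Df p = D),
        ∑ q ∈ W ×ˢ W, (c2t e A p.1 p.2 (u q.1 p.1) (u q.2 p.2) : ℝ)) *
        ((2 * Δ / K - 1) * (2 * Δ / (K * D) - 1)) ≤
        ((formsZ ι (e + 2) A).card * (E * (1 / (D : ℝ))) *
          (θ * (W.card : ℝ) ^ 2 / Real.sqrt D)) * ((2 * Δ / K - 1) * (2 * Δ / (K * D) - 1)) := by
      refine key2.trans (le_of_eq ?_)
      ring
    have := le_of_mul_le_mul_right key3 (mul_pos hpos1 hpos2)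
    refine this.trans (le_of_eq ?_)
    have hs : Real.sqrt (D : ℝ) ≠ 0 := (Real.sqrt_pos.2 (by linarith)).ne'
    field_simp
  refine (Finset.sum_le_sum hterm).trans ?_
  rw [← Finset.mul_sum]
  apply mul_le_mul_of_nonneg_left _ (by positivity)
  exact sum_D_bound3 hw 𝒟
    (fun D hD => ⟨(h𝒟p D hD).2.1, one_or_gt (h𝒟p D hD).1 (h𝒟p D hD).2.2⟩)

end Pool.Agent.H90Q
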