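import Pool.Agent.H90Q.Stm3

/-!
# Project H90Q, phase 2, piece NU1 (helper92)
-/

set_option autoImplicit false

namespace Pool.Agent.H90Q

lemma nu1_cong {m b : ℕ} {u : ℤ} (x y : ℕ) :
    (m : ℤ) ∣ ((y % m : ℕ) : ℤ) ^ b - u * ((x % m : ℕ) : ℤ) ^ b ↔
      (m : ℤ) ∣ (y : ℤ) ^ b - u * (x : ℤ) ^ b := by
  have hx : ((x % m : ℕ) : ℤ) ≡ (x : ℤ) [ZMOD m] := by
    rw [Int.natCast_mod]; exact Int.mod_modEq _ _
  have hy : ((y % m : ℕ) : ℤ) ≡ (y : ℤ) [ZMOD m] := by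
    rw [Int.natCast_mod]; exact Int.mod_modEq _ _
  have h := (hy.pow b).sub ((hx.pow b).mul_left u)
  exact ⟨fun hd => (Int.modEq_zero_iff_dvd.1 (h.symm.trans (Int.modEq_zero_iff_dvd.2 hd))),
    fun hd => (Int.modEq_zero_iff_dvd.1 (h.trans (Int.modEq_zero_iff_dvd.2 hd)))⟩

theorem t_NU1 : S_NU1 := by
  intro b m n u hm hn hmn
  unfold nuB
  rw [← Finset.card_product]
  apply Finset.card_le_card_of_injOn
    (fun p : ℕ × ℕ => ((p.1 % m, p.2 % m), (p.1 % n, p.2 % n)))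
  · intro p hp
    simp only [Finset.coe_filter, Finset.mem_product, Finset.mem_range, Set.mem_ofPred_eq] at hp
    simp only [Finset.coe_product, Set.mem_prod, Finset.mem_coe, Finset.mem_filter,
      Finset.mem_product, Finset.mem_range]
    have hd : ((m * n : ℕ) : ℤ) ∣ (p.2 : ℤ) ^ b - u * (p.1 : ℤ) ^ b := hp.2
    refine ⟨⟨⟨Nat.mod_lt _ hm, Nat.mod_lt _ hm⟩, ?_⟩, ⟨⟨Nat.mod_lt _ hn, Nat.mod_lt _ hn⟩, ?_⟩⟩
    · exact (nu1_cong _ _).2 (dvd_trans (by exact_mod_cast Dvd.intro n rfl) hd)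
    · exact (nu1_cong _ _).2 (dvd_trans (by exact_mod_cast Dvd.intro_left m rfl) hd)
  · intro p hp q hq h
    simp only [Finset.coe_filter, Finset.mem_product, Finset.mem_range, Set.mem_ofPred_eq] at hp hq
    simp only [Prod.mk.injEq] at h
    have key : ∀ a c : ℕ, a < m * n → c < m * n → a % m = c % m → a % n = c % n → a = c := by
      intro a c ha hc h1 h2
      have h3 : a ≡ c [MOD m * n] := (Nat.modEq_and_modEq_iff_modEq_mul hmn).1 ⟨h1, h2⟩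
      exact Nat.ModEq.eq_of_lt_of_lt h3 ha hc
    exact Prod.ext (key _ _ hp.1.1 hq.1.1 h.1.1 h.2.1) (key _ _ hp.1.2 hq.1.2 h.1.2 h.2.2)


end Pool.Agent.H90Q
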