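import Pool.Agent.H90Q.Stm3

/-!
# H90Q phase 2: the piece NU2 (a unit has at most four square and cube roots modulo a prime power)
-/

set_option autoImplicit false

namespace Pool.Agent.H90Q

/-- a class modulo `M` has at most `k` members in `[0, M k)` -/
lemma card_class (M k : ℕ) (_hM : 0 < M) (r : ℤ) :
    ((Finset.range (M * k)).filter (fun a : ℕ => (M : ℤ) ∣ (a : ℤ) - r)).card ≤ k := by
  have h : ((Finset.range (M * k)).filter (fun a : ℕ => (M : ℤ) ∣ (a : ℤ) - r)).card ≤
      (Finset.range k).card := by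
    refine Finset.card_le_card_of_injOn (fun a => a / M) ?_ ?_
    · intro a ha
      rw [Finset.mem_coe, Finset.mem_filter, Finset.mem_range] at ha
      rw [Finset.mem_coe, Finset.mem_range]
      exact Nat.div_lt_of_lt_mul ha.1
    · intro a ha a' ha' haa'
      rw [Finset.mem_coe, Finset.mem_filter] at ha ha'
      have h1 : (M : ℤ) ∣ (a : ℤ) - a' := by
        have := dvd_sub ha.2 ha'.2
        rwa [sub_sub_sub_cancel_right] at this
      have h2 : a' % M = a % M := by
        have h3 : (a' : ℤ) ≡ a [ZMOD M] := Int.modEq_iff_dvd.2 h1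
        exact (Int.natCast_modEq_iff).1 h3
      have h3 : a / M = a' / M := haa'
      rw [← Nat.div_add_mod a M, ← Nat.div_add_mod a' M, h3, h2]
  simpa using h

/-- a class modulo `N` has at most one member in `[0, N)` -/
lemma card_class_one (N : ℕ) (hN : 0 < N) (r : ℤ) :
    ((Finset.range N).filter (fun a : ℕ => (N : ℤ) ∣ (a : ℤ) - r)).card ≤ 1 := by
  have := card_class N 1 hN r
  rwa [mul_one] at this

/-- the prime does not divide the first factor -/
lemma dvd_right_of {p j : ℕ} (hp : p.Prime) {x y : ℤ} (h : ((p ^ j : ℕ) : ℤ) ∣ x * y)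
    (hx : ¬ (p : ℤ) ∣ x) : ((p ^ j : ℕ) : ℤ) ∣ y := by
  have hp' : Prime (p : ℤ) := Nat.prime_iff_prime_int.1 hp
  have h1 : IsCoprime (p : ℤ) x := (Prime.coprime_iff_not_dvd hp').2 hx
  have h2 : IsCoprime ((p ^ j : ℕ) : ℤ) x := by
    push_cast
    exact h1.pow_left
  exact h2.dvd_of_dvd_mul_left h

/-- NU2 -/
theorem t_NU2 : S_NU2 := by
  classical
  intro b p j c hb hp hc
  have hp' : Prime (p : ℤ) := Nat.prime_iff_prime_int.1 hp
  set N := p ^ j with hN
  have hN0 : 0 < N := pow_pos hp.pos _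
  set S := (Finset.range N).filter (fun a : ℕ => ((N : ℕ) : ℤ) ∣ (a : ℤ) ^ b - c) with hS
  rcases Nat.eq_zero_or_pos j with hj | hj
  · have h1 : S.card ≤ (Finset.range N).card := Finset.card_filter_le _ _
    rw [Finset.card_range, hN, hj, pow_zero] at h1
    omega
  have hpN : (p : ℤ) ∣ (N : ℤ) := by
    rw [hN]
    push_cast
    exact dvd_pow_self _ (by omega)
  have hb0 : b ≠ 0 := by omega
  -- the elements are not divisible by `p`
  have hS1 : ∀ a ∈ S, ((N : ℕ) : ℤ) ∣ (a : ℤ) ^ b - c ∧ ¬ (p : ℤ) ∣ (a : ℤ) := by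
    intro a ha
    have h1 := (Finset.mem_filter.1 ha).2
    refine ⟨h1, fun h2 => hc ?_⟩
    have h3 : (p : ℤ) ∣ (a : ℤ) ^ b := dvd_pow h2 hb0
    have h4 := dvd_sub h3 (hpN.trans h1)
    rwa [sub_sub_cancel] at h4
  have hSr : ∀ a ∈ S, a ∈ Finset.range N := fun a ha => (Finset.mem_filter.1 ha).1
  rcases S.eq_empty_or_nonempty with hE | ⟨y, hy⟩
  · rw [hE]
    simp
  obtain ⟨hy1, hy2⟩ := hS1 y hy
  have hdiff : ∀ a ∈ S, ((N : ℕ) : ℤ) ∣ (a : ℤ) ^ b - (y : ℤ) ^ b := by
    intro a ha
    have := dvd_sub (hS1 a ha).1 hy1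
    rwa [sub_sub_sub_cancel_right] at this
  rcases hb with rfl | rfl
  · -- squares
    by_cases hp2 : p = 2
    · subst hp2
      obtain ⟨i, rfl⟩ : ∃ i, j = i + 1 := ⟨j - 1, by omega⟩
      have hN2 : N = 2 ^ i * 2 := by rw [hN, pow_succ]
      have hsub : S ⊆ (Finset.range N).filter (fun a : ℕ => ((2 ^ i : ℕ) : ℤ) ∣ (a : ℤ) - y) ∪
          (Finset.range N).filter (fun a : ℕ => ((2 ^ i : ℕ) : ℤ) ∣ (a : ℤ) - (-y)) := by
        intro a ha
        have h1 := hdiff a ha
        have ha2 := (hS1 a ha).2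
        have h2 : ((2 ^ i : ℕ) : ℤ) * 2 ∣ ((a : ℤ) - y) * ((a : ℤ) - (-y)) := by
          have h3 : ((N : ℕ) : ℤ) = ((2 ^ i : ℕ) : ℤ) * 2 := by rw [hN2]; push_cast; ring
          rw [← h3]
          have h4 : ((a : ℤ) - y) * ((a : ℤ) - (-y)) = (a : ℤ) ^ 2 - (y : ℤ) ^ 2 := by ring
          rw [h4]
          exact h1
        rw [Finset.mem_union, Finset.mem_filter, Finset.mem_filter]
        -- one of the factors is twice an odd number
        obtain ⟨s, hs⟩ : ∃ s : ℤ, (a : ℤ) = 2 * s + 1 := by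
          rcases Int.even_or_odd (a : ℤ) with h | ⟨s, hs⟩
          · exact absurd h.two_dvd (by exact_mod_cast ha2)
          · exact ⟨s, hs⟩
        obtain ⟨t, ht⟩ : ∃ t : ℤ, (y : ℤ) = 2 * t + 1 := by
          rcases Int.even_or_odd (y : ℤ) with h | ⟨t, ht⟩
          · exact absurd h.two_dvd (by exact_mod_cast hy2)
          · exact ⟨t, ht⟩
        have e1 : (a : ℤ) - y = 2 * (s - t) := by rw [hs, ht]; ring
        have e2 : (a : ℤ) - (-y) = 2 * (s + t + 1) := by rw [hs, ht]; ring
        have h3 : ((2 ^ i : ℕ) : ℤ) ∣ 2 * ((s - t) * (s + t + 1)) := by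
          rw [e1, e2] at h2
          obtain ⟨q, hq⟩ := h2
          refine ⟨q, ?_⟩
          have : (2 : ℤ) * (2 * ((s - t) * (s + t + 1))) = 2 * (((2 ^ i : ℕ) : ℤ) * q) := by
            linear_combination hq
          exact mul_left_cancel₀ two_ne_zero this
        rcases Int.even_or_odd (s - t) with h4 | h4
        · -- `s + t + 1` is odd
          left
          refine ⟨hSr a ha, ?_⟩
          rw [e1]
          have h5 : ¬ ((2 : ℕ) : ℤ) ∣ (s + t + 1) := by
            intro h6
            obtain ⟨k, hk⟩ := h4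
            obtain ⟨l, hl⟩ := h6
            push_cast at hl
            omega
          have h6 : ((2 ^ i : ℕ) : ℤ) ∣ (s + t + 1) * (2 * (s - t)) := by
            have : (s + t + 1) * (2 * (s - t)) = 2 * ((s - t) * (s + t + 1)) := by ring
            rw [this]
            exact h3
          exact dvd_right_of hp h6 h5
        · right
          refine ⟨hSr a ha, ?_⟩
          rw [e2]
          have h5 : ¬ ((2 : ℕ) : ℤ) ∣ (s - t) := by
            intro h6
            obtain ⟨k, hk⟩ := h4
            obtain ⟨l, hl⟩ := h6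
            push_cast at hl
            omega
          have h6 : ((2 ^ i : ℕ) : ℤ) ∣ (s - t) * (2 * (s + t + 1)) := by
            have : (s - t) * (2 * (s + t + 1)) = 2 * ((s - t) * (s + t + 1)) := by ring
            rw [this]
            exact h3
          exact dvd_right_of hp h6 h5
      have h1 := Finset.card_le_card hsub
      have h2 := Finset.card_union_le
        ((Finset.range N).filter (fun a : ℕ => ((2 ^ i : ℕ) : ℤ) ∣ (a : ℤ) - y))
        ((Finset.range N).filter (fun a : ℕ => ((2 ^ i : ℕ) : ℤ) ∣ (a : ℤ) - (-y)))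
      have h3 := card_class (2 ^ i) 2 (by positivity) (y : ℤ)
      have h4 := card_class (2 ^ i) 2 (by positivity) (-(y : ℤ))
      rw [← hN2] at h3 h4
      omega
    · have hsub : S ⊆ (Finset.range N).filter (fun a : ℕ => ((N : ℕ) : ℤ) ∣ (a : ℤ) - y) ∪
          (Finset.range N).filter (fun a : ℕ => ((N : ℕ) : ℤ) ∣ (a : ℤ) - (-y)) := by
        intro a ha
        have h1 := hdiff a ha
        rw [Finset.mem_union, Finset.mem_filter, Finset.mem_filter]
        have h4 : (a : ℤ) ^ 2 - (y : ℤ) ^ 2 = ((a : ℤ) - y) * ((a : ℤ) - (-y)) := by ring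
        rw [h4] at h1
        by_cases h5 : (p : ℤ) ∣ (a : ℤ) - y
        · left
          refine ⟨hSr a ha, ?_⟩
          have h6 : ¬ (p : ℤ) ∣ (a : ℤ) - (-y) := by
            intro h7
            have h8 := dvd_sub h7 h5
            have h9 : (a : ℤ) - (-y) - ((a : ℤ) - y) = 2 * y := by ring
            rw [h9] at h8
            rcases hp'.dvd_or_dvd h8 with h | h
            · have : p ∣ 2 := by exact_mod_cast h
              exact hp2 ((Nat.prime_dvd_prime_iff_eq hp Nat.prime_two).1 this)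
            · exact hy2 h
          rw [mul_comm] at h1
          exact dvd_right_of hp h1 h6
        · right
          exact ⟨hSr a ha, dvd_right_of hp h1 h5⟩
      have h1 := Finset.card_le_card hsub
      have h2 := Finset.card_union_le
        ((Finset.range N).filter (fun a : ℕ => ((N : ℕ) : ℤ) ∣ (a : ℤ) - y))
        ((Finset.range N).filter (fun a : ℕ => ((N : ℕ) : ℤ) ∣ (a : ℤ) - (-y)))
      have h3 := card_class_one N hN0 (y : ℤ)
      have h4 := card_class_one N hN0 (-(y : ℤ))
      omega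
  · -- cubes
    by_cases hp3 : p = 3
    · subst hp3
      obtain ⟨i, rfl⟩ : ∃ i, j = i + 1 := ⟨j - 1, by omega⟩
      have hN3 : N = 3 ^ i * 3 := by rw [hN, pow_succ]
      have hsub : S ⊆ (Finset.range N).filter (fun a : ℕ => ((3 ^ i : ℕ) : ℤ) ∣ (a : ℤ) - y) := by
        intro a ha
        have h1 := hdiff a ha
        have ha2 := (hS1 a ha).2
        rw [Finset.mem_filter]
        refine ⟨hSr a ha, ?_⟩
        have h3 : (3 : ℤ) ∣ (a : ℤ) - y := by
          have h4 : (3 : ℤ) ∣ (a : ℤ) ^ 3 - (y : ℤ) ^ 3 := by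
            have h5 : (3 : ℤ) ∣ ((N : ℕ) : ℤ) := by exact_mod_cast hpN
            exact h5.trans h1
          have h5 : (a : ℤ) - y = ((a : ℤ) ^ 3 - (y : ℤ) ^ 3) - ((a : ℤ) ^ 3 - a) +
              ((y : ℤ) ^ 3 - y) := by ring
          have h6 : ∀ z : ℤ, (3 : ℤ) ∣ z ^ 3 - z := by
            intro z
            have h7 : z % 3 = 0 ∨ z % 3 = 1 ∨ z % 3 = 2 := by omega
            obtain ⟨w, hw⟩ : ∃ w, w = z / 3 := ⟨_, rfl⟩
            have h8 : z = 3 * w + z % 3 := by omega
            rcases h7 with h | h | h <;> rw [h] at h8 <;> rw [h8]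
            · exact ⟨9 * w ^ 3 - w, by ring⟩
            · exact ⟨9 * w ^ 3 + 9 * w ^ 2 + 2 * w, by ring⟩
            · exact ⟨9 * w ^ 3 + 18 * w ^ 2 + 11 * w + 2, by ring⟩
          rw [h5]
          exact dvd_add (dvd_sub h4 (h6 _)) (h6 _)
        obtain ⟨t, ht⟩ := h3
        have h4 : ((3 ^ i : ℕ) : ℤ) * 3 ∣ (3 * t) * (3 * (3 * t ^ 2 + a * y)) := by
          have h5 : ((N : ℕ) : ℤ) = ((3 ^ i : ℕ) : ℤ) * 3 := by rw [hN3]; push_cast; ring
          rw [← h5]
          have h6 : (3 * t) * (3 * (3 * t ^ 2 + (a : ℤ) * y)) = (a : ℤ) ^ 3 - (y : ℤ) ^ 3 := by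
            have h7 : (a : ℤ) ^ 3 - (y : ℤ) ^ 3 =
                ((a : ℤ) - y) * (((a : ℤ) - y) ^ 2 + 3 * (a * y)) := by ring
            rw [h7, ht]
            ring
          rw [h6]
          exact h1
        have h5 : ((3 ^ i : ℕ) : ℤ) ∣ (3 * t ^ 2 + a * y) * (3 * t) := by
          obtain ⟨q, hq⟩ := h4
          refine ⟨q, ?_⟩
          have : (3 : ℤ) * ((3 * t ^ 2 + a * y) * (3 * t)) = 3 * (((3 ^ i : ℕ) : ℤ) * q) := by
            linear_combination hq
          exact mul_left_cancel₀ three_ne_zero this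
        have h6 : ¬ ((3 : ℕ) : ℤ) ∣ 3 * t ^ 2 + a * y := by
          intro h7
          have h8 : ((3 : ℕ) : ℤ) ∣ 3 * t ^ 2 := ⟨t ^ 2, by push_cast; ring⟩
          have h9 := (Int.dvd_add_right h8).1 h7
          rcases hp'.dvd_or_dvd h9 with h | h
          · exact ha2 h
          · exact hy2 h
        rw [ht]
        exact dvd_right_of hp h5 h6
      have h1 := Finset.card_le_card hsub
      have h3 := card_class (3 ^ i) 3 (by positivity) (y : ℤ)
      rw [← hN3] at h3
      omega
    · have h3p : ∀ z : ℤ, (p : ℤ) ∣ 3 * z → (p : ℤ) ∣ z := by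
        intro z hz
        rcases hp'.dvd_or_dvd hz with h | h
        · have : p ∣ 3 := by exact_mod_cast h
          exact absurd ((Nat.prime_dvd_prime_iff_eq hp Nat.prime_three).1 this) hp3
        · exact h
      have hq : ∀ a ∈ S, ¬ ((N : ℕ) : ℤ) ∣ (a : ℤ) - y →
          ((N : ℕ) : ℤ) ∣ (a : ℤ) ^ 2 + a * y + (y : ℤ) ^ 2 := by
        intro a ha hn
        have h1 := hdiff a ha
        have h4 : (a : ℤ) ^ 3 - (y : ℤ) ^ 3 =
          ((a : ℤ) - y) * ((a : ℤ) ^ 2 + a * y + (y : ℤ) ^ 2) := by ring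
        rw [h4] at h1
        by_cases h5 : (p : ℤ) ∣ (a : ℤ) - y
        · exfalso
          apply hn
          have h6 : ¬ (p : ℤ) ∣ (a : ℤ) ^ 2 + a * y + (y : ℤ) ^ 2 := by
            intro h7
            have h8 := dvd_sub h7 (h5.mul_right ((a : ℤ) + 2 * y))
            have h9 : (a : ℤ) ^ 2 + a * y + (y : ℤ) ^ 2 - ((a : ℤ) - y) * ((a : ℤ) + 2 * y) =
              3 * (y : ℤ) ^ 2 := by ring
            rw [h9] at h8
            exact hy2 (hp'.dvd_of_dvd_pow (h3p _ h8))
          rw [mul_comm] at h1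
          exact dvd_right_of hp h1 h6
        · exact dvd_right_of hp h1 h5
      by_cases hex : ∃ x ∈ S, ¬ ((N : ℕ) : ℤ) ∣ (x : ℤ) - y
      · obtain ⟨x, hx, hxn⟩ := hex
        have hqx := hq x hx hxn
        have hsub : S ⊆ (Finset.range N).filter (fun a : ℕ => ((N : ℕ) : ℤ) ∣ (a : ℤ) - y) ∪
            ((Finset.range N).filter (fun a : ℕ => ((N : ℕ) : ℤ) ∣ (a : ℤ) - x) ∪
            (Finset.range N).filter (fun a : ℕ => ((N : ℕ) : ℤ) ∣ (a : ℤ) - (-x - y))) := by
          intro a ha
          rw [Finset.mem_union, Finset.mem_union, Finset.mem_filter, Finset.mem_filter,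
            Finset.mem_filter]
          by_cases hn : ((N : ℕ) : ℤ) ∣ (a : ℤ) - y
          · exact Or.inl ⟨hSr a ha, hn⟩
          · right
            have hqa := hq a ha hn
            have h1 := dvd_sub hqa hqx
            have h2 : (a : ℤ) ^ 2 + a * y + (y : ℤ) ^ 2 - ((x : ℤ) ^ 2 + x * y + (y : ℤ) ^ 2) =
              ((a : ℤ) - x) * ((a : ℤ) - (-x - y)) := by ring
            rw [h2] at h1
            by_cases h5 : (p : ℤ) ∣ (a : ℤ) - x
            · left
              refine ⟨hSr a ha, ?_⟩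
              have h6 : ¬ (p : ℤ) ∣ (a : ℤ) - (-x - y) := by
                intro h7
                -- `p ∣ 2 x + y`
                have h8 : (p : ℤ) ∣ 2 * x + y := by
                  have h9 := dvd_sub h7 h5
                  have h10 : (a : ℤ) - (-x - y) - ((a : ℤ) - x) = 2 * x + y := by ring
                  rwa [h10] at h9
                have h9 : (p : ℤ) ∣ (x : ℤ) ^ 2 + x * y + (y : ℤ) ^ 2 := hpN.trans hqx
                have h10 := dvd_sub (h9.mul_left 4) (h8.mul_right (2 * (x : ℤ) + y))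
                have h11 : 4 * ((x : ℤ) ^ 2 + x * y + (y : ℤ) ^ 2) -
                  (2 * (x : ℤ) + y) * (2 * (x : ℤ) + y) = 3 * (y : ℤ) ^ 2 := by ring
                rw [h11] at h10
                exact hy2 (hp'.dvd_of_dvd_pow (h3p _ h10))
              rw [mul_comm] at h1
              exact dvd_right_of hp h1 h6
            · right
              exact ⟨hSr a ha, dvd_right_of hp h1 h5⟩
        have h1 := Finset.card_le_card hsub
        have h2 := Finset.card_union_le
          ((Finset.range N).filter (fun a : ℕ => ((N : ℕ) : ℤ) ∣ (a : ℤ) - y))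
          ((Finset.range N).filter (fun a : ℕ => ((N : ℕ) : ℤ) ∣ (a : ℤ) - x) ∪
            (Finset.range N).filter (fun a : ℕ => ((N : ℕ) : ℤ) ∣ (a : ℤ) - (-x - y)))
        have h2' := Finset.card_union_le
          ((Finset.range N).filter (fun a : ℕ => ((N : ℕ) : ℤ) ∣ (a : ℤ) - x))
          ((Finset.range N).filter (fun a : ℕ => ((N : ℕ) : ℤ) ∣ (a : ℤ) - (-x - y)))
        have h3 := card_class_one N hN0 (y : ℤ)
        have h4 := card_class_one N hN0 (x : ℤ)
        have h5 := card_class_one N hN0 (-(x : ℤ) - y)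
        omega
      · push Not at hex
        have hsub : S ⊆ (Finset.range N).filter (fun a : ℕ => ((N : ℕ) : ℤ) ∣ (a : ℤ) - y) :=
          fun a ha => Finset.mem_filter.2 ⟨hSr a ha, hex a ha⟩
        have h1 := Finset.card_le_card hsub
        have h3 := card_class_one N hN0 (y : ℤ)
        omega

end Pool.Agent.H90Q
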