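import Pool.Agent.H90Q.Stm3

/-!
# H90Q phase 2: the piece NU3 (`a' ^ b ≡ u a ^ b` modulo prime powers)
-/

set_option autoImplicit false

namespace Pool.Agent.H90Q

namespace NU3

/-- the pairs of numbers divisible by `p` -/
def BB (b p j : ℕ) (u : ℤ) : ℕ :=
  ((Finset.range (p ^ (j - 1)) ×ˢ Finset.range (p ^ (j - 1))).filter
    (fun q => ((p ^ j : ℕ) : ℤ) ∣ ((p : ℤ) * q.2) ^ b - u * ((p : ℤ) * q.1) ^ b)).card

lemma rec_one (h : S_NU2) {b p j : ℕ} {u : ℤ} (hb : b = 2 ∨ b = 3) (hp : p.Prime)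
    (hu : ¬ (p : ℤ) ∣ u) (hj : 1 ≤ j) : nuB b (p ^ j) u ≤ 4 * p ^ j + BB b p j u := by
  classical
  have hp' : Prime (p : ℤ) := Nat.prime_iff_prime_int.1 hp
  set F := (Finset.range (p ^ j) ×ˢ Finset.range (p ^ j)).filter
    (fun q => ((p ^ j : ℕ) : ℤ) ∣ (q.2 : ℤ) ^ b - u * (q.1 : ℤ) ^ b) with hF
  have hnu : nuB b (p ^ j) u = F.card := rfl
  rw [hnu, ← Finset.card_filter_add_card_filter_not (s := F) (fun q => ¬ p ∣ q.1)]
  apply Nat.add_le_add
  · -- the first part
    have h1 : ∀ a ∈ (F.filter (fun q => ¬ p ∣ q.1)).image Prod.fst,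
        ((F.filter (fun q => ¬ p ∣ q.1)).filter (fun q => q.1 = a)).card ≤ 4 := by
      intro a ha
      obtain ⟨q, hq, rfl⟩ := Finset.mem_image.1 ha
      have hq2 := (Finset.mem_filter.1 hq).2
      have hc : ¬ (p : ℤ) ∣ u * (q.1 : ℤ) ^ b := by
        intro h1
        rcases hp'.dvd_or_dvd h1 with h2 | h2
        · exact hu h2
        · have := hp'.dvd_of_dvd_pow h2
          exact hq2 (by exact_mod_cast this)
      refine le_trans ?_ (h b p j _ hb hp hc)
      refine Finset.card_le_card_of_injOn Prod.snd ?_ ?_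
      · intro r hr
        rw [Finset.mem_coe, Finset.mem_filter, Finset.mem_filter, hF, Finset.mem_filter,
          Finset.mem_product] at hr
        rw [Finset.mem_coe, Finset.mem_filter]
        refine ⟨hr.1.1.1.2, ?_⟩
        rw [← hr.2]
        exact hr.1.1.2
      · intro r hr r' hr' hrr'
        rw [Finset.mem_coe, Finset.mem_filter] at hr hr'
        exact Prod.ext (hr.2.trans hr'.2.symm) hrr'
    refine (Finset.card_le_mul_card_image _ 4 h1).trans ?_
    apply Nat.mul_le_mul_left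
    have h2 : (F.filter (fun q => ¬ p ∣ q.1)).image Prod.fst ⊆ Finset.range (p ^ j) := by
      intro a ha
      obtain ⟨q, hq, rfl⟩ := Finset.mem_image.1 ha
      rw [Finset.mem_filter, hF, Finset.mem_filter, Finset.mem_product] at hq
      exact hq.1.1.1
    have h3 := Finset.card_le_card h2
    rwa [Finset.card_range] at h3
  · -- the second part
    have hsub : F.filter (fun q => ¬ ¬ p ∣ q.1) ⊆
        ((Finset.range (p ^ (j - 1)) ×ˢ Finset.range (p ^ (j - 1))).filter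
        (fun q => ((p ^ j : ℕ) : ℤ) ∣ ((p : ℤ) * q.2) ^ b - u * ((p : ℤ) * q.1) ^ b)).image
        (fun q => (p * q.1, p * q.2)) := by
      rintro ⟨a, a'⟩ hq
      rw [Finset.mem_filter, hF, Finset.mem_filter, Finset.mem_product, Finset.mem_range,
        Finset.mem_range, not_not] at hq
      obtain ⟨⟨⟨h1, h2⟩, h3⟩, h4⟩ := hq
      simp only at h1 h2 h3 h4
      have hpj : p ^ j = p * p ^ (j - 1) := by
        rw [← pow_succ']
        congr 1
        omega
      have h5 : p ∣ a' := by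
        have h6 : (p : ℤ) ∣ (a' : ℤ) ^ b - u * (a : ℤ) ^ b := by
          refine dvd_trans ?_ h3
          rw [hpj]
          push_cast
          exact dvd_mul_right _ _
        have h7 : (p : ℤ) ∣ u * (a : ℤ) ^ b := by
          apply Dvd.dvd.mul_left
          apply dvd_pow
          · exact_mod_cast h4
          · omega
        have h8 := dvd_add h6 h7
        rw [sub_add_cancel] at h8
        have := hp'.dvd_of_dvd_pow h8
        exact_mod_cast this
      obtain ⟨α, rfl⟩ := h4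
      obtain ⟨α', rfl⟩ := h5
      rw [hpj] at h1 h2
      rw [Finset.mem_image]
      refine ⟨(α, α'), ?_, rfl⟩
      rw [Finset.mem_filter, Finset.mem_product, Finset.mem_range, Finset.mem_range]
      refine ⟨⟨Nat.lt_of_mul_lt_mul_left h1, Nat.lt_of_mul_lt_mul_left h2⟩, ?_⟩
      push_cast at h3 ⊢
      exact h3
    exact (Finset.card_le_card hsub).trans Finset.card_image_le

lemma BB_small (b p j : ℕ) (u : ℤ) : BB b p j u ≤ p ^ (j - 1) * p ^ (j - 1) := by
  refine (Finset.card_filter_le _ _).trans ?_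
  rw [Finset.card_product, Finset.card_range]

lemma BB_large {b p j : ℕ} {u : ℤ} (hb : 1 ≤ b) (hp : p.Prime) (hj : b < j) :
    BB b p j u ≤ nuB b (p ^ (j - b)) u * (p ^ (b - 1) * p ^ (b - 1)) := by
  classical
  set M := p ^ (j - b) with hM
  set k := p ^ (b - 1) with hk
  have hM0 : 0 < M := pow_pos hp.pos _
  have hMk : p ^ (j - 1) = M * k := by
    rw [hM, hk, ← pow_add]
    congr 1
    omega
  have hcard : nuB b M u * (k * k) = (((Finset.range M ×ˢ Finset.range M).filter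
    (fun q : ℕ × ℕ => (M : ℤ) ∣ (q.2 : ℤ) ^ b - u * (q.1 : ℤ) ^ b)) ×ˢ
      (Finset.range k ×ˢ Finset.range k)).card := by
    rw [Finset.card_product, Finset.card_product, Finset.card_range]
    rfl
  rw [hcard, BB]
  refine Finset.card_le_card_of_injOn
    (fun q => ((q.1 % M, q.2 % M), (q.1 / M, q.2 / M))) ?_ ?_
  · rintro ⟨α, α'⟩ hq
    rw [Finset.mem_coe, Finset.mem_filter, Finset.mem_product, Finset.mem_range,
      Finset.mem_range, hMk] at hq
    obtain ⟨⟨h1, h2⟩, h3⟩ := hq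
    simp only at h1 h2 h3
    simp only [Finset.mem_coe, Finset.mem_product, Finset.mem_filter, Finset.mem_range]
    refine ⟨⟨⟨Nat.mod_lt _ hM0, Nat.mod_lt _ hM0⟩, ?_⟩, Nat.div_lt_of_lt_mul h1,
      Nat.div_lt_of_lt_mul h2⟩
    have h4 : (M : ℤ) ∣ (α' : ℤ) ^ b - u * (α : ℤ) ^ b := by
      have h5 : ((p ^ j : ℕ) : ℤ) = (p : ℤ) ^ b * (M : ℤ) := by
        rw [hM]
        push_cast
        rw [← pow_add]
        congr 1
        omega
      have h6 : ((p : ℤ) * α') ^ b - u * ((p : ℤ) * α) ^ b =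
          (p : ℤ) ^ b * ((α' : ℤ) ^ b - u * (α : ℤ) ^ b) := by
        rw [mul_pow, mul_pow]
        ring
      rw [h5, h6] at h3
      have h7 : (p : ℤ) ^ b ≠ 0 := pow_ne_zero _ (by exact_mod_cast hp.ne_zero)
      exact (mul_dvd_mul_iff_left h7).1 h3
    have h5 : ∀ x : ℕ, ((x % M : ℕ) : ℤ) ≡ (x : ℤ) [ZMOD M] := by
      intro x
      push_cast
      exact Int.mod_modEq _ _
    have h6 : (((α' % M : ℕ) : ℤ)) ^ b - u * (((α % M : ℕ) : ℤ)) ^ b ≡
        (α' : ℤ) ^ b - u * (α : ℤ) ^ b [ZMOD M] :=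
      ((h5 α').pow b).sub (((h5 α).pow b).mul_left u)
    exact (Int.modEq_zero_iff_dvd).1 (h6.trans ((Int.modEq_zero_iff_dvd).2 h4))
  · rintro ⟨α, α'⟩ _ ⟨β, β'⟩ _ hqq
    simp only [Prod.mk.injEq] at hqq
    obtain ⟨⟨h1, h2⟩, h3, h4⟩ := hqq
    refine Prod.ext ?_ ?_
    · show α = β
      rw [← Nat.div_add_mod α M, ← Nat.div_add_mod β M, h1, h3]
    · show α' = β'
      rw [← Nat.div_add_mod α' M, ← Nat.div_add_mod β' M, h2, h4]

/-- the induction -/
lemma main (h : S_NU2) {b p : ℕ} {u : ℤ} (hb : b = 2 ∨ b = 3) (hp : p.Prime)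
    (hu : ¬ (p : ℤ) ∣ u) {s C : ℝ} (hs : 1 ≤ s) (hsp : s ^ 2 = p) (hC : 1 ≤ C) (h1 : 5 ≤ C * s)
    (h2 : 4 + C * s ^ 2 ≤ C * s ^ 3) : ∀ j : ℕ, (nuB b (p ^ j) u : ℝ) ≤ C * s ^ (3 * j) := by
  have hs0 : 0 < s := by linarith
  intro j
  induction j using Nat.strong_induction_on with
  | _ j ih =>
  rcases Nat.eq_zero_or_pos j with hj | hj
  · subst hj
    have h3 : nuB b (p ^ 0) u ≤ 1 := by
      refine (Finset.card_filter_le _ _).trans ?_
      simp
    have h4 : (nuB b (p ^ 0) u : ℝ) ≤ 1 := by exact_mod_cast h3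
    simpa using h4.trans hC
  have h3 := rec_one h hb hp hu hj
  have h4 : ((p ^ j : ℕ) : ℝ) = s ^ (2 * j) := by
    push_cast
    rw [← hsp, ← pow_mul]
  have hb1 : 1 ≤ b := by omega
  have hb3 : b ≤ 3 := by omega
  rcases le_or_gt j b with hjb | hjb
  · have h5 := BB_small b p j u
    have h6 : (nuB b (p ^ j) u : ℝ) ≤ 4 * s ^ (2 * j) + s ^ (4 * (j - 1)) := by
      have h7 : nuB b (p ^ j) u ≤ 4 * p ^ j + p ^ (j - 1) * p ^ (j - 1) := by omega
      have h8 : (nuB b (p ^ j) u : ℝ) ≤ ((4 * p ^ j + p ^ (j - 1) * p ^ (j - 1) : ℕ) : ℝ) :=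
        Nat.cast_le.2 h7
      refine h8.trans (le_of_eq ?_)
      rw [Nat.cast_add, Nat.cast_mul, h4]
      push_cast
      rw [← hsp, ← pow_mul, ← pow_add]
      congr 2
      omega
    have h7 : s ^ (2 * j) ≤ s ^ (3 * j - 1) := pow_le_pow_right₀ hs (by omega)
    have h8 : s ^ (4 * (j - 1)) ≤ s ^ (3 * j - 1) := pow_le_pow_right₀ hs (by omega)
    have h9 : s ^ (3 * j) = s * s ^ (3 * j - 1) := by
      rw [← pow_succ']
      congr 1
      omega
    have h10 : 0 < s ^ (3 * j - 1) := pow_pos hs0 _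
    rw [h9]
    nlinarith
  · have h5 := BB_large (u := u) hb1 hp hjb
    have h6 := ih (j - b) (by omega)
    have h7 : (nuB b (p ^ j) u : ℝ) ≤ 4 * s ^ (2 * j) +
        (C * s ^ (3 * (j - b))) * s ^ (4 * (b - 1)) := by
      have h7 : nuB b (p ^ j) u ≤ 4 * p ^ j +
          nuB b (p ^ (j - b)) u * (p ^ (b - 1) * p ^ (b - 1)) := by omega
      have h8 : (nuB b (p ^ j) u : ℝ) ≤ ((4 * p ^ j +
          nuB b (p ^ (j - b)) u * (p ^ (b - 1) * p ^ (b - 1)) : ℕ) : ℝ) := Nat.cast_le.2 h7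
      refine h8.trans ?_
      rw [Nat.cast_add, Nat.cast_mul, h4, Nat.cast_mul]
      have h9 : ((p ^ (b - 1) * p ^ (b - 1) : ℕ) : ℝ) = s ^ (4 * (b - 1)) := by
        push_cast
        rw [← hsp, ← pow_mul, ← pow_add]
        congr 1
        omega
      rw [h9]
      have h10 : 0 < s ^ (4 * (b - 1)) := pow_pos hs0 _
      have h11 := mul_le_mul_of_nonneg_right h6 h10.le
      norm_num
      exact h11
    have h8 : (C * s ^ (3 * (j - b))) * s ^ (4 * (b - 1)) ≤ C * s ^ (3 * j - 1) := by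
      rw [mul_assoc, ← pow_add]
      apply mul_le_mul_of_nonneg_left _ (by linarith)
      exact pow_le_pow_right₀ hs (by omega)
    have h9 : s ^ (2 * j) ≤ s ^ (3 * j - 3) := pow_le_pow_right₀ hs (by omega)
    have h10 : s ^ (3 * j) = s ^ (3 * j - 3) * s ^ 3 := by
      rw [← pow_add]
      congr 1
      omega
    have h11 : s ^ (3 * j - 1) = s ^ (3 * j - 3) * s ^ 2 := by
      rw [← pow_add]
      congr 1
      omega
    have h12 : 0 < s ^ (3 * j - 3) := pow_pos hs0 _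
    rw [h10]
    rw [h11] at h8
    have h13 := mul_le_mul_of_nonneg_left h2 h12.le
    nlinarith

end NU3

/-- NU3 -/
theorem t_NU3 (h : S_NU2) : S_NU3 := by
  intro b p j u hb hp hu
  set s : ℝ := Real.sqrt p with hs
  have hsp : s ^ 2 = p := Real.sq_sqrt (by positivity)
  have hs0 : 0 ≤ s := Real.sqrt_nonneg _
  have hp2 : (2 : ℝ) ≤ p := by exact_mod_cast hp.two_le
  have hs1 : (1.41 : ℝ) ≤ s := by
    apply Real.le_sqrt_of_sq_le
    norm_num
    linarith
  have hpj : (p : ℝ) ^ j * Real.sqrt ((p : ℝ) ^ j) = s ^ (3 * j) := by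
    have h1 : (p : ℝ) ^ j = (s ^ j) ^ 2 := by
      rw [← hsp, ← pow_mul, ← pow_mul, mul_comm]
    rw [h1, Real.sqrt_sq (pow_nonneg hs0 _), ← pow_mul, ← pow_add]
    congr 1
    ring
  rw [hpj]
  refine ⟨NU3.main h hb hp hu (by linarith) hsp (by norm_num) (by linarith) ?_ j, fun hp25 => ?_⟩
  · have h1 : (2 : ℝ) ≤ s ^ 2 := by rw [hsp]; exact hp2
    have h2 : s ^ 3 = s ^ 2 * s := by ring
    rw [h2]
    nlinarith
  · have hp25' : (25 : ℝ) ≤ p := by exact_mod_cast hp25.le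
    have hs5 : (5 : ℝ) ≤ s := by
      apply Real.le_sqrt_of_sq_le
      norm_num
      linarith
    have := NU3.main h hb hp hu (s := s) (C := 1) (by linarith) hsp le_rfl (by linarith)
      (by nlinarith [sq_nonneg s]) j
    simpa using this

end Pool.Agent.H90Q
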