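import Pool.Agent.H90Q.Stm3

/-!
# Project H90Q, phase 2, piece NU4 (helper92)
-/

set_option autoImplicit false

namespace Pool.Agent.H90Q

/-- number of small primes dividing g -/
noncomputable def nu4sm (g : ℕ) : ℕ := ((Finset.range 26).filter (fun q => q.Prime ∧ q ∣ g)).card

lemma nu4_sm_le (g : ℕ) : nu4sm g ≤ 9 := by
  have h : (Finset.range 26).filter (fun q => q.Prime ∧ q ∣ g) ⊆
      (Finset.range 26).filter (fun q => q.Prime) := by
    intro q hq
    rw [Finset.mem_filter] at hq ⊢
    exact ⟨hq.1, hq.2.1⟩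
  refine (Finset.card_le_card h).trans ?_
  decide

theorem nu4_aux (h1 : S_NU1) (h3 : S_NU3) (b : ℕ) (u : ℤ) (hb : b = 2 ∨ b = 3) (g : ℕ) :
    0 < g → IsCoprime u (g : ℤ) → (nuB b g u : ℝ) ≤ 5 ^ (nu4sm g) * (g * Real.sqrt g) := by
  induction g using Nat.recOnPosPrimePosCoprime with
  | zero => intro h; exact absurd h (lt_irrefl _)
  | one =>
    intro _ _
    have e : nuB b 1 u ≤ 1 := by
      unfold nuB
      refine (Finset.card_filter_le _ _).trans ?_
      simp
    have e1 : (nuB b 1 u : ℝ) ≤ 1 := by exact_mod_cast e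
    refine e1.trans ?_
    have e2 : (1 : ℝ) ≤ 5 ^ nu4sm 1 := one_le_pow₀ (by norm_num)
    simpa using e2
  | prime_pow p j hp hj =>
    intro _ hc
    have hpu : ¬ (p : ℤ) ∣ u := by
      intro hd
      have h4 : IsCoprime u (p : ℤ) := by
        have : ((p ^ j : ℕ) : ℤ) = (p : ℤ) ^ j := by push_cast; rfl
        rw [this] at hc
        exact (IsCoprime.pow_right_iff hj).1 hc
      have h5 : IsUnit (p : ℤ) := h4.isUnit_of_dvd' hd dvd_rfl
      exact (Nat.prime_iff_prime_int.1 hp).not_isUnit h5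
    obtain ⟨ha, hb'⟩ := h3 b p j u hb hp hpu
    push_cast
    have hnn : 0 ≤ (p:ℝ) ^ j * Real.sqrt ((p:ℝ) ^ j) := by positivity
    by_cases h25 : 25 < p
    · refine (hb' h25).trans ?_
      have : (1:ℝ) ≤ 5 ^ nu4sm (p ^ j) := one_le_pow₀ (by norm_num)
      nlinarith
    · have hs : 1 ≤ nu4sm (p ^ j) := by
        unfold nu4sm
        rw [Nat.one_le_iff_ne_zero, Finset.card_ne_zero]
        exact ⟨p, Finset.mem_filter.2 ⟨Finset.mem_range.2 (by omega), hp, dvd_pow_self p (by omega)⟩⟩
      refine ha.trans ?_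
      have : (5:ℝ) ≤ 5 ^ nu4sm (p ^ j) := by
        calc (5:ℝ) = 5 ^ 1 := by norm_num
          _ ≤ 5 ^ nu4sm (p ^ j) := pow_le_pow_right₀ (by norm_num) hs
      nlinarith
  | coprime a c ha hc hac iha ihc =>
    intro _ hu
    have hu' : IsCoprime u ((a : ℤ) * (c : ℤ)) := by simpa using hu
    have hua : IsCoprime u (a : ℤ) := hu'.of_mul_right_left
    have huc : IsCoprime u (c : ℤ) := hu'.of_mul_right_right
    have h4 := iha (by omega) hua
    have h5 := ihc (by omega) huc
    have h6 : (nuB b (a * c) u : ℝ) ≤ (nuB b a u : ℝ) * nuB b c u := by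
      exact_mod_cast h1 b a c u (by omega) (by omega) hac
    have h7 : nu4sm (a * c) = nu4sm a + nu4sm c := by
      unfold nu4sm
      rw [← Finset.card_union_of_disjoint]
      · congr 1
        ext q
        simp only [Finset.mem_filter, Finset.mem_union]
        constructor
        · rintro ⟨hq, hp, hd⟩
          rcases (hp.dvd_mul).1 hd with h | h
          · exact Or.inl ⟨hq, hp, h⟩
          · exact Or.inr ⟨hq, hp, h⟩
        · rintro (⟨hq, hp, hd⟩ | ⟨hq, hp, hd⟩)
          · exact ⟨hq, hp, hd.mul_right _⟩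
          · exact ⟨hq, hp, hd.mul_left _⟩
      · rw [Finset.disjoint_left]
        intro q hq hq'
        rw [Finset.mem_filter] at hq hq'
        exact hq.2.1.one_lt.ne' (Nat.Coprime.eq_one_of_dvd
          (Nat.Coprime.coprime_dvd_left hq.2.2 hac) hq'.2.2)
    refine h6.trans ?_
    rw [h7, pow_add]
    push_cast
    rw [Real.sqrt_mul (by positivity)]
    calc (nuB b a u : ℝ) * nuB b c u
        ≤ (5 ^ nu4sm a * (a * Real.sqrt a)) * (5 ^ nu4sm c * (c * Real.sqrt c)) := by
          apply mul_le_mul h4 h5 (by positivity) (by positivity)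
      _ = _ := by ring

theorem t_NU4 (h1 : S_NU1) (h3 : S_NU3) : S_NU4 := by
  intro b g u hb hg hu
  have h := nu4_aux h1 h3 b u hb g hg hu
  refine ⟨h.trans ?_, fun hq => h.trans ?_⟩
  · apply mul_le_mul_of_nonneg_right _ (by positivity)
    exact pow_le_pow_right₀ (by norm_num) (nu4_sm_le g)
  · have h0 : nu4sm g = 0 := by
      unfold nu4sm
      rw [Finset.card_eq_zero, Finset.filter_eq_empty_iff]
      rintro q hq' ⟨hp, hd⟩
      exact hq q hp (by have := Finset.mem_range.1 hq'; omega) hd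
    rw [h0, pow_zero, one_mul]


end Pool.Agent.H90Q
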