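import Pool.Agent.H90Q.PC1

/-! # Project H90Q, piece PC: the sum of `B² g₀ / μ` over the pairs with `|g| = g₀` -/

namespace Pool.Agent.H90Q

open Pool.Agent.Y716.Q

/-- the vector product -/
def PC_cr (x y : Fin 3 → ℤ) : Fin 3 → ℤ := ![mn x y 1 2, mn x y 2 0, mn x y 0 1]

theorem PC_cases (x y : Fin 3 → ℤ) (i j : Fin 3) :
    mn x y i j = 0 ∨ ∃ k, mn x y i j = PC_cr x y k ∨ mn x y i j = -PC_cr x y k := by
  fin_cases i <;> fin_cases j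
  · left; simp [mn]
  · right; exact ⟨2, Or.inl (by simp [PC_cr])⟩
  · right; exact ⟨1, Or.inr (by simp [PC_cr, mn])⟩
  · right; exact ⟨2, Or.inr (by simp [PC_cr, mn])⟩
  · left; simp [mn]
  · right; exact ⟨0, Or.inl (by simp [PC_cr])⟩
  · right; exact ⟨1, Or.inl (by simp [PC_cr])⟩
  · right; exact ⟨0, Or.inr (by simp [PC_cr, mn])⟩
  · left; simp [mn]

theorem PC_ex (x y : Fin 3 → ℤ) (k : Fin 3) : ∃ i j, PC_cr x y k = mn x y i j := by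
  fin_cases k
  · exact ⟨1, 2, by simp [PC_cr]⟩
  · exact ⟨2, 0, by simp [PC_cr]⟩
  · exact ⟨0, 1, by simp [PC_cr]⟩

theorem PC_orth (x y : Fin 3 → ℤ) : ∑ i, x i * PC_cr x y i = 0 := by
  simp only [Fin.sum_univ_three, PC_cr, mn, Matrix.cons_val_zero, Matrix.cons_val_one,
    Matrix.cons_val]
  ring

theorem PC_mn_eq {x y y' : Fin 3 → ℤ} (h : PC_cr x y = PC_cr x y') (i j : Fin 3) :
    mn x y i j = mn x y' i j := by
  have h0 := congrFun h 0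
  have h1 := congrFun h 1
  have h2 := congrFun h 2
  simp only [PC_cr, mn, Matrix.cons_val_zero, Matrix.cons_val_one, Matrix.cons_val] at h0 h1 h2 ⊢
  fin_cases i <;> fin_cases j <;> simp only [Fin.zero_eta, Fin.mk_one, Fin.reduceFinMk] <;> linarith

/-- the primitive vector of a pair -/
def PC_z (g₀ : ℕ) (p : (Fin 3 → ℤ) × (Fin 3 → ℤ)) : Fin 3 → ℤ :=
  fun k => PC_cr p.1 p.2 k / (g₀ : ℤ)

theorem PC_data {B Z : ℝ} {g₀ : ℕ} (hB : 1 ≤ B) (hg₀ : 1 ≤ g₀) {p : (Fin 3 → ℤ) × (Fin 3 → ℤ)}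
    {g : ℤ} {μ : ℝ} (hG : GDat B p g μ) (hg : g.natAbs = g₀) (hμ : μ ≤ g₀ * Z) :
    (∀ k, PC_cr p.1 p.2 k = g₀ * PC_z g₀ p k) ∧ Prim (PC_z g₀ p) ∧
      μ = g₀ * (PC1_N (PC_z g₀ p) : ℝ) ∧ 1 ≤ PC1_N (PC_z g₀ p) ∧
      (PC1_N (PC_z g₀ p) : ℝ) ≤ Z ∧ (PC1_N (PC_z g₀ p) : ℝ) ≤ 2 * B ^ 2 ∧
      ∑ i, p.1 i * PC_z g₀ p i = 0 := by
  obtain ⟨hs1, hs2, hp1, hp2, hg0, hgd, hgm, hμ0, ⟨i₁, j₁, hi₁⟩, hle⟩ := hG
  have hg₀Z : (0:ℤ) < g₀ := by exact_mod_cast hg₀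
  have hg₀R : (0:ℝ) < g₀ := by exact_mod_cast hg₀
  have hdvd : ∀ k, (g₀ : ℤ) ∣ PC_cr p.1 p.2 k := by
    intro k
    obtain ⟨i, j, hij⟩ := PC_ex p.1 p.2 k
    rw [hij, ← hg]
    exact Int.natAbs_dvd.2 (hgd i j)
  have ha : ∀ k, PC_cr p.1 p.2 k = g₀ * PC_z g₀ p k := fun k =>
    (Int.mul_ediv_cancel' (hdvd k)).symm
  have hprim : Prim (PC_z g₀ p) := by
    intro D hD
    have h1 : ∀ i j, (g₀ : ℤ) * D ∣ mn p.1 p.2 i j := by
      intro i j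
      rcases PC_cases p.1 p.2 i j with h | ⟨k, h | h⟩
      · rw [h]; exact dvd_zero _
      · rw [h, ha k]; exact mul_dvd_mul_left _ (hD k)
      · rw [h, ha k]; exact (mul_dvd_mul_left _ (hD k)).neg_right
    have h2 := hgm _ h1
    have h3 : (g₀ : ℤ) * D ∣ g₀ := by
      rw [← hg] at h2 ⊢
      exact Int.dvd_natAbs.2 h2
    have h4 : (g₀ : ℤ) * D ∣ g₀ * 1 := by rwa [mul_one]
    exact isUnit_of_dvd_one ((mul_dvd_mul_iff_left hg₀Z.ne').1 h4)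
  have hcr : ∀ k, |(PC_cr p.1 p.2 k : ℝ)| = g₀ * |(PC_z g₀ p k : ℝ)| := by
    intro k
    rw [ha k]
    push_cast
    rw [abs_mul, abs_of_pos hg₀R]
  have hN1 : μ ≤ g₀ * (PC1_N (PC_z g₀ p) : ℝ) := by
    have hk : ∀ k, |(PC_cr p.1 p.2 k : ℝ)| ≤ g₀ * (PC1_N (PC_z g₀ p) : ℝ) := by
      intro k
      rw [hcr k]
      refine mul_le_mul_of_nonneg_left ?_ hg₀R.le
      exact_mod_cast PC1_le (PC_z g₀ p) k
    rcases PC_cases p.1 p.2 i₁ j₁ with h | ⟨k, h | h⟩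
    · rw [h] at hi₁
      simp only [Int.cast_zero, abs_zero] at hi₁
      linarith
    · rw [h] at hi₁; exact le_trans hi₁ (hk k)
    · rw [h] at hi₁
      push_cast at hi₁
      rw [abs_neg] at hi₁
      exact le_trans hi₁ (hk k)
  obtain ⟨k₀, hk₀⟩ := PC1_eq (PC_z g₀ p)
  have hk₀R : |(PC_z g₀ p k₀ : ℝ)| = (PC1_N (PC_z g₀ p) : ℝ) := by exact_mod_cast hk₀
  obtain ⟨i₂, j₂, h₂⟩ := PC_ex p.1 p.2 k₀
  have hN2 : (g₀ : ℝ) * (PC1_N (PC_z g₀ p) : ℝ) ≤ μ := by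
    rw [← hk₀R, ← hcr k₀, h₂]
    exact hle i₂ j₂
  have hμe : μ = g₀ * (PC1_N (PC_z g₀ p) : ℝ) := le_antisymm hN1 hN2
  have hmnB : |(mn p.1 p.2 i₂ j₂ : ℝ)| ≤ 2 * B ^ 2 := by
    have a1 := hs1.1 i₂
    have a2 := hs1.1 j₂
    have a3 := hs2.1 i₂
    have a4 := hs2.1 j₂
    simp only [mn]
    push_cast
    have b1 : |(p.1 i₂ : ℝ) * p.2 j₂| ≤ B * B := by
      rw [abs_mul]; exact mul_le_mul a1 a4 (abs_nonneg _) (by linarith)
    have b2 : |(p.1 j₂ : ℝ) * p.2 i₂| ≤ B * B := by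
      rw [abs_mul]; exact mul_le_mul a2 a3 (abs_nonneg _) (by linarith)
    calc |(p.1 i₂ : ℝ) * p.2 j₂ - p.1 j₂ * p.2 i₂| ≤ |(p.1 i₂ : ℝ) * p.2 j₂| +
          |(p.1 j₂ : ℝ) * p.2 i₂| := abs_sub _ _
      _ ≤ 2 * B ^ 2 := by nlinarith
  refine ⟨ha, hprim, hμe, ?_, ?_, ?_, ?_⟩
  · by_contra hc
    have : PC1_N (PC_z g₀ p) = 0 := by omega
    rw [this] at hμe
    simp only [Nat.cast_zero, mul_zero] at hμe
    linarith
  · rw [hμe] at hμ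
    exact le_of_mul_le_mul_left hμ hg₀R
  · rw [← hk₀R]
    have h5 : |(PC_z g₀ p k₀ : ℝ)| ≤ g₀ * |(PC_z g₀ p k₀ : ℝ)| := by
      have : (1:ℝ) ≤ g₀ := by exact_mod_cast hg₀
      exact le_mul_of_one_le_left (abs_nonneg _) this
    rw [← hcr k₀, h₂] at h5
    exact le_trans h5 hmnB
  · have h6 := PC_orth p.1 p.2
    have h7 : (g₀ : ℤ) * ∑ i, p.1 i * PC_z g₀ p i = 0 := by
      rw [Finset.mul_sum, ← h6]
      refine Finset.sum_congr rfl (fun i _ => ?_)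
      rw [ha i]; ring
    rcases mul_eq_zero.1 h7 with h | h
    · exact absurd h hg₀Z.ne'
    · exact h

theorem t_PC (h1 : S_PC1) (h2 : S_PC2) (h3 : S_PC3) : S_PC := by
  refine ⟨162 * 54, by norm_num, ?_⟩
  intro B Z g₀ hB hZ hg₀ Q g μ hQ
  classical
  have hD := fun p (hp : p ∈ Q) => PC_data hB hg₀ (hQ p hp).1 (hQ p hp).2.1 (hQ p hp).2.2
  have hg₀R : (0:ℝ) < g₀ := by exact_mod_cast hg₀
  have hfib : ∀ c ∈ Q.image (PC_z g₀), ∑ p ∈ Q.filter (fun p => PC_z g₀ p = c), B ^ 2 * g₀ / μ p ≤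
      162 * B ^ 4 * (1 / (PC1_N c : ℝ) ^ 2) := by
    intro c hc
    obtain ⟨p₀, hp₀, rfl⟩ := Finset.mem_image.1 hc
    obtain ⟨-, hpr, -, hN1, hNZ, hNB, -⟩ := hD p₀ hp₀
    set c := PC_z g₀ p₀ with hcdef
    set F := Q.filter (fun p => PC_z g₀ p = c) with hF
    have hNR : (0:ℝ) < PC1_N c := by exact_mod_cast hN1
    have hval : ∀ p ∈ F, B ^ 2 * g₀ / μ p = B ^ 2 / PC1_N c := by
      intro p hp
      rw [hF, Finset.mem_filter] at hp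
      obtain ⟨-, -, hμe, -⟩ := hD p hp.1
      rw [hμe, hp.2]
      field_simp
    rw [Finset.sum_congr rfl hval, Finset.sum_const, nsmul_eq_mul]
    have hcard1 : ((F.image Prod.fst).card : ℝ) ≤ 12 * B ^ 2 / PC1_N c + 3 := by
      obtain ⟨k, hk⟩ := PC1_eq c
      refine h1 c B (PC1_N c) hpr hB hNR ⟨k, ?_⟩ _ ?_
      · have : |(c k : ℝ)| = (PC1_N c : ℝ) := by exact_mod_cast hk
        exact this.ge
      · intro x hx
        obtain ⟨p, hp, rfl⟩ := Finset.mem_image.1 hx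
        rw [hF, Finset.mem_filter] at hp
        obtain ⟨-, -, -, -, -, -, ho⟩ := hD p hp.1
        rw [hp.2] at ho
        exact ⟨(hQ p hp.1).1.2.2.1, (hQ p hp.1).1.1.1, ho⟩
    have hcard2 : F.card ≤ 9 * (F.image Prod.fst).card := by
      refine Finset.card_le_mul_card_image (s := F) (f := Prod.fst) 9 ?_
      intro x hx
      obtain ⟨p₁, hp₁, rfl⟩ := Finset.mem_image.1 hx
      have hinj : Set.InjOn (Prod.snd : (Fin 3 → ℤ) × (Fin 3 → ℤ) → Fin 3 → ℤ)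
          (F.filter (fun p => p.1 = p₁.1)) := by
        intro p hp q hq hpq
        rw [Finset.mem_coe, Finset.mem_filter] at hp hq
        exact Prod.ext (hp.2.trans hq.2.symm) hpq
      rw [← Finset.card_image_of_injOn hinj]
      have hp₁Q : p₁ ∈ Q := (Finset.mem_filter.1 hp₁).1
      have hp₁z : PC_z g₀ p₁ = c := (Finset.mem_filter.1 hp₁).2
      refine h2 p₁.1 p₁.2 B (hQ p₁ hp₁Q).1.2.2.1 (hQ p₁ hp₁Q).1.1 hB _ ?_
      intro y hy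
      obtain ⟨p, hp, rfl⟩ := Finset.mem_image.1 hy
      rw [Finset.mem_filter] at hp
      have hpQ : p ∈ Q := (Finset.mem_filter.1 hp.1).1
      have hpz : PC_z g₀ p = c := (Finset.mem_filter.1 hp.1).2
      refine ⟨(hQ p hpQ).1.2.1.1, PC_mn_eq ?_⟩
      funext k
      have e1 := (hD p hpQ).1 k
      have e2 := (hD p₁ hp₁Q).1 k
      rw [hpz] at e1
      rw [hp₁z] at e2
      rw [hp.2] at e1
      rw [e1, e2]
    have hF' : (F.card : ℝ) ≤ 162 * B ^ 2 / PC1_N c := by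
      calc (F.card : ℝ) ≤ 9 * ((F.image Prod.fst).card : ℝ) := by exact_mod_cast hcard2
        _ ≤ 9 * (12 * B ^ 2 / PC1_N c + 3) := by linarith
        _ ≤ 9 * (12 * B ^ 2 / PC1_N c + 3 * (2 * B ^ 2 / PC1_N c)) := by
            have : 1 ≤ 2 * B ^ 2 / PC1_N c := by rwa [one_le_div hNR]
            linarith
        _ = 162 * B ^ 2 / PC1_N c := by ring
    calc (F.card : ℝ) * (B ^ 2 / PC1_N c) ≤ 162 * B ^ 2 / PC1_N c * (B ^ 2 / PC1_N c) :=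
          mul_le_mul_of_nonneg_right hF' (by positivity)
      _ = 162 * B ^ 4 * (1 / (PC1_N c : ℝ) ^ 2) := by field_simp
  have hsum : ∑ c ∈ Q.image (PC_z g₀), 1 / (PC1_N c : ℝ) ^ 2 ≤ 54 * Z := by
    refine h3 Z _ PC1_N hZ ?_
    intro c hc
    obtain ⟨p₀, hp₀, rfl⟩ := Finset.mem_image.1 hc
    obtain ⟨-, hpr, -, hN1, hNZ, hNB, -⟩ := hD p₀ hp₀
    exact ⟨hN1, hNZ, PC1_le _, PC1_eq _⟩
  calc ∑ p ∈ Q, B ^ 2 * g₀ / μ p
      = ∑ c ∈ Q.image (PC_z g₀), ∑ p ∈ Q.filter (fun p => PC_z g₀ p = c), B ^ 2 * g₀ / μ p :=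
        (Finset.sum_fiberwise_of_maps_to (fun p hp => Finset.mem_image_of_mem _ hp) _).symm
    _ ≤ ∑ c ∈ Q.image (PC_z g₀), 162 * B ^ 4 * (1 / (PC1_N c : ℝ) ^ 2) := Finset.sum_le_sum hfib
    _ = 162 * B ^ 4 * ∑ c ∈ Q.image (PC_z g₀), 1 / (PC1_N c : ℝ) ^ 2 := by rw [Finset.mul_sum]
    _ ≤ 162 * B ^ 4 * (54 * Z) := mul_le_mul_of_nonneg_left hsum (by positivity)
    _ = 162 * 54 * B ^ 4 * Z := by ring

end Pool.Agent.H90Q
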