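import Pool.Agent.H90Q.PC2

/-! # Project H90Q, piece PC1: primitive vectors in a plane -/

namespace Pool.Agent.H90Q

open Pool.Agent.Y716.Q

/-- the coefficient of the vector product of `x₁` and `x` along `z` -/
def PC1_c (w x₁ x : Fin 3 → ℤ) : ℤ :=
  w 0 * mn x₁ x 1 2 + w 1 * mn x₁ x 2 0 + w 2 * mn x₁ x 0 1

theorem PC1_cross {z w x₁ x : Fin 3 → ℤ} (hw : ∑ i, w i * z i = 1)
    (h1 : ∑ i, x₁ i * z i = 0) (h2 : ∑ i, x i * z i = 0) :
    mn x₁ x 1 2 = PC1_c w x₁ x * z 0 ∧ mn x₁ x 2 0 = PC1_c w x₁ x * z 1 ∧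
      mn x₁ x 0 1 = PC1_c w x₁ x * z 2 := by
  simp only [Fin.sum_univ_three] at hw h1 h2
  simp only [PC1_c, mn]
  have e0 : z 1 * (x₁ 0 * x 1 - x₁ 1 * x 0) = z 2 * (x₁ 2 * x 0 - x₁ 0 * x 2) := by
    linear_combination x₁ 0 * h2 - x 0 * h1
  have e1 : z 2 * (x₁ 1 * x 2 - x₁ 2 * x 1) = z 0 * (x₁ 0 * x 1 - x₁ 1 * x 0) := by
    linear_combination x₁ 1 * h2 - x 1 * h1
  have e2 : z 0 * (x₁ 2 * x 0 - x₁ 0 * x 2) = z 1 * (x₁ 1 * x 2 - x₁ 2 * x 1) := by
    linear_combination x₁ 2 * h2 - x 2 * h1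
  refine ⟨?_, ?_, ?_⟩
  · linear_combination (-(x₁ 1 * x 2 - x₁ 2 * x 1)) * hw - w 1 * e2 + w 2 * e1
  · linear_combination (-(x₁ 2 * x 0 - x₁ 0 * x 2)) * hw + w 0 * e2 - w 2 * e0
  · linear_combination (-(x₁ 0 * x 1 - x₁ 1 * x 0)) * hw - w 0 * e1 + w 1 * e0

/-- the minors are determined by `PC1_c` -/
theorem PC1_mn {z w x₁ x x' : Fin 3 → ℤ} (hw : ∑ i, w i * z i = 1)
    (h1 : ∑ i, x₁ i * z i = 0) (h2 : ∑ i, x i * z i = 0) (h3 : ∑ i, x' i * z i = 0)
    (hc : PC1_c w x₁ x = PC1_c w x₁ x') (i j : Fin 3) : mn x₁ x i j = mn x₁ x' i j := by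
  obtain ⟨a0, a1, a2⟩ := PC1_cross hw h1 h2
  obtain ⟨b0, b1, b2⟩ := PC1_cross hw h1 h3
  rw [hc] at a0 a1 a2
  have c0 := a0.trans b0.symm
  have c1 := a1.trans b1.symm
  have c2 := a2.trans b2.symm
  simp only [mn] at c0 c1 c2 ⊢
  fin_cases i <;> fin_cases j <;> simp only [Fin.zero_eta, Fin.mk_one, Fin.reduceFinMk] <;> linarith

/-- the norm of a vector -/
def PC1_N (x : Fin 3 → ℤ) : ℕ := Finset.univ.sup fun i => (x i).natAbs

theorem PC1_le (x : Fin 3 → ℤ) (i : Fin 3) : |x i| ≤ (PC1_N x : ℤ) := by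
  rw [Int.abs_eq_natAbs]
  exact_mod_cast Finset.le_sup (f := fun i => (x i).natAbs) (Finset.mem_univ i)

theorem PC1_eq (x : Fin 3 → ℤ) : ∃ i, |x i| = (PC1_N x : ℤ) := by
  obtain ⟨i, _, hi⟩ := Finset.exists_mem_eq_sup (Finset.univ : Finset (Fin 3)) ⟨0, Finset.mem_univ _⟩
    (fun i => (x i).natAbs)
  refine ⟨i, ?_⟩
  rw [Int.abs_eq_natAbs, PC1_N, hi]

theorem t_PC1 : S_PC1 := by
  intro z B m hpz hB hm hzm S hS
  rcases S.eq_empty_or_nonempty with h0 | h0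
  · rw [h0, Finset.card_empty]
    have : 0 ≤ 12 * B ^ 2 / m := by positivity
    push_cast
    linarith
  obtain ⟨w, hw⟩ := hpz.bezout
  obtain ⟨x₁, hx₁, hmax⟩ := Finset.exists_max_image S PC1_N h0
  set R : ℕ := PC1_N x₁ with hR
  obtain ⟨r, hr⟩ := PC1_eq x₁
  rw [← hR] at hr
  obtain ⟨hp₁, hb₁, ho₁⟩ := hS x₁ hx₁
  have hR0 : 0 < R := by
    rcases Nat.eq_zero_or_pos R with h | h
    · exfalso
      have : ∀ i, x₁ i = 0 := by
        intro i
        have := PC1_le x₁ i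
        rw [← hR, h] at this
        exact abs_nonpos_iff.1 (by simpa using this)
      have h2 := hp₁ 0 (fun i => by rw [this i])
      exact not_isUnit_zero h2
    · exact h
  have hRB : (R : ℝ) ≤ B := by
    have := hb₁ r
    have h2 : |(x₁ r : ℝ)| = (R : ℝ) := by exact_mod_cast hr
    rwa [h2] at this
  have hle : ∀ x ∈ S, ∀ i, |x i| ≤ (R : ℤ) := by
    intro x hx i
    exact le_trans (PC1_le x i) (by exact_mod_cast hmax x hx)
  obtain ⟨iz, hiz⟩ := hzm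
  -- the bound for the coefficients
  have hcb : ∀ x ∈ S, |(PC1_c w x₁ x : ℝ)| ≤ 2 * B ^ 2 / m := by
    intro x hx
    have hmn : ∀ i j, |(mn x₁ x i j : ℝ)| ≤ 2 * B ^ 2 := by
      intro i j
      have a1 := (hS x₁ hx₁).2.1 i
      have a2 := (hS x₁ hx₁).2.1 j
      have a3 := (hS x hx).2.1 i
      have a4 := (hS x hx).2.1 j
      simp only [mn]
      push_cast
      have b1 : |(x₁ i : ℝ) * x j| ≤ B * B := by
        rw [abs_mul]; exact mul_le_mul a1 a4 (abs_nonneg _) (by linarith)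
      have b2 : |(x₁ j : ℝ) * x i| ≤ B * B := by
        rw [abs_mul]; exact mul_le_mul a2 a3 (abs_nonneg _) (by linarith)
      calc |(x₁ i : ℝ) * x j - x₁ j * x i| ≤ |(x₁ i : ℝ) * x j| + |(x₁ j : ℝ) * x i| := abs_sub _ _
        _ ≤ 2 * B ^ 2 := by nlinarith
    obtain ⟨a0, a1, a2⟩ := PC1_cross hw ho₁ (hS x hx).2.2
    have hz : |(PC1_c w x₁ x : ℝ)| * |(z iz : ℝ)| ≤ 2 * B ^ 2 := by
      rw [← abs_mul]
      have : ∃ i j, (PC1_c w x₁ x : ℝ) * z iz = (mn x₁ x i j : ℝ) := by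
        fin_cases iz
        · exact ⟨1, 2, by exact_mod_cast a0.symm⟩
        · exact ⟨2, 0, by exact_mod_cast a1.symm⟩
        · exact ⟨0, 1, by exact_mod_cast a2.symm⟩
      obtain ⟨i, j, hij⟩ := this
      rw [hij]
      exact hmn i j
    rw [le_div_iff₀ hm]
    exact le_trans (mul_le_mul_of_nonneg_left hiz (abs_nonneg _)) hz
  -- the image
  have himg : ((S.image (PC1_c w x₁)).card : ℝ) ≤ 4 * B ^ 2 / m + 1 := by
    set q : ℤ := ⌊2 * B ^ 2 / m⌋ with hq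
    have hq0 : 0 ≤ q := Int.floor_nonneg.2 (by positivity)
    have hsub : S.image (PC1_c w x₁) ⊆ Finset.Icc (-q) q := by
      intro c hc
      obtain ⟨x, hx, rfl⟩ := Finset.mem_image.1 hc
      have := abs_le.1 (hcb x hx)
      rw [Finset.mem_Icc]
      have h2 : PC1_c w x₁ x ≤ q := Int.le_floor.2 this.2
      have h3 : -PC1_c w x₁ x ≤ q := Int.le_floor.2 (by push_cast; linarith [this.1])
      exact ⟨by linarith, h2⟩
    have h1 := Finset.card_le_card hsub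
    rw [Int.card_Icc] at h1
    have h2 : ((q + 1 - -q).toNat : ℤ) = 2 * q + 1 := by
      rw [Int.toNat_of_nonneg (by linarith)]; ring
    have h3 : (((q + 1 - -q).toNat : ℕ) : ℝ) = 2 * q + 1 := by exact_mod_cast h2
    have h4 : (q : ℝ) ≤ 2 * B ^ 2 / m := Int.floor_le _
    calc ((S.image (PC1_c w x₁)).card : ℝ) ≤ (((q + 1 - -q).toNat : ℕ) : ℝ) := by exact_mod_cast h1
      _ = 2 * q + 1 := h3
      _ ≤ 2 * (2 * B ^ 2 / m) + 1 := by linarith
      _ = 4 * B ^ 2 / m + 1 := by ring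
  -- the fibres
  have hfib : ∀ c ∈ S.image (PC1_c w x₁), (S.filter (fun x => PC1_c w x₁ x = c)).card ≤ 3 := by
    intro c _
    obtain ⟨w₁, hw₁⟩ := hp₁.bezout
    have hline : ∀ x ∈ S.filter (fun x => PC1_c w x₁ x = c),
        ∀ x' ∈ S.filter (fun x => PC1_c w x₁ x = c), ∀ k,
        x k - x' k = ((∑ i, w₁ i * x i) - ∑ i, w₁ i * x' i) * x₁ k := by
      intro x hx x' hx' k
      rw [Finset.mem_filter] at hx hx'
      exact PC2_line hw₁ (PC1_mn hw ho₁ (hS x hx.1).2.2 (hS x' hx'.1).2.2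
        (hx.2.trans hx'.2.symm)) k
    have hinj : Set.InjOn (fun y : Fin 3 → ℤ => ∑ i, w₁ i * y i)
        (S.filter (fun x => PC1_c w x₁ x = c)) := by
      intro y hy y' hy' h
      funext k
      have := hline y hy y' hy' k
      simp only [] at h
      rw [h] at this
      simp only [sub_self, zero_mul] at this
      linarith
    rw [← Finset.card_image_of_injOn hinj]
    refine PC2_diam _ 2 ?_
    intro u hu v hv
    obtain ⟨y, hy, rfl⟩ := Finset.mem_image.1 hu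
    obtain ⟨y', hy', rfl⟩ := Finset.mem_image.1 hv
    have h1 := hline y hy y' hy' r
    change (∑ i, w₁ i * y i) - (∑ i, w₁ i * y' i) ≤ ((2:ℕ):ℤ)
    set t : ℤ := (∑ i, w₁ i * y i) - ∑ i, w₁ i * y' i with ht
    have e1 := abs_le.1 (hle y (Finset.mem_filter.1 hy).1 r)
    have e2 := abs_le.1 (hle y' (Finset.mem_filter.1 hy').1 r)
    have h2 : |y r - y' r| ≤ 2 * (R : ℤ) := by
      rw [abs_le]
      constructor <;> linarith [e1.1, e1.2, e2.1, e2.2]
    rw [h1, abs_mul, hr] at h2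
    have h3 : |t| ≤ 2 := by
      have : (0:ℤ) < R := by exact_mod_cast hR0
      exact le_of_mul_le_mul_right h2 this
    exact le_trans (le_abs_self _) h3
  have hcard := Finset.card_le_mul_card_image (s := S) (f := PC1_c w x₁) 3 (fun c hc => hfib c hc)
  calc (S.card : ℝ) ≤ 3 * ((S.image (PC1_c w x₁)).card : ℝ) := by exact_mod_cast hcard
    _ ≤ 3 * (4 * B ^ 2 / m + 1) := by linarith
    _ = 12 * B ^ 2 / m + 3 := by ring

end Pool.Agent.H90Q
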