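import Pool.Agent.H90Q.Stm3

/-! # Project H90Q, piece PC2: pairs with given minors -/

namespace Pool.Agent.H90Q

open Pool.Agent.Y716.Q

/-- a finite set of integers of diameter at most `n` has at most `n + 1` elements -/
theorem PC2_diam (U : Finset ℤ) (n : ℕ) (h : ∀ u ∈ U, ∀ v ∈ U, u - v ≤ n) : U.card ≤ n + 1 := by
  rcases U.eq_empty_or_nonempty with h0 | h0
  · simp [h0]
  · have hsub : U ⊆ Finset.Icc (U.min' h0) (U.min' h0 + n) := by
      intro u hu
      rw [Finset.mem_Icc]
      refine ⟨Finset.min'_le _ _ hu, ?_⟩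
      have := h u hu _ (Finset.min'_mem U h0)
      omega
    have := Finset.card_le_card hsub
    rw [Int.card_Icc] at this
    have h2 : (U.min' h0 + (n:ℤ) + 1 - U.min' h0).toNat = n + 1 := by
      have : U.min' h0 + (n:ℤ) + 1 - U.min' h0 = ((n + 1 : ℕ) : ℤ) := by push_cast; ring
      rw [this]; simp
    omega

/-- vectors with the same minors against a primitive vector differ by multiples of it -/
theorem PC2_line {x y y' w : Fin 3 → ℤ} (hw : ∑ i, w i * x i = 1)
    (h : ∀ i j, mn x y i j = mn x y' i j) (k : Fin 3) :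
    y k - y' k = ((∑ i, w i * y i) - ∑ i, w i * y' i) * x k := by
  have h1 := eq_smul_of_minors (x := x) (y := fun i => y i - y' i) (w := w) hw (by
    intro i j
    have := h i j
    simp only [mn] at this ⊢
    linarith) k
  rw [h1]
  congr 1
  rw [← Finset.sum_sub_distrib]
  exact Finset.sum_congr rfl (fun i _ => by ring)

theorem t_PC2 : S_PC2 := by
  intro x y₀ B hpx hx hB S hS
  obtain ⟨w, hw⟩ := hpx.bezout
  obtain ⟨r, hr⟩ := hx.2
  have hinj : Set.InjOn (fun y : Fin 3 → ℤ => ∑ i, w i * y i) S := by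
    intro y hy y' hy' h
    funext k
    have := PC2_line hw (fun i j => ((hS y hy).2 i j).trans ((hS y' hy').2 i j).symm) k
    simp only [] at h
    rw [h] at this
    simp only [sub_self, zero_mul] at this
    linarith
  rw [← Finset.card_image_of_injOn hinj]
  refine PC2_diam _ 8 ?_
  intro u hu v hv
  obtain ⟨y, hy, rfl⟩ := Finset.mem_image.1 hu
  obtain ⟨y', hy', rfl⟩ := Finset.mem_image.1 hv
  have h1 := PC2_line hw (fun i j => ((hS y hy).2 i j).trans ((hS y' hy').2 i j).symm) r
  change (∑ i, w i * y i) - (∑ i, w i * y' i) ≤ ((8:ℕ):ℤ)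
  set t : ℤ := (∑ i, w i * y i) - ∑ i, w i * y' i with ht
  have h2 : |(y r : ℝ) - y' r| ≤ 2 * B := by
    have e1 := abs_le.1 ((hS y hy).1 r)
    have e2 := abs_le.1 ((hS y' hy').1 r)
    rw [abs_le]
    constructor <;> linarith [e1.1, e1.2, e2.1, e2.2]
  have h3 : |(t : ℝ)| * |(x r : ℝ)| ≤ 2 * B := by
    rw [← abs_mul]
    have : ((t : ℝ)) * (x r : ℝ) = (y r : ℝ) - y' r := by exact_mod_cast h1.symm
    rw [this]; exact h2
  have h4 : |(t : ℝ)| * (B / 4) ≤ 2 * B := le_trans (mul_le_mul_of_nonneg_left hr (abs_nonneg _)) h3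
  have h5 : |(t : ℝ)| ≤ 8 := by
    by_contra hc
    rw [not_le] at hc
    nlinarith
  have h6 : (t : ℝ) ≤ 8 := le_trans (le_abs_self _) h5
  exact_mod_cast h6

end Pool.Agent.H90Q
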