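import Pool.Agent.H90Q.Stm3

/-!
# H90Q, phase 2, piece PC3: the sum of `1 / |z|²` over vectors of `ℤ³` of norm at most `Z`
-/

namespace Pool.Agent.H90Q

open Pool.Agent.Y716.Q

/-- the vector with the coordinate `s` at `i`, and `a`, `b` at `i + 1`, `i + 2` -/
private def vecAt (q : Fin 3 × ℤ × ℤ × ℤ) : Fin 3 → ℤ :=
  fun j => if j = q.1 then q.2.1 else if j = q.1 + 1 then q.2.2.1 else q.2.2.2

private theorem vecAt_eq (z : Fin 3 → ℤ) (i : Fin 3) :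
    vecAt (i, z i, z (i + 1), z (i + 2)) = z := by
  funext j
  fin_cases i <;> fin_cases j <;> simp [vecAt]

/-- at most `54 r²` vectors have norm `r` -/
private theorem card_norm (S : Finset (Fin 3 → ℤ)) (r : ℕ) (hr : 1 ≤ r)
    (hS : ∀ z ∈ S, (∀ i, |z i| ≤ (r : ℤ)) ∧ ∃ i, |z i| = (r : ℤ)) :
    S.card ≤ 54 * r ^ 2 := by
  classical
  let T : Finset (Fin 3 × ℤ × ℤ × ℤ) :=
    (Finset.univ : Finset (Fin 3)) ×ˢ (({(r : ℤ), -(r : ℤ)} : Finset ℤ) ×ˢ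
      ((Finset.Icc (-(r : ℤ)) r) ×ˢ (Finset.Icc (-(r : ℤ)) r)))
  have hsub : S ⊆ T.image vecAt := by
    intro z hz
    obtain ⟨h1, i, hi⟩ := hS z hz
    rw [Finset.mem_image]
    refine ⟨(i, z i, z (i + 1), z (i + 2)), ?_, vecAt_eq z i⟩
    simp only [T, Finset.mem_product, Finset.mem_univ, true_and, Finset.mem_insert,
      Finset.mem_singleton, Finset.mem_Icc]
    refine ⟨?_, ?_, ?_⟩
    · exact (abs_eq (by positivity)).1 hi
    · exact abs_le.1 (h1 _)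
    · exact abs_le.1 (h1 _)
  have hc1 : S.card ≤ T.card := (Finset.card_le_card hsub).trans Finset.card_image_le
  have hc2 : T.card ≤ 3 * (2 * ((2 * r + 1) * (2 * r + 1))) := by
    simp only [T, Finset.card_product, Finset.card_univ, Fintype.card_fin, Int.card_Icc]
    have h3 : ((r : ℤ) + 1 - -(r : ℤ)).toNat = 2 * r + 1 := by omega
    rw [h3]
    have h4 : ({(r : ℤ), -(r : ℤ)} : Finset ℤ).card ≤ 2 := Finset.card_le_two
    gcongr
  have h5 : 2 * r + 1 ≤ 3 * r := by omega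
  calc S.card ≤ 3 * (2 * ((2 * r + 1) * (2 * r + 1))) := hc1.trans hc2
    _ ≤ 3 * (2 * ((3 * r) * (3 * r))) := by gcongr
    _ = 54 * r ^ 2 := by ring

theorem t_PC3 : S_PC3 := by
  classical
  intro Z S m hZ hS
  have hmap : ∀ z ∈ S, m z ∈ Finset.Icc 1 ⌊Z⌋₊ := by
    intro z hz
    obtain ⟨h1, h2, _⟩ := hS z hz
    exact Finset.mem_Icc.2 ⟨h1, Nat.le_floor h2⟩
  rw [← Finset.sum_fiberwise_of_maps_to hmap]
  have hb : ∀ r ∈ Finset.Icc 1 ⌊Z⌋₊,
      ∑ z ∈ S.filter (fun z => m z = r), 1 / (m z : ℝ) ^ 2 ≤ 54 := by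
    intro r hr
    have hr1 : 1 ≤ r := (Finset.mem_Icc.1 hr).1
    have h1 : ∑ z ∈ S.filter (fun z => m z = r), 1 / (m z : ℝ) ^ 2 =
        ∑ z ∈ S.filter (fun z => m z = r), 1 / (r : ℝ) ^ 2 := by
      refine Finset.sum_congr rfl fun z hz => ?_
      rw [(Finset.mem_filter.1 hz).2]
    rw [h1, Finset.sum_const, nsmul_eq_mul]
    have h2 : (S.filter (fun z => m z = r)).card ≤ 54 * r ^ 2 := by
      refine card_norm _ r hr1 fun z hz => ?_
      obtain ⟨hz1, hz2⟩ := Finset.mem_filter.1 hz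
      obtain ⟨_, _, h3, h4⟩ := hS z hz1
      rw [hz2] at h3 h4
      exact ⟨h3, h4⟩
    have h3 : ((S.filter (fun z => m z = r)).card : ℝ) ≤ 54 * (r : ℝ) ^ 2 := by
      exact_mod_cast h2
    have h4 : (0 : ℝ) < (r : ℝ) ^ 2 := by
      have : (0 : ℝ) < r := by exact_mod_cast hr1
      positivity
    rw [mul_one_div, div_le_iff₀ h4]
    exact h3
  calc ∑ r ∈ Finset.Icc 1 ⌊Z⌋₊, ∑ z ∈ S.filter (fun z => m z = r), 1 / (m z : ℝ) ^ 2
      ≤ ∑ r ∈ Finset.Icc 1 ⌊Z⌋₊, (54 : ℝ) := Finset.sum_le_sum hb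
    _ = 54 * (⌊Z⌋₊ : ℝ) := by
        rw [Finset.sum_const, nsmul_eq_mul, Nat.card_Icc]
        simp [mul_comm]
    _ ≤ 54 * Z := by
        have := Nat.floor_le hZ.le
        linarith

end Pool.Agent.H90Q
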