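import Pool.Agent.H90Q.Stm3

/-!
# Project H90Q, phase 2, piece TLA: the sum over the pairs with a large greatest common divisor
-/

namespace Pool.Agent.H90Q

open Pool.Agent.Y716.Q

lemma tla_sum1 (M : ℕ) : ∑ n ∈ Finset.Icc 1 M, 1 / Real.sqrt n ≤ 2 * Real.sqrt M := by
  induction M with
  | zero => simp
  | succ M ih =>
    rw [Finset.sum_Icc_succ_top (by omega)]
    have hpos : 0 < Real.sqrt ((M + 1 : ℕ) : ℝ) := Real.sqrt_pos.2 (by positivity)
    have hle : Real.sqrt (M : ℝ) ≤ Real.sqrt ((M + 1 : ℕ) : ℝ) := Real.sqrt_le_sqrt (by push_cast; linarith)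
    have h1 : Real.sqrt ((M + 1 : ℕ) : ℝ) ^ 2 = M + 1 := by rw [Real.sq_sqrt (by positivity)]; push_cast; ring
    have h2 : Real.sqrt (M : ℝ) ^ 2 = M := Real.sq_sqrt (by positivity)
    have h3 : 1 / Real.sqrt ((M + 1 : ℕ) : ℝ) ≤
        2 * (Real.sqrt ((M + 1 : ℕ) : ℝ) - Real.sqrt (M : ℝ)) := by
      rw [div_le_iff₀ hpos]
      nlinarith [Real.sqrt_nonneg (M : ℝ)]
    linarith

lemma tla_sum2 (M : ℕ) (hM : 1 ≤ M) (N : ℕ) (hN : M ≤ N) :
    ∑ n ∈ Finset.Ioc M N, 1 / ((n : ℝ) * Real.sqrt n) ≤ 2 / Real.sqrt M - 2 / Real.sqrt N := by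
  induction N, hN using Nat.le_induction with
  | base => simp
  | succ N hN ih =>
    rw [Finset.sum_Ioc_succ_top (by omega)]
    have hN1 : (1 : ℝ) ≤ N := by exact_mod_cast hM.trans hN
    have hpos : 0 < Real.sqrt ((N + 1 : ℕ) : ℝ) := Real.sqrt_pos.2 (by positivity)
    have hpos' : 0 < Real.sqrt (N : ℝ) := Real.sqrt_pos.2 (by linarith)
    have hle : Real.sqrt (N : ℝ) ≤ Real.sqrt ((N + 1 : ℕ) : ℝ) := Real.sqrt_le_sqrt (by push_cast; linarith)
    have h1 : Real.sqrt ((N + 1 : ℕ) : ℝ) ^ 2 = N + 1 := by rw [Real.sq_sqrt (by positivity)]; push_cast; ring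
    have h2 : Real.sqrt (N : ℝ) ^ 2 = N := Real.sq_sqrt (by positivity)
    set p := Real.sqrt ((N + 1 : ℕ) : ℝ) with hp
    set q := Real.sqrt (N : ℝ) with hq
    have h3 : 1 / (((N + 1 : ℕ) : ℝ) * p) ≤ 2 / q - 2 / p := by
      have h4 : ((N + 1 : ℕ) : ℝ) = p ^ 2 := by rw [h1]; push_cast; ring
      rw [h4, div_sub_div _ _ hpos'.ne' hpos.ne', div_le_div_iff₀ (by positivity) (by positivity)]
      -- 1 * (q * p) ≤ (2 * p - q * 2) * (p ^ 2 * p)
      have h5 : (p - q) * (p + q) = 1 := by nlinarith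
      have h6 : p + q ≤ 2 * p := by linarith
      have h7 : 1 ≤ (p - q) * (2 * p) := by
        rw [← h5]
        exact mul_le_mul_of_nonneg_left h6 (by linarith)
      have h8 : q ≤ p := hle
      have h9 : q * p ≤ p * p := mul_le_mul_of_nonneg_right h8 hpos.le
      have h10 : p * p * 1 ≤ p * p * ((p - q) * (2 * p)) := mul_le_mul_of_nonneg_left h7 (by positivity)
      nlinarith
    linarith

/-- the sum over `g₀` -/
lemma tla_sum (T : ℝ) (hT : 1 ≤ T) (S : Finset ℕ) (hS : ∀ n ∈ S, 1 ≤ n) :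
    ∑ n ∈ S, 1 / Real.sqrt n * min (1 / T) (2 / n) ≤ 10 / Real.sqrt T := by
  set M := ⌊T⌋₊ with hM
  have hM1 : 1 ≤ M := Nat.le_floor (by simpa using hT)
  have hMT : (M : ℝ) ≤ T := Nat.floor_le (by linarith)
  have hTM : T < M + 1 := Nat.lt_floor_add_one T
  have hM1r : (1 : ℝ) ≤ M := by exact_mod_cast hM1
  have hTpos : 0 < T := by linarith
  have hsT : 0 < Real.sqrt T := Real.sqrt_pos.2 hTpos
  have hsM : 0 < Real.sqrt M := Real.sqrt_pos.2 (by linarith)
  rw [← Finset.sum_filter_add_sum_filter_not S (fun n => n ≤ M)]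
  have h1 : ∑ n ∈ S.filter (fun n => n ≤ M), 1 / Real.sqrt n * min (1 / T) (2 / n) ≤
      2 / Real.sqrt T := by
    have h2 : ∑ n ∈ S.filter (fun n => n ≤ M), 1 / Real.sqrt n * min (1 / T) (2 / n) ≤
        ∑ n ∈ Finset.Icc 1 M, 1 / Real.sqrt n * (1 / T) := by
      refine (Finset.sum_le_sum (g := fun n : ℕ => 1 / Real.sqrt n * (1 / T)) fun n _ => ?_).trans
        (Finset.sum_le_sum_of_subset_of_nonneg ?_ fun n _ _ => by positivity)
      · exact mul_le_mul_of_nonneg_left (min_le_left _ _) (by positivity)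
      · intro n hn
        rw [Finset.mem_filter] at hn
        rw [Finset.mem_Icc]
        exact ⟨hS n hn.1, hn.2⟩
    refine h2.trans ?_
    rw [← Finset.sum_mul]
    have h3 := tla_sum1 M
    have h4 : Real.sqrt M ≤ Real.sqrt T := Real.sqrt_le_sqrt hMT
    calc (∑ n ∈ Finset.Icc 1 M, 1 / Real.sqrt n) * (1 / T) ≤ (2 * Real.sqrt T) * (1 / T) := by
          apply mul_le_mul_of_nonneg_right (h3.trans (by linarith)) (by positivity)
      _ = 2 / Real.sqrt T := by
          have h5 : T = Real.sqrt T * Real.sqrt T := (Real.mul_self_sqrt hTpos.le).symm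
          rw [eq_div_iff hsT.ne']
          conv_lhs => rw [show (1 : ℝ) / T = 1 / (Real.sqrt T * Real.sqrt T) by rw [← h5]]
          field_simp
  have h2 : ∑ n ∈ S.filter (fun n => ¬ n ≤ M), 1 / Real.sqrt n * min (1 / T) (2 / n) ≤
      8 / Real.sqrt T := by
    set N := M + S.sup id with hN
    have h3 : ∑ n ∈ S.filter (fun n => ¬ n ≤ M), 1 / Real.sqrt n * min (1 / T) (2 / n) ≤
        ∑ n ∈ Finset.Ioc M N, 2 * (1 / ((n : ℝ) * Real.sqrt n)) := by
      refine (Finset.sum_le_sum (g := fun n : ℕ => 2 * (1 / ((n : ℝ) * Real.sqrt n))) fun n hn => ?_).trans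
        (Finset.sum_le_sum_of_subset_of_nonneg ?_ fun n _ _ => by positivity)
      · have hn1 : 1 ≤ n := hS n (Finset.mem_filter.1 hn).1
        have hn1r : (0 : ℝ) < n := by exact_mod_cast hn1
        refine (mul_le_mul_of_nonneg_left (min_le_right _ _) (by positivity)).trans (le_of_eq ?_)
        have : 0 < Real.sqrt (n : ℝ) := Real.sqrt_pos.2 hn1r
        field_simp
      · intro n hn
        rw [Finset.mem_filter] at hn
        rw [Finset.mem_Ioc]
        have h4 : n ≤ S.sup id := Finset.le_sup (f := id) hn.1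
        omega
    refine h3.trans ?_
    rw [← Finset.mul_sum]
    have h4 := tla_sum2 M hM1 N (by omega)
    have h5 : 0 ≤ 2 / Real.sqrt (N : ℝ) := by positivity
    have h6 : Real.sqrt T ≤ 2 * Real.sqrt M := by
      rw [show (2 : ℝ) = Real.sqrt 4 by
        rw [show (4 : ℝ) = 2 ^ 2 by norm_num, Real.sqrt_sq (by norm_num)], ← Real.sqrt_mul (by norm_num)]
      exact Real.sqrt_le_sqrt (by linarith)
    have h7 : 2 / Real.sqrt M ≤ 4 / Real.sqrt T := by
      rw [div_le_div_iff₀ hsM hsT]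
      linarith
    have h8 : 8 / Real.sqrt T = 2 * (4 / Real.sqrt T) := by ring
    rw [h8]
    linarith
  have h3 : 10 / Real.sqrt T = 2 / Real.sqrt T + 8 / Real.sqrt T := by rw [← add_div]; norm_num
  rw [h3]
  exact add_le_add h1 h2

lemma gdat_mu_le {B : ℝ} {p : (Fin 3 → ℤ) × (Fin 3 → ℤ)} {g : ℤ} {μ : ℝ} (h : GDat B p g μ) :
    μ ≤ 2 * B ^ 2 := by
  obtain ⟨⟨h1, -⟩, ⟨h2, -⟩, -, -, -, -, -, -, ⟨i, j, hij⟩, -⟩ := h
  refine hij.trans ?_
  unfold mn
  push_cast
  refine (abs_sub _ _).trans ?_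
  rw [abs_mul, abs_mul]
  have h3 : 0 ≤ B := (abs_nonneg _).trans (h1 0)
  have h4 : |(p.1 i : ℝ)| * |(p.2 j : ℝ)| ≤ B * B := mul_le_mul (h1 i) (h2 j) (abs_nonneg _) h3
  have h5 : |(p.1 j : ℝ)| * |(p.2 i : ℝ)| ≤ B * B := mul_le_mul (h1 j) (h2 i) (abs_nonneg _) h3
  nlinarith

theorem t_TLA (h : S_PC) : S_TLA := by
  classical
  obtain ⟨C, hC, hPC⟩ := h
  refine ⟨10 * C, by positivity, ?_⟩
  intro B T hB hT Tl g μ hTl
  have hTpos : 0 < T := by linarith
  have hB0 : 0 < B := by linarith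
  set S := Tl.image (fun p => (g p).natAbs) with hS
  have hS1 : ∀ n ∈ S, 1 ≤ n := by
    intro n hn
    rw [hS, Finset.mem_image] at hn
    obtain ⟨p, hp, rfl⟩ := hn
    have hg0 : g p ≠ 0 := (hTl p hp).1.2.2.2.2.1
    have := Int.natAbs_pos.2 hg0
    omega
  have hsum : ∑ p ∈ Tl, B ^ 2 * |(g p : ℝ)| / μ p * (1 / Real.sqrt |(g p : ℝ)|) =
      ∑ n ∈ S, ∑ p ∈ Tl.filter (fun p => (g p).natAbs = n),
        B ^ 2 * |(g p : ℝ)| / μ p * (1 / Real.sqrt |(g p : ℝ)|) :=
    (Finset.sum_fiberwise_of_maps_to (fun p hp => Finset.mem_image_of_mem _ hp) _).symm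
  rw [hsum]
  have hin : ∀ n ∈ S, ∑ p ∈ Tl.filter (fun p => (g p).natAbs = n),
        B ^ 2 * |(g p : ℝ)| / μ p * (1 / Real.sqrt |(g p : ℝ)|) ≤
      C * B ^ 6 * (1 / Real.sqrt n * min (1 / T) (2 / n)) := by
    intro n hn
    have hn1 := hS1 n hn
    have hnr : (0 : ℝ) < n := by exact_mod_cast hn1
    have habs : ∀ p ∈ Tl.filter (fun p => (g p).natAbs = n), |(g p : ℝ)| = n := by
      intro p hp
      rw [Finset.mem_filter] at hp
      rw [← hp.2]
      rw [Nat.cast_natAbs]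
      push_cast
      rfl
    have h1 : ∑ p ∈ Tl.filter (fun p => (g p).natAbs = n),
        B ^ 2 * |(g p : ℝ)| / μ p * (1 / Real.sqrt |(g p : ℝ)|) =
        (∑ p ∈ Tl.filter (fun p => (g p).natAbs = n), B ^ 2 * (n : ℝ) / μ p) * (1 / Real.sqrt n) := by
      rw [Finset.sum_mul]
      refine Finset.sum_congr rfl fun p hp => ?_
      rw [habs p hp]
    rw [h1]
    set Z := min (B ^ 2 / T) (2 * B ^ 2 / n) with hZ
    have hZpos : 0 < Z := lt_min (by positivity) (by positivity)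
    have h2 := hPC B Z n hB hZpos hn1 (Tl.filter (fun p => (g p).natAbs = n)) g μ (by
      intro p hp
      have habsp := habs p hp
      rw [Finset.mem_filter] at hp
      obtain ⟨hG, hlt⟩ := hTl p hp.1
      refine ⟨hG, hp.2, ?_⟩
      rw [habsp] at hlt
      have h3 : μ p ≤ n * (B ^ 2 / T) := by
        rw [mul_div_assoc', le_div_iff₀ hTpos]
        linarith
      have h4 : μ p ≤ n * (2 * B ^ 2 / n) := by
        rw [mul_div_cancel₀ _ hnr.ne']
        exact gdat_mu_le hG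
      rw [hZ]
      rcases min_choice (B ^ 2 / T) (2 * B ^ 2 / (n : ℝ)) with h5 | h5
      · rw [h5]; exact h3
      · rw [h5]; exact h4)
    have h3 : Z = B ^ 2 * min (1 / T) (2 / n) := by
      rw [hZ, mul_min_of_nonneg _ _ (by positivity)]
      congr 1
      · ring
      · ring
    have h4 : 0 ≤ 1 / Real.sqrt (n : ℝ) := by positivity
    calc (∑ p ∈ Tl.filter (fun p => (g p).natAbs = n), B ^ 2 * (n : ℝ) / μ p) * (1 / Real.sqrt n)
        ≤ (C * B ^ 4 * Z) * (1 / Real.sqrt n) := mul_le_mul_of_nonneg_right h2 h4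
      _ = C * B ^ 6 * (1 / Real.sqrt n * min (1 / T) (2 / n)) := by rw [h3]; ring
  refine (Finset.sum_le_sum hin).trans ?_
  rw [← Finset.mul_sum]
  have h5 := tla_sum T hT S hS1
  calc C * B ^ 6 * ∑ n ∈ S, 1 / Real.sqrt n * min (1 / T) (2 / n)
      ≤ C * B ^ 6 * (10 / Real.sqrt T) := mul_le_mul_of_nonneg_left h5 (by positivity)
    _ = 10 * C * B ^ 6 / Real.sqrt T := by ring

end Pool.Agent.H90Q
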