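import Pool.Agent.H90Q.Stm3

/-!
# H90Q, phase 2, piece TLB: the sum over all pairs of vectors
-/

namespace Pool.Agent.H90Q

open Pool.Agent.Y716.Q

private theorem mn_abs_le {B : ℝ} (hB : 0 ≤ B) {x y : Fin 3 → ℤ} (hx : Sz B x) (hy : Sz B y)
    (i j : Fin 3) : |(mn x y i j : ℝ)| ≤ 2 * B ^ 2 := by
  have h1 : (mn x y i j : ℝ) = (x i : ℝ) * y j - (x j : ℝ) * y i := by
    simp [mn]
  rw [h1]
  have h2 : |(x i : ℝ) * y j| ≤ B * B := by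
    rw [abs_mul]
    exact mul_le_mul (hx.1 i) (hy.1 j) (abs_nonneg _) hB
  have h3 : |(x j : ℝ) * y i| ≤ B * B := by
    rw [abs_mul]
    exact mul_le_mul (hx.1 j) (hy.1 i) (abs_nonneg _) hB
  calc |(x i : ℝ) * y j - (x j : ℝ) * y i| ≤ |(x i : ℝ) * y j| + |(x j : ℝ) * y i| := abs_sub _ _
    _ ≤ 2 * B ^ 2 := by nlinarith

/-- `1 ≤ |g| ≤ 2 B²` and `μ ≤ 2 B²` -/
private theorem gdat_bounds {B : ℝ} (hB : 0 ≤ B) {p : (Fin 3 → ℤ) × (Fin 3 → ℤ)} {g : ℤ} {μ : ℝ}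
    (h : GDat B p g μ) : 1 ≤ g.natAbs ∧ (g.natAbs : ℝ) ≤ 2 * B ^ 2 ∧ 0 < μ ∧ μ ≤ 2 * B ^ 2 := by
  obtain ⟨h1, h2, _, _, hg, hd, _, hμ, ⟨i, j, hij⟩, _⟩ := h
  have hb := mn_abs_le hB h1 h2 i j
  refine ⟨Int.natAbs_pos.2 hg, ?_, hμ, hij.trans hb⟩
  have hne : mn p.1 p.2 i j ≠ 0 := by
    intro h0
    rw [h0] at hij
    simp at hij
    linarith
  have h3 : g.natAbs ≤ (mn p.1 p.2 i j).natAbs :=
    Nat.le_of_dvd (Int.natAbs_pos.2 hne) (Int.natAbs_dvd_natAbs.2 (hd i j))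
  have h4 : ((mn p.1 p.2 i j).natAbs : ℝ) = |(mn p.1 p.2 i j : ℝ)| := by
    rw [Nat.cast_natAbs, Int.cast_abs]
  calc (g.natAbs : ℝ) ≤ ((mn p.1 p.2 i j).natAbs : ℝ) := by exact_mod_cast h3
    _ = |(mn p.1 p.2 i j : ℝ)| := h4
    _ ≤ 2 * B ^ 2 := hb

theorem t_TLB (h : S_PC) : S_TLB := by
  classical
  obtain ⟨C, hC, hPC⟩ := h
  refine ⟨4 * C, by positivity, ?_⟩
  intro B hB Tl g μ hT
  have hB0 : 0 < B := by linarith
  have hlogB : 0 ≤ Real.log B := Real.log_nonneg hB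
  set N : ℕ := ⌊2 * B ^ 2⌋₊ with hN
  have hBB : (2 : ℝ) ≤ 2 * B ^ 2 := by nlinarith
  have hN1 : 1 ≤ N := Nat.le_floor (by push_cast; linarith)
  have hmap : ∀ p ∈ Tl, (g p).natAbs ∈ Finset.Icc 1 N := by
    intro p hp
    obtain ⟨h1, h2, _, _⟩ := gdat_bounds hB0.le (hT p hp)
    exact Finset.mem_Icc.2 ⟨h1, Nat.le_floor h2⟩
  rw [← Finset.sum_fiberwise_of_maps_to hmap]
  have hb : ∀ r ∈ Finset.Icc 1 N,
      ∑ p ∈ Tl.filter (fun p => (g p).natAbs = r), B ^ 2 * |(g p : ℝ)| / μ p ≤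
        2 * C * B ^ 6 * (r : ℝ)⁻¹ := by
    intro r hr
    have hr1 : 1 ≤ r := (Finset.mem_Icc.1 hr).1
    have hr0 : (0 : ℝ) < r := by exact_mod_cast hr1
    have h1 := hPC B (2 * B ^ 2 / r) r hB (by positivity) hr1
      (Tl.filter (fun p => (g p).natAbs = r)) g μ (by
        intro p hp
        obtain ⟨hp1, hp2⟩ := Finset.mem_filter.1 hp
        refine ⟨hT p hp1, hp2, ?_⟩
        obtain ⟨_, _, _, h4⟩ := gdat_bounds hB0.le (hT p hp1)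
        rw [mul_div_cancel₀ _ hr0.ne']
        exact h4)
    have h2 : ∑ p ∈ Tl.filter (fun p => (g p).natAbs = r), B ^ 2 * |(g p : ℝ)| / μ p =
        ∑ p ∈ Tl.filter (fun p => (g p).natAbs = r), B ^ 2 * (r : ℝ) / μ p := by
      refine Finset.sum_congr rfl fun p hp => ?_
      have h3 : (r : ℝ) = |(g p : ℝ)| := by
        rw [← (Finset.mem_filter.1 hp).2, Nat.cast_natAbs, Int.cast_abs]
      rw [h3]
    rw [h2]
    refine h1.trans (le_of_eq ?_)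
    field_simp
  have hharm : ∑ r ∈ Finset.Icc 1 N, (r : ℝ)⁻¹ ≤ 1 + Real.log N := by
    have h1 := harmonic_le_one_add_log N
    rw [harmonic_eq_sum_Icc] at h1
    push_cast at h1
    exact h1
  have hlog : Real.log N ≤ 1 + 2 * Real.log B := by
    have hNB : (N : ℝ) ≤ 2 * B ^ 2 := Nat.floor_le (by positivity)
    have hN0 : (0 : ℝ) < N := by exact_mod_cast hN1
    have h1 : Real.log N ≤ Real.log (2 * B ^ 2) := Real.log_le_log hN0 hNB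
    rw [Real.log_mul (by norm_num) (by positivity), Real.log_pow] at h1
    have h2 : Real.log 2 ≤ 1 := by
      have := Real.log_le_sub_one_of_pos (show (0:ℝ) < 2 by norm_num)
      linarith
    push_cast at h1
    linarith
  calc ∑ r ∈ Finset.Icc 1 N, ∑ p ∈ Tl.filter (fun p => (g p).natAbs = r),
        B ^ 2 * |(g p : ℝ)| / μ p
      ≤ ∑ r ∈ Finset.Icc 1 N, 2 * C * B ^ 6 * (r : ℝ)⁻¹ := Finset.sum_le_sum hb
    _ = 2 * C * B ^ 6 * ∑ r ∈ Finset.Icc 1 N, (r : ℝ)⁻¹ := by rw [Finset.mul_sum]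
    _ ≤ 2 * C * B ^ 6 * (1 + (1 + 2 * Real.log B)) := by
        gcongr
        linarith
    _ = 4 * C * B ^ 6 * (1 + Real.log B) := by ring

end Pool.Agent.H90Q
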