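import Pool.Agent.H90Q.Stm3

/-!
# Project H90Q, phase 2, piece WS3: the sets `W` and their residue classes

Extends `WS.lean` (helper21).
-/

set_option autoImplicit false

namespace Pool.Agent.H90Q

theorem ws3_cls (a b : ℤ) (hab : a ≤ b) (M : ℕ) (hM : 0 < M) (T : Finset ℤ)
    (hT : T ⊆ Finset.Ioc a b) (hc : ∀ x ∈ T, ∀ y ∈ T, (M : ℤ) ∣ x - y) :
    (T.card : ℝ) ≤ ((b - a : ℤ) : ℝ) / M + 1 := by
  have hM0 : (0 : ℝ) < M := by exact_mod_cast hM
  have hba : (0 : ℝ) ≤ ((b - a : ℤ) : ℝ) := by exact_mod_cast (by omega : (0 : ℤ) ≤ b - a)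
  rcases T.eq_empty_or_nonempty with h | ⟨v, hv⟩
  · rw [h, Finset.card_empty]
    push_cast
    have : 0 ≤ ((b - a : ℤ) : ℝ) / M := div_nonneg hba hM0.le
    push_cast at this
    linarith
  · have hsub : T ⊆ (Finset.Ioc a b).filter (fun x => x ≡ v [ZMOD (M : ℤ)]) := by
      intro x hx
      rw [Finset.mem_filter]
      exact ⟨hT hx, (Int.modEq_iff_dvd.mpr (hc v hv x hx))⟩
    have h1 := Finset.card_le_card hsub
    have h2 := Int.Ioc_filter_modEq_card a b (r := (M : ℤ)) (by exact_mod_cast hM) v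
    have hMq : (0 : ℚ) < M := by exact_mod_cast hM
    have h3 : ((max (⌊((b : ℚ) - v) / ((M : ℤ) : ℚ)⌋ - ⌊((a : ℚ) - v) / ((M : ℤ) : ℚ)⌋) 0 : ℤ) : ℚ) ≤
        (b - a : ℚ) / M + 1 := by
      push_cast
      refine max_le ?_ ?_
      · have h4 := Int.floor_le (((b : ℚ) - v) / (M : ℚ))
        have h5 := Int.sub_one_lt_floor (((a : ℚ) - v) / (M : ℚ))
        have h6 : ((b : ℚ) - v) / (M : ℚ) - ((a : ℚ) - v) / (M : ℚ) = (b - a : ℚ) / M := by ring
        linarith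
      · have : (0 : ℚ) ≤ (b - a : ℚ) / M := by
          apply div_nonneg _ hMq.le
          have : (a : ℚ) ≤ b := by exact_mod_cast hab
          linarith
        linarith
    have h7 : (T.card : ℚ) ≤ (b - a : ℚ) / M + 1 := by
      refine le_trans ?_ h3
      rw [← h2]
      exact_mod_cast h1
    have h8 : ((T.card : ℚ) : ℝ) ≤ (((b - a : ℚ) / M + 1 : ℚ) : ℝ) := by exact_mod_cast h7
    push_cast at h8 ⊢
    exact h8

/-- residue classes in an arithmetic progression -/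
theorem ws3_prog (a b : ℤ) (hab : a ≤ b) (Q : ℕ) (hQ : 1 ≤ Q) (ωc : ℤ) (g : ℕ) (hg : 0 < g) (r : ℤ) :
    ((((Finset.Ioc a b).image (fun j : ℤ => ωc + (Q : ℤ) * j)).filter
      (fun ω => (g : ℤ) ∣ ω - r)).card : ℝ) ≤ ((b - a : ℤ) : ℝ) * (Nat.gcd g Q : ℝ) / g + 1 := by
  classical
  have hg0 : (0 : ℝ) < g := by exact_mod_cast hg
  have hd0 : 0 < Nat.gcd g Q := Nat.gcd_pos_of_pos_left _ hg
  obtain ⟨g', Q', hcop, hg', hQ'⟩ := Nat.exists_coprime g Q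
  have hg'0 : 0 < g' := by
    rcases Nat.eq_zero_or_pos g' with h | h
    · rw [h, zero_mul] at hg'
      omega
    · exact h
  have hsub : ((Finset.Ioc a b).image (fun j : ℤ => ωc + (Q : ℤ) * j)).filter
      (fun ω => (g : ℤ) ∣ ω - r) ⊆
      ((Finset.Ioc a b).filter (fun j : ℤ => (g : ℤ) ∣ ωc + (Q : ℤ) * j - r)).image
        (fun j : ℤ => ωc + (Q : ℤ) * j) := by
    intro ω hω
    rw [Finset.mem_filter, Finset.mem_image] at hω
    obtain ⟨⟨j, hj, rfl⟩, h⟩ := hω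
    exact Finset.mem_image.2 ⟨j, Finset.mem_filter.2 ⟨hj, h⟩, rfl⟩
  have h1 := (Finset.card_le_card hsub).trans Finset.card_image_le
  have h2 := ws3_cls a b hab g' hg'0
    ((Finset.Ioc a b).filter (fun j : ℤ => (g : ℤ) ∣ ωc + (Q : ℤ) * j - r))
    (Finset.filter_subset _ _) (by
      intro x hx y hy
      rw [Finset.mem_filter] at hx hy
      have h3 : (g : ℤ) ∣ (Q : ℤ) * (x - y) := by
        have := dvd_sub hx.2 hy.2
        have e : ωc + (Q : ℤ) * x - r - (ωc + (Q : ℤ) * y - r) = (Q : ℤ) * (x - y) := by ring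
        rwa [e] at this
      have h4 : ((g' : ℤ) * (Nat.gcd g Q : ℤ)) ∣ ((Q' : ℤ) * (x - y)) * (Nat.gcd g Q : ℤ) := by
        have e1 : ((g' : ℤ) * (Nat.gcd g Q : ℤ)) = (g : ℤ) := by exact_mod_cast hg'.symm
        have e2 : ((Q' : ℤ) * (x - y)) * (Nat.gcd g Q : ℤ) = (Q : ℤ) * (x - y) := by
          have : (Q : ℤ) = (Q' : ℤ) * (Nat.gcd g Q : ℤ) := by exact_mod_cast hQ'
          calc ((Q' : ℤ) * (x - y)) * (Nat.gcd g Q : ℤ) = ((Q' : ℤ) * (Nat.gcd g Q : ℤ)) * (x - y) := by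
                ring
            _ = (Q : ℤ) * (x - y) := by rw [← this]
        rw [e1, e2]
        exact h3
      have h5 : (g' : ℤ) ∣ (Q' : ℤ) * (x - y) :=
        Int.dvd_of_mul_dvd_mul_right (by exact_mod_cast hd0.ne') h4
      have h6 : IsCoprime (g' : ℤ) (Q' : ℤ) := Nat.isCoprime_iff_coprime.mpr hcop
      exact h6.dvd_of_dvd_mul_left h5)
  have h3 : ((b - a : ℤ) : ℝ) / g' = ((b - a : ℤ) : ℝ) * (Nat.gcd g Q : ℝ) / g := by
    have e : (g : ℝ) = g' * (Nat.gcd g Q : ℝ) := by exact_mod_cast hg'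
    have hd0r : (Nat.gcd g Q : ℝ) ≠ 0 := by exact_mod_cast hd0.ne'
    have hg'r : (g' : ℝ) ≠ 0 := by exact_mod_cast hg'0.ne'
    rw [div_eq_div_iff hg'r hg0.ne', e]
    ring
  rw [← h3]
  refine le_trans ?_ h2
  exact_mod_cast h1

theorem ws3_pos (b : ℕ) (Q₀ : ℕ) (hQ₀ : 1 ≤ Q₀) (η s₀ δ : ℝ) (hδ : 0 < δ) (hδ1 : δ ≤ 1)
    (hδη : δ ≤ η) (hδb : δ * (b * (s₀ + 1) ^ (b - 1)) ≤ η)
    (X s : ℝ) (Q : ℕ) (ωc : ℤ) (hX : 2 * Q₀ / δ ≤ X) (hs : 0 ≤ s) (hss : s ≤ s₀) (hQ : 1 ≤ Q)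
    (hQQ : Q ≤ Q₀) :
    ∃ W : Finset ℤ, (∀ ω ∈ W, (Q : ℤ) ∣ ω - ωc) ∧ (∀ ω ∈ W, 0 < ω) ∧
      (∀ ω ∈ W, |(ω : ℝ) - X * s| ≤ η * X) ∧
      (∀ ω ∈ W, |(ω : ℝ) ^ b - (X * s) ^ b| ≤ η * X ^ b) ∧ δ / (2 * Q₀) * X ≤ W.card ∧
      (∀ g : ℕ, 0 < g → ∀ r : ℤ,
        ((W.filter (fun ω => (g : ℤ) ∣ ω - r)).card : ℝ) ≤ W.card * (Nat.gcd g Q : ℝ) / g + 1) := by
  classical
  have hQ0r : (1 : ℝ) ≤ Q₀ := by exact_mod_cast hQ₀
  have hQr : (1 : ℝ) ≤ Q := by exact_mod_cast hQ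
  have hQQr : (Q : ℝ) ≤ Q₀ := by exact_mod_cast hQQ
  have hQp : (0 : ℝ) < Q := by linarith
  have hX0 : 0 < X := lt_of_lt_of_le (by positivity) hX
  have hX1 : 2 * (Q₀ : ℝ) ≤ X * δ := by rwa [div_le_iff₀ hδ] at hX
  set α : ℝ := (X * s - ωc) / Q with hα
  set β : ℝ := (X * (s + δ) - ωc) / Q with hβ
  let W : Finset ℤ := (Finset.Ioc ⌊α⌋ ⌊β⌋).image (fun j : ℤ => ωc + (Q : ℤ) * j)
  have hW : ∀ ω ∈ W, (Q : ℤ) ∣ ω - ωc ∧ X * s < ω ∧ (ω : ℝ) ≤ X * (s + δ) := by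
    intro ω hω
    obtain ⟨j, hj, rfl⟩ := Finset.mem_image.1 hω
    rw [Finset.mem_Ioc] at hj
    have h1 : α < j := Int.floor_lt.1 hj.1
    have h2 : (j : ℝ) ≤ β := Int.le_floor.1 hj.2
    rw [hα, div_lt_iff₀ hQp] at h1
    rw [hβ, le_div_iff₀ hQp] at h2
    refine ⟨⟨j, by ring⟩, ?_, ?_⟩
    · push_cast
      linarith
    · push_cast
      linarith
  have hab : ∀ ω ∈ W, |(ω : ℝ) - X * s| ≤ δ * X := by
    intro ω hω
    obtain ⟨-, h1, h2⟩ := hW ω hω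
    rw [abs_of_pos (by linarith)]
    nlinarith
  have hinj : Function.Injective (fun j : ℤ => ωc + (Q : ℤ) * j) := by
    intro i j hij
    have hQ0 : (Q : ℤ) ≠ 0 := by positivity
    have h1 : (Q : ℤ) * i = Q * j := add_left_cancel hij
    exact mul_left_cancel₀ hQ0 h1
  have hαβ : α ≤ β := by
    rw [hα, hβ]
    apply div_le_div_of_nonneg_right _ hQp.le
    nlinarith
  have hfl : ⌊α⌋ ≤ ⌊β⌋ := Int.floor_le_floor hαβ
  have hcard : (W.card : ℝ) = ((⌊β⌋ - ⌊α⌋ : ℤ) : ℝ) := by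
    have h1 : W.card = (⌊β⌋ - ⌊α⌋).toNat := by
      rw [Finset.card_image_of_injective _ hinj, Int.card_Ioc]
    have h2 : ((W.card : ℤ)) = ⌊β⌋ - ⌊α⌋ := by
      rw [h1]
      exact Int.toNat_of_nonneg (by omega)
    exact_mod_cast h2
  refine ⟨W, fun ω hω => (hW ω hω).1, fun ω hω => ?_, fun ω hω => ?_, fun ω hω => ?_, ?_, ?_⟩
  · have h1 := (hW ω hω).2.1
    have h2 : (0 : ℝ) < ω := lt_of_le_of_lt (by positivity) h1
    exact_mod_cast h2
  · exact (hab ω hω).trans (mul_le_mul_of_nonneg_right hδη hX0.le)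
  · obtain ⟨-, h1, h2⟩ := hW ω hω
    have h3 := abs_pow_sub_pow_le (ω : ℝ) (X * s) b
    have hXs : 0 ≤ X * s := by positivity
    have h4 : max |(ω : ℝ)| |X * s| ≤ X * (s₀ + 1) := by
      rw [abs_of_nonneg hXs, abs_of_pos (lt_of_le_of_lt hXs h1)]
      refine max_le (h2.trans ?_) ?_
      · exact mul_le_mul_of_nonneg_left (by linarith) hX0.le
      · exact mul_le_mul_of_nonneg_left (by linarith) hX0.le
    have h5 : max |(ω : ℝ)| |X * s| ^ (b - 1) ≤ (X * (s₀ + 1)) ^ (b - 1) :=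
      pow_le_pow_left₀ (le_max_of_le_left (abs_nonneg _)) h4 _
    rcases Nat.eq_zero_or_pos b with hb | hb
    · subst hb
      simp only [pow_zero, sub_self, abs_zero, mul_one]
      linarith
    calc |(ω : ℝ) ^ b - (X * s) ^ b| ≤ |(ω : ℝ) - X * s| * b * max |(ω : ℝ)| |X * s| ^ (b - 1) := h3
      _ ≤ (δ * X) * b * (X * (s₀ + 1)) ^ (b - 1) := by
          refine mul_le_mul (mul_le_mul_of_nonneg_right (hab ω hω) (Nat.cast_nonneg _)) h5
            (by positivity) (by positivity)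
      _ = (δ * (b * (s₀ + 1) ^ (b - 1))) * (X * X ^ (b - 1)) := by
          rw [mul_pow]
          ring
      _ = (δ * (b * (s₀ + 1) ^ (b - 1))) * X ^ b := by
          rw [← pow_succ', Nat.sub_add_cancel hb]
      _ ≤ η * X ^ b := mul_le_mul_of_nonneg_right hδb (by positivity)
  · rw [hcard]
    push_cast
    have h2 := Int.sub_one_lt_floor β
    have h3 := Int.floor_le α
    have h4 : β - α = X * δ / Q := by
      rw [hα, hβ, ← sub_div]
      congr 1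
      ring
    have h5 : X * δ / Q₀ ≤ X * δ / Q := div_le_div_of_nonneg_left (by positivity) hQp hQQr
    have h6 : (2 : ℝ) ≤ X * δ / Q₀ := by
      rw [le_div_iff₀ (by linarith)]
      exact hX1
    have h7 : δ / (2 * Q₀) * X = (X * δ / Q₀) / 2 := by
      field_simp
    rw [h7]
    linarith
  · intro g hg r
    rw [hcard]
    exact ws3_prog ⌊α⌋ ⌊β⌋ hfl Q hQ ωc g hg r

/-- the two bounds for residue classes -/
theorem ws3_bounds {W : Finset ℤ} {Q Q₀ : ℕ} (hQ : 1 ≤ Q) (hQQ : Q ≤ Q₀)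
    (h : ∀ g : ℕ, 0 < g → ∀ r : ℤ,
        ((W.filter (fun ω => (g : ℤ) ∣ ω - r)).card : ℝ) ≤ W.card * (Nat.gcd g Q : ℝ) / g + 1) :
    (∀ D : ℕ, 0 < D → Nat.Coprime D Q → ∀ r : ℤ,
        ((W.filter (fun ω => (D : ℤ) ∣ ω - r)).card : ℝ) ≤ (W.card + 1) / D + 1) ∧
      (∀ g : ℕ, 0 < g → ∀ r : ℤ,
        ((W.filter (fun ω => (g : ℤ) ∣ ω - r)).card : ℝ) ≤ 2 * Q₀ * W.card / g + 1) := by
  refine ⟨fun D hD hc r => ?_, fun g hg r => ?_⟩
  · refine (h D hD r).trans ?_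
    have hD0 : (0 : ℝ) < D := by exact_mod_cast hD
    rw [Nat.Coprime] at hc
    rw [hc, Nat.cast_one, mul_one]
    have : (W.card : ℝ) / D ≤ (W.card + 1) / D := by
      apply div_le_div_of_nonneg_right _ hD0.le
      linarith
    linarith
  · refine (h g hg r).trans ?_
    have hg0 : (0 : ℝ) < g := by exact_mod_cast hg
    have h1 : (Nat.gcd g Q : ℝ) ≤ Q₀ := by
      exact_mod_cast (Nat.gcd_le_right g hQ).trans hQQ
    have h0 : (0 : ℝ) ≤ Nat.gcd g Q := Nat.cast_nonneg _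
    have h2 : (W.card : ℝ) * (Nat.gcd g Q : ℝ) ≤ 2 * Q₀ * W.card := by
      have hW : (0 : ℝ) ≤ W.card := Nat.cast_nonneg _
      nlinarith
    have : (W.card : ℝ) * (Nat.gcd g Q : ℝ) / g ≤ 2 * Q₀ * W.card / g :=
      div_le_div_of_nonneg_right h2 hg0.le
    linarith

theorem t_WS3 : S_WS3 := by
  classical
  intro b hb Q₀ hQ₀ η s₀ hη hs₀
  have hQ0r : (1 : ℝ) ≤ Q₀ := by exact_mod_cast hQ₀
  have hb0 : (0 : ℝ) < b := by exact_mod_cast hb
  have hc : 0 < (b : ℝ) * (s₀ + 1) ^ (b - 1) := by positivity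
  set δ := min 1 (min η (η / (b * (s₀ + 1) ^ (b - 1)))) with hδd
  have hδ : 0 < δ := lt_min one_pos (lt_min hη (by positivity))
  have hδ1 : δ ≤ 1 := min_le_left _ _
  have hδη : δ ≤ η := (min_le_right _ _).trans (min_le_left _ _)
  have hδb : δ * (b * (s₀ + 1) ^ (b - 1)) ≤ η := by
    rw [← le_div_iff₀ hc]
    exact (min_le_right _ _).trans (min_le_right _ _)
  refine ⟨δ / (2 * Q₀), 2 * Q₀ / δ, by positivity, by positivity, ?_⟩
  intro X s Q ωc hX hs hQ hQQ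
  have hone : ∀ W : Finset ℤ, δ / (2 * Q₀) * X ≤ (W.card : ℝ) → 1 ≤ W.card := by
    intro W hW
    have h1 : δ / (2 * Q₀) * (2 * Q₀ / δ) ≤ δ / (2 * Q₀) * X :=
      mul_le_mul_of_nonneg_left hX (by positivity)
    have h2 : δ / (2 * Q₀) * (2 * Q₀ / δ) = 1 := by field_simp
    have h3 : (1 : ℝ) ≤ W.card := by linarith
    exact_mod_cast h3
  rcases le_total 0 s with h0 | h0
  · obtain ⟨W, h1, h2, h3, h4, h5, h6⟩ := ws3_pos b Q₀ hQ₀ η s₀ δ hδ hδ1 hδη hδb X s Q ωc hX h0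
      (by rwa [abs_of_nonneg h0] at hs) hQ hQQ
    obtain ⟨h7, h8⟩ := ws3_bounds hQ hQQ h6
    exact ⟨W, h1, Or.inl h2, h3, h4, h5, hone W h5, h7, h8⟩
  · obtain ⟨W, h1, h2, h3, h4, h5, h6'⟩ := ws3_pos b Q₀ hQ₀ η s₀ δ hδ hδ1 hδη hδb X (-s) Q (-ωc)
      hX (by linarith) (by rwa [abs_of_nonpos h0] at hs) hQ hQQ
    have hcardn : (W.image (fun ω => -ω)).card = W.card :=
      Finset.card_image_of_injective _ neg_injective
    have h6'' : ∀ g : ℕ, 0 < g → ∀ r : ℤ,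
        (((W.image (fun ω => -ω)).filter (fun ω => (g : ℤ) ∣ ω - r)).card : ℝ) ≤
          (W.image (fun ω => -ω)).card * (Nat.gcd g Q : ℝ) / g + 1 := by
      intro g hg r
      have h := h6' g hg (-r)
      rw [hcardn]
      refine le_trans ?_ h
      have hsub : (W.image (fun ω => -ω)).filter (fun ω => (g : ℤ) ∣ ω - r) ⊆
          (W.filter (fun ω => (g : ℤ) ∣ ω - -r)).image (fun ω => -ω) := by
        intro ω hω
        rw [Finset.mem_filter, Finset.mem_image] at hω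
        obtain ⟨⟨w, hw, rfl⟩, hd⟩ := hω
        refine Finset.mem_image.2 ⟨w, Finset.mem_filter.2 ⟨hw, ?_⟩, rfl⟩
        have : w - -r = -(-w - r) := by ring
        rw [this]
        exact (dvd_neg).2 hd
      exact_mod_cast (Finset.card_le_card hsub).trans Finset.card_image_le
    obtain ⟨h7, h8⟩ := ws3_bounds hQ hQQ h6''
    refine ⟨W.image (fun ω => -ω), fun ω hω => ?_, Or.inr fun ω hω => ?_, fun ω hω => ?_,
      fun ω hω => ?_, ?_, ?_, h7, h8⟩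
    · obtain ⟨w, hw, rfl⟩ := Finset.mem_image.1 hω
      obtain ⟨k, hk⟩ := h1 w hw
      exact ⟨-k, by rw [mul_neg, ← hk]; ring⟩
    · obtain ⟨w, hw, rfl⟩ := Finset.mem_image.1 hω
      have := h2 w hw
      omega
    · obtain ⟨w, hw, rfl⟩ := Finset.mem_image.1 hω
      have := h3 w hw
      rw [← abs_neg]
      have e : -(((-w : ℤ) : ℝ) - X * s) = (w : ℝ) - X * (-s) := by
        push_cast
        ring
      rw [e]
      exact this
    · obtain ⟨w, hw, rfl⟩ := Finset.mem_image.1 hω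
      have h6 := h4 w hw
      have e : (((-w : ℤ) : ℝ)) ^ b - (X * s) ^ b = (-1) ^ b * ((w : ℝ) ^ b - (X * -s) ^ b) := by
        rw [mul_sub, ← mul_pow, ← mul_pow]
        push_cast
        congr 1
        · congr 1
          ring
        · congr 1
          ring
      rw [e, abs_mul, abs_pow, abs_neg, abs_one, one_pow, one_mul]
      exact h6
    · rw [hcardn]
      exact h5
    · rw [hcardn]
      exact hone W h5

end Pool.Agent.H90Q
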