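import Pool.Agent.H90Q.All
import Pool.Agent.H90Q.CMP
import Pool.Agent.H90Q.CO13
import Pool.Agent.H90Q.CO23
import Pool.Agent.H90Q.CP1
import Pool.Agent.H90Q.CP2
import Pool.Agent.H90Q.CT3
import Pool.Agent.H90Q.GS3
import Pool.Agent.H90Q.NU1
import Pool.Agent.H90Q.NU2
import Pool.Agent.H90Q.NU3
import Pool.Agent.H90Q.NU4
import Pool.Agent.H90Q.PC
import Pool.Agent.H90Q.PC1
import Pool.Agent.H90Q.PC2
import Pool.Agent.H90Q.PC3
import Pool.Agent.H90Q.SM3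
import Pool.Agent.H90Q.TLA
import Pool.Agent.H90Q.TLB
import Pool.Agent.H90Q.WS3

/-!
# Cyclic covers of the projective plane over the rational numbers: assembly
-/

namespace Pool.Agent.H90Q

/-- The class theorem for cyclic covers of the plane. -/
theorem class_cov3 (e b l : ℕ) (hb : 2 ≤ b) (hl : 1 ≤ l) (hebl : e + 2 = b * l)
    (hF : (b - 1) * l ≤ 2) : S_CLASS (Fin 3) e b l := by
  have hb3 : b = 2 ∨ b = 3 := by
    have h1 : b - 1 ≤ (b - 1) * l := Nat.le_mul_of_pos_right _ hl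
    omega
  have hNU4 : S_NU4 := t_NU4 t_NU1 (t_NU3 t_NU2)
  have hCP1 : S_CP1 := t_CP1 hNU4
  have hPC : S_PC := t_PC t_PC1 t_PC2 t_PC3
  exact t_CT3 (t_CO13 (t_CO23 (t_DG (Fin 3)) (t_CB (Fin 3))))
    (t_SM3 (t_GS3 (Fin 3) (t_CMP (Fin 3))) (t_CMP (Fin 3)) (t_TLA hPC) (t_TLB hPC))
    (t_RC (Fin 3)) t_WS3 hCP1 (t_CP2 hCP1 t_NU2) e b l hb3 hl hebl hF

end Pool.Agent.H90Q
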