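import Pool.Agent.Y716.Q.WA2

/-!
# Cyclic covers `ω ^ b = f(x)` of projective space over the rational numbers: definitions
-/

namespace Pool.Agent.H90Q

open Pool.Agent.Y716.Q

section
variable {ι : Type} [Fintype ι]

open scoped Classical in
/-- the number of forms `g` of degree `e + 2` with coefficients `≤ A` and `g(x) = a`, `g(y) = c` -/
noncomputable def c2t (e : ℕ) (A : ℝ) (x y : ι → ℤ) (a c : ℤ) : ℕ :=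
  ((formsZ ι (e + 2) A).filter
    (fun g => MvPolynomial.eval x g = a ∧ MvPolynomial.eval y g = c)).card

open scoped Classical in
/-- the pairs of non-proportional vectors -/
noncomputable def npPairs (X : Finset (ι → ℤ)) : Finset ((ι → ℤ) × (ι → ℤ)) :=
  (X ×ˢ X).filter (fun p => ∃ i j, mn p.1 p.2 i j ≠ 0)

open scoped Classical in
/-- the pairs of proportional vectors -/
noncomputable def prPairs (X : Finset (ι → ℤ)) : Finset ((ι → ℤ) × (ι → ℤ)) :=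
  (X ×ˢ X).filter (fun p => ∀ i j, mn p.1 p.2 i j = 0)

/-- one of the polynomials `F ω + S J g`, `ω ∈ W`, has a primitive zero in `X` -/
def PtIn (W : Finset ℤ) (F : ℤ → MvPolynomial ι ℤ) (S J : ℕ) (X : Finset (ι → ℤ))
    (g : MvPolynomial ι ℤ) : Prop :=
  ∃ x ∈ X, Prim x ∧ ∃ ω ∈ W, MvPolynomial.eval x (mem' (F ω) S J g) = 0

/-- the real data of a class of covers (`H = h ^ b` is the height) -/
structure RDataC (e b : ℕ) (h γ η : ℝ) (fc : MvPolynomial ι ℤ) (ξ : ι → ℝ) (s : ℝ) (i₀ : ι) :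
    Prop where
  hform : IsF (e + 2) (2 * h ^ b) fc
  hξ : ∀ i, |ξ i| ≤ 1
  hξr : ∃ r, ξ r = 1
  hfξ : |MvPolynomial.aeval ξ fc - (h * s) ^ b| ≤ (mons ι (e + 2)).card * (η * h ^ b)
  hgξ : γ * h ^ b ≤ |MvPolynomial.aeval ξ (MvPolynomial.pderiv i₀ fc)|

/-- the cover `ω ^ b = f(x)` has a primitive integral point close to given local points -/
def NearC (b l : ℕ) (η₀ h : ℝ) (ξ : ι → ℝ) (s : ℝ) (S Q : ℕ) (xc : ι → ℤ) (ωc : ℤ)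
    (f : MvPolynomial ι ℤ) : Prop :=
  ∃ (x : ι → ℤ) (ω : ℤ), Prim x ∧ MvPolynomial.eval x f = ω ^ b ∧
    (∀ i, (S : ℤ) ∣ x i - xc i) ∧ (Q : ℤ) ∣ ω - ωc ∧
    ∃ P : ℝ, 0 < P ∧ (∀ i, |(x i : ℝ) - P * ξ i| ≤ η₀ * P) ∧
      |(ω : ℝ) - h * P ^ l * s| ≤ η₀ * (h * P ^ l)

/-- approximate points at all places, close to a target -/
def LocC (b N : ℕ) (c : ι → ℤ) (cω : ℤ) (ζ : ι → ℝ) (s δ h : ℝ) (f : MvPolynomial ι ℤ) : Prop :=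
  (∀ p : ℕ, p.Prime → ∀ E : ℕ, ∃ (r : ι) (x : ι → ℤ) (ω : ℤ), x r = 1 ∧
    (p : ℤ) ^ E ∣ MvPolynomial.eval x f - ω ^ b ∧
    ∀ a : ℕ, p ^ a ∣ N → (∀ i, (p : ℤ) ^ a ∣ x i - c i) ∧ (p : ℤ) ^ a ∣ ω - cω) ∧
  ∃ (r : ι) (ξ : ι → ℝ) (t : ℝ), ξ r = 1 ∧ (∀ i, |ξ i| ≤ 1) ∧ (∀ i, |ξ i - ζ i| ≤ δ) ∧
    |t - s| ≤ δ ∧ MvPolynomial.aeval ξ f = (h * t) ^ b

/-- primitive integral points close to a target -/
def SolC (b l N : ℕ) (c : ι → ℤ) (cω : ℤ) (ζ : ι → ℝ) (s δ h : ℝ) (f : MvPolynomial ι ℤ) :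
    Prop :=
  ∃ (x : ι → ℤ) (ω : ℤ), Prim x ∧ MvPolynomial.eval x f = ω ^ b ∧
    (∀ i, (N : ℤ) ∣ x i - c i) ∧ (N : ℤ) ∣ ω - cω ∧
    ∃ P : ℝ, 0 < P ∧ (∀ i, |(x i : ℝ) - P * ζ i| ≤ 2 * δ * P) ∧
      |(ω : ℝ) - h * P ^ l * s| ≤ 2 * δ * (h * P ^ l)

/-- non-degenerate local data of a cover -/
def GoodC (b w : ℕ) (γ h : ℝ) (Q N : ℕ) (c : ι → ℤ) (cω : ℤ) (ζ : ι → ℝ) (s δ : ℝ)
    (f : MvPolynomial ι ℤ) : Prop :=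
  ∃ (S J : ℕ) (xc v : ι → ℤ) (ωc : ℤ) (ξ : ι → ℝ) (t : ℝ) (i₀ : ι),
    PData w (f - MvPolynomial.C (ωc ^ b)) S J xc v ∧ S * J = Q ∧ (N : ℤ) ∣ S ∧
    (∀ i, (N : ℤ) ∣ xc i - c i) ∧ (N : ℤ) ∣ ωc - cω ∧ (∃ r, ξ r = 1) ∧ (∀ i, |ξ i| ≤ 1) ∧
    (∀ i, |ξ i - ζ i| ≤ δ) ∧ |t - s| ≤ δ ∧ MvPolynomial.aeval ξ f = (h * t) ^ b ∧
    2 * γ * h ^ b ≤ |MvPolynomial.aeval ξ (MvPolynomial.pderiv i₀ f)|

/-- the data of a class of covers -/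
def ClassC (e b w : ℕ) (γ η h : ℝ) (Q N : ℕ) (c : ι → ℤ) (cω : ℤ) (ζ : ι → ℝ) (s δ : ℝ)
    (f : MvPolynomial ι ℤ) : Prop :=
  ∃ (S J : ℕ) (xc v : ι → ℤ) (ωc : ℤ) (ξ : ι → ℝ) (t : ℝ) (i₀ : ι),
    PData w (f - MvPolynomial.C (ωc ^ b)) S J xc v ∧ S * J = Q ∧ (N : ℤ) ∣ S ∧
    (∀ i, (N : ℤ) ∣ xc i - c i) ∧ (N : ℤ) ∣ ωc - cω ∧ (∀ i, |ξ i - ζ i| ≤ δ) ∧ |t - s| ≤ δ ∧
    RDataC e b h γ η f ξ t i₀

/-- The cover `z ^ b = f(x)` has points over the real numbers and over all the `p`-adic fields. -/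
def ElsC (b : ℕ) (f : MvPolynomial ι ℤ) : Prop :=
  (∃ (x : ι → ℝ) (z : ℝ), x ≠ 0 ∧ MvPolynomial.aeval x f = z ^ b) ∧
    ∀ (p : ℕ) [Fact p.Prime], ∃ (x : ι → ℚ_[p]) (z : ℚ_[p]), x ≠ 0 ∧
      MvPolynomial.aeval x f = z ^ b

/-- Weak approximation for the cover `z ^ b = f(x)` (`deg f = b l`, coefficients of size `H`), with
precision `1 / m` at the real place and at the primes up to `m`. -/
def WAC (b l m : ℕ) (H : ℝ) (f : MvPolynomial ι ℤ) : Prop :=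
  ∀ (x : ∀ (p : ℕ) [Fact p.Prime], ι → ℚ_[p]) (z : ∀ (p : ℕ) [Fact p.Prime], ℚ_[p])
    (y : ι → ℝ) (u : ℝ),
    (∀ (p : ℕ) [Fact p.Prime], x p ≠ 0 ∧ MvPolynomial.aeval (x p) f = z p ^ b) → y ≠ 0 →
    MvPolynomial.aeval y f = u ^ b →
    ∃ (a : ι → ℚ) (ω : ℚ), a ≠ 0 ∧ MvPolynomial.aeval a f = ω ^ b ∧
      (∀ (p : ℕ) [Fact p.Prime], p ≤ m → ∃ c : ℚ_[p], c ≠ 0 ∧
        (∀ i, ‖x p i - c * (a i : ℚ_[p])‖ ≤ ‖x p‖ / m) ∧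
        ‖z p - c ^ l * (ω : ℚ_[p])‖ ≤ ‖x p‖ ^ l / m) ∧
      ∃ c : ℝ, c ≠ 0 ∧ (∀ i, |y i - c * (a i : ℝ)| ≤ ‖y‖ / m) ∧
        |u - c ^ l * (ω : ℝ)| ≤ H ^ (1 / (b : ℝ)) * ‖y‖ ^ l / m

end

end Pool.Agent.H90Q
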