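import Pool.Agent.H90Q.Stm3

/-!
# Project H90Q, phase 2, piece SM3: the second moment for surfaces

Port of `t_SM` (`H90Q/SM.lean`, helper58), the sum over `ω`, `ω'` being inside.
-/

set_option autoImplicit false

namespace Pool.Agent.H90Q

open Pool.Agent.Y716.Q

section

variable {ι : Type} [Fintype ι]

open scoped Classical in
theorem sm3_np {X : Finset (ι → ℤ)} {p : (ι → ℤ) × (ι → ℤ)} (hp : p ∈ npPairs X) :
    p.1 ∈ X ∧ p.2 ∈ X ∧ ∃ i j, mn p.1 p.2 i j ≠ 0 := by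
  unfold npPairs at hp
  rw [Finset.mem_filter, Finset.mem_product] at hp
  exact ⟨hp.1.1, hp.1.2, hp.2⟩

omit [Fintype ι] in
/-- The multiplier is coprime to the modulus. -/
theorem sm3_coprime {x y : ι → ℤ} (hy : Prim y) {D lam : ℤ} (h : ∀ i, D ∣ y i - lam * x i) :
    IsCoprime lam D := by
  rw [Int.isCoprime_iff_gcd_eq_one]
  have h1 : IsUnit ((Int.gcd lam D : ℕ) : ℤ) := by
    refine hy _ (fun i => ?_)
    have h2 : ((Int.gcd lam D : ℕ) : ℤ) ∣ y i - lam * x i := (Int.gcd_dvd_right _ _).trans (h i)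
    have h3 : ((Int.gcd lam D : ℕ) : ℤ) ∣ lam * x i := (Int.gcd_dvd_left _ _).mul_right _
    have h4 := dvd_add h2 h3
    rwa [sub_add_cancel] at h4
  rcases Int.isUnit_iff.mp h1 with h2 | h2
  · exact_mod_cast h2
  · omega

/-- There are no forms with the given values if the congruence does not hold. -/
theorem sm3_zero (hCMP : S_CMP ι) {e b l S J : ℕ} {fc : MvPolynomial ι ℤ} {x y : ι → ℤ} {A : ℝ}
    {D lam ω ω' ux uy : ℤ} (hebl : e + 2 = b * l) (hfc : fc.IsHomogeneous (e + 2))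
    (hD : ∀ i, D ∣ y i - lam * x i)
    (hx : MvPolynomial.eval x (fc - MvPolynomial.C (ω ^ b)) = -(((S * J : ℕ) : ℤ) * ux))
    (hy : MvPolynomial.eval y (fc - MvPolynomial.C (ω' ^ b)) = -(((S * J : ℕ) : ℤ) * uy))
    (hne : ¬ D ∣ ω' ^ b - (lam ^ l) ^ b * ω ^ b) : c2t e A x y ux uy = 0 := by
  classical
  by_contra h
  unfold c2t at h
  obtain ⟨g, hg⟩ := Finset.card_ne_zero.mp h
  rw [Finset.mem_filter] at hg
  obtain ⟨hg1, hg2, hg3⟩ := hg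
  have hgh : g.IsHomogeneous (e + 2) := (mem_formsZ.mp hg1).1
  rw [map_sub, MvPolynomial.eval_C] at hx hy
  have h1 : MvPolynomial.eval x (mem' fc S J g) = ω ^ b := by
    unfold mem'
    rw [map_add, map_mul, MvPolynomial.eval_C, hg2]
    linarith
  have h2 : MvPolynomial.eval y (mem' fc S J g) = ω' ^ b := by
    unfold mem'
    rw [map_add, map_mul, MvPolynomial.eval_C, hg3]
    linarith
  exact hne (hCMP e b l S J fc g x y D lam ω ω' hebl hfc hgh hD h1 h2)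

end

/-- **SM3.** -/
theorem t_SM3 : S_SM3 := by
  classical
  intro hGS hCMP hTLA hTLB e b l hebl
  obtain ⟨CA, hCA, htA⟩ := hTLA
  obtain ⟨CB, hCB, htB⟩ := hTLB
  obtain ⟨k, hk⟩ : ∃ k, Fintype.card (Fin 3) = k := ⟨_, rfl⟩
  have hk0 : 0 < k := by
    rw [← hk, Fintype.card_fin]
    norm_num
  obtain ⟨c, hc⟩ : ∃ c, c1pt k (e + 1) = c := ⟨_, rfl⟩
  have hc0 : 0 < c := by rw [← hc]; unfold c1pt; positivity
  obtain ⟨c', hc'⟩ : ∃ c', cker k e = c' := ⟨_, rfl⟩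
  have hc'0 : 0 < c' := by rw [← hc']; unfold cker c1pt; positivity
  refine ⟨4 * c * c' * (CA + CB), by positivity, ?_⟩
  intro w hw W θ CW δW fc hfc S J hS hJ xc P ξ i₀ ρ ρ' B a A A₂ Δ T ha haB hT hθ hCW hδW Lg hLg u hu
    N hTN K hKdef hΔ hΔK hA haA haA2 R₁ E R₂ hR₂ hE hL1 hL2 hED hcp1 hcp2
  rw [hk, hc] at haA
  rw [hk, hc'] at haA2
  have hB : 1 ≤ B := ha.trans haB
  have hB0 : 0 < B := by linarith
  have hT0 : 0 < T := by linarith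
  have hAp : 0 < A := lt_of_lt_of_le (by positivity : 0 < 2 * c * a) haA
  have hK0 : 0 < K := by
    rw [hKdef]
    apply pow_pos
    apply Finset.prod_pos
    intro p hp
    exact (Finset.mem_filter.mp hp).2.pos
  set X' := testSet B a P ξ i₀ ρ ρ' S xc with hX'
  have hdata : ∀ p : (Fin 3 → ℤ) × (Fin 3 → ℤ), (∃ i j, mn p.1 p.2 i j ≠ 0) →
      ∃ (g : ℤ) (μ : ℝ), g ≠ 0 ∧ (∀ i j, g ∣ mn p.1 p.2 i j) ∧
      (∀ D, (∀ i j, D ∣ mn p.1 p.2 i j) → D ∣ g) ∧ 0 < μ ∧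
      (∃ i j, μ ≤ |(mn p.1 p.2 i j : ℝ)|) ∧
      (∀ i j, |(mn p.1 p.2 i j : ℝ)| ≤ μ) ∧ |(g : ℝ)| ≤ μ := fun p hp => exists_gcd_data hp
  choose! gf μf hg0 hg1 hg2 hg3 hg4 hg5 hg6 using hdata
  set Np := npPairs X' with hNp
  set Gd := Np.filter (fun p => B ^ 2 * |(gf p : ℝ)| ≤ T * μf p) with hGd
  set Tl := Np.filter (fun p => ¬ B ^ 2 * |(gf p : ℝ)| ≤ T * μf p) with hTl
  have hNp' : ∀ p ∈ Np, p.1 ∈ X' ∧ p.2 ∈ X' ∧ ∃ i j, mn p.1 p.2 i j ≠ 0 := by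
    intro p hp
    exact sm3_np hp
  have hμB : ∀ p ∈ Np, μf p ≤ 2 * B ^ 2 := by
    intro p hp
    obtain ⟨h1, h2, h3⟩ := hNp' p hp
    obtain ⟨i, j, hij⟩ := hg4 p h3
    refine hij.trans ?_
    obtain ⟨_, hx, _⟩ := mem_testSet.mp h1
    obtain ⟨_, hy, _⟩ := mem_testSet.mp h2
    unfold mn
    push_cast
    refine (abs_sub _ _).trans ?_
    rw [abs_mul, abs_mul]
    have e1 : |(p.1 i : ℝ)| * |(p.2 j : ℝ)| ≤ B * B :=
      mul_le_mul (hx.1 i) (hy.1 j) (abs_nonneg _) hB0.le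
    have e2 : |(p.1 j : ℝ)| * |(p.2 i : ℝ)| ≤ B * B :=
      mul_le_mul (hx.1 j) (hy.1 i) (abs_nonneg _) hB0.le
    linarith [sq B]
  have hsum : (∑ ω ∈ W, ∑ ω' ∈ W, ∑ p ∈ Np, (c2t e A p.1 p.2 (u ω p.1) (u ω' p.2) : ℝ)) =
      (∑ ω ∈ W, ∑ ω' ∈ W, ∑ p ∈ Gd, (c2t e A p.1 p.2 (u ω p.1) (u ω' p.2) : ℝ)) +
        ∑ p ∈ Tl, ∑ ω ∈ W, ∑ ω' ∈ W, (c2t e A p.1 p.2 (u ω p.1) (u ω' p.2) : ℝ) := by
    have h1 : ∑ p ∈ Tl, ∑ ω ∈ W, ∑ ω' ∈ W, (c2t e A p.1 p.2 (u ω p.1) (u ω' p.2) : ℝ) =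
        ∑ ω ∈ W, ∑ ω' ∈ W, ∑ p ∈ Tl, (c2t e A p.1 p.2 (u ω p.1) (u ω' p.2) : ℝ) := by
      rw [Finset.sum_comm]
      refine Finset.sum_congr rfl fun ω _ => ?_
      rw [Finset.sum_comm]
    rw [h1, ← Finset.sum_add_distrib]
    refine Finset.sum_congr rfl fun ω _ => ?_
    rw [← Finset.sum_add_distrib]
    refine Finset.sum_congr rfl fun ω' _ => ?_
    rw [← Finset.sum_filter_add_sum_filter_not _ (fun p => B ^ 2 * |(gf p : ℝ)| ≤ T * μf p)]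
  -- good pairs
  have hGdb : (∑ ω ∈ W, ∑ ω' ∈ W, ∑ p ∈ Gd, (c2t e A p.1 p.2 (u ω p.1) (u ω' p.2) : ℝ)) ≤
      (formsZ (Fin 3) (e + 2) A).card * E * (θ * (W.card : ℝ) ^ 2) * (1 + 2 / Real.sqrt w) := by
    apply hGS e b l w hw hebl W θ fc hfc S J hS hJ xc P ξ i₀ ρ ρ' B a A A₂ Δ (1 / T) ha haB
      (by positivity : 0 < 1 / T) hθ Lg hLg u hu K N hK0 hΔ hΔK hA R₁ E R₂ hR₂ hE hL1 hL2 hED hcp1
    intro p hp
    rw [hGd, Finset.mem_filter] at hp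
    obtain ⟨h1, h2, h3⟩ := hNp' p hp.1
    refine ⟨h1, h2, ?_⟩
    have hgne := hg0 p h3
    have hg1' : 1 ≤ |(gf p : ℝ)| := by
      have := Int.one_le_abs hgne
      exact_mod_cast this
    have hgN : (gf p).natAbs ≤ N := by
      have h4 : |(gf p : ℝ)| ≤ 2 * T := by
        have h5 := hp.2.trans (mul_le_mul_of_nonneg_left (hμB p hp.1) hT0.le)
        have h6 : B ^ 2 * |(gf p : ℝ)| ≤ B ^ 2 * (2 * T) := by linarith
        exact le_of_mul_le_mul_left h6 (by positivity)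
      have h5 : (((gf p).natAbs : ℕ) : ℝ) ≤ (N : ℝ) := by
        rw [Nat.cast_natAbs, Int.cast_abs]
        exact h4.trans hTN
      exact_mod_cast h5
    have hgN2 : (gf p).natAbs ≤ 2 ^ N := hgN.trans (Nat.lt_two_pow_self).le
    obtain ⟨D, hD1, hD2, hD3, hD4⟩ := exists_coprime_part w N (Int.natAbs_ne_zero.mpr hgne) hgN2
    refine ⟨D, gf p, hgne, hg1 p h3, hg2 p h3, ?_, hD1, ?_, ?_, ?_, hD4⟩
    · obtain ⟨i, j, hij⟩ := hg4 p h3
      refine ⟨i, j, le_trans ?_ hij⟩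
      rw [one_div, inv_mul_le_iff₀ hT0]
      refine le_trans ?_ hp.2
      exact le_mul_of_one_le_right (by positivity) hg1'
    · exact (Nat.le_of_dvd (Int.natAbs_pos.mpr hgne) hD2).trans hgN
    · exact Int.natCast_dvd.mpr hD2
    · rw [← hKdef] at hD3
      have := Int.natAbs_dvd_natAbs (a := gf p) (b := ((K * D : ℕ) : ℤ))
      rw [Int.natAbs_natCast] at this
      have h7 := this.mp hD3
      push_cast at h7
      exact h7
  -- tail pairs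
  obtain ⟨G₃, hG₃⟩ : ∃ x : ℝ, x = ((formsZ (Fin 3) (e + 2) (3 * A)).card : ℝ) := ⟨_, rfl⟩
  have hG₃0 : 0 ≤ G₃ := by rw [hG₃]; positivity
  obtain ⟨L, hL⟩ : ∃ x : ℝ, x = (W.card : ℝ) := ⟨_, rfl⟩
  have hL0 : 0 ≤ L := by rw [hL]; positivity
  obtain ⟨M, hM⟩ : ∃ x : ℝ, x = 4 * c * c' * G₃ / (A ^ 2 * B ^ (2 * e + 4)) := ⟨_, rfl⟩
  have hM0 : 0 ≤ M := by rw [hM]; positivity
  have h1 : ∀ p ∈ Tl, ∑ ω ∈ W, ∑ ω' ∈ W, (c2t e A p.1 p.2 (u ω p.1) (u ω' p.2) : ℝ) ≤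
      CW * L ^ 2 * M * (B ^ 2 * |(gf p : ℝ)| / μf p * (1 / Real.sqrt |(gf p : ℝ)|)) +
        CW * L ^ 2 * M * δW * (B ^ 2 * |(gf p : ℝ)| / μf p) := by
    intro p hp
    rw [hTl, Finset.mem_filter] at hp
    obtain ⟨h1, h2, h3⟩ := hNp' p hp.1
    obtain ⟨hx1, hx2, hx3, hx4⟩ := mem_testSet.mp h1
    obtain ⟨hy1, hy2, hy3, hy4⟩ := mem_testSet.mp h2
    have hμ0 := hg3 p h3
    have hgpos : 0 < (gf p).natAbs := Int.natAbs_pos.mpr (hg0 p h3)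
    obtain ⟨lam, -, hlam⟩ := exists_lambda hx3 hgpos (fun i j =>
      Int.natAbs_dvd.mpr (hg1 p h3 i j))
    have hcop : IsCoprime ((lam : ℕ) : ℤ) (((gf p).natAbs : ℕ) : ℤ) := sm3_coprime hy3 hlam
    have hMp : ∀ ω ω' : ℤ, (c2t e A p.1 p.2 (u ω p.1) (u ω' p.2) : ℝ) ≤
        M * (B ^ 2 * |(gf p : ℝ)| / μf p) := by
      intro ω ω'
      have key := cnt2_le (A := A) e hx4 hx2 hx3 hy4 hy2 ha haB (hg0 p h3) (hg1 p h3) (hg2 p h3) hμ0
        (hg4 p h3) hLg (by rw [hk, hc]; exact haA) (by rw [hk, hc']; exact haA2) (u ω p.1)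
        (u ω' p.2)
      rw [hk, hc, hc', ← hG₃] at key
      rw [← le_div_iff₀ (by positivity)] at key
      refine key.trans (le_of_eq ?_)
      have : B ^ (2 * e + 4) = B ^ (e + 2) * B ^ e * B ^ 2 := by
        rw [← pow_add, ← pow_add]; congr 1; ring
      rw [hM, this]
      field_simp
    have e1 : ∑ ω ∈ W, ∑ ω' ∈ W, (c2t e A p.1 p.2 (u ω p.1) (u ω' p.2) : ℝ) =
        ∑ q ∈ (W ×ˢ W).filter (fun q => (((gf p).natAbs : ℕ) : ℤ) ∣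
          q.2 ^ b - (((lam : ℕ) : ℤ) ^ l) ^ b * q.1 ^ b),
          (c2t e A p.1 p.2 (u q.1 p.1) (u q.2 p.2) : ℝ) := by
      rw [Finset.sum_filter_of_ne]
      · rw [Finset.sum_product]
      · intro q hq hne
        by_contra hnd
        apply hne
        rw [Finset.mem_product] at hq
        have h4 := sm3_zero (A := A) hCMP hebl hfc hlam (hu q.1 hq.1 p.1 hx1) (hu q.2 hq.2 p.2 hy1)
          hnd
        rw [h4, Nat.cast_zero]
    have e2 : ∑ q ∈ (W ×ˢ W).filter (fun q => (((gf p).natAbs : ℕ) : ℤ) ∣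
          q.2 ^ b - (((lam : ℕ) : ℤ) ^ l) ^ b * q.1 ^ b),
          (c2t e A p.1 p.2 (u q.1 p.1) (u q.2 p.2) : ℝ) ≤
        (cpt W b (((gf p).natAbs : ℕ) : ℤ) ((((lam : ℕ) : ℤ) ^ l) ^ b) : ℝ) *
          (M * (B ^ 2 * |(gf p : ℝ)| / μf p)) := by
      have h5 := Finset.sum_le_card_nsmul ((W ×ˢ W).filter (fun q => (((gf p).natAbs : ℕ) : ℤ) ∣
          q.2 ^ b - (((lam : ℕ) : ℤ) ^ l) ^ b * q.1 ^ b))
          (fun q => (c2t e A p.1 p.2 (u q.1 p.1) (u q.2 p.2) : ℝ))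
          (M * (B ^ 2 * |(gf p : ℝ)| / μf p)) (fun q _ => hMp q.1 q.2)
      rw [nsmul_eq_mul] at h5
      exact h5
    rw [e1]
    refine e2.trans ?_
    have h6 := hcp2 (gf p).natAbs hgpos lam hcop
    have h6' : Real.sqrt (((gf p).natAbs : ℕ) : ℝ) = Real.sqrt |(gf p : ℝ)| := by
      rw [Nat.cast_natAbs, Int.cast_abs]
    rw [h6', ← hL] at h6
    have h7 : 0 ≤ M * (B ^ 2 * |(gf p : ℝ)| / μf p) := by positivity
    refine (mul_le_mul_of_nonneg_right h6 h7).trans (le_of_eq ?_)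
    ring
  have hdat : ∀ p ∈ Tl, GDat B p (gf p) (μf p) ∧ T * μf p < B ^ 2 * |(gf p : ℝ)| := by
    intro p hp
    rw [hTl, Finset.mem_filter] at hp
    obtain ⟨h1, h2, h3⟩ := hNp' p hp.1
    obtain ⟨hx1, hx2, hx3, hx4⟩ := mem_testSet.mp h1
    obtain ⟨hy1, hy2, hy3, hy4⟩ := mem_testSet.mp h2
    exact ⟨⟨hx2, hy2, hx3, hy3, hg0 p h3, hg1 p h3, hg2 p h3, hg3 p h3, hg4 p h3, hg5 p h3⟩,
      not_le.mp hp.2⟩
  have hTlb : ∑ p ∈ Tl, ∑ ω ∈ W, ∑ ω' ∈ W, (c2t e A p.1 p.2 (u ω p.1) (u ω' p.2) : ℝ) ≤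
      CW * L ^ 2 * M * (CA * B ^ 6 / Real.sqrt T) +
        CW * L ^ 2 * M * δW * (CB * B ^ 6 * (1 + Real.log B)) := by
    refine (Finset.sum_le_sum h1).trans ?_
    rw [Finset.sum_add_distrib, ← Finset.mul_sum, ← Finset.mul_sum]
    refine add_le_add ?_ ?_
    · exact mul_le_mul_of_nonneg_left (htA B T hB hT Tl gf μf hdat) (by positivity)
    · exact mul_le_mul_of_nonneg_left (htB B hB Tl gf μf (fun p hp => (hdat p hp).1))
        (by positivity)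
  have hsT : 0 < Real.sqrt T := Real.sqrt_pos.mpr hT0
  have hlog : 0 ≤ Real.log B := Real.log_nonneg hB
  rw [hsum, ← hG₃, ← hL]
  refine add_le_add (by rw [hL]; exact hGdb) (hTlb.trans ?_)
  obtain ⟨U, hU⟩ : ∃ x : ℝ, x = 4 * c * c' * CW * G₃ * B ^ 6 * L ^ 2 / (A ^ 2 * B ^ (2 * e + 4)) :=
    ⟨_, rfl⟩
  have hU0 : 0 ≤ U := by rw [hU]; positivity
  have e1 : CW * L ^ 2 * M * (CA * B ^ 6 / Real.sqrt T) = U * CA * (1 / Real.sqrt T) := by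
    rw [hU, hM]
    ring
  have e2 : CW * L ^ 2 * M * δW * (CB * B ^ 6 * (1 + Real.log B)) =
      U * CB * (δW * (1 + Real.log B)) := by
    rw [hU, hM]
    ring
  have e3 : 4 * c * c' * (CA + CB) * CW * G₃ * B ^ 6 * L ^ 2 / (A ^ 2 * B ^ (2 * e + 4)) *
      (1 / Real.sqrt T + δW * (1 + Real.log B)) =
      U * (CA + CB) * (1 / Real.sqrt T + δW * (1 + Real.log B)) := by
    rw [hU]
    ring
  rw [e1, e2, e3]
  have h8 : 0 ≤ U * CB * (1 / Real.sqrt T) := by positivity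
  have h9 : 0 ≤ U * CA * (δW * (1 + Real.log B)) := by positivity
  have e4 : U * (CA + CB) * (1 / Real.sqrt T + δW * (1 + Real.log B)) =
      U * CA * (1 / Real.sqrt T) + U * CB * (δW * (1 + Real.log B)) +
      (U * CB * (1 / Real.sqrt T) + U * CA * (δW * (1 + Real.log B))) := by ring
  rw [e4]
  linarith

end Pool.Agent.H90Q
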