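import Pool.Agent.H90Q.Defs

/-!
# Project H90Q: 100% of the Fano cyclic covers `ω ^ b = f(x)` of `ℙⁿ` over `ℚ`

Everything is a port of `Pool/Agent/Y716/Q` (one form `f`, zeros of `f`) to the equation
`f(x) = ω ^ b`, where `deg f = e + 2 = b l` and `ω` runs through a finite set `W` of integers of size
about `h P ^ l`, `h = H ^ (1 / b)`. For a fixed `ω` the polynomial `F ω = fc - ω ^ b` satisfies the same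
`p`-adic and real conditions (`PData`, `SlopeCond`) as the form `fc` in `Y716/Q`, neither of which needs
homogeneity; the second moment is a sum over pairs `(ω, ω')`.
-/

namespace Pool.Agent.H90Q

open Pool.Agent.Y716.Q

/-- **RC** (port of `real_class`, `Y716/Q/RealClass.lean`). The only change: the centre of the form is
not `≈ 0` but `≈ t / P ^ (e + 2)`, and `σ` does not depend on `t` and `g`. In the proof replace `f` by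
`fc + g` and subtract the constant `t` from the values (slopes do not change:
`aeval x (f - C t) = aeval x f - t`); the bound `hξPf` becomes
`|aeval (P ξ) (fc + g) - t| ≤ (M + 1 + C₂) (η H) P ^ (e + 2)`, so in the constant `C` write
`M + 1` for `M`. -/
def S_RC (ι : Type) [Fintype ι] (e : ℕ) : Prop :=
  ∃ C : ℝ, 1 ≤ C ∧
    ∀ (H γ η θ ρ ρ' P : ℝ) (fc : MvPolynomial ι ℤ) (ξ : ι → ℝ) (i₀ : ι),
    IsF (e + 2) (2 * H) fc → (∀ i, |ξ i| ≤ 1) → (∃ r, ξ r = 1) →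
    γ * H ≤ |MvPolynomial.aeval ξ (MvPolynomial.pderiv i₀ fc)| →
    0 < H → 0 < γ → 0 < η → η ≤ 1 → 0 < θ →
    θ ≤ 1 / 2 → 0 < ρ → ρ ≤ ρ' → ρ' ≤ 1 → 0 < P → C * (ρ' + η) ≤ θ * γ → C * (ρ + η) ≤ γ * ρ' →
    ∃ σ : ℝ, |σ| = 1 ∧ ∀ t : ℤ,
      |P ^ (e + 2) * MvPolynomial.aeval ξ fc - t| ≤
        ((mons ι (e + 2)).card + 1) * (η * H) * P ^ (e + 2) →
      ∀ g : MvPolynomial ι ℤ, IsF (e + 2) (η * H) g →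
      SlopeCond σ ((1 - θ) * (|MvPolynomial.aeval ξ (MvPolynomial.pderiv i₀ fc)| * P ^ (e + 1)))
        ((1 + θ) * (|MvPolynomial.aeval ξ (MvPolynomial.pderiv i₀ fc)| * P ^ (e + 1)))
        (η * H * P ^ (e + 2)) P ξ i₀ ρ ρ' (fc + g - MvPolynomial.C t)

/-- **WS** (the sets `W`). Put `δ = min η (η / (b (s₀ + 1) ^ (b - 1)))` (and `δ ≤ 1`). If `s ≥ 0` let `W`
be the set of the integers `ω ≡ ωc mod Q` in `(X s, X (s + δ)]`, if `s < 0` in `[X (s - δ), X s)`. These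
are all positive (negative). `|ω ^ b - (X s) ^ b| ≤ b |ω - X s| (X (s₀ + 1)) ^ (b - 1) ≤ η X ^ b`
(`abs_pow_sub_pow_le` or an induction). The number of elements is at least `δ X / Q - 1 ≥ δ X / (2 Q₀)`
as soon as `X ≥ h₀ := 2 Q₀ / δ`; take `cW = δ / (2 Q₀)`. -/
def S_WS : Prop :=
  ∀ (b : ℕ), 1 ≤ b → ∀ (Q₀ : ℕ), 1 ≤ Q₀ → ∀ (η s₀ : ℝ), 0 < η → 0 ≤ s₀ →
    ∃ cW h₀ : ℝ, 0 < cW ∧ 0 < h₀ ∧
    ∀ (X s : ℝ) (Q : ℕ) (ωc : ℤ), h₀ ≤ X → |s| ≤ s₀ → 1 ≤ Q → Q ≤ Q₀ →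
    ∃ W : Finset ℤ, (∀ ω ∈ W, (Q : ℤ) ∣ ω - ωc) ∧ ((∀ ω ∈ W, 0 < ω) ∨ (∀ ω ∈ W, ω < 0)) ∧
      (∀ ω ∈ W, |(ω : ℝ) - X * s| ≤ η * X) ∧
      (∀ ω ∈ W, |(ω : ℝ) ^ b - (X * s) ^ b| ≤ η * X ^ b) ∧ cW * X ≤ W.card

/-- **GS** (port of `good_sum_D` in `Y716/Q/Good.lean` and `good_sum` in `Y716/Q/Moment.lean`, with two
centres `fc`, `fc'` and two functions `u`, `u'`, the first one for `p.1`, the second one for `p.2`;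
`cnt2_cond` is already stated for two arbitrary values). The bound of the pairs of `g` uses the set
`locSet` of `mem' fc S J g` for `p.1` (bound `R₁`) and that of `mem' fc' S J g` for `p.2`
(bound `R₂ D`). -/
def S_GS (ι : Type) [Fintype ι] : Prop :=
  ∀ (e w : ℕ), 1 ≤ w → ∀ (fc fc' : MvPolynomial ι ℤ) (S J : ℕ) (xc : ι → ℤ)
    (P : ℝ) (ξ : ι → ℝ) (i₀ : ι) (ρ ρ' B a A A₂ Δ κ : ℝ), 1 ≤ a → a ≤ B → 0 < κ →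
    ∀ Lg : ℝ, (∀ s : ℕ, (s : ℝ) ≤ 15 * (Fintype.card ι) ^ 2 * a * B → (Nat.log 2 s : ℝ) ≤ Lg) →
    ∀ (u u' : (ι → ℤ) → ℤ),
    (∀ x ∈ box P ξ i₀ ρ ρ' S xc, MvPolynomial.eval x fc = -(((S * J : ℕ) : ℤ) * u x)) →
    (∀ x ∈ box P ξ i₀ ρ ρ' S xc, MvPolynomial.eval x fc' = -(((S * J : ℕ) : ℤ) * u' x)) →
    ∀ (K N : ℕ), 0 < K → 0 ≤ Δ → K * N ≤ Δ →
    A + (c1pt (Fintype.card ι) (e + 1) + cker (Fintype.card ι) e *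
      (1 + (mons ι (e + 2)).card * c1pt (Fintype.card ι) (e + 1)) / κ) *
      (Δ / B ^ (e + 2) + K * a) + cker (Fintype.card ι) e * ((1 + Lg) * a ^ 2) ≤ A₂ →
    ∀ (R₁ E : ℝ) (R₂ : ℕ → ℝ), (∀ D, 0 ≤ R₂ D) → 0 ≤ E →
    (∀ g ∈ formsZ ι (e + 2) A₂,
      ((locSet P ξ i₀ ρ ρ' S J xc (mem' fc S J g) K 1 0 ((S * J : ℕ) * Δ)).card : ℝ) ≤ R₁) →
    (∀ D : ℕ, 0 < D → D ≤ N → (∀ q : ℕ, q.Prime → q ≤ w → ¬ q ∣ D) →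
      ∀ g ∈ formsZ ι (e + 2) A₂, ∀ ζ,
      ((locSet P ξ i₀ ρ ρ' S J xc (mem' fc' S J g) K D ζ ((S * J : ℕ) * Δ)).card : ℝ) ≤ R₂ D) →
    (∀ D : ℕ, 0 < D → D ≤ N → (formsZ ι (e + 2) A₂).card * (R₁ * (D * R₂ D)) ≤
      (formsZ ι (e + 2) A).card * (E * (1 / (D : ℝ) ^ 2)) *
        ((2 * Δ / K - 1) * (2 * Δ / (K * D) - 1))) →
    ∀ (Gd : Finset ((ι → ℤ) × (ι → ℤ))),
    (∀ p ∈ Gd, p.1 ∈ testSet B a P ξ i₀ ρ ρ' S xc ∧ p.2 ∈ testSet B a P ξ i₀ ρ ρ' S xc ∧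
      ∃ D, GoodPair w K N B κ p D) →
    ∑ p ∈ Gd, (c2t e A p.1 p.2 (u p.1) (u' p.2) : ℝ) ≤
      (formsZ ι (e + 2) A).card * E * (1 + 1 / w)

/-- the conclusion of the second moment computation with two targets -/
def SMT (ι : Type) [Fintype ι] (e : ℕ) (Ct : ℝ) : Prop :=
  ∀ (w : ℕ), 1 ≤ w → ∀ (fc fc' : MvPolynomial ι ℤ) (S J : ℕ) (xc : ι → ℤ)
    (P : ℝ) (ξ : ι → ℝ) (i₀ : ι) (ρ ρ' B a A A₂ Δ T : ℝ), 1 ≤ a → a ≤ B → 1 ≤ T →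
    ∀ Lg : ℝ, (∀ s : ℕ, (s : ℝ) ≤ 15 * (Fintype.card ι) ^ 2 * a * B → (Nat.log 2 s : ℝ) ≤ Lg) →
    ∀ (u u' : (ι → ℤ) → ℤ),
    (∀ x ∈ box P ξ i₀ ρ ρ' S xc, MvPolynomial.eval x fc = -(((S * J : ℕ) : ℤ) * u x)) →
    (∀ x ∈ box P ξ i₀ ρ ρ' S xc, MvPolynomial.eval x fc' = -(((S * J : ℕ) : ℤ) * u' x)) →
    ∀ (N : ℕ), 2 * T ≤ N → ∀ (K : ℕ),
    K = (∏ p ∈ (Finset.range (w + 1)).filter Nat.Prime, p) ^ N → 0 ≤ Δ → K * N ≤ Δ →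
    A + (c1pt (Fintype.card ι) (e + 1) + cker (Fintype.card ι) e *
      (1 + (mons ι (e + 2)).card * c1pt (Fintype.card ι) (e + 1)) / (1 / T)) *
      (Δ / B ^ (e + 2) + K * a) + cker (Fintype.card ι) e * ((1 + Lg) * a ^ 2) ≤ A₂ →
    2 * c1pt (Fintype.card ι) (e + 1) * a ≤ A →
    2 * cker (Fintype.card ι) e * ((1 + Lg) * a ^ 2) ≤ A →
    ∀ (R₁ E : ℝ) (R₂ : ℕ → ℝ), (∀ D, 0 ≤ R₂ D) → 0 ≤ E →
    (∀ g ∈ formsZ ι (e + 2) A₂,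
      ((locSet P ξ i₀ ρ ρ' S J xc (mem' fc S J g) K 1 0 ((S * J : ℕ) * Δ)).card : ℝ) ≤ R₁) →
    (∀ D : ℕ, 0 < D → D ≤ N → (∀ q : ℕ, q.Prime → q ≤ w → ¬ q ∣ D) →
      ∀ g ∈ formsZ ι (e + 2) A₂, ∀ ζ,
      ((locSet P ξ i₀ ρ ρ' S J xc (mem' fc' S J g) K D ζ ((S * J : ℕ) * Δ)).card : ℝ) ≤ R₂ D) →
    (∀ D : ℕ, 0 < D → D ≤ N → (formsZ ι (e + 2) A₂).card * (R₁ * (D * R₂ D)) ≤
      (formsZ ι (e + 2) A).card * (E * (1 / (D : ℝ) ^ 2)) *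
        ((2 * Δ / K - 1) * (2 * Δ / (K * D) - 1))) →
    ∑ p ∈ npPairs (testSet B a P ξ i₀ ρ ρ' S xc), (c2t e A p.1 p.2 (u p.1) (u' p.2) : ℝ) ≤
      (formsZ ι (e + 2) A).card * E * (1 + 1 / w) +
      Ct * (formsZ ι (e + 2) (3 * A)).card * B ^ (2 * Fintype.card ι) /
        (A ^ 2 * B ^ (2 * e + 4) * Real.sqrt T)

/-- **SM** (port of `second_moment` in `Y716/Q/Moment.lean`, assuming `S_GS ι`; the proportional pairs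
are left out, so the last term disappears). -/
def S_SM (ι : Type) [Fintype ι] : Prop :=
  4 ≤ Fintype.card ι → ∀ e : ℕ, ∃ Ct : ℝ, 0 < Ct ∧ SMT ι e Ct

/-- **DG** (the proportional pairs). For fixed `p = (x, y)` and `ω` one has
`∑_{ω'} c2t e A x y (u ω x) (u ω' y) = ∑_{g : g(x) = u ω x} #{ω' ∈ W : u ω' y = g(y)} ≤
b₀ #{g ∈ formsZ (e + 2) A : g(x) = u ω x} ≤ b₀ · 2 c card(formsZ (2 A)) / (A B ^ (e + 2))`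
(`cnt1_le` with `e + 1` for `e`); and `(prPairs X).card ≤ 2 X.card` (the block `hPrb` in the proof of
`second_moment`, lemma `prop_card`). -/
def S_DG (ι : Type) [Fintype ι] : Prop :=
  ∀ (e : ℕ) (W : Finset ℤ) (u : ℤ → (ι → ℤ) → ℤ) (b₀ : ℕ) (X : Finset (ι → ℤ)) (B a A : ℝ),
    1 ≤ Fintype.card ι → 1 ≤ a → 1 ≤ B →
    (∀ x ∈ X, Sz B x ∧ Prim x ∧ Bal B a x) → 2 * c1pt (Fintype.card ι) (e + 1) * a ≤ A →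
    (∀ x ∈ X, ∀ c : ℤ, (W.filter (fun ω => u ω x = c)).card ≤ b₀) →
    (∑ ω ∈ W, ∑ ω' ∈ W, ∑ p ∈ prPairs X, (c2t e A p.1 p.2 (u ω p.1) (u ω' p.2) : ℝ)) ≤
      4 * c1pt (Fintype.card ι) (e + 1) * b₀ * W.card * (formsZ ι (e + 2) (2 * A)).card * X.card /
        (A * B ^ (e + 2))

open scoped Classical in
/-- **CB** (port of `chebyshev_class`, `Y716/Q/Cheb.lean`, with
`Nf g = ∑ ω ∈ W, #{x ∈ X' : eval x g = u ω x}`; its mean is compared with `W.card * E₁`, the lower bound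
of the first moment being applied to every `ω ∈ W` separately). -/
def S_CB (ι : Type) [Fintype ι] : Prop :=
  ∀ (e : ℕ) (W : Finset ℤ) (F : ℤ → MvPolynomial ι ℤ) (S J : ℕ), 0 < S → 0 < J →
    ∀ (xc : ι → ℤ) (P : ℝ) (ξ : ι → ℝ) (i₀ : ι) (ρ ρ' B a A A' Δ : ℝ), 1 ≤ a → 1 ≤ B →
    ∀ (u : ℤ → (ι → ℤ) → ℤ),
    (∀ ω ∈ W, ∀ x ∈ box P ξ i₀ ρ ρ' S xc,
      MvPolynomial.eval x (F ω) = -(((S * J : ℕ) : ℤ) * u ω x)) →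
    0 ≤ Δ → A' + c1pt (Fintype.card ι) (e + 1) * (Δ / B ^ (e + 2) + a) ≤ A →
    ∀ (R E₁ : ℝ), 0 ≤ E₁ →
    (∀ ω ∈ W, ∀ g ∈ formsZ ι (e + 2) A', R ≤
      (((testSet B a P ξ i₀ ρ ρ' S xc).filter (fun x =>
        |((MvPolynomial.eval x (mem' (F ω) S J g) : ℤ) : ℝ)| ≤ (S * J : ℕ) * Δ)).card : ℝ)) →
    E₁ * (formsZ ι (e + 2) A).card * (2 * Δ + 1) ≤ (formsZ ι (e + 2) A').card * R →
    (((formsZ ι (e + 2) A).filter (fun g =>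
      ¬ PtIn W F S J (testSet B a P ξ i₀ ρ ρ' S xc) g)).card : ℝ) * (W.card * E₁) ^ 2 ≤
      (∑ ω ∈ W, ∑ ω' ∈ W,
        ∑ p ∈ (testSet B a P ξ i₀ ρ ρ' S xc) ×ˢ (testSet B a P ξ i₀ ρ ρ' S xc),
          (c2t e A p.1 p.2 (u ω p.1) (u ω' p.2) : ℝ)) -
      (W.card * E₁) ^ 2 * (formsZ ι (e + 2) A).card

open scoped Classical in
/-- **CO1, the core of the class theorem** (port of `class_core`, `Y716/Q/Core.lean`, assuming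
`CoreC2 ι`). The family `F ω`, `ω ∈ W`, replaces `fc`; the functions `u ω` are chosen from
`(hP ω hω).class_dvd`. `hmul`: for every test vector `x` the values `eval x (F ω)`, `ω ∈ W`, are
distinct. -/
def CoreC (ι : Type) [Fintype ι] : Prop :=
  ∀ {k : ℕ}, Fintype.card ι = k → 4 ≤ k → ∀ {e l : ℕ}, e + 3 ≤ k + l → ∀ {M : ℕ},
    (mons ι (e + 2)).card = M → ∀ {c c' Ct Cu : ℝ},
    c1pt k (e + 1) = c → cker k e = c' → 0 < c → 0 < c' → 0 < Ct → 0 < Cu →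
    SMT ι e Ct → UB ι Cu → ∀ {ε τ τ₂ T c₅ δ cR c₀ cW : ℝ}, 0 < ε → 0 < τ → τ ≤ 1 / 2 →
    1 / 2 ≤ (1 - τ) / (1 + τ) * bfun k τ → 0 < bfun k τ →
    (1 + τ) ^ (2 * k + 1) / (1 - τ) ^ 4 * (1 + τ) ≤
      (1 + ε / 2) * ((1 - τ) / (1 + τ) * bfun k τ) ^ 2 →
    ∀ {w : ℕ}, 1 ≤ w → 1 / (w : ℝ) ≤ τ →
    1 ≤ T → 0 < c₀ → 16 * Ct * 4 ^ M * 4 ^ k / (ε * c₀ ^ 2) ≤ Real.sqrt T →
    ∀ {N : ℕ}, 2 * T ≤ N → ∀ {K : ℕ},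
    K = (∏ p ∈ (Finset.range (w + 1)).filter Nat.Prime, p) ^ N → 0 < K →
    0 < τ₂ → τ₂ ≤ 1 / 4 → (1 + 2 * τ₂) ^ M ≤ 1 + τ → 1 - τ ≤ (1 - 2 * τ₂) ^ M →
    c₅ = c + c' * (1 + M * c) / (1 / T) → c ≤ c₅ → 0 < δ → δ ≤ 1 → c₅ * δ = τ₂ / 4 →
    0 < cR → 0 < cW →
    ∀ {N' : ℕ}, 1 ≤ N' → 6 ^ k / (τ * cR) ≤ N' → ∀ {Y A P : ℝ},
    2 ≤ Y → 64 * (k:ℝ) + 3 ≤ Y → 960 * (k:ℝ) ^ 2 * Y ^ 51 < Real.exp Y →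
    2 * (32 * c₅ * K + 3072 * c') / τ₂ ≤ Y → (K * N : ℝ) / (τ * δ) ≤ Y →
    100 * Cu * 4 ^ (k - 1) / (τ * cR) ≤ Y →
    16 * (4 * c) * 3 ^ M * 6 ^ k / (ε * c₀ ^ 2 * cW) ≤ Y → 1 + 1 / τ₂ ≤ Y →
    1 / (τ * δ) ≤ Y → Y ^ 32 = A → P = Y ^ 36 →
    ∀ {W : Finset ℤ} {F : ℤ → MvPolynomial ι ℤ} {S J : ℕ} {xc : ι → ℤ} {v : ℤ → ι → ℤ}
      {ξ : ι → ℝ} {i₀ : ι} {ρ ρ' σ D₀ Δ₀ : ℝ},
    (∀ ω ∈ W, PData w (F ω) S J xc (v ω)) → 0 < S → 0 < J → cW * P ^ l ≤ W.card →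
    (∀ x : ι → ℤ, ∀ ω ∈ W, ∀ ω' ∈ W,
      MvPolynomial.eval x (F ω) = MvPolynomial.eval x (F ω') → ω = ω') →
    0 < ρ → ρ ≤ ρ' → ρ' ≤ 1 / 2 →
    (∀ i, |ξ i| ≤ 1) → (∃ r, ξ r = 1) → |σ| = 1 → 0 < D₀ →
    (∀ ω ∈ W, ∀ A₃ : ℝ, A₃ ≤ 2 * A → ∀ g ∈ formsZ ι (e + 2) A₃,
      SlopeCond σ ((1 - τ) * D₀) ((1 + τ) * D₀) Δ₀ P ξ i₀ ρ ρ' (mem' (F ω) S J g)) →
    ∀ {Δ Δ₁ X₁ X₂ R : ℝ}, Δ = δ * A * P ^ (e + 2) → ((S * J : ℕ) : ℝ) * Δ = Δ₁ →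
    Δ₁ ≤ Δ₀ → X₁ = 2 * ρ * P / S → X₂ = 2 * Δ₁ / (D₀ * S) →
    (K * N + N' : ℝ) ≤ τ * X₁ → 2 * (K * N + N' : ℝ) ≤ τ * X₂ →
    X₁ ^ (k - 1) * X₂ = R → cR * P ^ k ≤ R →
    c₀ * P ^ (k - 1) / (A * P ^ (e + 1)) ≤ R / (2 * Δ) →
    (((formsZ ι (e + 2) A).filter (fun g =>
      ¬ PtIn W F S J (box P ξ i₀ ρ ρ' S xc) g)).card : ℝ) ≤
      ε * (formsZ ι (e + 2) A).card

open scoped Classical in
/-- **CO2, the final assembly** (port of `class_core2`, `Y716/Q/Core2.lean`, assuming `S_DG ι` and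
`S_CB ι`). The second moment is `∑ ω, ∑ ω', (np part) + (pr part)`; the np part is at most
`|W|² (G E (1 + 1 / w) + tail)` by `SMT` (for every pair `(ω, ω')`, with `loc_norm_le` for `F ω` and
`F ω'`), the pr part is at most `4 c |W| G2A |X'| / (A B ^ (e + 2))` by `S_DG` with `b₀ = 1`. Use
`test_lower` for every `F ω`, `S_CB`, and `final_ineq` with `W.card * E₁` for `E₁`. The last term is
treated as in `core_t2`: `|W| ≥ cW P ^ l`, `P ^ (k + l) ≥ P ^ (e + 3)`, `P ≥ A Y`. If `W` is empty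
then `cW * P ^ l ≤ 0` is impossible. -/
def CoreC2 (ι : Type) [Fintype ι] : Prop :=
  ∀ {k : ℕ}, Fintype.card ι = k → 4 ≤ k → ∀ {e l : ℕ}, e + 3 ≤ k + l → ∀ {M : ℕ},
    (mons ι (e + 2)).card = M → ∀ {c c' Ct Cu : ℝ},
    c1pt k (e + 1) = c → cker k e = c' → 0 < c → 0 < Ct → 0 < Cu →
    SMT ι e Ct → UB ι Cu → ∀ {ε τ τ₂ T cR c₀ cW : ℝ}, 0 < ε → 0 < τ → τ ≤ 1 / 2 →
    1 / 2 ≤ (1 - τ) / (1 + τ) * bfun k τ → 0 < bfun k τ →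
    (1 + τ) ^ (2 * k + 1) / (1 - τ) ^ 4 * (1 + τ) ≤
      (1 + ε / 2) * ((1 - τ) / (1 + τ) * bfun k τ) ^ 2 →
    ∀ {w : ℕ}, 1 ≤ w → 1 / (w : ℝ) ≤ τ →
    1 ≤ T → 0 < c₀ → 16 * Ct * 4 ^ M * 4 ^ k / (ε * c₀ ^ 2) ≤ Real.sqrt T →
    ∀ {N : ℕ}, 2 * T ≤ N → ∀ {K : ℕ},
    K = (∏ p ∈ (Finset.range (w + 1)).filter Nat.Prime, p) ^ N → 0 < K →
    0 < cR → 0 < cW →
    ∀ {N' : ℕ}, 1 ≤ N' → 6 ^ k / (τ * cR) ≤ N' → ∀ {Y A P : ℝ},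
    2 ≤ Y → 64 * (k:ℝ) + 3 ≤ Y →
    100 * Cu * 4 ^ (k - 1) / (τ * cR) ≤ Y →
    16 * (4 * c) * 3 ^ M * 6 ^ k / (ε * c₀ ^ 2 * cW) ≤ Y → P = Y ^ 36 →
    ∀ {W : Finset ℤ} {F : ℤ → MvPolynomial ι ℤ} {S J : ℕ} {xc : ι → ℤ} {v : ℤ → ι → ℤ}
      {ξ : ι → ℝ} {i₀ : ι} {ρ ρ' σ D₀ Δ₀ : ℝ},
    (∀ ω ∈ W, PData w (F ω) S J xc (v ω)) → 0 < S → 0 < J → cW * P ^ l ≤ W.card →
    (∀ x : ι → ℤ, ∀ ω ∈ W, ∀ ω' ∈ W,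
      MvPolynomial.eval x (F ω) = MvPolynomial.eval x (F ω') → ω = ω') →
    0 < ρ → ρ ≤ ρ' → ρ' ≤ 1 / 2 →
    (∀ i, |ξ i| ≤ 1) → (∃ r, ξ r = 1) → |σ| = 1 → 0 < D₀ →
    (∀ ω ∈ W, ∀ A₃ : ℝ, A₃ ≤ 2 * A → ∀ g ∈ formsZ ι (e + 2) A₃,
      SlopeCond σ ((1 - τ) * D₀) ((1 + τ) * D₀) Δ₀ P ξ i₀ ρ ρ' (mem' (F ω) S J g)) →
    ∀ {Δ Δ₁ X₁ X₂ R : ℝ}, ((S * J : ℕ) : ℝ) * Δ = Δ₁ →
    Δ₁ ≤ Δ₀ → X₁ = 2 * ρ * P / S → X₂ = 2 * Δ₁ / (D₀ * S) →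
    (K * N + N' : ℝ) ≤ τ * X₁ → 2 * (K * N + N' : ℝ) ≤ τ * X₂ →
    X₁ ^ (k - 1) * X₂ = R → 0 < R → cR * P ^ k ≤ R →
    c₀ * P ^ (k - 1) / (A * P ^ (e + 1)) ≤ R / (2 * Δ) →
    0 < A → 0 < P → 1 ≤ P → A * Y ≤ P → ∀ {m : ℕ} {a : ℝ},
    (m : ℝ) ≤ Y ^ 15 → Y ^ 15 / 2 ≤ (m : ℝ) → 1 ≤ m →
    ((32 : ℕ) : ℝ) * (m : ℝ) = a → 1 ≤ a → a ≤ 2 * P →
    ∀ {u : ℤ → (ι → ℤ) → ℤ},
    (∀ ω ∈ W, ∀ x ∈ box P ξ i₀ ρ ρ' S xc,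
      MvPolynomial.eval x (F ω) = -(((S * J : ℕ) : ℤ) * u ω x)) →
    0 < Δ → 0 < Δ₁ → (K * N : ℝ) ≤ τ * Δ → (K * N : ℝ) ≤ Δ → 1 ≤ τ * Δ →
    A + (c + c' * (1 + M * c) / (1 / T)) * (Δ / (2 * P) ^ (e + 2) + K * a) +
      c' * ((1 + 2 * Y) * a ^ 2) ≤ (1 + τ₂) * A →
    (1 - τ₂) * A + c * (Δ / (2 * P) ^ (e + 2) + a) ≤ A →
    2 * c * a ≤ A → 2 * c' * ((1 + 2 * Y) * a ^ 2) ≤ A →
    (∀ s : ℕ, (s : ℝ) ≤ 15 * (k:ℝ) ^ 2 * a * (2 * P) → (Nat.log 2 s : ℝ) ≤ 2 * Y) →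
    0 < τ₂ → τ₂ ≤ 1 / 4 →
    ∀ {G : ℝ}, ((formsZ ι (e + 2) A).card : ℝ) = G → 0 < G →
    ((formsZ ι (e + 2) ((1 + τ₂) * A)).card : ℝ) ≤ (1 + τ) * G →
    (1 - τ) * G ≤ ((formsZ ι (e + 2) ((1 - τ₂) * A)).card : ℝ) →
    ((formsZ ι (e + 2) (3 * A)).card : ℝ) ≤ 4 ^ M * G →
    ((formsZ ι (e + 2) (2 * A)).card : ℝ) ≤ 3 ^ M * G →
    (((formsZ ι (e + 2) A).filter (fun g =>
      ¬ PtIn W F S J (box P ξ i₀ ρ ρ' S xc) g)).card : ℝ) ≤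
      ε * (formsZ ι (e + 2) A).card

open scoped Classical in
/-- **CT, the class theorem for covers** (port of `class_theorem_of`, `Y716/Q/ClassThm.lean`, assuming
`CoreC ι`, `SMT ι e Ct`, `S_RC ι e`, `S_WS`; `UB` is `unbal_bound`). Write `H = h ^ b`. `|s| ≤ s₀ :=
3 M`, as `(h |s|) ^ b ≤ |fc(ξ)| + M η H ≤ 3 M h ^ b` and `|s| ≤ max 1 (|s| ^ b)` (`M` = number of
monomials, `|fc(ξ)| ≤ M 2 H` by `IsF.aeval_le_one`). With `ρ`, `ρ'`, `η = ρ / 2` as in the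
original (fixed before `h`), take `cW`, `h₀` from `S_WS` for `b`, `Q₀`, `min η η₀`, `s₀`, and
`W` from `S_WS` for `X = h P ^ l` (`h ≥ max h₀ 1`, `P ≥ 1`; `cW P ^ l ≤ cW X`). Then
`F ω = fc - C (ω ^ b)`, `PData` for `F ω` follows from that of `fc - C (ωc ^ b)`:
`S J ∣ ω - ωc ∣ ω ^ b - ωc ^ b`, same derivatives (`v ω = v`); `S_RC` applies with `ρ` for `η` and
`t = ω ^ b`, as `P ^ (e + 2) = (P ^ l) ^ b` and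
`|P ^ (e + 2) fc(ξ) - ω ^ b| ≤ P ^ (e + 2) M η H + η (h P ^ l) ^ b`. The threshold `y9` becomes
`16 (4 c) 3 ^ M 6 ^ k / (ε c₀² cW) ≤ Y`. The values `ω ^ b` are distinct, as all `ω` have the same
sign (`Odd`/`Even` `b`: `|ω| ^ b = |ω'| ^ b`). -/
def S_CLASS (ι : Type) [Fintype ι] (e b l : ℕ) : Prop :=
  ∀ ε : ℝ, 0 < ε →
    ∃ w₀ : ℕ, 1 ≤ w₀ ∧ ∀ w, w₀ ≤ w → ∀ γ : ℝ, 0 < γ → γ ≤ 1 → ∀ Q₀ : ℕ, 1 ≤ Q₀ →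
    ∀ η₀ : ℝ, 0 < η₀ → ∃ η : ℝ, 0 < η ∧ η ≤ 1 ∧ η ≤ η₀ ∧ ∃ h₀ : ℝ, 1 ≤ h₀ ∧ ∀ h : ℝ, h₀ ≤ h →
    ∀ (fc : MvPolynomial ι ℤ) (S J : ℕ) (xc v : ι → ℤ) (ωc : ℤ) (ξ : ι → ℝ) (s : ℝ) (i₀ : ι),
    PData w (fc - MvPolynomial.C (ωc ^ b)) S J xc v → RDataC e b h γ η fc ξ s i₀ → S * J ≤ Q₀ →
    (((formsZ ι (e + 2) (η * h ^ b / (S * J : ℕ))).filter (fun g =>
      ¬ NearC b l η₀ h ξ s S (S * J) xc ωc (mem' fc S J g))).card : ℝ) ≤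
      ε * (formsZ ι (e + 2) (η * h ^ b / (S * J : ℕ))).card

/-- **CT**. -/
def S_CT (ι : Type) [Fintype ι] : Prop :=
  CoreC ι → S_SM ι → (∀ e, S_RC ι e) → S_WS → 4 ≤ Fintype.card ι →
    ∀ e b l : ℕ, 2 ≤ b → 1 ≤ l → e + 2 = b * l → e + 3 ≤ Fintype.card ι + l → S_CLASS ι e b l

/-- **STAB** (the `p`-adic data; from `exists_stable`, `Y716/Q/Extract.lean`). Choose `ωc` by the Chinese
remainder theorem with `ωc ≡ ω_p mod p ^ (2 (ℓ + d))` for all `p ∈ primesUpTo w` (as `hcrt` in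
`exists_stable`) and apply `exists_stable` to the polynomial `F = f - C (ωc ^ b)` with `ℓ + d` for `ℓ`:
`F(x_p) ≡ f(x_p) - ω_p ^ b ≡ 0`. `¬ BadAt (p ^ (ℓ + d)) F`: the derivatives of `F` are those of `f`; if
`p ^ (ℓ + d)` divides all `∂_i f(x)` then it divides `d f(x) = ∑ x_i ∂_i f(x)` (Euler), and as
`p ^ d > d ≥ 1`, `p ^ ℓ ∣ f(x)` (if `p ^ (ℓ + d) ∣ d z` then `p ^ ℓ ∣ z`: valuations), so
`BadAt (p ^ ℓ) f`. `N ∣ ωc - cω` as for `xc` (`dvd_of_prime_pow`). -/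
def S_STAB (ι : Type) [Fintype ι] : Prop :=
  ∀ (w ℓ b d : ℕ), 1 ≤ ℓ → 1 ≤ b → 1 ≤ d → ∀ (f : MvPolynomial ι ℤ), f.IsHomogeneous d →
    ∀ (N : ℕ) (c : ι → ℤ) (cω : ℤ),
    (∀ p a : ℕ, p.Prime → p ^ (a + 1) ∣ N → p ≤ w ∧ a + 1 ≤ ℓ) →
    (∀ p ∈ primesUpTo w, (∃ (r : ι) (x : ι → ℤ) (ω : ℤ), x r = 1 ∧
      (p : ℤ) ^ (2 * (ℓ + d)) ∣ MvPolynomial.eval x f - ω ^ b ∧
      ∀ a : ℕ, p ^ a ∣ N → (∀ i, (p : ℤ) ^ a ∣ x i - c i) ∧ (p : ℤ) ^ a ∣ ω - cω)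
      ∧ ¬ BadAt (p ^ ℓ) f) →
    ∃ (S J : ℕ) (xc v : ι → ℤ) (ωc : ℤ),
      PData w (f - MvPolynomial.C (ωc ^ b)) S J xc v ∧
      S * J = (∏ p ∈ primesUpTo w, p) ^ (2 * (ℓ + d)) ∧ (N : ℤ) ∣ S ∧
      (∀ i, (N : ℤ) ∣ xc i - c i) ∧ (N : ℤ) ∣ ωc - cω

open scoped Classical in
/-- **AVG** (port of `GoodD.shift` and `avg_count`, `Y716/Q/Exc.lean`). `PData.shift` is applied to
`fc = f - C (ωc ^ b)`: `mem' (f - C c) S J (-g) = (f - C Q * g) - C c`. -/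
def S_AVG (ι : Type) [Fintype ι] : Prop :=
  ∀ (e b w : ℕ) (γ η h Cf : ℝ) (Q N : ℕ) (c : ι → ℤ) (cω : ℤ) (ζ : ι → ℝ) (s δ : ℝ),
    1 ≤ Q → 0 ≤ h → 0 ≤ η → η ≤ 1 →
    (∀ (f : MvPolynomial ι ℤ) (R : ℝ), IsF (e + 1) R f →
      ∀ x : ι → ℝ, (∀ i, |x i| ≤ 1) → |MvPolynomial.aeval x f| ≤ Cf * R) →
    Cf * (e + 2) * η ≤ γ → ∀ (q : MvPolynomial ι ℤ → Prop) (ε : ℝ), 0 ≤ ε →
    (∀ f, ClassC e b w γ η h Q N c cω ζ s δ f →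
      (((formsZ ι (e + 2) (η * h ^ b / Q)).filter (fun g =>
        q (f + MvPolynomial.C (Q : ℤ) * g))).card : ℝ) ≤
        ε * (formsZ ι (e + 2) (η * h ^ b / Q)).card) →
    (((formsZ ι (e + 2) (h ^ b)).filter (fun f =>
      GoodC b w γ h Q N c cω ζ s δ f ∧ q f)).card : ℝ) ≤
      ε * (formsZ ι (e + 2) (2 * h ^ b)).card

open scoped Classical in
/-- **EXC** (port of `exc_count`, `Y716/Q/Exc2.lean`, assuming `S_CLASS ι e b l`, `S_STAB ι`, `S_AVG ι`).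
Almost all `f` with approximate points at all places near a target have an integral point near the
target. Changes: `ℓ + (e + 2)` in the exponent of `Q` (`S_STAB` with `d = e + 2`); the degenerate real
points: if `|∂_i f(ξ)| ≤ (γ₂ ^ 2 / k) h ^ b` for all `i` (`k = card ι`) then `|f(ξ)| ≤ γ₂ ^ 2 h ^ b` by
Euler's relation `(e + 2) f(ξ) = ∑ ξ_i ∂_i f(ξ)` and so `BadR γ₂ (h ^ b) f`; hence take
`2 γ = γ₂ ^ 2 / k`. `NearC` gives `SolC` as in `ZeroNear.solT`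
(`|ω - h P ^ l s| ≤ |ω - h P ^ l t| + h P ^ l |t - s|`). -/
def S_EXC (ι : Type) [Fintype ι] (e b l : ℕ) : Prop :=
  ∀ (N : ℕ), 1 ≤ N → ∀ (c : ι → ℤ) (cω : ℤ) (ζ : ι → ℝ) (s δ : ℝ), 0 < δ → ∀ ε : ℝ, 0 < ε →
    ∃ h₀ : ℝ, 1 ≤ h₀ ∧ ∀ h : ℝ, h₀ ≤ h →
    (((formsZ ι (e + 2) (h ^ b)).filter (fun f =>
      LocC b N c cω ζ s δ h f ∧ ¬ SolC b l N c cω ζ s δ h f)).card : ℝ) ≤
        ε * (formsZ ι (e + 2) (h ^ b)).card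

/-- **EXC**. -/
def S_EX (ι : Type) [Fintype ι] : Prop :=
  S_STAB ι → S_AVG ι → ∀ e b l : ℕ, 2 ≤ b → 1 ≤ l → 2 ≤ Fintype.card ι → S_CLASS ι e b l →
    S_EXC ι e b l

open scoped Classical in
/-- **POS** (port of `sol_positive`, `Y716/Q/Pos.lean`, from `S_CLASS ι e b l`, with the same special
class, `ωc = 0` and `s = 0`; `h = H ^ (1 / b)`). A positive proportion of the covers has a rational
point. -/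
def S_POS (ι : Type) [Fintype ι] (e b : ℕ) : Prop :=
  ∃ c : ℝ, 0 < c ∧ ∃ H₀ : ℝ, ∀ H : ℝ, H₀ ≤ H →
      c * ((formsZ ι (e + 2) H).card : ℝ) ≤
        (((formsZ ι (e + 2) H).filter (fun f =>
          ∃ (x : ι → ℤ) (ω : ℤ), x ≠ 0 ∧ MvPolynomial.eval x f = ω ^ b)).card : ℝ)

/-- **POS**. -/
def S_PO (ι : Type) [Fintype ι] : Prop :=
  ∀ e b l : ℕ, 2 ≤ b → 1 ≤ l → 2 ≤ Fintype.card ι → S_CLASS ι e b l → S_POS ι e b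

/-- **LP** (port of `padic_norm_data`, `approx_of_int`, `local_p` in `Y716/Q/WA.lean`). Divide by the
coordinate `x_r` of the largest norm: `y = x / x_r`, `t = z / x_r ^ l`, `f(y) = t ^ b`, `y ∈ ℤ_p ^ ι`,
so `‖t‖ ^ b ≤ 1` and `t ∈ ℤ_p`. Then approximate `y` and `t` by integers mod `p ^ E`. The constant is
`c' = x_r`, and `‖z - x_r ^ l ω‖ = ‖x_r‖ ^ l ‖t - ω‖ ≤ ‖x‖ ^ l p ^ (-m) ≤ ‖x‖ ^ l / m`. -/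
def S_LP (ι : Type) [Fintype ι] : Prop :=
  ∀ (p : ℕ) [Fact p.Prime] (b l m : ℕ), 1 ≤ b → 1 ≤ m → ∀ (f : MvPolynomial ι ℤ),
    f.IsHomogeneous (b * l) → ∀ (x : ι → ℚ_[p]) (z : ℚ_[p]), x ≠ 0 →
    MvPolynomial.aeval x f = z ^ b →
    ∃ (c : ι → ℤ) (cω : ℤ), (∀ E : ℕ, ∃ (r : ι) (a : ι → ℤ) (ω : ℤ), a r = 1 ∧
        (p : ℤ) ^ E ∣ MvPolynomial.eval a f - ω ^ b ∧ (∀ i, (p : ℤ) ^ m ∣ a i - c i) ∧
        (p : ℤ) ^ m ∣ ω - cω) ∧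
      ∀ (a : ι → ℤ) (ω : ℤ), (∀ i, (p : ℤ) ^ m ∣ a i - c i) → (p : ℤ) ^ m ∣ ω - cω →
        ∃ c' : ℚ_[p], c' ≠ 0 ∧ (∀ i, ‖x i - c' * (a i : ℚ_[p])‖ ≤ ‖x‖ / m) ∧
          ‖z - c' ^ l * (ω : ℚ_[p])‖ ≤ ‖x‖ ^ l / m

/-- the finite set of targets: residues of `x`, residue of `ω`, grid points for `ξ` and for `s` -/
noncomputable def targetsC (ι : Type) [Fintype ι] (m s₀ : ℕ) :
    Finset (((ι → ℤ) × ℤ) × ((ι → ℤ) × ℤ)) := by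
  classical exact ((Fintype.piFinset (fun _ : ι => Finset.Ico (0 : ℤ) (modN m))) ×ˢ
    (Finset.Ico (0 : ℤ) (modN m))) ×ˢ
    ((Fintype.piFinset (fun _ : ι => Finset.Icc (-(3 * m : ℤ)) (3 * m))) ×ˢ
      (Finset.Icc (-(3 * m * s₀ : ℤ)) (3 * m * s₀)))

/-- **WAT** (port of `wa_of_targets`, `Y716/Q/WA.lean`, assuming `S_LP ι`). `h ^ b = H`, `s₀` = number of
monomials of degree `b l`: after the normalisation `ξ = y / y_r`, `t = u / (h y_r ^ l)`,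
`f(ξ) = (h t) ^ b`, `|f(ξ)| ≤ s₀ h ^ b` (`IsF.aeval_le_one`) so `|t| ≤ s₀`. The real constant is
`c = y_r / P`: `u - c ^ l ω = y_r ^ l h (t - ω / (h P ^ l))`, `|y_r| ≤ ‖y‖`. -/
def S_WAT (ι : Type) [Fintype ι] : Prop :=
  ∀ (b l m : ℕ) (h : ℝ), 2 ≤ b → 1 ≤ l → 1 ≤ m → 0 < h → ∀ (f : MvPolynomial ι ℤ),
    IsF (b * l) (h ^ b) f →
    (∀ t ∈ targetsC ι m (mons ι (b * l)).card,
      LocC b (modN m) t.1.1 t.1.2 (fun i => (t.2.1 i : ℝ) / (3 * m)) ((t.2.2 : ℝ) / (3 * m))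
        (1 / (3 * m)) h f →
      SolC b l (modN m) t.1.1 t.1.2 (fun i => (t.2.1 i : ℝ) / (3 * m)) ((t.2.2 : ℝ) / (3 * m))
        (1 / (3 * m)) h f) →
    WAC b l m (h ^ b) f

/-- **WM** (port of `wa_exc` and `main_wa`, `Y716/Q/WA2.lean`, from `S_EXC`, `S_POS`, `S_WAT`). The
everywhere locally soluble covers contain those with an integral point. -/
def S_WM (ι : Type) [Fintype ι] (e b l : ℕ) : Prop :=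
  ∃ m : ℕ → ℕ, Filter.Tendsto m Filter.atTop Filter.atTop ∧ Filter.Tendsto (fun H : ℕ =>
      (({f : MvPolynomial ι ℤ | (f.IsHomogeneous (e + 2) ∧ ∀ s, |f.coeff s| ≤ (H : ℤ)) ∧
        ElsC b f ∧ WAC b l (m H) H f} : Set _).ncard : ℝ) /
      (({f : MvPolynomial ι ℤ | (f.IsHomogeneous (e + 2) ∧ ∀ s, |f.coeff s| ≤ (H : ℤ)) ∧
        ElsC b f} : Set _).ncard : ℝ)) Filter.atTop (nhds 1)

/-- **WM**. -/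
def S_WMain (ι : Type) [Fintype ι] : Prop :=
  S_WAT ι → ∀ e b l : ℕ, 2 ≤ b → 1 ≤ l → e + 2 = b * l → S_EXC ι e b l → S_POS ι e b →
    S_WM ι e b l

end Pool.Agent.H90Q
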