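import Pool.Agent.H90Q.Stm

/-!
# Project H90Q, phase 2: surfaces (`n = 2`)

Cyclic covers `ω ^ b = f(x₀, x₁, x₂)` of the plane, `deg f = b l`, `(b - 1) l ≤ 2`: del Pezzo surfaces of
degree `2` (`b = l = 2`), cubic surfaces `ω³ = f₃`. For three variables the sum over the greatest common
divisors `g` of the minors of `(x, y)` diverges logarithmically, but now only the pairs `(ω, ω')` with
`ω' ^ b ≡ (λ ^ l ω) ^ b mod g` (`y ≡ λ x mod g`) contribute, which saves a factor `√g`. The parameters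
are `P = Y ^ 36`, `A = Y ^ 42`, `a = 32 m`, `m ≈ Y ^ 20`.
-/

namespace Pool.Agent.H90Q

open Pool.Agent.Y716.Q

/-! ## The congruence `a' ^ b ≡ u a ^ b` -/

/-- the number of solutions `(a, a')` of `a' ^ b ≡ u a ^ b` modulo `g` -/
def nuB (b g : ℕ) (u : ℤ) : ℕ :=
  ((Finset.range g ×ˢ Finset.range g).filter
    (fun p => (g : ℤ) ∣ (p.2 : ℤ) ^ b - u * (p.1 : ℤ) ^ b)).card

/-- **NU1** (reduction modulo `m` and modulo `n` is injective on the residues modulo `m n`). -/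
def S_NU1 : Prop :=
  ∀ (b m n : ℕ) (u : ℤ), 0 < m → 0 < n → Nat.Coprime m n →
    nuB b (m * n) u ≤ nuB b m u * nuB b n u

/-- **NU2** (a unit has at most four square roots and at most four cube roots modulo `p ^ j`). Let `x`,
`y` be two solutions. `b = 2`: `p ^ j ∣ (x - y) (x + y)`; for odd `p` not both factors are divisible by
`p`, so `x ≡ ± y`; for `p = 2` one of them is divisible by `2 ^ (j - 1)`, as `2 y` is not divisible by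
`4`, so `x ≡ ± y mod 2 ^ (j - 1)`. `b = 3`: `(x - y) (x² + x y + y²)`; `p ≠ 3`: `p` does not divide both
factors (else `p ∣ 3 y²`), so `x ≡ y` or `x² + x y + y² ≡ 0`; for two such `x`, `x'`:
`(x - x') (x + x' + y) ≡ 0` and `p` does not divide both factors
(`4 (x² + x y + y²) = (2 x + y)² + 3 y²`; `p = 2`: `x² + x y + y²` is odd). `p = 3`: `3 ∣ x - y`, and
`x² + x y + y² = (x - y)² + 3 x y` is not divisible by `9`, so `3 ^ (j - 1) ∣ x - y`: at most three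
solutions. Alternatively (odd `p`) use that `(ZMod (p ^ j))ˣ` is cyclic (`IsCyclic.card_pow_eq_one_le`). -/
def S_NU2 : Prop :=
  ∀ (b p j : ℕ) (c : ℤ), (b = 2 ∨ b = 3) → p.Prime → ¬ (p : ℤ) ∣ c →
    ((Finset.range (p ^ j)).filter (fun a : ℕ => ((p ^ j : ℕ) : ℤ) ∣ (a : ℤ) ^ b - c)).card ≤ 4

/-- **NU3** (prime powers, may assume `S_NU2`). Strong induction on `j`, with `ν(j) = nuB b (p ^ j) u`.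
If `p ∤ a` there are at most four `a'` (`c = u a ^ b`), all together at most `4 p ^ j` pairs. If `p ∣ a`
then `p ∣ a'`; put `a = p α`, `a' = p α'` (`α, α' < p ^ (j - 1)`); if `j ≤ b` there are at most
`p ^ (2 (j - 1))` such pairs, if `j > b` then `p ^ (j - b) ∣ α' ^ b - u α ^ b` and there are at most
`p ^ (2 (b - 1)) ν(j - b)` pairs (every residue modulo `p ^ (j - b)` has `p ^ (b - 1)` lifts). Hence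
`ν(j) ≤ 4 p ^ j + p ^ (2 j - 2)` for `1 ≤ j ≤ b` and `ν(j) ≤ 4 p ^ j + p ^ (2 b - 2) ν(j - b)` for
`j > b`, and by induction `ν(j) ≤ c p ^ (3 j / 2)` with `c = 5` (`5 p ^ (b/2 - 2) + 4 p ^ (-j/2) ≤ 5`) and,
for `p > 25`, with `c = 1` (`ν(0) = 1`). -/
def S_NU3 : Prop :=
  ∀ (b p j : ℕ) (u : ℤ), (b = 2 ∨ b = 3) → p.Prime → ¬ (p : ℤ) ∣ u →
    (nuB b (p ^ j) u : ℝ) ≤ 5 * ((p:ℝ) ^ j * Real.sqrt ((p:ℝ) ^ j)) ∧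
    (25 < p → (nuB b (p ^ j) u : ℝ) ≤ (p:ℝ) ^ j * Real.sqrt ((p:ℝ) ^ j))

/-- **NU4** (all moduli, may assume `S_NU1`, `S_NU3`). Induction over the prime factorization
(`Nat.recOnPosPrimePosCoprime`, or induction on the number of prime factors with
`Nat.exists_eq_pow_mul_and_not_dvd`): `nuB b g u ≤ 5 ^ #{p ∣ g, p ≤ 25} g √g ≤ 5 ^ 9 g √g`. -/
def S_NU4 : Prop :=
  ∀ (b g : ℕ) (u : ℤ), (b = 2 ∨ b = 3) → 0 < g → IsCoprime u (g : ℤ) →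
    (nuB b g u : ℝ) ≤ 5 ^ 9 * (g * Real.sqrt g) ∧
    ((∀ q : ℕ, q.Prime → q ≤ 25 → ¬ q ∣ g) → (nuB b g u : ℝ) ≤ g * Real.sqrt g)

/-- the number of pairs `(ω, ω')` in `W` with `ω' ^ b ≡ u ω ^ b` modulo `g` -/
def cpt (W : Finset ℤ) (b : ℕ) (g u : ℤ) : ℕ :=
  ((W ×ˢ W).filter (fun p => g ∣ p.2 ^ b - u * p.1 ^ b)).card

/-- **CP1** (may assume `S_NU4`): partition the pairs according to their residues modulo `D`. -/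
def S_CP1 : Prop :=
  ∀ (b D : ℕ) (u : ℤ) (W : Finset ℤ) (κ : ℝ), (b = 2 ∨ b = 3) → 0 < D → IsCoprime u (D : ℤ) →
    (∀ r : ℤ, ((W.filter (fun ω => (D : ℤ) ∣ ω - r)).card : ℝ) ≤ κ) →
    (cpt W b D u : ℝ) ≤ 5 ^ 9 * (D * Real.sqrt D) * κ ^ 2 ∧
    ((∀ q : ℕ, q.Prime → q ≤ 25 → ¬ q ∣ D) → (cpt W b D u : ℝ) ≤ D * Real.sqrt D * κ ^ 2)

/-- **CP2** (may assume `S_CP1`, `S_NU2`). Write `L = W.card ≥ 1`. (i) If `D ∣ g` and `D ≤ L` then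
`cpt W b g u ≤ cpt W b D u ≤ 5 ^ 9 D √D (2 CW L / D) ^ 2 = 4 · 5 ^ 9 CW² L² / √D` (`CW L / D + 1 ≤
2 CW L / D`). This is the claim if `g ≤ L`. (ii) If `g > L` and some prime `p > L` divides `g`: for `ω`
with `p ∤ ω` the number `ω'` lies in at most four classes modulo `p` (`S_NU2` with `j = 1`), each with at
most `CW L / p + 1 ≤ 2 CW` elements of `W`; there are at most `2 CW` elements `ω` with `p ∣ ω`, and then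
`p ∣ ω'`. Total `≤ 8 CW L + 4 CW² ≤ 12 CW² L ≤ 12 CW² L² L ^ (-1/4)`. (iii) If `g > L` and all prime
factors of `g` are `≤ L`, let `D` be the largest divisor of `g` with `D ≤ L`. If `D² < L`, let `p` be a
prime factor of `g / D`; `p D > L` by maximality, so `p² > L`, `p > D` and `p ∣ g`, `p ≤ L`
contradicts the maximality. So `D² ≥ L` and (i) gives the claim, `1 / √D ≤ L ^ (-1/4)`. -/
def S_CP2 : Prop :=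
  ∀ (b : ℕ) (W : Finset ℤ) (CW : ℝ), (b = 2 ∨ b = 3) → 1 ≤ CW → 1 ≤ W.card →
    (∀ g : ℕ, 0 < g → ∀ r : ℤ,
      ((W.filter (fun ω => (g : ℤ) ∣ ω - r)).card : ℝ) ≤ CW * W.card / g + 1) →
    ∀ (g : ℕ) (u : ℤ), 0 < g → IsCoprime u (g : ℤ) →
      (cpt W b g u : ℝ) ≤ 5 ^ 11 * CW ^ 2 * (W.card : ℝ) ^ 2 *
        (1 / Real.sqrt g + 1 / Real.sqrt (Real.sqrt W.card))

/-- **WS3** (`S_WS`, file `WS.lean` of helper21, with two more properties of `W`, the set of the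
`ω ≡ ωc mod Q` in an interval of length `δ X`). A class modulo `D` (`D` coprime to `Q`) meets `W` in a
class modulo `Q D` of the interval, so in at most `δ X / (Q D) + 1 ≤ (|W| + 1) / D + 1` elements; a class
modulo `g` meets the interval in at most `δ X / g + 1 ≤ Q (|W| + 1) / g + 1 ≤ 2 Q₀ |W| / g + 1`
elements. -/
def S_WS3 : Prop :=
  ∀ (b : ℕ), 1 ≤ b → ∀ (Q₀ : ℕ), 1 ≤ Q₀ → ∀ (η s₀ : ℝ), 0 < η → 0 ≤ s₀ →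
    ∃ cW h₀ : ℝ, 0 < cW ∧ 0 < h₀ ∧
    ∀ (X s : ℝ) (Q : ℕ) (ωc : ℤ), h₀ ≤ X → |s| ≤ s₀ → 1 ≤ Q → Q ≤ Q₀ →
    ∃ W : Finset ℤ, (∀ ω ∈ W, (Q : ℤ) ∣ ω - ωc) ∧ ((∀ ω ∈ W, 0 < ω) ∨ (∀ ω ∈ W, ω < 0)) ∧
      (∀ ω ∈ W, |(ω : ℝ) - X * s| ≤ η * X) ∧
      (∀ ω ∈ W, |(ω : ℝ) ^ b - (X * s) ^ b| ≤ η * X ^ b) ∧ cW * X ≤ W.card ∧ 1 ≤ W.card ∧
      (∀ D : ℕ, 0 < D → Nat.Coprime D Q → ∀ r : ℤ,
        ((W.filter (fun ω => (D : ℤ) ∣ ω - r)).card : ℝ) ≤ (W.card + 1) / D + 1) ∧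
      (∀ g : ℕ, 0 < g → ∀ r : ℤ,
        ((W.filter (fun ω => (g : ℤ) ∣ ω - r)).card : ℝ) ≤ 2 * Q₀ * W.card / g + 1)

/-! ## Pairs of vectors of `ℤ³` -/

/-- the data of a pair of vectors of `ℤ³`: `g` is the greatest common divisor and `μ` the maximum of the
minors -/
def GDat (B : ℝ) (p : (Fin 3 → ℤ) × (Fin 3 → ℤ)) (g : ℤ) (μ : ℝ) : Prop :=
  Sz B p.1 ∧ Sz B p.2 ∧ Prim p.1 ∧ Prim p.2 ∧ g ≠ 0 ∧ (∀ i j, g ∣ mn p.1 p.2 i j) ∧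
    (∀ D, (∀ i j, D ∣ mn p.1 p.2 i j) → D ∣ g) ∧ 0 < μ ∧ (∃ i j, μ ≤ |(mn p.1 p.2 i j : ℝ)|) ∧
    (∀ i j, |(mn p.1 p.2 i j : ℝ)| ≤ μ)

/-- **PC1**. Let `x₁ ∈ S` have the maximal norm `R = |x₁|` (largest absolute value of a coordinate). For
`x' ∈ S` the vector product `x₁ × x'` is an integral multiple `c z` of `z` (both vectors are orthogonal
to the primitive vector `z`: if `∑ w_i z_i = 1` then `x₁ × x' = (∑ w_i (x₁ × x')_i) z`, because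
`z_i (x₁ × x')_j = z_j (x₁ × x')_i`), and `|c| m ≤ 2 R²`; so there are at most `4 R² / m + 1` values of
`c`. If `x'` and `x''` have the same `c` then `x' - x'' = t x₁` with an integer `t` (`x₁` is
primitive), `|t| ≤ 2`; so every value `c` occurs at most three times. -/
def S_PC1 : Prop :=
  ∀ (z : Fin 3 → ℤ) (B m : ℝ), Prim z → 1 ≤ B → 0 < m → (∃ i, m ≤ |(z i : ℝ)|) →
    ∀ S : Finset (Fin 3 → ℤ),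
    (∀ x ∈ S, Prim x ∧ (∀ i, |(x i : ℝ)| ≤ B) ∧ ∑ i, x i * z i = 0) →
    (S.card : ℝ) ≤ 12 * B ^ 2 / m + 3

/-- **PC2**. Two such `y` differ by an integral multiple `t x` of the primitive vector `x`
(`eq_smul_of_minors`); with `|x r| ≥ B / 4` the coordinates `y r ∈ [-B, B]` are spaced by multiples of
`x r`, so there are at most `2 B / (B / 4) + 1 = 9` vectors `y` (take the `y` with minimal `t`; then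
`0 ≤ t ≤ 8`). -/
def S_PC2 : Prop :=
  ∀ (x y₀ : Fin 3 → ℤ) (B : ℝ), Prim x → Sz B x → 1 ≤ B → ∀ S : Finset (Fin 3 → ℤ),
    (∀ y ∈ S, (∀ i, |(y i : ℝ)| ≤ B) ∧ ∀ i j, mn x y i j = mn x y₀ i j) → S.card ≤ 9

/-- **PC3**. At most `3 · 2 · (2 r + 1)² ≤ 54 r²` vectors have norm `r`. -/
def S_PC3 : Prop :=
  ∀ (Z : ℝ) (S : Finset (Fin 3 → ℤ)) (m : (Fin 3 → ℤ) → ℕ), 0 < Z →
    (∀ z ∈ S, 1 ≤ m z ∧ (m z : ℝ) ≤ Z ∧ (∀ i, |z i| ≤ (m z : ℤ)) ∧ ∃ i, |z i| = (m z : ℤ)) →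
    ∑ z ∈ S, 1 / (m z : ℝ) ^ 2 ≤ 54 * Z

/-- **PC** (may assume `S_PC1`, `S_PC2`, `S_PC3`). Group the pairs `(x, y)` according to the primitive
vector `z = (x × y) / g₀`, of norm `|z| = μ / g₀ ≤ Z`, `|z| ≤ 2 B²`. For fixed `z`, `x` lies in a set with
at most `12 B² / |z| + 3 ≤ 18 B² / |z|` elements (`S_PC1`) and for given `x` there are at most `9` vectors
`y` (`S_PC2`). So the sum is at most `∑_z (B² / |z|) (162 B² / |z|) ≤ 162 · 54 B⁴ Z`. -/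
def S_PC : Prop :=
  ∃ C : ℝ, 0 < C ∧ ∀ (B Z : ℝ) (g₀ : ℕ), 1 ≤ B → 0 < Z → 1 ≤ g₀ →
    ∀ (Q : Finset ((Fin 3 → ℤ) × (Fin 3 → ℤ))) (g : (Fin 3 → ℤ) × (Fin 3 → ℤ) → ℤ)
      (μ : (Fin 3 → ℤ) × (Fin 3 → ℤ) → ℝ),
    (∀ p ∈ Q, GDat B p (g p) (μ p) ∧ (g p).natAbs = g₀ ∧ μ p ≤ g₀ * Z) →
    ∑ p ∈ Q, B ^ 2 * g₀ / μ p ≤ C * B ^ 4 * Z

/-- **TLA** (may assume `S_PC`). `1 ≤ g₀ = |g p| ≤ μ ≤ 2 B²`. For fixed `g₀` use `S_PC` with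
`Z = min (B² / T) (2 B² / g₀)`: the sum over `p` is at most
`C B⁶ ∑_{g₀ ≥ 1} min (1 / T) (2 / g₀) / √g₀ ≤ C B⁶ (∑_{g₀ ≤ T} 1 / (T √g₀) + ∑_{g₀ > T} 2 / (g₀ √g₀))`
`≤ C' B⁶ / √T`. -/
def S_TLA : Prop :=
  ∃ C : ℝ, 0 < C ∧ ∀ (B T : ℝ), 1 ≤ B → 1 ≤ T →
    ∀ (Tl : Finset ((Fin 3 → ℤ) × (Fin 3 → ℤ))) (g : (Fin 3 → ℤ) × (Fin 3 → ℤ) → ℤ)
      (μ : (Fin 3 → ℤ) × (Fin 3 → ℤ) → ℝ),
    (∀ p ∈ Tl, GDat B p (g p) (μ p) ∧ T * μ p < B ^ 2 * |(g p : ℝ)|) →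
    ∑ p ∈ Tl, B ^ 2 * |(g p : ℝ)| / μ p * (1 / Real.sqrt |(g p : ℝ)|) ≤ C * B ^ 6 / Real.sqrt T

/-- **TLB** (may assume `S_PC`). `S_PC` with `Z = 2 B² / g₀`, and `∑_{g₀ ≤ 2 B²} 1 / g₀ ≤ 1 + log (2 B²)`. -/
def S_TLB : Prop :=
  ∃ C : ℝ, 0 < C ∧ ∀ B : ℝ, 1 ≤ B →
    ∀ (Tl : Finset ((Fin 3 → ℤ) × (Fin 3 → ℤ))) (g : (Fin 3 → ℤ) × (Fin 3 → ℤ) → ℤ)
      (μ : (Fin 3 → ℤ) × (Fin 3 → ℤ) → ℝ), (∀ p ∈ Tl, GDat B p (g p) (μ p)) →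
    ∑ p ∈ Tl, B ^ 2 * |(g p : ℝ)| / μ p ≤ C * B ^ 6 * (1 + Real.log B)

/-! ## The second moment -/

/-- **CMP**. `f = fc + S J g` is a form of degree `e + 2 = b l`; `f(y) ≡ f(lam x) = lam ^ (b l) f(x)`. -/
def S_CMP (ι : Type) [Fintype ι] : Prop :=
  ∀ (e b l S J : ℕ) (fc g : MvPolynomial ι ℤ) (x y : ι → ℤ) (D lam ω ω' : ℤ), e + 2 = b * l →
    fc.IsHomogeneous (e + 2) → g.IsHomogeneous (e + 2) → (∀ i, D ∣ y i - lam * x i) →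
    MvPolynomial.eval x (mem' fc S J g) = ω ^ b → MvPolynomial.eval y (mem' fc S J g) = ω' ^ b →
    D ∣ ω' ^ b - (lam ^ l) ^ b * ω ^ b

/-- **GS3** (may assume `S_CMP ι`; port of `t_GS`, file `GS.lean` of helper58, the sum over `ω`, `ω'`
being inside). Fix `D`. For `p ∈ Gd` with this `D` let `lam < D`, `y ≡ lam x mod D` (`exists_lambda`);
`lam` is coprime to `D` because `y` is primitive. If `c2t e A x y (u ω x) (u ω' y) ≠ 0` then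
`D ∣ ω' ^ b - (lam ^ l) ^ b ω ^ b` (`S_CMP`, as `eval x (mem' (fc - C (ω ^ b)) S J g) = 0`). So, with the
factor `(2 Δ / K - 1) (2 Δ / (K D) - 1)`, the sum over `ω, ω', p` is at most the sum over
`g ∈ formsZ A₂`, over `lam < D` coprime to `D`, over the pairs `(ω, ω')` with this congruence, over `x` in
the `locSet` of `ω`, of the number of `y` in the `locSet` of `ω'` and of the class `lam x`, i.e. at most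
`G₂ · D · (θ |W|² / √D) · R₁ · R₂ D`. With `hED` the sum for `D` is `≤ G E θ |W|² / (D √D)`, and
`∑_{D = 1 or D > w} 1 / (D √D) ≤ 1 + 2 / √w`. -/
def S_GS3 (ι : Type) [Fintype ι] : Prop :=
  ∀ (e b l w : ℕ), 1 ≤ w → e + 2 = b * l → ∀ (W : Finset ℤ) (θ : ℝ) (fc : MvPolynomial ι ℤ),
    fc.IsHomogeneous (e + 2) → ∀ (S J : ℕ), 0 < S → 0 < J → ∀ (xc : ι → ℤ)
    (P : ℝ) (ξ : ι → ℝ) (i₀ : ι) (ρ ρ' B a A A₂ Δ κ : ℝ), 1 ≤ a → a ≤ B → 0 < κ → 0 ≤ θ →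
    ∀ Lg : ℝ, (∀ s : ℕ, (s : ℝ) ≤ 15 * (Fintype.card ι) ^ 2 * a * B → (Nat.log 2 s : ℝ) ≤ Lg) →
    ∀ (u : ℤ → (ι → ℤ) → ℤ),
    (∀ ω ∈ W, ∀ x ∈ box P ξ i₀ ρ ρ' S xc,
      MvPolynomial.eval x (fc - MvPolynomial.C (ω ^ b)) = -(((S * J : ℕ) : ℤ) * u ω x)) →
    ∀ (K N : ℕ), 0 < K → 0 ≤ Δ → K * N ≤ Δ →
    A + (c1pt (Fintype.card ι) (e + 1) + cker (Fintype.card ι) e *
      (1 + (mons ι (e + 2)).card * c1pt (Fintype.card ι) (e + 1)) / κ) *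
      (Δ / B ^ (e + 2) + K * a) + cker (Fintype.card ι) e * ((1 + Lg) * a ^ 2) ≤ A₂ →
    ∀ (R₁ E : ℝ) (R₂ : ℕ → ℝ), (∀ D, 0 ≤ R₂ D) → 0 ≤ E →
    (∀ ω ∈ W, ∀ g ∈ formsZ ι (e + 2) A₂,
      ((locSet P ξ i₀ ρ ρ' S J xc (mem' (fc - MvPolynomial.C (ω ^ b)) S J g) K 1 0
        ((S * J : ℕ) * Δ)).card : ℝ) ≤ R₁) →
    (∀ D : ℕ, 0 < D → D ≤ N → (∀ q : ℕ, q.Prime → q ≤ w → ¬ q ∣ D) →
      ∀ ω ∈ W, ∀ g ∈ formsZ ι (e + 2) A₂, ∀ ζ,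
      ((locSet P ξ i₀ ρ ρ' S J xc (mem' (fc - MvPolynomial.C (ω ^ b)) S J g) K D ζ
        ((S * J : ℕ) * Δ)).card : ℝ) ≤ R₂ D) →
    (∀ D : ℕ, 0 < D → D ≤ N → (formsZ ι (e + 2) A₂).card * (R₁ * (D * R₂ D)) ≤
      (formsZ ι (e + 2) A).card * (E * (1 / (D : ℝ))) *
        ((2 * Δ / K - 1) * (2 * Δ / (K * D) - 1))) →
    (∀ D : ℕ, 0 < D → D ≤ N → (∀ q : ℕ, q.Prime → q ≤ w → ¬ q ∣ D) → ∀ lam : ℤ,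
      IsCoprime lam (D : ℤ) →
      (cpt W b D ((lam ^ l) ^ b) : ℝ) ≤ θ * (W.card : ℝ) ^ 2 / Real.sqrt D) →
    ∀ (Gd : Finset ((ι → ℤ) × (ι → ℤ))),
    (∀ p ∈ Gd, p.1 ∈ testSet B a P ξ i₀ ρ ρ' S xc ∧ p.2 ∈ testSet B a P ξ i₀ ρ ρ' S xc ∧
      ∃ D, GoodPair w K N B κ p D) →
    (∑ ω ∈ W, ∑ ω' ∈ W, ∑ p ∈ Gd, (c2t e A p.1 p.2 (u ω p.1) (u ω' p.2) : ℝ)) ≤
      (formsZ ι (e + 2) A).card * E * (θ * (W.card : ℝ) ^ 2) * (1 + 2 / Real.sqrt w)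

/-- the conclusion of the second moment computation for surfaces -/
def SMT3 (e b l : ℕ) (Ct : ℝ) : Prop :=
  ∀ (w : ℕ), 1 ≤ w → ∀ (W : Finset ℤ) (θ CW δW : ℝ) (fc : MvPolynomial (Fin 3) ℤ),
    fc.IsHomogeneous (e + 2) → ∀ (S J : ℕ), 0 < S → 0 < J → ∀ (xc : Fin 3 → ℤ)
    (P : ℝ) (ξ : Fin 3 → ℝ) (i₀ : Fin 3) (ρ ρ' B a A A₂ Δ T : ℝ), 1 ≤ a → a ≤ B → 1 ≤ T →
    0 ≤ θ → 0 ≤ CW → 0 ≤ δW →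
    ∀ Lg : ℝ, (∀ s : ℕ, (s : ℝ) ≤ 15 * (Fintype.card (Fin 3)) ^ 2 * a * B →
      (Nat.log 2 s : ℝ) ≤ Lg) →
    ∀ (u : ℤ → (Fin 3 → ℤ) → ℤ),
    (∀ ω ∈ W, ∀ x ∈ box P ξ i₀ ρ ρ' S xc,
      MvPolynomial.eval x (fc - MvPolynomial.C (ω ^ b)) = -(((S * J : ℕ) : ℤ) * u ω x)) →
    ∀ (N : ℕ), 2 * T ≤ N → ∀ (K : ℕ),
    K = (∏ p ∈ (Finset.range (w + 1)).filter Nat.Prime, p) ^ N → 0 ≤ Δ → K * N ≤ Δ →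
    A + (c1pt (Fintype.card (Fin 3)) (e + 1) + cker (Fintype.card (Fin 3)) e *
      (1 + (mons (Fin 3) (e + 2)).card * c1pt (Fintype.card (Fin 3)) (e + 1)) / (1 / T)) *
      (Δ / B ^ (e + 2) + K * a) + cker (Fintype.card (Fin 3)) e * ((1 + Lg) * a ^ 2) ≤ A₂ →
    2 * c1pt (Fintype.card (Fin 3)) (e + 1) * a ≤ A →
    2 * cker (Fintype.card (Fin 3)) e * ((1 + Lg) * a ^ 2) ≤ A →
    ∀ (R₁ E : ℝ) (R₂ : ℕ → ℝ), (∀ D, 0 ≤ R₂ D) → 0 ≤ E →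
    (∀ ω ∈ W, ∀ g ∈ formsZ (Fin 3) (e + 2) A₂,
      ((locSet P ξ i₀ ρ ρ' S J xc (mem' (fc - MvPolynomial.C (ω ^ b)) S J g) K 1 0
        ((S * J : ℕ) * Δ)).card : ℝ) ≤ R₁) →
    (∀ D : ℕ, 0 < D → D ≤ N → (∀ q : ℕ, q.Prime → q ≤ w → ¬ q ∣ D) →
      ∀ ω ∈ W, ∀ g ∈ formsZ (Fin 3) (e + 2) A₂, ∀ ζ,
      ((locSet P ξ i₀ ρ ρ' S J xc (mem' (fc - MvPolynomial.C (ω ^ b)) S J g) K D ζ
        ((S * J : ℕ) * Δ)).card : ℝ) ≤ R₂ D) →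
    (∀ D : ℕ, 0 < D → D ≤ N → (formsZ (Fin 3) (e + 2) A₂).card * (R₁ * (D * R₂ D)) ≤
      (formsZ (Fin 3) (e + 2) A).card * (E * (1 / (D : ℝ))) *
        ((2 * Δ / K - 1) * (2 * Δ / (K * D) - 1))) →
    (∀ D : ℕ, 0 < D → D ≤ N → (∀ q : ℕ, q.Prime → q ≤ w → ¬ q ∣ D) → ∀ lam : ℤ,
      IsCoprime lam (D : ℤ) →
      (cpt W b D ((lam ^ l) ^ b) : ℝ) ≤ θ * (W.card : ℝ) ^ 2 / Real.sqrt D) →
    (∀ g : ℕ, 0 < g → ∀ lam : ℤ, IsCoprime lam (g : ℤ) →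
      (cpt W b g ((lam ^ l) ^ b) : ℝ) ≤ CW * (W.card : ℝ) ^ 2 * (1 / Real.sqrt g + δW)) →
    (∑ ω ∈ W, ∑ ω' ∈ W, ∑ p ∈ npPairs (testSet B a P ξ i₀ ρ ρ' S xc),
      (c2t e A p.1 p.2 (u ω p.1) (u ω' p.2) : ℝ)) ≤
      (formsZ (Fin 3) (e + 2) A).card * E * (θ * (W.card : ℝ) ^ 2) * (1 + 2 / Real.sqrt w) +
      Ct * CW * (formsZ (Fin 3) (e + 2) (3 * A)).card * B ^ 6 * (W.card : ℝ) ^ 2 /
        (A ^ 2 * B ^ (2 * e + 4)) * (1 / Real.sqrt T + δW * (1 + Real.log B))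

/-- **SM3** (port of `t_SM`, file `SM.lean` of helper58, the sum over `ω`, `ω'` being inside). The pairs
`p` with `B² |g| ≤ T μ` by `S_GS3` with `κ = 1 / T`. For the other pairs: if
`c2t e A x y (u ω x) (u ω' y) ≠ 0` then `g ∣ ω' ^ b - (lam ^ l) ^ b ω ^ b` where `y ≡ lam x mod g`
(`exists_lambda`, `S_CMP`; `lam` is coprime to `g` as `y` is primitive), so the sum over `ω, ω'` is at
most `CW |W|² (1 / √|g| + δW) · 4 c c' G₃ / (A² B ^ (2 e + 4)) · B² |g| / μ` (`cnt2_le`), and the sum over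
`p` is bounded by `S_TLA` and `S_TLB`. -/
def S_SM3 : Prop :=
  S_GS3 (Fin 3) → S_CMP (Fin 3) → S_TLA → S_TLB →
    ∀ e b l : ℕ, e + 2 = b * l → ∃ Ct : ℝ, 0 < Ct ∧ SMT3 e b l Ct

/-! ## The class theorem -/

open scoped Classical in
/-- **CO23, the final assembly** (port of `t_CO2`, file `CO2.lean` of helper36; `k = 3`,
`F ω = fc - C (ω ^ b)`, `SMT3` instead of `SMT`; assuming `S_DG (Fin 3)`, `S_CB (Fin 3)`).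
`core_ED` for `k = 3` has `1 / D` in the place of `1 / D ^ 2` (same proof). The main term is
`G E (1 + τ)² |W|² (1 + 2 / √w)`, `1 + 2 / √w ≤ 1 + τ`; the tail is treated by `core_t1` with
`(1 / √T + δW (1 + log (2 P)))⁻¹` for `T`; the diagonal term `4 c |W| G2A |X'| / (A B ^ (e + 2))` with
`cW X ≤ |W|` and `A Y P ^ (e + 2) ≤ X P ^ 3`. Unbalanced vectors: `hCu (2 * P) m 32 (1 / Y ^ 19)`,
`(1 / (2 m Y ^ (-19))) ^ 64 ≤ Y ^ (-64)`, `(3 · 32 m + 1) 2 P + 1 ≤ 200 Y ^ 57`;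
`Cu (2 P)² (4 Y ^ 17)² (1 + log (4 Y ^ 17)) ≤ 1600 Cu Y ^ 107 ≤ τ cR P ^ 3` (as `unbal_num`). -/
def CoreC23 : Prop :=
  ∀ {e b l : ℕ}, (b = 2 ∨ b = 3) → e + 2 = b * l → ∀ {M : ℕ},
    (mons (Fin 3) (e + 2)).card = M → ∀ {c c' Ct Cu : ℝ},
    c1pt 3 (e + 1) = c → cker 3 e = c' → 0 < c → 0 < Ct → 0 < Cu →
    SMT3 e b l Ct → UB (Fin 3) Cu → ∀ {ε τ τ₂ T cR c₀ cW CW δW X : ℝ}, 0 < ε → 0 < τ → τ ≤ 1 / 2 →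
    1 / 2 ≤ (1 - τ) / (1 + τ) * bfun 3 τ → 0 < bfun 3 τ →
    (1 + τ) ^ (2 * 3 + 1) / (1 - τ) ^ 4 * (1 + τ) ^ 3 ≤
      (1 + ε / 2) * ((1 - τ) / (1 + τ) * bfun 3 τ) ^ 2 →
    ∀ {w : ℕ}, 1 ≤ w → 1 / (w : ℝ) ≤ τ → 2 / Real.sqrt w ≤ τ →
    1 ≤ T → 0 < c₀ → 0 < CW → 0 ≤ δW → ∀ {N : ℕ}, 2 * T ≤ N → ∀ {K : ℕ},
    K = (∏ p ∈ (Finset.range (w + 1)).filter Nat.Prime, p) ^ N → 0 < K →
    0 < cR → 0 < cW →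
    ∀ {N' : ℕ}, 1 ≤ N' → 6 ^ 3 / (τ * cR) ≤ N' → ∀ {Y A P : ℝ},
    2 ≤ Y → 64 * (3:ℝ) + 9 ≤ Y →
    100 * Cu * 4 ^ (3 - 1) / (τ * cR) ≤ Y →
    16 * (4 * c) * 3 ^ M * 6 ^ 3 / (ε * c₀ ^ 2 * cW) ≤ Y → P = Y ^ 36 →
    16 * (Ct * CW) * 4 ^ M * 4 ^ 3 / (ε * c₀ ^ 2) *
      (1 / Real.sqrt T + δW * (1 + Real.log (2 * P))) ≤ 1 →
    ∀ {W : Finset ℤ} {fc : MvPolynomial (Fin 3) ℤ} {S J : ℕ} {xc : Fin 3 → ℤ}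
      {v : ℤ → Fin 3 → ℤ} {ξ : Fin 3 → ℝ} {i₀ : Fin 3} {ρ ρ' σ D₀ Δ₀ : ℝ},
    fc.IsHomogeneous (e + 2) →
    (∀ ω ∈ W, PData w (fc - MvPolynomial.C (ω ^ b)) S J xc (v ω)) → 0 < S → 0 < J →
    cW * X ≤ W.card → 0 < X → A * Y * P ^ (e + 2) ≤ X * P ^ 3 →
    (∀ ω ∈ W, ∀ ω' ∈ W, ω ^ b = ω' ^ b → ω = ω') →
    (∀ D : ℕ, 0 < D → D ≤ N → (∀ q : ℕ, q.Prime → q ≤ w → ¬ q ∣ D) → ∀ lam : ℤ,
      IsCoprime lam (D : ℤ) →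
      (cpt W b D ((lam ^ l) ^ b) : ℝ) ≤ (1 + τ) ^ 2 * (W.card : ℝ) ^ 2 / Real.sqrt D) →
    (∀ g : ℕ, 0 < g → ∀ lam : ℤ, IsCoprime lam (g : ℤ) →
      (cpt W b g ((lam ^ l) ^ b) : ℝ) ≤ CW * (W.card : ℝ) ^ 2 * (1 / Real.sqrt g + δW)) →
    0 < ρ → ρ ≤ ρ' → ρ' ≤ 1 / 2 →
    (∀ i, |ξ i| ≤ 1) → (∃ r, ξ r = 1) → |σ| = 1 → 0 < D₀ →
    (∀ ω ∈ W, ∀ A₃ : ℝ, A₃ ≤ 2 * A → ∀ g ∈ formsZ (Fin 3) (e + 2) A₃,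
      SlopeCond σ ((1 - τ) * D₀) ((1 + τ) * D₀) Δ₀ P ξ i₀ ρ ρ'
        (mem' (fc - MvPolynomial.C (ω ^ b)) S J g)) →
    ∀ {Δ Δ₁ X₁ X₂ R : ℝ}, ((S * J : ℕ) : ℝ) * Δ = Δ₁ →
    Δ₁ ≤ Δ₀ → X₁ = 2 * ρ * P / S → X₂ = 2 * Δ₁ / (D₀ * S) →
    (K * N + N' : ℝ) ≤ τ * X₁ → 2 * (K * N + N' : ℝ) ≤ τ * X₂ →
    X₁ ^ (3 - 1) * X₂ = R → 0 < R → cR * P ^ 3 ≤ R →
    c₀ * P ^ (3 - 1) / (A * P ^ (e + 1)) ≤ R / (2 * Δ) →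
    0 < A → 0 < P → 1 ≤ P → ∀ {m : ℕ} {a : ℝ},
    (m : ℝ) ≤ Y ^ 20 → Y ^ 20 / 2 ≤ (m : ℝ) → 1 ≤ m →
    ((32 : ℕ) : ℝ) * (m : ℝ) = a → 1 ≤ a → a ≤ 2 * P →
    ∀ {u : ℤ → (Fin 3 → ℤ) → ℤ},
    (∀ ω ∈ W, ∀ x ∈ box P ξ i₀ ρ ρ' S xc,
      MvPolynomial.eval x (fc - MvPolynomial.C (ω ^ b)) = -(((S * J : ℕ) : ℤ) * u ω x)) →
    0 < Δ → 0 < Δ₁ → (K * N : ℝ) ≤ τ * Δ → (K * N : ℝ) ≤ Δ → 1 ≤ τ * Δ →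
    A + (c + c' * (1 + M * c) / (1 / T)) * (Δ / (2 * P) ^ (e + 2) + K * a) +
      c' * ((1 + 2 * Y) * a ^ 2) ≤ (1 + τ₂) * A →
    (1 - τ₂) * A + c * (Δ / (2 * P) ^ (e + 2) + a) ≤ A →
    2 * c * a ≤ A → 2 * c' * ((1 + 2 * Y) * a ^ 2) ≤ A →
    (∀ s : ℕ, (s : ℝ) ≤ 15 * (3:ℝ) ^ 2 * a * (2 * P) → (Nat.log 2 s : ℝ) ≤ 2 * Y) →
    0 < τ₂ → τ₂ ≤ 1 / 4 →
    ∀ {G : ℝ}, ((formsZ (Fin 3) (e + 2) A).card : ℝ) = G → 0 < G →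
    ((formsZ (Fin 3) (e + 2) ((1 + τ₂) * A)).card : ℝ) ≤ (1 + τ) * G →
    (1 - τ) * G ≤ ((formsZ (Fin 3) (e + 2) ((1 - τ₂) * A)).card : ℝ) →
    ((formsZ (Fin 3) (e + 2) (3 * A)).card : ℝ) ≤ 4 ^ M * G →
    ((formsZ (Fin 3) (e + 2) (2 * A)).card : ℝ) ≤ 3 ^ M * G →
    (((formsZ (Fin 3) (e + 2) A).filter (fun g =>
      ¬ PtIn W (fun ω => fc - MvPolynomial.C (ω ^ b)) S J (box P ξ i₀ ρ ρ' S xc) g)).card : ℝ) ≤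
      ε * (formsZ (Fin 3) (e + 2) A).card

open scoped Classical in
/-- **CO13, the core of the class theorem** (port of `t_CO1`, file `CO1.lean` of helper82, assuming
`CoreC23`, with `k = 3`, `A = Y ^ 42`, `m = ⌊Y ^ 20⌋`, `(1 + 2 Y) a² ≤ 3072 Y ^ 41`,
`a ≤ 32 Y ^ 41`, `A = Y · Y ^ 41`; `15 · 9 a (2 P) ≤ 960 · 9 Y ^ 56`). -/
def CoreC3 : Prop :=
  ∀ {e b l : ℕ}, (b = 2 ∨ b = 3) → e + 2 = b * l → ∀ {M : ℕ},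
    (mons (Fin 3) (e + 2)).card = M → ∀ {c c' Ct Cu : ℝ},
    c1pt 3 (e + 1) = c → cker 3 e = c' → 0 < c → 0 < c' → 0 < Ct → 0 < Cu →
    SMT3 e b l Ct → UB (Fin 3) Cu →
    ∀ {ε τ τ₂ T c₅ δ cR c₀ cW CW δW X : ℝ}, 0 < ε → 0 < τ → τ ≤ 1 / 2 →
    1 / 2 ≤ (1 - τ) / (1 + τ) * bfun 3 τ → 0 < bfun 3 τ →
    (1 + τ) ^ (2 * 3 + 1) / (1 - τ) ^ 4 * (1 + τ) ^ 3 ≤
      (1 + ε / 2) * ((1 - τ) / (1 + τ) * bfun 3 τ) ^ 2 →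
    ∀ {w : ℕ}, 1 ≤ w → 1 / (w : ℝ) ≤ τ → 2 / Real.sqrt w ≤ τ →
    1 ≤ T → 0 < c₀ → 0 < CW → 0 ≤ δW → ∀ {N : ℕ}, 2 * T ≤ N → ∀ {K : ℕ},
    K = (∏ p ∈ (Finset.range (w + 1)).filter Nat.Prime, p) ^ N → 0 < K →
    0 < τ₂ → τ₂ ≤ 1 / 4 → (1 + 2 * τ₂) ^ M ≤ 1 + τ → 1 - τ ≤ (1 - 2 * τ₂) ^ M →
    c₅ = c + c' * (1 + M * c) / (1 / T) → c ≤ c₅ → 0 < δ → δ ≤ 1 → c₅ * δ = τ₂ / 4 →
    0 < cR → 0 < cW →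
    ∀ {N' : ℕ}, 1 ≤ N' → 6 ^ 3 / (τ * cR) ≤ N' → ∀ {Y A P : ℝ},
    2 ≤ Y → 64 * (3:ℝ) + 9 ≤ Y → 960 * (3:ℝ) ^ 2 * Y ^ 56 < Real.exp Y →
    2 * (32 * c₅ * K + 3072 * c') / τ₂ ≤ Y → (K * N : ℝ) / (τ * δ) ≤ Y →
    100 * Cu * 4 ^ (3 - 1) / (τ * cR) ≤ Y →
    16 * (4 * c) * 3 ^ M * 6 ^ 3 / (ε * c₀ ^ 2 * cW) ≤ Y → 1 + 1 / τ₂ ≤ Y →
    1 / (τ * δ) ≤ Y → Y ^ 42 = A → P = Y ^ 36 →
    16 * (Ct * CW) * 4 ^ M * 4 ^ 3 / (ε * c₀ ^ 2) *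
      (1 / Real.sqrt T + δW * (1 + Real.log (2 * P))) ≤ 1 →
    ∀ {W : Finset ℤ} {fc : MvPolynomial (Fin 3) ℤ} {S J : ℕ} {xc : Fin 3 → ℤ}
      {v : ℤ → Fin 3 → ℤ} {ξ : Fin 3 → ℝ} {i₀ : Fin 3} {ρ ρ' σ D₀ Δ₀ : ℝ},
    fc.IsHomogeneous (e + 2) →
    (∀ ω ∈ W, PData w (fc - MvPolynomial.C (ω ^ b)) S J xc (v ω)) → 0 < S → 0 < J →
    cW * X ≤ W.card → 0 < X → A * Y * P ^ (e + 2) ≤ X * P ^ 3 →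
    (∀ ω ∈ W, ∀ ω' ∈ W, ω ^ b = ω' ^ b → ω = ω') →
    (∀ D : ℕ, 0 < D → D ≤ N → (∀ q : ℕ, q.Prime → q ≤ w → ¬ q ∣ D) → ∀ lam : ℤ,
      IsCoprime lam (D : ℤ) →
      (cpt W b D ((lam ^ l) ^ b) : ℝ) ≤ (1 + τ) ^ 2 * (W.card : ℝ) ^ 2 / Real.sqrt D) →
    (∀ g : ℕ, 0 < g → ∀ lam : ℤ, IsCoprime lam (g : ℤ) →
      (cpt W b g ((lam ^ l) ^ b) : ℝ) ≤ CW * (W.card : ℝ) ^ 2 * (1 / Real.sqrt g + δW)) →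
    0 < ρ → ρ ≤ ρ' → ρ' ≤ 1 / 2 →
    (∀ i, |ξ i| ≤ 1) → (∃ r, ξ r = 1) → |σ| = 1 → 0 < D₀ →
    (∀ ω ∈ W, ∀ A₃ : ℝ, A₃ ≤ 2 * A → ∀ g ∈ formsZ (Fin 3) (e + 2) A₃,
      SlopeCond σ ((1 - τ) * D₀) ((1 + τ) * D₀) Δ₀ P ξ i₀ ρ ρ'
        (mem' (fc - MvPolynomial.C (ω ^ b)) S J g)) →
    ∀ {Δ Δ₁ X₁ X₂ R : ℝ}, Δ = δ * A * P ^ (e + 2) → ((S * J : ℕ) : ℝ) * Δ = Δ₁ →
    Δ₁ ≤ Δ₀ → X₁ = 2 * ρ * P / S → X₂ = 2 * Δ₁ / (D₀ * S) →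
    (K * N + N' : ℝ) ≤ τ * X₁ → 2 * (K * N + N' : ℝ) ≤ τ * X₂ →
    X₁ ^ (3 - 1) * X₂ = R → cR * P ^ 3 ≤ R →
    c₀ * P ^ (3 - 1) / (A * P ^ (e + 1)) ≤ R / (2 * Δ) →
    (((formsZ (Fin 3) (e + 2) A).filter (fun g =>
      ¬ PtIn W (fun ω => fc - MvPolynomial.C (ω ^ b)) S J (box P ξ i₀ ρ ρ' S xc) g)).card : ℝ) ≤
      ε * (formsZ (Fin 3) (e + 2) A).card

/-- **CT3, the class theorem for surfaces** (port of `t_CT`, file `CT.lean`). `(b - 1) l ≤ 2`. `τ` from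
`exists_tau 4` (`bfun 4 τ ≤ bfun 3 τ`). `w₀ = max 26 ⌈4 / τ²⌉`. `cW`, `h₀` from `S_WS3`;
`CW = 5 ^ 11 (2 Q₀)²` and `δW = 1 / √√|W|` by `S_CP2` (with `2 Q₀` for `CW`); `S_CP1` with
`κ = (|W| + 1) / D + 1 ≤ (1 + τ) |W| / D` as soon as `N + 1 ≤ τ |W|`; `u = (lam ^ l) ^ b`. `T` with
`32 Ct CW 4 ^ M 4 ^ 3 / (ε c₀²) ≤ √T`, and `δW (1 + log (2 P)) ≤ 40 Y / (√√cW Y ^ 9)` because
`|W| ≥ cW P`. `A = Y ^ 42 ≤ h ^ b ≤ h ^ 3` gives `h ≥ Y ^ 14`, `A Y ≤ h P`; `e + 2 = b l ≤ l + 2`. -/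
def S_CT3 : Prop :=
  CoreC3 → (∀ e b l : ℕ, e + 2 = b * l → ∃ Ct : ℝ, 0 < Ct ∧ SMT3 e b l Ct) →
    (∀ e, S_RC (Fin 3) e) → S_WS3 → S_CP1 → S_CP2 →
    ∀ e b l : ℕ, (b = 2 ∨ b = 3) → 1 ≤ l → e + 2 = b * l → (b - 1) * l ≤ 2 →
      S_CLASS (Fin 3) e b l

end Pool.Agent.H90Q
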