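import Pool.Agent.H90Q.Stm

/-!
# Project H90Q, piece WS (helper21): the sets `W`
-/

set_option autoImplicit false

namespace Pool.Agent.H90Q

theorem ws_pos (b : ℕ) (Q₀ : ℕ) (hQ₀ : 1 ≤ Q₀) (η s₀ δ : ℝ) (hδ : 0 < δ) (hδ1 : δ ≤ 1)
    (hδη : δ ≤ η) (hδb : δ * (b * (s₀ + 1) ^ (b - 1)) ≤ η)
    (X s : ℝ) (Q : ℕ) (ωc : ℤ) (hX : 2 * Q₀ / δ ≤ X) (hs : 0 ≤ s) (hss : s ≤ s₀) (hQ : 1 ≤ Q)
    (hQQ : Q ≤ Q₀) :
    ∃ W : Finset ℤ, (∀ ω ∈ W, (Q : ℤ) ∣ ω - ωc) ∧ (∀ ω ∈ W, 0 < ω) ∧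
      (∀ ω ∈ W, |(ω : ℝ) - X * s| ≤ η * X) ∧
      (∀ ω ∈ W, |(ω : ℝ) ^ b - (X * s) ^ b| ≤ η * X ^ b) ∧ δ / (2 * Q₀) * X ≤ W.card := by
  classical
  have hQ0r : (1 : ℝ) ≤ Q₀ := by exact_mod_cast hQ₀
  have hQr : (1 : ℝ) ≤ Q := by exact_mod_cast hQ
  have hQQr : (Q : ℝ) ≤ Q₀ := by exact_mod_cast hQQ
  have hQp : (0 : ℝ) < Q := by linarith
  have hX0 : 0 < X := lt_of_lt_of_le (by positivity) hX
  have hX1 : 2 * (Q₀ : ℝ) ≤ X * δ := by rwa [div_le_iff₀ hδ] at hX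
  set α : ℝ := (X * s - ωc) / Q with hα
  set β : ℝ := (X * (s + δ) - ωc) / Q with hβ
  let W : Finset ℤ := (Finset.Ioc ⌊α⌋ ⌊β⌋).image (fun j : ℤ => ωc + (Q : ℤ) * j)
  have hW : ∀ ω ∈ W, (Q : ℤ) ∣ ω - ωc ∧ X * s < ω ∧ (ω : ℝ) ≤ X * (s + δ) := by
    intro ω hω
    obtain ⟨j, hj, rfl⟩ := Finset.mem_image.1 hω
    rw [Finset.mem_Ioc] at hj
    have h1 : α < j := Int.floor_lt.1 hj.1
    have h2 : (j : ℝ) ≤ β := Int.le_floor.1 hj.2
    rw [hα, div_lt_iff₀ hQp] at h1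
    rw [hβ, le_div_iff₀ hQp] at h2
    refine ⟨⟨j, by ring⟩, ?_, ?_⟩
    · push_cast
      linarith
    · push_cast
      linarith
  have hab : ∀ ω ∈ W, |(ω : ℝ) - X * s| ≤ δ * X := by
    intro ω hω
    obtain ⟨-, h1, h2⟩ := hW ω hω
    rw [abs_of_pos (by linarith)]
    nlinarith
  refine ⟨W, fun ω hω => (hW ω hω).1, fun ω hω => ?_, fun ω hω => ?_, fun ω hω => ?_, ?_⟩
  · have h1 := (hW ω hω).2.1
    have h2 : (0 : ℝ) < ω := lt_of_le_of_lt (by positivity) h1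
    exact_mod_cast h2
  · exact (hab ω hω).trans (mul_le_mul_of_nonneg_right hδη hX0.le)
  · obtain ⟨-, h1, h2⟩ := hW ω hω
    have h3 := abs_pow_sub_pow_le (ω : ℝ) (X * s) b
    have hXs : 0 ≤ X * s := by positivity
    have h4 : max |(ω : ℝ)| |X * s| ≤ X * (s₀ + 1) := by
      rw [abs_of_nonneg hXs, abs_of_pos (lt_of_le_of_lt hXs h1)]
      refine max_le (h2.trans ?_) ?_
      · exact mul_le_mul_of_nonneg_left (by linarith) hX0.le
      · exact mul_le_mul_of_nonneg_left (by linarith) hX0.le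
    have h5 : max |(ω : ℝ)| |X * s| ^ (b - 1) ≤ (X * (s₀ + 1)) ^ (b - 1) :=
      pow_le_pow_left₀ (le_max_of_le_left (abs_nonneg _)) h4 _
    rcases Nat.eq_zero_or_pos b with hb | hb
    · subst hb
      simp only [pow_zero, sub_self, abs_zero, mul_one]
      linarith
    calc |(ω : ℝ) ^ b - (X * s) ^ b| ≤ |(ω : ℝ) - X * s| * b * max |(ω : ℝ)| |X * s| ^ (b - 1) := h3
      _ ≤ (δ * X) * b * (X * (s₀ + 1)) ^ (b - 1) := by
          refine mul_le_mul (mul_le_mul_of_nonneg_right (hab ω hω) (Nat.cast_nonneg _)) h5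
            (by positivity) (by positivity)
      _ = (δ * (b * (s₀ + 1) ^ (b - 1))) * (X * X ^ (b - 1)) := by
          rw [mul_pow]
          ring
      _ = (δ * (b * (s₀ + 1) ^ (b - 1))) * X ^ b := by
          rw [← pow_succ', Nat.sub_add_cancel hb]
      _ ≤ η * X ^ b := mul_le_mul_of_nonneg_right hδb (by positivity)
  · have hinj : Function.Injective (fun j : ℤ => ωc + (Q : ℤ) * j) := by
      intro i j hij
      have hQ0 : (Q : ℤ) ≠ 0 := by positivity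
      have h1 : (Q : ℤ) * i = Q * j := add_left_cancel hij
      exact mul_left_cancel₀ hQ0 h1
    rw [Finset.card_image_of_injective _ hinj, Int.card_Ioc]
    have h1 : ((⌊β⌋ - ⌊α⌋ : ℤ) : ℝ) ≤ ((⌊β⌋ - ⌊α⌋).toNat : ℝ) := by
      exact_mod_cast Int.self_le_toNat _
    refine le_trans ?_ h1
    push_cast
    have h2 := Int.sub_one_lt_floor β
    have h3 := Int.floor_le α
    have h4 : β - α = X * δ / Q := by
      rw [hα, hβ, ← sub_div]
      congr 1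
      ring
    have h5 : X * δ / Q₀ ≤ X * δ / Q := div_le_div_of_nonneg_left (by positivity) hQp hQQr
    have h6 : (2 : ℝ) ≤ X * δ / Q₀ := by
      rw [le_div_iff₀ (by linarith)]
      exact hX1
    have h7 : δ / (2 * Q₀) * X = (X * δ / Q₀) / 2 := by
      field_simp
    rw [h7]
    linarith

theorem t_WS : S_WS := by
  classical
  intro b hb Q₀ hQ₀ η s₀ hη hs₀
  have hQ0r : (1 : ℝ) ≤ Q₀ := by exact_mod_cast hQ₀
  have hb0 : (0 : ℝ) < b := by exact_mod_cast hb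
  have hc : 0 < (b : ℝ) * (s₀ + 1) ^ (b - 1) := by positivity
  set δ := min 1 (min η (η / (b * (s₀ + 1) ^ (b - 1)))) with hδd
  have hδ : 0 < δ := lt_min one_pos (lt_min hη (by positivity))
  have hδ1 : δ ≤ 1 := min_le_left _ _
  have hδη : δ ≤ η := (min_le_right _ _).trans (min_le_left _ _)
  have hδb : δ * (b * (s₀ + 1) ^ (b - 1)) ≤ η := by
    rw [← le_div_iff₀ hc]
    exact (min_le_right _ _).trans (min_le_right _ _)
  refine ⟨δ / (2 * Q₀), 2 * Q₀ / δ, by positivity, by positivity, ?_⟩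
  intro X s Q ωc hX hs hQ hQQ
  rcases le_total 0 s with h0 | h0
  · obtain ⟨W, h1, h2, h3⟩ := ws_pos b Q₀ hQ₀ η s₀ δ hδ hδ1 hδη hδb X s Q ωc hX h0
      (by rwa [abs_of_nonneg h0] at hs) hQ hQQ
    exact ⟨W, h1, Or.inl h2, h3⟩
  · obtain ⟨W, h1, h2, h3, h4, h5⟩ := ws_pos b Q₀ hQ₀ η s₀ δ hδ hδ1 hδη hδb X (-s) Q (-ωc)
      hX (by linarith) (by rwa [abs_of_nonpos h0] at hs) hQ hQQ
    refine ⟨W.image (fun ω => -ω), fun ω hω => ?_, Or.inr fun ω hω => ?_, fun ω hω => ?_,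
      fun ω hω => ?_, ?_⟩
    · obtain ⟨w, hw, rfl⟩ := Finset.mem_image.1 hω
      obtain ⟨k, hk⟩ := h1 w hw
      exact ⟨-k, by rw [mul_neg, ← hk]; ring⟩
    · obtain ⟨w, hw, rfl⟩ := Finset.mem_image.1 hω
      have := h2 w hw
      omega
    · obtain ⟨w, hw, rfl⟩ := Finset.mem_image.1 hω
      have := h3 w hw
      rw [← abs_neg]
      have e : -(((-w : ℤ) : ℝ) - X * s) = (w : ℝ) - X * (-s) := by
        push_cast
        ring
      rw [e]
      exact this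
    · obtain ⟨w, hw, rfl⟩ := Finset.mem_image.1 hω
      have h6 := h4 w hw
      have e : (((-w : ℤ) : ℝ)) ^ b - (X * s) ^ b = (-1) ^ b * ((w : ℝ) ^ b - (X * -s) ^ b) := by
        rw [mul_sub, ← mul_pow, ← mul_pow]
        push_cast
        congr 1
        · congr 1
          ring
        · congr 1
          ring
      rw [e, abs_mul, abs_pow, abs_neg, abs_one, one_pow, one_mul]
      exact h6
    · rw [Finset.card_image_of_injective _ neg_injective]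
      exact h5

end Pool.Agent.H90Q
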